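import Pool.Agent.FuS.Defs
import Pool.Agent.GcS.AnNilG

/-!
MP_7fa120_al, all subgroups. Real analysis: case (b). The same proof as `GcS/AnNilG.lean` (proved there; copy it), with any `e n ≤ n ^ (245/256)` instead of `EE (lf n) (La n) (BB n)`.
-/

set_option autoImplicit false

namespace Pool.Agent.FuS

open Equiv Pool.Agent.NilS Pool.Agent.SvS Pool.Agent.GcS Filter Topology

private theorem nil_f {y s L : ℝ} (hy : 100 ≤ y) (hL1 : 1 ≤ L) (hL2 : L ^ 2 ≤ y / 10 ^ 6)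
    (hs : y ^ 249 ≤ 24 * s * L) :
    y ^ 502 * L * 40000 ≤ s * y ^ 254 ∧ y * 10 ^ 6 ≤ y ^ 254 ∧ y ≤ s ∧ L ≤ y / 10 ^ 6 := by
  have hy0 : (0 : ℝ) < y := by linarith
  have hy1 : (1 : ℝ) ≤ y := by linarith
  have hL0 : 0 < L := by linarith
  have hLy : L ≤ y / 10 ^ 6 := by nlinarith
  have hs0 : 0 < s := by
    by_contra h
    push Not at h
    have h1 : 0 < y ^ 249 := by positivity
    have h2 : s * L ≤ 0 := mul_nonpos_of_nonpos_of_nonneg h hL0.le
    linarith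
  refine ⟨?_, ?_, ?_, hLy⟩
  · calc y ^ 502 * L * 40000 = y ^ 249 * (y ^ 253 * L * 40000) := by ring
      _ ≤ 24 * s * L * (y ^ 253 * L * 40000) := mul_le_mul_of_nonneg_right hs (by positivity)
      _ = 960000 * s * y ^ 253 * L ^ 2 := by ring
      _ ≤ 960000 * s * y ^ 253 * (y / 10 ^ 6) := mul_le_mul_of_nonneg_left hL2 (by positivity)
      _ = 96 / 100 * (s * y ^ 254) := by ring
      _ ≤ s * y ^ 254 := by
        have : 0 ≤ s * y ^ 254 := by positivity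
        linarith
  · calc y * 10 ^ 6 = y * 100 ^ 3 := by norm_num
      _ ≤ y * y ^ 3 := by gcongr
      _ ≤ y * y ^ 253 := by
        gcongr
        norm_num
      _ = y ^ 254 := by ring
  · have h1 : y ^ 249 ≤ s * y := by
      refine hs.trans ?_
      have h2 : 24 * s * L ≤ 24 * s * (y / 10 ^ 6) := mul_le_mul_of_nonneg_left hLy (by positivity)
      have h3 : 0 ≤ s * y := by positivity
      linarith
    have h2 : y * y ≤ y ^ 249 := by
      calc y * y = y ^ 2 := by ring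
        _ ≤ y ^ 249 := pow_le_pow_right₀ hy1 (by norm_num)
    exact le_of_mul_le_mul_right (h2.trans h1) hy0

private theorem nil_c1 {y s L : ℝ} (hy : 100 ≤ y) (hL1 : 1 ≤ L) (hL2 : L ^ 2 ≤ y / 10 ^ 6)
    (hs : y ^ 249 ≤ 24 * s * L) (hs2 : s ≤ y ^ 254 / 10) :
    3 * (y ^ 502 * L) + (5 * s * L + Real.log 2 / 17 * s ^ 2) + 2 * L ≤ s * y ^ 254 / 96 := by
  obtain ⟨f1, f2, f3, f4⟩ := nil_f hy hL1 hL2 hs
  have hy0 : (0 : ℝ) < y := by linarith
  have hs0 : (0 : ℝ) < s := by linarith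
  have hs1 : (1 : ℝ) ≤ s := by linarith
  have hl2 : Real.log 2 < 0.6932 := lt_trans Real.log_two_lt_d9 (by norm_num)
  have g2 : s * L ≤ s * y / 10 ^ 6 := by
    calc s * L ≤ s * (y / 10 ^ 6) := mul_le_mul_of_nonneg_left f4 hs0.le
      _ = s * y / 10 ^ 6 := by ring
  have g3 : s * y * 10 ^ 6 ≤ s * y ^ 254 := by
    calc s * y * 10 ^ 6 = s * (y * 10 ^ 6) := by ring
      _ ≤ s * y ^ 254 := mul_le_mul_of_nonneg_left f2 hs0.le
  have g4 : L ≤ s * L := le_mul_of_one_le_left (by linarith) hs1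
  have g5 : s ^ 2 ≤ s * y ^ 254 / 10 := by
    calc s ^ 2 = s * s := by ring
      _ ≤ s * (y ^ 254 / 10) := mul_le_mul_of_nonneg_left hs2 hs0.le
      _ = s * y ^ 254 / 10 := by ring
  have g6 : Real.log 2 / 17 * s ^ 2 ≤ 0.6932 / 17 * (s * y ^ 254 / 10) := by
    gcongr
  have g7 : 0 ≤ s * y ^ 254 := by positivity
  linarith

private theorem nil_c2 {y s L : ℝ} (hy : 100 ≤ y) (hL1 : 1 ≤ L) (hL2 : L ^ 2 ≤ y / 10 ^ 6)
    (hs : y ^ 249 ≤ 24 * s * L) (hs2 : y ^ 254 / 10 ≤ s) :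
    3 * (y ^ 502 * L) + (5 * s * L + Real.log 2 / 17 * s ^ 2) + 2 * L ≤
      Real.log 2 * (s ^ 2 / 16 - s) := by
  obtain ⟨f1, f2, f3, f4⟩ := nil_f hy hL1 hL2 hs
  have hy0 : (0 : ℝ) < y := by linarith
  have hs0 : (0 : ℝ) < s := by linarith
  have hs1 : (1 : ℝ) ≤ s := by linarith
  have hl2 : Real.log 2 < 0.6932 := lt_trans Real.log_two_lt_d9 (by norm_num)
  have hl1 : 0.6931 < Real.log 2 := lt_trans (by norm_num) Real.log_two_gt_d9
  have g2 : s * L ≤ s * y / 10 ^ 6 := by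
    calc s * L ≤ s * (y / 10 ^ 6) := mul_le_mul_of_nonneg_left f4 hs0.le
      _ = s * y / 10 ^ 6 := by ring
  have g3 : s * y * 10 ^ 6 ≤ s * y ^ 254 := by
    calc s * y * 10 ^ 6 = s * (y * 10 ^ 6) := by ring
      _ ≤ s * y ^ 254 := mul_le_mul_of_nonneg_left f2 hs0.le
  have g4 : L ≤ s * L := le_mul_of_one_le_left (by linarith) hs1
  have g5 : s * y ^ 254 / 10 ≤ s ^ 2 := by
    calc s * y ^ 254 / 10 = s * (y ^ 254 / 10) := by ring
      _ ≤ s * s := mul_le_mul_of_nonneg_left hs2 hs0.le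
      _ = s ^ 2 := by ring
  have g6 : 0.6931 / 272 * s ^ 2 ≤ Real.log 2 / 272 * s ^ 2 := by
    gcongr
  have g7 : Real.log 2 * s ≤ s := by
    calc Real.log 2 * s ≤ 1 * s := mul_le_mul_of_nonneg_right (by linarith) hs0.le
      _ = s := one_mul s
  have g8 : s ≤ s * y := le_mul_of_one_le_right hs0.le (by linarith)
  have g10 : 0 ≤ s * y := by positivity
  have g9 : Real.log 2 * (s ^ 2 / 16 - s) = Real.log 2 / 17 * s ^ 2 + Real.log 2 / 272 * s ^ 2 -
      Real.log 2 * s := by ring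
  rw [g9]
  linarith

private theorem nil_low_aux (s : ℕ) : s ^ 2 ≤ 16 * ((s / 2 / 2) * (s / 2 - s / 2 / 2)) + 16 * s := by
  obtain ⟨k, r, hr, hs⟩ : ∃ k r, r < 4 ∧ s = 4 * k + r :=
    ⟨s / 4, s % 4, Nat.mod_lt _ (by norm_num), (Nat.div_add_mod s 4).symm⟩
  subst hs
  have h1 : (4 * k + r) / 2 / 2 = k := by omega
  have h2 : k ≤ (4 * k + r) / 2 - k := by omega
  rw [h1]
  have h3 : k * k ≤ k * ((4 * k + r) / 2 - k) := Nat.mul_le_mul_left k h2
  have h4 : (4 * k + r) ^ 2 ≤ 16 * (k * k) + 16 * (4 * k + r) := by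
    interval_cases r <;> nlinarith
  omega

private theorem nil_low (s : ℕ) : Real.exp (Real.log 2 * ((s : ℝ) ^ 2 / 16 - s)) ≤ nTwo s := by
  have h1 : ((2 : ℝ) ^ ((s / 2 / 2) * (s / 2 - s / 2 / 2)) : ℝ) ≤ nTwo s := by
    exact_mod_cast nTwo_lower s
  refine le_trans ?_ h1
  have h2 : ((2 : ℝ) ^ ((s / 2 / 2) * (s / 2 - s / 2 / 2)) : ℝ) =
      Real.exp (Real.log 2 * (((s / 2 / 2) * (s / 2 - s / 2 / 2) : ℕ) : ℝ)) := by
    rw [mul_comm (Real.log 2), ← Real.log_pow, Real.exp_log (by positivity)]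
  rw [h2, Real.exp_le_exp]
  refine mul_le_mul_of_nonneg_left ?_ (Real.log_nonneg (by norm_num))
  have h3 : ((s : ℝ) ^ 2) ≤ 16 * (((s / 2 / 2) * (s / 2 - s / 2 / 2) : ℕ) : ℝ) + 16 * s := by
    exact_mod_cast nil_low_aux s
  linarith

/-- The logarithm of `n !`. -/
private theorem nil_fac {n : ℕ} (hn : 1 ≤ n) : Real.log (n.factorial : ℝ) ≤ n * Real.log n := by
  have h1 : (n.factorial : ℝ) ≤ (n : ℝ) ^ n := by exact_mod_cast Nat.factorial_le_pow n
  have h2 := Real.log_le_log (by exact_mod_cast Nat.factorial_pos n) h1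
  rwa [Real.log_pow] at h2

private theorem nil_log2 {m : ℕ} (hm : 1 ≤ m) : (Nat.log 2 m : ℝ) ≤ 2 * Real.log m := by
  have h7 : ((2 : ℝ) ^ (Nat.log 2 m)) ≤ m := by exact_mod_cast Nat.pow_log_le_self 2 (by omega)
  have h8 : (Nat.log 2 m : ℝ) * Real.log 2 ≤ Real.log m := by
    rw [← Real.log_pow]
    exact Real.log_le_log (by positivity) h7
  have hl1 : 0.6931 < Real.log 2 := lt_trans (by norm_num) Real.log_two_gt_d9
  have h9 : (0 : ℝ) ≤ Nat.log 2 m := Nat.cast_nonneg _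
  nlinarith

/-- The number of generators. -/
private theorem nil_K {n E : ℕ} {y : ℝ} (hy : 100 ≤ y) (hn : y ^ 256 = n)
    (h246 : (n : ℝ) ^ (246 / 256 : ℝ) = y ^ 246) (hE : (E : ℝ) ≤ y ^ 245) (hL1 : 1 ≤ Real.log n)
    (hL2 : Real.log n ^ 2 ≤ y / 10 ^ 6) :
    ((kA n + E + tg (lf n) (kA n) + 1 : ℕ) : ℝ) ≤ 3 * y ^ 246 := by
  have hy0 : (0 : ℝ) < y := by linarith
  have hy1 : (1 : ℝ) ≤ y := by linarith
  have hLy : Real.log n ≤ y / 10 ^ 6 := by nlinarith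
  have hny : y ≤ n := by
    rw [← hn]
    exact le_self_pow₀ hy1 (by norm_num)
  have hn1 : 1 ≤ n := by
    have h : (1 : ℝ) ≤ n := by linarith
    exact_mod_cast h
  have hb : (lf n : ℝ) ≤ 2 * (y ^ 256 * Real.log n) := by
    refine (nil_log2 (Nat.factorial_pos n)).trans ?_
    have h1 := nil_fac hn1
    rw [hn]
    linarith
  -- kA
  have hk1 : (kA n : ℝ) ≤ y ^ 246 := by
    rw [kA, ← h246]
    exact Nat.floor_le (by positivity)
  have hk2 : y ^ 246 < (kA n : ℝ) + 1 := by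
    rw [kA, ← h246]
    exact Nat.lt_floor_add_one _
  have h100 : (100 : ℝ) ≤ y ^ 246 := hy.trans (le_self_pow₀ hy1 (by norm_num))
  have hEE : (E : ℝ) ≤ y ^ 246 / 2 := by
    have h1 : y ^ 245 * 100 ≤ y ^ 245 * y := mul_le_mul_of_nonneg_left hy (by positivity)
    have h2 : y ^ 245 * y = y ^ 246 := (pow_succ y 245).symm
    have h3 : 0 ≤ y ^ 245 := by positivity
    rw [h2] at h1
    linarith
  have htg : (tg (lf n) (kA n) : ℝ) ≤ y ^ 246 / 2 := by
    unfold tg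
    refine (Nat.cast_div_le (α := ℝ)).trans ?_
    have h2 : kA n ≤ 2 * (kA n / 2 - 1) + 3 := by omega
    have h3 : (kA n : ℝ) ≤ 2 * ((kA n / 2 - 1 : ℕ) : ℝ) + 3 := by exact_mod_cast h2
    have h4 : y ^ 246 / 4 ≤ ((kA n / 2 - 1 : ℕ) : ℝ) := by linarith
    have h5 : (0 : ℝ) < ((kA n / 2 - 1 : ℕ) : ℝ) := lt_of_lt_of_le (by positivity) h4
    rw [div_le_iff₀ h5]
    calc (lf n : ℝ) ≤ 2 * (y ^ 256 * Real.log n) := hb
      _ ≤ 2 * (y ^ 256 * (y / 10 ^ 6)) := by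
        have := mul_le_mul_of_nonneg_left hLy (by positivity : (0 : ℝ) ≤ y ^ 256)
        linarith
      _ = 2 / 10 ^ 6 * y ^ 257 := by ring
      _ ≤ 1 / 8 * y ^ 492 := by
        have h6 : y ^ 257 ≤ y ^ 492 := pow_le_pow_right₀ hy1 (by norm_num)
        have h7 : 0 ≤ y ^ 492 := by positivity
        linarith
      _ = y ^ 246 / 2 * (y ^ 246 / 4) := by ring
      _ ≤ y ^ 246 / 2 * ((kA n / 2 - 1 : ℕ) : ℝ) := mul_le_mul_of_nonneg_left h4 (by positivity)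
  push_cast
  linarith

/-- The index set. -/
private theorem nil_s {n s : ℕ} {y : ℝ} (hy : 100 ≤ y) (hn1 : 1 ≤ n)
    (h249 : (n : ℝ) ^ (249 / 256 : ℝ) = y ^ 249) (hL1 : 1 ≤ Real.log n)
    (hs : kB n / 2 ≤ 2 * s * (Nat.log 2 n + 1)) : y ^ 249 ≤ 24 * s * Real.log n := by
  have hy0 : (0 : ℝ) < y := by linarith
  have hy1 : (1 : ℝ) ≤ y := by linarith
  have hk2 : y ^ 249 < (kB n : ℝ) + 1 := by
    rw [kB, ← h249]
    exact Nat.lt_floor_add_one _
  have h1 : (kB n : ℝ) ≤ 4 * s * ((Nat.log 2 n : ℝ) + 1) + 1 := by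
    have h : kB n ≤ 4 * s * (Nat.log 2 n + 1) + 1 := by
      have h0 : 4 * s * (Nat.log 2 n + 1) = 2 * (2 * s * (Nat.log 2 n + 1)) := by ring
      omega
    exact_mod_cast h
  have h2 := nil_log2 hn1
  have hs0 : (0 : ℝ) ≤ s := Nat.cast_nonneg s
  have h3 : 4 * (s : ℝ) * ((Nat.log 2 n : ℝ) + 1) ≤ 4 * s * (3 * Real.log n) := by
    refine mul_le_mul_of_nonneg_left ?_ (by positivity)
    linarith
  have h4 : (4 : ℝ) ≤ y ^ 249 := by
    have : y ≤ y ^ 249 := le_self_pow₀ hy1 (by norm_num)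
    linarith
  linarith

/-- The bound for one term. -/
private theorem nil_term {n s E : ℕ} {y : ℝ} (hy : 100 ≤ y) (hn : y ^ 256 = n)
    (h246 : (n : ℝ) ^ (246 / 256 : ℝ) = y ^ 246) (hE : (E : ℝ) ≤ y ^ 245) (h249 : (n : ℝ) ^ (249 / 256 : ℝ) = y ^ 249)
    (h254 : (n : ℝ) ^ (127 / 128 : ℝ) = y ^ 254) (hL1 : 1 ≤ Real.log n)
    (hL2 : Real.log n ^ 2 ≤ y / 10 ^ 6)
    (hg : ∀ k : ℕ, 2 ≤ k → k ≤ n →
      (nTwo (n - k) : ℝ) * Real.exp (k * (n : ℝ) ^ (127 / 128 : ℝ) / 96) ≤ (nTwo n : ℝ))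
    (hO : ∀ m : ℕ, y ≤ m → (nOdn m : ℝ) ≤ Real.exp (Real.log 2 / 17 * (m : ℝ) ^ 2))
    (hs2 : 2 ≤ s) (hsn : s ≤ n) (hs : kB n / 2 ≤ 2 * s * (Nat.log 2 n + 1)) :
    ((n.factorial ^ (kA n + E + tg (lf n) (kA n) + 1) *
      (n ^ (5 * s) * nTwo (n - s) * nOdn s) : ℕ) : ℝ) ≤ (nTwo n : ℝ) * Real.exp (-(2 * Real.log n)) := by
  have hy0 : (0 : ℝ) < y := by linarith
  have hy1 : (1 : ℝ) ≤ y := by linarith
  have hn1 : 1 ≤ n := by omega
  have hnr : (1 : ℝ) ≤ n := by exact_mod_cast hn1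
  have hL0 : 0 ≤ Real.log n := Real.log_nonneg hnr
  have hsy := nil_s hy hn1 h249 hL1 hs
  have hK := nil_K hy hn h246 hE hL1 hL2
  have hOs := hO s (nil_f hy hL1 hL2 hsy).2.2.1
  -- the factorial
  have hfac : ((n.factorial : ℝ)) ^ (kA n + E + tg (lf n) (kA n) + 1) ≤
      Real.exp (3 * (y ^ 502 * Real.log n)) := by
    have h1 : (0 : ℝ) < n.factorial := by exact_mod_cast Nat.factorial_pos n
    rw [← Real.exp_log (pow_pos h1 _), Real.log_pow, Real.exp_le_exp]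
    calc ((kA n + E + tg (lf n) (kA n) + 1 : ℕ) : ℝ) * Real.log (n.factorial : ℝ)
        ≤ 3 * y ^ 246 * (n * Real.log n) := by
          refine mul_le_mul hK (nil_fac hn1) ?_ (by positivity)
          exact Real.log_nonneg (by exact_mod_cast Nat.factorial_pos n)
      _ = 3 * (y ^ 502 * Real.log n) := by
        rw [← hn]
        ring
  have hpow : ((n : ℝ) ^ (5 * s)) = Real.exp (5 * s * Real.log n) := by
    have h1 : (5 * s * Real.log n : ℝ) = ((5 * s : ℕ) : ℝ) * Real.log n := by push_cast; ring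
    rw [h1, ← Real.log_pow, Real.exp_log (by positivity)]
  -- the number of 2-groups
  have hT : ∃ x : ℝ, (nTwo (n - s) : ℝ) * Real.exp x ≤ nTwo n ∧
      3 * (y ^ 502 * Real.log n) + (5 * s * Real.log n + Real.log 2 / 17 * (s : ℝ) ^ 2) +
        2 * Real.log n ≤ x := by
    rcases le_total (s : ℝ) (y ^ 254 / 10) with h | h
    · refine ⟨_, hg s hs2 hsn, ?_⟩
      rw [h254]
      exact nil_c1 hy hL1 hL2 hsy h
    · refine ⟨Real.log 2 * ((s : ℝ) ^ 2 / 16 - s), ?_, nil_c2 hy hL1 hL2 hsy h⟩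
      refine (mul_le_mul_of_nonneg_left (nil_low s) (Nat.cast_nonneg _)).trans ?_
      have h1 := nTwo_mul (n - s) s
      rw [Nat.sub_add_cancel hsn] at h1
      exact_mod_cast h1
  obtain ⟨x, hE1, hE2⟩ := hT
  push_cast
  rw [hpow]
  calc (n.factorial : ℝ) ^ (kA n + E + tg (lf n) (kA n) + 1) *
        (Real.exp (5 * s * Real.log n) * nTwo (n - s) * nOdn s)
      ≤ Real.exp (3 * (y ^ 502 * Real.log n)) *
        (Real.exp (5 * s * Real.log n) * nTwo (n - s) * Real.exp (Real.log 2 / 17 * (s : ℝ) ^ 2)) := by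
        gcongr
    _ = nTwo (n - s) * Real.exp (3 * (y ^ 502 * Real.log n) + (5 * s * Real.log n +
        Real.log 2 / 17 * (s : ℝ) ^ 2)) := by
      rw [Real.exp_add, Real.exp_add]
      ring
    _ ≤ nTwo (n - s) * Real.exp (x + -(2 * Real.log n)) :=
      mul_le_mul_of_nonneg_left (Real.exp_le_exp.2 (by linarith)) (Nat.cast_nonneg _)
    _ = nTwo (n - s) * Real.exp x * Real.exp (-(2 * Real.log n)) := by
      rw [Real.exp_add]
      ring
    _ ≤ nTwo n * Real.exp (-(2 * Real.log n)) := by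
      gcongr

theorem an_nilF (e : ℕ → ℕ) (he : ∀ᶠ n : ℕ in atTop, (e n : ℝ) ≤ (n : ℝ) ^ (245 / 256 : ℝ)) :
    Tendsto (fun n : ℕ => ((n.factorial ^ (kA n + e n + tg (lf n) (kA n) + 1) *
      ∑ s ∈ (Finset.Icc 2 n).filter (fun s => kB n / 2 ≤ 2 * s * (Nat.log 2 n + 1)), n ^ (5 * s) * nTwo (n - s) * nOdn s : ℕ) : ℝ) /
      nTwo n) atTop (𝓝 0) := by
  obtain ⟨n₀, hg⟩ := grow_all
  obtain ⟨m₁, hO⟩ := odn_bound
  have hNpos : ∀ n, (0 : ℝ) < nTwo n := fun n => by exact_mod_cast one_le_nTwo n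
  have hy : ∀ᶠ n : ℕ in atTop, max 100 (m₁ : ℝ) ≤ (n : ℝ) ^ (1 / 256 : ℝ) :=
    ((tendsto_rpow_atTop (show (0 : ℝ) < 1 / 256 by norm_num)).comp
      (tendsto_natCast_atTop_atTop (R := ℝ))).eventually_ge_atTop _
  have hL := tendsto_natCast_atTop_atTop (R := ℝ) |>.eventually
    ((isLittleO_log_rpow_atTop (show (0 : ℝ) < 1 / 512 by norm_num)).bound
      (show (0 : ℝ) < 1 / 1000 by norm_num))
  refine squeeze_zero' (g := fun n : ℕ => 1 / (n : ℝ)) ?_ ?_ tendsto_one_div_atTop_nhds_zero_nat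
  · exact Filter.Eventually.of_forall fun n => div_nonneg (Nat.cast_nonneg _) (hNpos n).le
  · filter_upwards [eventually_ge_atTop (max n₀ 3), hy, hL, he] with n hn hyn hLn hen
    rw [max_le_iff] at hn hyn
    have hn3 : (3 : ℝ) ≤ n := by exact_mod_cast hn.2
    have hn1 : (1 : ℝ) ≤ n := by linarith
    have hn0 : (0 : ℝ) ≤ n := by linarith
    have hL1 : 1 ≤ Real.log n := by
      rw [Real.le_log_iff_exp_le (by linarith)]
      exact le_trans (le_of_lt (lt_trans Real.exp_one_lt_d9 (by norm_num))) hn3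
    obtain ⟨y, hyd⟩ : ∃ y, y = (n : ℝ) ^ (1 / 256 : ℝ) := ⟨_, rfl⟩
    rw [← hyd] at hyn
    have hL2 : Real.log n ^ 2 ≤ y / 10 ^ 6 := by
      rw [Real.norm_of_nonneg (Real.log_nonneg hn1), Real.norm_of_nonneg (by positivity)] at hLn
      have h1 : Real.log n ^ 2 ≤ (1 / 1000 * (n : ℝ) ^ (1 / 512 : ℝ)) ^ 2 :=
        pow_le_pow_left₀ (by linarith) hLn 2
      have h2 : ((n : ℝ) ^ (1 / 512 : ℝ)) ^ 2 = y := by
        rw [hyd, ← Real.rpow_natCast, ← Real.rpow_mul hn0]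
        norm_num
      rw [mul_pow, h2] at h1
      refine h1.trans (le_of_eq ?_)
      ring
    have hpw : ∀ j : ℕ, (n : ℝ) ^ ((j : ℝ) / 256) = y ^ j := by
      intro j
      rw [hyd, ← Real.rpow_natCast, ← Real.rpow_mul hn0]
      congr 1
      ring
    have h256 : y ^ 256 = n := by
      rw [← hpw 256]
      norm_num
    have h246 : (n : ℝ) ^ (246 / 256 : ℝ) = y ^ 246 := by
      rw [← hpw 246]
      norm_num
    have h245 : (n : ℝ) ^ (245 / 256 : ℝ) = y ^ 245 := by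
      rw [← hpw 245]
      norm_num
    rw [h245] at hen
    have h249 : (n : ℝ) ^ (249 / 256 : ℝ) = y ^ 249 := by
      rw [← hpw 249]
      norm_num
    have h254 : (n : ℝ) ^ (127 / 128 : ℝ) = y ^ 254 := by
      rw [← hpw 254]
      norm_num
    rw [div_le_iff₀ (hNpos n), Finset.mul_sum, Nat.cast_sum]
    have hterm : ∀ s ∈ (Finset.Icc 2 n).filter (fun s => kB n / 2 ≤ 2 * s * (Nat.log 2 n + 1)),
        ((n.factorial ^ (kA n + e n + tg (lf n) (kA n) + 1) *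
          (n ^ (5 * s) * nTwo (n - s) * nOdn s) : ℕ) : ℝ) ≤
          (nTwo n : ℝ) * Real.exp (-(2 * Real.log n)) := by
      intro s hs
      rw [Finset.mem_filter, Finset.mem_Icc] at hs
      refine nil_term hyn.1 h256 h246 hen h249 h254 hL1 hL2 (hg n hn.1) ?_ hs.1.1
        hs.1.2 hs.2
      intro m hm
      exact hO m (by exact_mod_cast hyn.2.trans hm)
    refine (Finset.sum_le_sum hterm).trans ?_
    rw [Finset.sum_const, nsmul_eq_mul]
    have hcard : (((Finset.Icc 2 n).filter (fun s => kB n / 2 ≤ 2 * s * (Nat.log 2 n + 1))).card : ℝ) ≤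
        n := by
      have h3 : ((Finset.Icc 2 n).filter (fun s => kB n / 2 ≤ 2 * s * (Nat.log 2 n + 1))).card ≤ n := by
        refine (Finset.card_filter_le _ _).trans ?_
        rw [Nat.card_Icc]
        omega
      exact_mod_cast h3
    have hexp : Real.exp (-(2 * Real.log n)) = 1 / (n : ℝ) ^ 2 := by
      rw [Real.exp_neg, mul_comm, Real.exp_mul, Real.exp_log (by linarith)]
      norm_num
    rw [hexp]
    calc (((Finset.Icc 2 n).filter (fun s => kB n / 2 ≤ 2 * s * (Nat.log 2 n + 1))).card : ℝ) *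
          ((nTwo n : ℝ) * (1 / (n : ℝ) ^ 2))
        ≤ n * ((nTwo n : ℝ) * (1 / (n : ℝ) ^ 2)) := mul_le_mul_of_nonneg_right hcard (by positivity)
      _ = 1 / (n : ℝ) * nTwo n := by
        field_simp

end Pool.Agent.FuS
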