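import Pool.Agent.FuS.ChPrim

/-!
MP_7fa120_al, all subgroups. Bad factors of permutation groups.

Proof, by strong induction on `|G|`. Let `n = |Ω|`, `o` the number of orbits. If `G` is trivial, `W = 1` (`ch_one`). Otherwise `G` acts faithfully, so there is an orbit `Ω₁` with `n₁ ≥ 2` points; let `f : G →* Perm Ω₁`, `N = f.ker ≠ ⊤`.
(1) `N ≠ ⊥`. `ch_split`: `W = W₁ W₂`. `W₁` belongs to a chain in `N` (`ch_sub`, chain from `(X ⊓ N)` to `N`, in the group `↥N` to `⊤`), and `N` acts faithfully on `Ω₂ = Ω \ Ω₁` with at least `o - 1` orbits, so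
`W₁ ^ q ≤ 4 ^ ((n - n₁) - (o - 1))` by induction. `W₂` belongs to a chain in the group `f.range`, which is transitive on `Ω₁` and smaller than `G`: `W₂ ^ q ≤ 4 ^ (n₁ - 1)`. Together `4 ^ (n - o)`.
(2) `N = ⊥`: `G` acts faithfully on `Ω₁`, transitively. Let `x ∈ Ω₁`, `M` a maximal subgroup of `G` containing `G_x ≠ G`, `Σ = G ⧸ M`, `k = |Σ| ≥ 2`, `f' : G →* Perm Σ`, `N' = f'.ker ≠ ⊤` (`G` is transitive on `Σ`). `f'.range`
is primitive (point stabiliser `M` maximal). `W = W₁ W₂`; `W₂ ^ q ≤ 2 ^ k ≤ 4 ^ (k - 1)` by `ch_prim`; `N'` is smaller than `G`, faithful on `Ω₁`, with at least `k` orbits (it fixes all points of `Σ`, and `Ω₁` is mapped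
onto `Σ` compatibly with `G`): `W₁ ^ q ≤ 4 ^ (n₁ - k)`. Together `4 ^ (n₁ - 1)`, and `n₁ - 1 ≤ n - o`, as the other `o - 1` orbits have at least one point each.
`lc_of_pb`: `W ≥ 2 ^ (c + 1)` with `c = 2 n / q` would give `2 ^ (q (c + 1)) ≤ W ^ q ≤ 4 ^ n`, `q (c + 1) ≤ 2 n`, a contradiction.
-/

set_option autoImplicit false

namespace Pool.Agent.FuS

open Equiv

/-- The induction, for an invariant map onto a set `I`. -/
private theorem cp_main {B q : ℕ} (hP : Pb B q) (hB : 5 ≤ B) (m : ℕ) : ∀ (G : Type) [Group G] [Finite G] (Ω I : Type) [Finite Ω]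
    [MulAction G Ω] (_ : ∀ g : G, (∀ x : Ω, g • x = x) → g = 1) (π : Ω → I) (_ : Function.Surjective π)
    (_ : ∀ (g : G) (x : Ω), π (g • x) = π x) (X : Subgroup G) (W : ℕ), Nat.card G < m → Ch B X ⊤ W →
    W ^ q ≤ 4 ^ (Nat.card Ω - Nat.card I) := by
  induction m with
  | zero =>
    intro G _ _ Ω I _ _ _ _ _ _ _ _ hm
    omega
  | succ m ih =>
    intro G _ _ Ω I _ _ hfaith π hπ hinv X W hm hc
    classical
    by_cases hall : ∀ (g : G) (x : Ω), g • x = x
    · have h1 : Nat.card (⊤ : Subgroup G) ≤ 2 ^ B := by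
        have h2 : Subsingleton G := ⟨fun a b => (hfaith a (hall a)).trans (hfaith b (hall b)).symm⟩
        have h3 : Nat.card (⊤ : Subgroup G) = 1 := by
          rw [Subgroup.card_top]
          exact Nat.card_unique
        rw [h3]
        exact Nat.one_le_two_pow
      rw [ch_one hc h1, one_pow]
      exact Nat.one_le_pow _ _ (by norm_num)
    push Not at hall
    obtain ⟨g₀, x₀, hg₀⟩ := hall
    obtain h0 | ⟨M, hM, hxM⟩ := eq_top_or_exists_le_coatom (MulAction.stabilizer G x₀)
    · have h1 : g₀ ∈ MulAction.stabilizer G x₀ := by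
        rw [h0]
        exact Subgroup.mem_top _
      exact absurd h1 hg₀
    have hMt : M ≠ ⊤ := hM.1
    have hk2 : 2 ≤ Nat.card (G ⧸ M) := by
      have h1 : M.index ≠ 1 := fun h => hMt (Subgroup.index_eq_one.1 h)
      have h2 : M.index ≠ 0 := Subgroup.index_ne_zero_of_finite
      have h3 : Nat.card (G ⧸ M) = M.index := rfl
      omega
    let _ : Fintype (G ⧸ M) := Fintype.ofFinite _
    have hnt : Nontrivial (G ⧸ M) := by
      rw [← Finite.one_lt_card_iff_nontrivial]
      exact hk2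
    -- the action on `G ⧸ M` is primitive
    have hprim : MulAction.IsPreprimitive G (G ⧸ M) := by
      rw [← MulAction.isCoatom_stabilizer_iff_preprimitive G ((1 : G) : G ⧸ M), MulAction.stabilizer_quotient]
      exact hM
    set f : G →* Perm (G ⧸ M) := MulAction.toPermHom G (G ⧸ M) with hf
    have hprimZ : MulAction.IsPreprimitive ((⊤ : Subgroup G).map f) (G ⧸ M) := by
      let φ : G → (⊤ : Subgroup G).map f := fun g => ⟨f g, g, Subgroup.mem_top g, rfl⟩
      let F : (G ⧸ M) →ₑ[φ] (G ⧸ M) := ⟨id, fun g x => rfl⟩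
      exact MulAction.IsPreprimitive.of_surjective (f := F) Function.surjective_id
    obtain ⟨W₁, W₂, hW, hc₁, hc₂⟩ := ch_split hc f
    have h2 : W₂ ^ q ≤ 2 ^ Fintype.card (G ⧸ M) := ch_prim hP hB _ hprimZ _ _ hc₂
    rw [← Nat.card_eq_fintype_card] at h2
    -- the kernel
    have hker : ∀ n : G, n ∈ f.ker → ∀ σ : G ⧸ M, n • σ = σ := by
      intro n hn σ
      have h3 : f n = 1 := hn
      have h4 := congrArg (fun τ : Perm (G ⧸ M) => τ σ) h3
      exact h4
    have hkt : f.ker ≠ ⊤ := by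
      intro h
      obtain ⟨a, b, hab⟩ := hnt.exists_pair_ne
      obtain ⟨g, hg⟩ := MulAction.exists_smul_eq G a b
      have h3 : g ∈ f.ker := by
        rw [h]
        exact Subgroup.mem_top g
      exact hab ((hker g h3 a).symm.trans hg)
    have hcard : Nat.card f.ker < m := by
      have h3 : Nat.card f.ker ≤ Nat.card G := Subgroup.card_le_card_group _
      have h4 : Nat.card f.ker ≠ Nat.card G := fun h => hkt (Subgroup.eq_top_of_card_eq _ h)
      omega
    have hc₃ : Ch B ((X ⊓ f.ker).subgroupOf f.ker) ⊤ W₁ := by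
      have h3 := ch_sub hc₁ f.ker inf_le_right
      rw [top_inf_eq, Subgroup.subgroupOf_self] at h3
      exact h3
    -- the invariant map for the kernel
    let π₁ : Ω → (G ⧸ M) ⊕ I := fun x =>
      if h : ∃ g : G, g • x₀ = x then Sum.inl (QuotientGroup.mk h.choose) else Sum.inr (π x)
    have hπ₁ : ∀ g : G, π₁ (g • x₀) = Sum.inl (QuotientGroup.mk g) := by
      intro g
      have hex : ∃ g' : G, g' • x₀ = g • x₀ := ⟨g, rfl⟩
      have h3 : π₁ (g • x₀) = Sum.inl (QuotientGroup.mk hex.choose) := dif_pos hex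
      rw [h3]
      congr 1
      refine QuotientGroup.eq.2 (hxM ?_)
      have h4 := hex.choose_spec
      change (hex.choose⁻¹ * g) • x₀ = x₀
      rw [mul_smul]
      exact inv_smul_eq_iff.2 h4.symm
    have hπ₂ : ∀ x : Ω, (¬ ∃ g : G, g • x₀ = x) → π₁ x = Sum.inr (π x) := fun x hx => dif_neg hx
    let I₁ : Type := Set.range π₁
    let π₃ : Ω → I₁ := fun x => ⟨π₁ x, x, rfl⟩
    have hsur : Function.Surjective π₃ := by
      rintro ⟨_, x, rfl⟩
      exact ⟨x, rfl⟩
    have hinv₃ : ∀ (n : f.ker) (x : Ω), π₃ (n • x) = π₃ x := by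
      intro n x
      refine Subtype.ext ?_
      change π₁ ((n : G) • x) = π₁ x
      by_cases hx : ∃ g : G, g • x₀ = x
      · obtain ⟨g, rfl⟩ := hx
        rw [← mul_smul, hπ₁, hπ₁]
        congr 1
        exact hker n n.2 (QuotientGroup.mk g)
      · have hx' : ¬ ∃ g : G, g • x₀ = (n : G) • x := by
          rintro ⟨g, hg⟩
          exact hx ⟨(n : G)⁻¹ * g, by rw [mul_smul, hg, inv_smul_smul]⟩
        rw [hπ₂ x hx, hπ₂ _ hx', hinv]
    have h1 := ih f.ker Ω I₁ (fun g hg => Subtype.ext (hfaith g hg)) π₃ hsur hinv₃ _ W₁ hcard hc₃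
    have hfI : Finite I := Finite.of_surjective π hπ
    -- the number of elements of `I₁`
    have hI₁ : Nat.card (G ⧸ M) + Nat.card I ≤ Nat.card I₁ + 1 := by
      let e : (G ⧸ M) ⊕ I → Option I₁ := fun z => Sum.elim
        (fun σ => if h : ∃ x, π₁ x = Sum.inl σ then some ⟨Sum.inl σ, h⟩ else none)
        (fun i => if h : ∃ x, π₁ x = Sum.inr i then some ⟨Sum.inr i, h⟩ else none) z
      have hinl : ∀ σ : G ⧸ M, ∃ x, π₁ x = Sum.inl σ := by
        intro σ
        obtain ⟨g, rfl⟩ := QuotientGroup.mk_surjective σ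
        exact ⟨g • x₀, hπ₁ g⟩
      have hinr : ∀ i : I, (¬ ∃ x, π₁ x = Sum.inr i) → i = π x₀ := by
        intro i hi
        obtain ⟨x, rfl⟩ := hπ i
        by_contra hne
        refine hi ⟨x, hπ₂ x ?_⟩
        rintro ⟨g, rfl⟩
        exact hne (hinv g x₀)
      have he : Function.Injective e := by
        rintro (σ | i) (τ | j) h
        · have h3 : e (Sum.inl σ) = some ⟨Sum.inl σ, hinl σ⟩ := dif_pos (hinl σ)
          have h4 : e (Sum.inl τ) = some ⟨Sum.inl τ, hinl τ⟩ := dif_pos (hinl τ)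
          rw [h3, h4] at h
          exact congrArg Subtype.val (Option.some_injective _ h)
        · exfalso
          have h3 : e (Sum.inl σ) = some ⟨Sum.inl σ, hinl σ⟩ := dif_pos (hinl σ)
          rw [h3] at h
          by_cases hj : ∃ x, π₁ x = Sum.inr j
          · have h4 : e (Sum.inr j) = some ⟨Sum.inr j, hj⟩ := dif_pos hj
            rw [h4] at h
            have h5 := congrArg Subtype.val (Option.some_injective _ h)
            simp at h5
          · have h4 : e (Sum.inr j) = none := dif_neg hj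
            rw [h4] at h
            simp at h
        · exfalso
          have h3 : e (Sum.inl τ) = some ⟨Sum.inl τ, hinl τ⟩ := dif_pos (hinl τ)
          rw [h3] at h
          by_cases hj : ∃ x, π₁ x = Sum.inr i
          · have h4 : e (Sum.inr i) = some ⟨Sum.inr i, hj⟩ := dif_pos hj
            rw [h4] at h
            have h5 := congrArg Subtype.val (Option.some_injective _ h)
            simp at h5
          · have h4 : e (Sum.inr i) = none := dif_neg hj
            rw [h4] at h
            simp at h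
        · by_cases hi : ∃ x, π₁ x = Sum.inr i
          · have h3 : e (Sum.inr i) = some ⟨Sum.inr i, hi⟩ := dif_pos hi
            rw [h3] at h
            by_cases hj : ∃ x, π₁ x = Sum.inr j
            · have h4 : e (Sum.inr j) = some ⟨Sum.inr j, hj⟩ := dif_pos hj
              rw [h4] at h
              exact congrArg Subtype.val (Option.some_injective _ h)
            · have h4 : e (Sum.inr j) = none := dif_neg hj
              rw [h4] at h
              simp at h
          · by_cases hj : ∃ x, π₁ x = Sum.inr j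
            · have h3 : e (Sum.inr i) = none := dif_neg hi
              have h4 : e (Sum.inr j) = some ⟨Sum.inr j, hj⟩ := dif_pos hj
              rw [h3, h4] at h
              simp at h
            · rw [hinr i hi, hinr j hj]
      have h3 := Nat.card_le_card_of_injective e he
      rw [Nat.card_sum, Finite.card_option] at h3
      exact h3
    have hI₂ : Nat.card I₁ ≤ Nat.card Ω := Nat.card_le_card_of_surjective π₃ hsur
    calc W ^ q = W₁ ^ q * W₂ ^ q := by rw [hW, mul_pow]
      _ ≤ 4 ^ (Nat.card Ω - Nat.card I₁) * 2 ^ Nat.card (G ⧸ M) := Nat.mul_le_mul h1 h2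
      _ ≤ 4 ^ (Nat.card Ω - Nat.card I₁) * 4 ^ (Nat.card (G ⧸ M) - 1) := by
        refine Nat.mul_le_mul_left _ ?_
        have h3 : (4 : ℕ) = 2 ^ 2 := by norm_num
        rw [h3, ← pow_mul]
        exact Nat.pow_le_pow_right (by norm_num) (by omega)
      _ = 4 ^ (Nat.card Ω - Nat.card I₁ + (Nat.card (G ⧸ M) - 1)) := by rw [pow_add]
      _ ≤ 4 ^ (Nat.card Ω - Nat.card I) := Nat.pow_le_pow_right (by norm_num) (by omega)

theorem ch_perm {B q : ℕ} (hP : Pb B q) (hB : 5 ≤ B) : ∀ (G : Type) [Group G] [Finite G] (Ω : Type) [Finite Ω] [MulAction G Ω]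
    (_ : ∀ g : G, (∀ x : Ω, g • x = x) → g = 1) (X : Subgroup G) (W : ℕ), Ch B X ⊤ W →
    W ^ q ≤ 4 ^ (Nat.card Ω - Nat.card (MulAction.orbitRel.Quotient G Ω)) := by
  intro G _ _ Ω _ _ hfaith X W hc
  refine cp_main hP hB (Nat.card G + 1) G Ω (MulAction.orbitRel.Quotient G Ω) hfaith
    (fun x => Quotient.mk (MulAction.orbitRel G Ω) x) Quotient.mk_surjective (fun g x => ?_) X W (Nat.lt_succ_self _) hc
  exact Quotient.sound (show MulAction.orbitRel G Ω (g • x) x from ⟨g, rfl⟩)

theorem lc_of_pb {B q : ℕ} (hP : Pb B q) (hB : 5 ≤ B) (hq : 1 ≤ q) (n : ℕ) (H : Subgroup (Perm (Fin n))) :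
    Lc B (2 * n / q) H := by
  intro X W hc
  by_contra hW
  push Not at hW
  have h1 := ch_perm hP hB H (Fin n) (fun g hg => Subtype.ext (Equiv.ext hg)) X W hc
  have h2 : (2 : ℕ) ^ ((2 * n / q + 1) * q) ≤ 2 ^ (2 * n) := by
    calc (2 : ℕ) ^ ((2 * n / q + 1) * q) = (2 ^ (2 * n / q + 1)) ^ q := pow_mul _ _ _
      _ ≤ W ^ q := Nat.pow_le_pow_left hW q
      _ ≤ 4 ^ (Nat.card (Fin n) - Nat.card (MulAction.orbitRel.Quotient H (Fin n))) := h1
      _ ≤ 4 ^ n := by
        refine Nat.pow_le_pow_right (by norm_num) ?_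
        rw [Nat.card_fin]
        exact Nat.sub_le _ _
      _ = 2 ^ (2 * n) := by rw [pow_mul]; norm_num
  have h3 := (Nat.pow_le_pow_iff_right (by norm_num : 1 < 2)).1 h2
  have h4 : 2 * n < (2 * n / q + 1) * q := by
    rw [mul_comm (2 * n / q + 1) q]
    exact Nat.lt_mul_div_succ _ hq
  omega

end Pool.Agent.FuS
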