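import Pool.Agent.FuS.PrimOrd
import Pool.Agent.FuS.ChPerm
import Pool.Agent.GcS.ParA

/-!
MP_7fa120_al, all subgroups. The parameters.

`pb_ev`: let `k₀ ≥ 81` be such that `bE k ≤ k ^ (4/5)` for `k ≥ k₀` (`prim_an`). Let `n` be large, `B = BF n`, `q = qF n`, `G` primitive on `k` points, not containing the alternating group. If `k < k₀`, `|G| ≤ k₀ ! ≤ 2 ^ B` for large `n`. Let
`k ≥ k₀`; by `prim_ord` `|G| ≤ 2 ^ bE k`. If `bE k ≤ B` clear. Otherwise `k ^ (4/5) ≥ bE k > B ≥ q ^ 4` (`B = ⌊x ^ 4⌋`, `q = ⌊x⌋`, `x = n ^ (12/256)`), so `k ^ (1/5) ≥ q` and `|G| ^ q ≤ 2 ^ (q * bE k)`, `q * bE k ≤ k ^ (1/5) * k ^ (4/5) = k`.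
`eF_le`: `lf n ≤ n (log_2 n + 1)`, `LF n ≥ n ^ (60u) / 2`, `BF n ≤ n ^ (48u)` (`u = 1/256`), so `EE … ≤ C n ^ (244u) log n`; `cF n = 2 n / qF n ≤ 4 n ^ (244u)`.
`par_evF`: as `GcS/ParA.lean` (proved there; copy it): `LF ^ 4 ≤ n ^ (240u)`, `kA n ≥ n ^ (246u) / 2`.
-/

set_option autoImplicit false

namespace Pool.Agent.FuS

open Equiv Pool.Agent.NilS Pool.Agent.BdO Pool.Agent.SvS Pool.Agent.GcS Filter

private theorem pf_pow (n j : ℕ) (a : ℝ) (ha : a = j / 256) :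
    (n : ℝ) ^ a = ((n : ℝ) ^ (1 / 256 : ℝ)) ^ j := by
  rw [← Real.rpow_natCast, ← Real.rpow_mul (Nat.cast_nonneg _), ha]
  congr 1
  ring

private theorem pf_lf (n : ℕ) : lf n ≤ n * n := by
  unfold lf
  have h1 : n.factorial ≤ 2 ^ (n * n) := by
    refine (Nat.factorial_le_pow n).trans ?_
    rw [pow_mul]
    exact Nat.pow_le_pow_left Nat.lt_two_pow_self.le n
  exact (Nat.log_mono_right h1).trans (le_of_eq (Nat.log_pow (by norm_num) _))

private theorem pf_log {n : ℕ} (hn : 1 ≤ n) {x : ℝ} (hx : x = (n : ℝ) ^ (1 / 256 : ℝ))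
    (hx2 : 2 ≤ x) : ((Nat.log 2 (lf n) : ℕ) : ℝ) ≤ x ^ 48 := by
  have hn0 : (0 : ℝ) < n := by exact_mod_cast hn
  set L := Nat.log 2 (n * n) with hL
  have h1 : Nat.log 2 (lf n) ≤ L := Nat.log_mono_right (pf_lf n)
  have h2 : 2 ^ L ≤ n * n := Nat.pow_log_le_self 2 (by positivity)
  have h3 : (2 : ℝ) ^ L ≤ (n : ℝ) * n := by exact_mod_cast h2
  have h4 : (L : ℝ) * Real.log 2 ≤ 2 * Real.log n := by
    have h5 := Real.log_le_log (by positivity) h3
    rw [Real.log_pow, Real.log_mul hn0.ne' hn0.ne'] at h5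
    linarith
  have h6 : Real.log x = 1 / 256 * Real.log n := by
    rw [hx, Real.log_rpow hn0]
  have h7 : Real.log x ≤ x := (Real.log_le_sub_one_of_pos (by linarith)).trans (by linarith)
  have h8 : (L : ℝ) * (1 / 2) ≤ 512 * x := by
    have h9 : (1 / 2 : ℝ) ≤ Real.log 2 := by
      have := Real.log_two_gt_d9
      linarith
    have h10 : (L : ℝ) * (1 / 2) ≤ (L : ℝ) * Real.log 2 :=
      mul_le_mul_of_nonneg_left h9 (Nat.cast_nonneg _)
    linarith
  have h11 : (1024 : ℝ) * x ≤ x ^ 48 := by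
    have h12 : (2 : ℝ) ^ 10 ≤ x ^ 10 := pow_le_pow_left₀ (by norm_num) hx2 10
    calc (1024 : ℝ) * x ≤ x ^ 10 * x := by
          refine mul_le_mul_of_nonneg_right ?_ (by linarith)
          linarith
      _ = x ^ 11 := by ring
      _ ≤ x ^ 48 := pow_le_pow_right₀ (by linarith) (by norm_num)
  have h13 : ((Nat.log 2 (lf n) : ℕ) : ℝ) ≤ (L : ℝ) := by exact_mod_cast h1
  linarith

private theorem pf_sq {k β : ℕ} (h : 64 * β ≤ k) (hk : 4 ≤ k) :
    (k - 2) * β ≤ (k / 4) * (k / 4) := by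
  set m := k / 4 with hm
  have h1 : 1 ≤ m := by omega
  have h2 : k ≤ 4 * m + 3 := by omega
  have h3 : (k - 2) * (64 * β) ≤ (4 * m + 1) * (4 * m + 3) :=
    Nat.mul_le_mul (by omega) (h.trans h2)
  nlinarith

private theorem pf_grow (a K : ℝ) (ha : 0 < a) : ∀ᶠ n : ℕ in atTop, K ≤ (n : ℝ) ^ a :=
  ((tendsto_rpow_atTop ha).comp tendsto_natCast_atTop_atTop).eventually (eventually_ge_atTop K)

theorem pb_ev : ∀ᶠ n : ℕ in atTop, Pb (BF n) (qF n) := by
  obtain ⟨k₁, hk₁⟩ := eventually_atTop.1 prim_an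
  set k₀ := max k₁ 81 with hk₀
  filter_upwards [pf_grow (48 / 256) (k₀.factorial : ℝ) (by norm_num),
    pf_grow (12 / 256) 1 (by norm_num)] with n hn1 hn2
  intro Ω _ _ G hp hA
  set k := Fintype.card Ω with hk
  have hB0 : k₀.factorial ≤ BF n := by
    unfold BF
    exact Nat.le_floor hn1
  by_cases hkk : k < k₀
  · left
    have h1 : Nat.card G ≤ Nat.card (Perm Ω) := Subgroup.card_le_card_group G
    have h2 : Nat.card (Perm Ω) = k.factorial := by
      rw [Nat.card_eq_fintype_card, Fintype.card_perm]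
    have h3 : k.factorial ≤ k₀.factorial := Nat.factorial_le hkk.le
    calc Nat.card G ≤ k₀.factorial := by rw [h2] at h1; exact h1.trans h3
      _ ≤ BF n := hB0
      _ ≤ 2 ^ BF n := Nat.lt_two_pow_self.le
  · push Not at hkk
    have h1 := prim_ord G hp (by rw [← hk]; exact (le_max_right _ _).trans hkk) hA
    have h2 := hk₁ k ((le_max_left _ _).trans hkk)
    rw [← hk] at h1
    by_cases hb : bE k ≤ BF n
    · left
      exact h1.trans (Nat.pow_le_pow_right (by norm_num) hb)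
    · right
      push Not at hb
      have hk0 : (0 : ℝ) ≤ k := Nat.cast_nonneg _
      obtain ⟨y, hy⟩ : ∃ y, y = (k : ℝ) ^ (1 / 5 : ℝ) := ⟨_, rfl⟩
      have hy0 : 0 ≤ y := by rw [hy]; positivity
      have hy4 : (k : ℝ) ^ (4 / 5 : ℝ) = y ^ 4 := by
        rw [hy, ← Real.rpow_natCast, ← Real.rpow_mul hk0]
        congr 1
        norm_num
      have hy5 : (k : ℝ) = y ^ 5 := by
        rw [hy, ← Real.rpow_natCast, ← Real.rpow_mul hk0]
        norm_num
      obtain ⟨x, hx⟩ : ∃ x, x = (n : ℝ) ^ (12 / 256 : ℝ) := ⟨_, rfl⟩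
      have hx0 : 0 ≤ x := by rw [hx]; positivity
      have hx4 : (n : ℝ) ^ (48 / 256 : ℝ) = x ^ 4 := by
        rw [hx, ← Real.rpow_natCast, ← Real.rpow_mul (Nat.cast_nonneg _)]
        congr 1
        norm_num
      have h3 : x ^ 4 < (BF n : ℝ) + 1 := by
        rw [← hx4]
        unfold BF
        exact Nat.lt_floor_add_one _
      have h4 : (BF n : ℝ) + 1 ≤ bE k := by exact_mod_cast hb
      rw [hy4] at h2
      have h5 : x ^ 4 ≤ y ^ 4 := by linarith
      have h6 : x ≤ y := le_of_pow_le_pow_left₀ (by norm_num) hy0 h5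
      have h7 : (qF n : ℝ) ≤ x := by
        unfold qF
        rw [hx]
        exact Nat.floor_le (by positivity)
      have h8 : (bE k : ℝ) * qF n ≤ k := by
        calc (bE k : ℝ) * qF n ≤ y ^ 4 * y :=
              mul_le_mul h2 (h7.trans h6) (Nat.cast_nonneg _) (by positivity)
          _ = y ^ 5 := by ring
          _ = k := hy5.symm
      have h9 : bE k * qF n ≤ k := by exact_mod_cast h8
      calc Nat.card G ^ qF n ≤ (2 ^ bE k) ^ qF n := Nat.pow_le_pow_left h1 _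
        _ = 2 ^ (bE k * qF n) := by rw [← pow_mul]
        _ ≤ 2 ^ k := Nat.pow_le_pow_right (by norm_num) h9

theorem eF_le : ∀ᶠ n : ℕ in atTop, (eF n : ℝ) ≤ (n : ℝ) ^ (245 / 256 : ℝ) := by
  filter_upwards [pf_grow (1 / 1024) 64 (by norm_num), eventually_ge_atTop 1] with n hn2 hn
  have hn0 : (0 : ℝ) < n := by exact_mod_cast hn
  obtain ⟨w, hw⟩ : ∃ w, w = (n : ℝ) ^ (1 / 1024 : ℝ) := ⟨_, rfl⟩
  rw [← hw] at hn2
  have hw0 : 0 < w := by linarith
  have hw1 : 1 ≤ w := by linarith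
  have hp : ∀ j : ℕ, (1 : ℝ) ≤ w ^ j := fun j => one_le_pow₀ hw1
  have hup : ∀ i j : ℕ, i ≤ j → w ^ i ≤ w ^ j := fun i j h => pow_le_pow_right₀ hw1 h
  have hmul : ∀ i j : ℕ, (64 : ℝ) ^ i * w ^ j ≤ w ^ (i + j) := fun i j => by
    rw [pow_add]
    exact mul_le_mul_of_nonneg_right (pow_le_pow_left₀ (by norm_num) hn2 i) (by linarith [hp j])
  have hpw : ∀ (a : ℝ) (j : ℕ), a = j / 1024 → (n : ℝ) ^ a = w ^ j := by
    intro a j ha
    rw [hw, ← Real.rpow_natCast, ← Real.rpow_mul (Nat.cast_nonneg _), ha]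
    congr 1
    ring
  have hnw : (n : ℝ) = w ^ 1024 := by
    rw [← hpw 1 1024 (by norm_num), Real.rpow_one]
  -- logarithms
  have hlogn : Real.log n ≤ 1024 * w := by
    have h6 : Real.log w = 1 / 1024 * Real.log n := by
      rw [hw, Real.log_rpow hn0]
    have h7 : Real.log w ≤ w := (Real.log_le_sub_one_of_pos hw0).trans (by linarith)
    linarith
  have hNl : ((Nat.log 2 n : ℕ) : ℝ) ≤ 2048 * w := by
    have h3 : (2 : ℝ) ^ Nat.log 2 n ≤ n := by exact_mod_cast Nat.pow_log_le_self 2 (by omega)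
    have h4 : (Nat.log 2 n : ℝ) * Real.log 2 ≤ Real.log n := by
      have h5 := Real.log_le_log (by positivity) h3
      rwa [Real.log_pow] at h5
    have h9 : (1 / 2 : ℝ) ≤ Real.log 2 := by
      have := Real.log_two_gt_d9
      linarith
    have h10 : (Nat.log 2 n : ℝ) * (1 / 2) ≤ (Nat.log 2 n : ℝ) * Real.log 2 :=
      mul_le_mul_of_nonneg_left h9 (Nat.cast_nonneg _)
    linarith
  have hlf1 : lf n ≤ n * (Nat.log 2 n + 1) := by
    unfold lf
    have h1 : n.factorial ≤ 2 ^ (n * (Nat.log 2 n + 1)) := by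
      refine (Nat.factorial_le_pow n).trans ?_
      rw [mul_comm, pow_mul]
      exact Nat.pow_le_pow_left (Nat.lt_pow_succ_log_self (by norm_num) n).le n
    exact (Nat.log_mono_right h1).trans (le_of_eq (Nat.log_pow (by norm_num) _))
  have hlf : (lf n : ℝ) ≤ 4096 * w ^ 1025 := by
    have h1 : (lf n : ℝ) ≤ n * ((Nat.log 2 n : ℝ) + 1) := by exact_mod_cast hlf1
    have h2 : (n : ℝ) * ((Nat.log 2 n : ℝ) + 1) ≤ w ^ 1024 * (4096 * w) := by
      rw [← hnw]
      refine mul_le_mul_of_nonneg_left ?_ hn0.le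
      linarith
    calc (lf n : ℝ) ≤ w ^ 1024 * (4096 * w) := h1.trans h2
      _ = 4096 * w ^ 1025 := by ring
  have hloglf : ((Nat.log 2 (lf n) : ℕ) : ℝ) ≤ w ^ 192 := by
    have h1 : Nat.log 2 (lf n) ≤ Nat.log 2 (n * n) := Nat.log_mono_right (pf_lf n)
    have h3 : (2 : ℝ) ^ Nat.log 2 (n * n) ≤ n * n := by
      exact_mod_cast Nat.pow_log_le_self 2 (by positivity)
    have h4 : (Nat.log 2 (n * n) : ℝ) * Real.log 2 ≤ 2 * Real.log n := by
      have h5 := Real.log_le_log (by positivity) h3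
      rw [Real.log_pow, Real.log_mul hn0.ne' hn0.ne'] at h5
      linarith
    have h9 : (1 / 2 : ℝ) ≤ Real.log 2 := by
      have := Real.log_two_gt_d9
      linarith
    have h10 : (Nat.log 2 (n * n) : ℝ) * (1 / 2) ≤ (Nat.log 2 (n * n) : ℝ) * Real.log 2 :=
      mul_le_mul_of_nonneg_left h9 (Nat.cast_nonneg _)
    have h11 : ((Nat.log 2 (lf n) : ℕ) : ℝ) ≤ (Nat.log 2 (n * n) : ℝ) := by exact_mod_cast h1
    have h12 := hmul 2 1
    have h13 := hup 3 192 (by norm_num)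
    norm_num at h12
    linarith
  -- the parameters
  have hLF : w ^ 240 / 2 ≤ LF n := by
    have h1 : (n : ℝ) ^ (60 / 256 : ℝ) = w ^ 240 := hpw _ 240 (by norm_num)
    have h2 : w ^ 240 < (LF n : ℝ) + 1 := by
      rw [← h1]
      unfold LF
      exact Nat.lt_floor_add_one _
    have h3 := hmul 1 0
    have h4 := hup 1 240 (by norm_num)
    norm_num at h3
    rw [pow_one] at h4
    linarith
  have hBF : (BF n : ℝ) ≤ w ^ 192 := by
    have h1 : (n : ℝ) ^ (48 / 256 : ℝ) = w ^ 192 := hpw _ 192 (by norm_num)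
    rw [← h1]
    unfold BF
    exact Nat.floor_le (by positivity)
  have hqF : w ^ 48 / 2 ≤ qF n := by
    have h1 : (n : ℝ) ^ (12 / 256 : ℝ) = w ^ 48 := hpw _ 48 (by norm_num)
    have h2 : w ^ 48 < (qF n : ℝ) + 1 := by
      rw [← h1]
      unfold qF
      exact Nat.lt_floor_add_one _
    have h4 := hup 1 48 (by norm_num)
    rw [pow_one] at h4
    linarith
  have hEE : ((EE (lf n) (LF n) (BF n) : ℕ) : ℝ) ≤ 32768 * w ^ 977 := by
    unfold EE
    push_cast
    have h1 : ((lf n / LF n : ℕ) : ℝ) ≤ 8192 * w ^ 785 := by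
      have h2 : ((lf n / LF n : ℕ) : ℝ) ≤ (lf n : ℝ) / LF n := Nat.cast_div_le
      refine h2.trans ?_
      have h3 : (0 : ℝ) < w ^ 240 / 2 := by positivity
      rw [div_le_iff₀ (h3.trans_le hLF)]
      calc (lf n : ℝ) ≤ 4096 * w ^ 1025 := hlf
        _ = 8192 * w ^ 785 * (w ^ 240 / 2) := by ring
        _ ≤ 8192 * w ^ 785 * LF n := mul_le_mul_of_nonneg_left hLF (by positivity)
    have h4 : (BF n : ℝ) + (Nat.log 2 (lf n) : ℝ) + 2 ≤ 4 * w ^ 192 := by
      have h5 := hup 1 192 (by norm_num)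
      rw [pow_one] at h5
      linarith
    calc ((lf n / LF n : ℕ) : ℝ) * ((BF n : ℝ) + (Nat.log 2 (lf n) : ℝ) + 2) ≤
          (8192 * w ^ 785) * (4 * w ^ 192) := mul_le_mul h1 h4 (by positivity) (by positivity)
      _ = 32768 * w ^ 977 := by ring
  have hcF : ((cF n : ℕ) : ℝ) ≤ 4 * w ^ 976 := by
    unfold cF
    have h2 : ((2 * n / qF n : ℕ) : ℝ) ≤ ((2 * n : ℕ) : ℝ) / qF n := Nat.cast_div_le
    refine h2.trans ?_
    have h3 : (0 : ℝ) < w ^ 48 / 2 := by positivity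
    rw [div_le_iff₀ (h3.trans_le hqF)]
    push_cast
    calc 2 * (n : ℝ) = 4 * w ^ 976 * (w ^ 48 / 2) := by rw [hnw]; ring
      _ ≤ 4 * w ^ 976 * qF n := mul_le_mul_of_nonneg_left hqF (by positivity)
  rw [hpw _ 980 (by norm_num)]
  unfold eF
  push_cast
  have h1 := hmul 3 977
  have h2 := hup 976 977 (by norm_num)
  have h3 := hp 976
  norm_num at h1
  linarith

theorem par_evF : ∀ᶠ n : ℕ in atTop, Par (lf n) (kA n) (LF n) (be n) (gg n) ∧ kA n ≤ kB n ∧ 1 ≤ LG n ∧ 5 ≤ BF n ∧ 1 ≤ qF n ∧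
    sg n ≤ n ∧ 1 ≤ kB n / 2 := by
  filter_upwards [pf_grow (1 / 256) 2 (by norm_num), eventually_ge_atTop 1] with n hn2 hn
  obtain ⟨x, hx⟩ : ∃ x, x = (n : ℝ) ^ (1 / 256 : ℝ) := ⟨_, rfl⟩
  rw [← hx] at hn2
  have hx1 : (1 : ℝ) ≤ x := by linarith
  have hp : ∀ j : ℕ, (1 : ℝ) ≤ x ^ j := fun j => one_le_pow₀ hx1
  have hmul : ∀ i j : ℕ, (2 : ℝ) ^ i * x ^ j ≤ x ^ (i + j) := fun i j => by
    rw [pow_add]
    exact mul_le_mul_of_nonneg_right (pow_le_pow_left₀ (by norm_num) hn2 i) (by linarith [hp j])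
  have hup : ∀ i j : ℕ, i ≤ j → x ^ i ≤ x ^ j := fun i j h => pow_le_pow_right₀ hx1 h
  have ekA : kA n = ⌊x ^ 246⌋₊ := by
    unfold kA
    rw [pf_pow n 246 _ (by norm_num), ← hx]
  have ekB : kB n = ⌊x ^ 249⌋₊ := by
    unfold kB
    rw [pf_pow n 249 _ (by norm_num), ← hx]
  have eLF : LF n = ⌊x ^ 60⌋₊ := by
    unfold LF
    rw [pf_pow n 60 _ (by norm_num), ← hx]
  have eBF : BF n = ⌊x ^ 48⌋₊ := by
    unfold BF
    rw [pf_pow n 48 _ (by norm_num), ← hx]
  have eqF : qF n = ⌊x ^ 12⌋₊ := by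
    unfold qF
    rw [pf_pow n 12 _ (by norm_num), ← hx]
  have ebe : be n = ⌊x ^ 32⌋₊ := by
    unfold be
    rw [pf_pow n 32 _ (by norm_num), ← hx]
  have eLG : LG n = ⌊x ^ 3⌋₊ := by
    unfold LG
    rw [pf_pow n 3 _ (by norm_num), ← hx]
  have hLF : (LF n : ℝ) ≤ x ^ 60 := by
    rw [eLF]
    exact Nat.floor_le (by linarith [hp 60])
  have hbe : (be n : ℝ) ≤ x ^ 32 := by
    rw [ebe]
    exact Nat.floor_le (by linarith [hp 32])
  have hlog := pf_log hn hx hn2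
  have h64 : 64 * be n ≤ kA n := by
    rw [ekA]
    apply Nat.le_floor
    push_cast
    have h1 := hmul 6 32
    have h2 := hup 38 246 (by norm_num)
    norm_num at h1
    linarith
  have hkA4 : 4 ≤ kA n := by
    rw [ekA]
    apply Nat.le_floor
    have h1 := hmul 2 0
    have h2 := hup 2 246 (by norm_num)
    norm_num at h1
    push_cast
    linarith
  refine ⟨⟨?_, ?_, ?_, le_rfl, pf_sq h64 hkA4⟩, ?_, ?_, ?_, ?_, ?_, ?_⟩
  · rw [eLF]
    exact Nat.le_floor (by exact_mod_cast hp 60)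
  · rw [ekA]
    apply Nat.le_floor
    push_cast
    have h1 : (LF n : ℝ) ^ 4 ≤ x ^ 240 := by
      calc (LF n : ℝ) ^ 4 ≤ (x ^ 60) ^ 4 := pow_le_pow_left₀ (Nat.cast_nonneg _) hLF 4
        _ = x ^ 240 := by ring
    have h2 : (LF n : ℝ) ^ 2 ≤ x ^ 240 := by
      calc (LF n : ℝ) ^ 2 ≤ (x ^ 60) ^ 2 := pow_le_pow_left₀ (Nat.cast_nonneg _) hLF 2
        _ = x ^ 120 := by ring
        _ ≤ x ^ 240 := hup 120 240 (by norm_num)
    have h3 := hmul 3 0
    have h4 := hup 3 240 (by norm_num)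
    have h5 := hmul 2 240
    have h6 := hup 242 246 (by norm_num)
    have h7 := hup 48 240 (by norm_num)
    norm_num at h3 h5
    linarith
  · rw [ekA]
    apply Nat.le_floor
    push_cast
    have h1 : (be n : ℝ) + 2 ≤ 2 * x ^ 32 := by
      have h2 := hmul 1 0
      have h3 := hup 1 32 (by norm_num)
      norm_num at h2 h3
      linarith
    have h2 : ((be n : ℝ) + 2) ^ 2 ≤ 4 * x ^ 64 := by
      calc ((be n : ℝ) + 2) ^ 2 ≤ (2 * x ^ 32) ^ 2 := pow_le_pow_left₀ (by positivity) h1 2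
        _ = 4 * x ^ 64 := by ring
    have h3 := hmul 4 64
    have h4 := hup 68 246 (by norm_num)
    have h5 := hp 64
    norm_num at h3
    linarith
  · rw [ekA, ekB]
    exact Nat.floor_le_floor (hup 246 249 (by norm_num))
  · rw [eLG]
    exact Nat.le_floor (by exact_mod_cast hp 3)
  · rw [eBF]
    apply Nat.le_floor
    have h1 := hmul 3 0
    have h2 := hup 3 48 (by norm_num)
    norm_num at h1
    push_cast
    linarith
  · rw [eqF]
    exact Nat.le_floor (by exact_mod_cast hp 12)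
  · unfold sg
    exact (Nat.sqrt_le_self _).trans (Nat.sqrt_le_self _)
  · have h1 : 2 ≤ kB n := by
      rw [ekB]
      apply Nat.le_floor
      have h2 := hup 1 249 (by norm_num)
      rw [pow_one] at h2
      push_cast
      linarith
    omega

end Pool.Agent.FuS
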