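import Pool.Agent.FuS.SplitF
import Pool.Agent.FuS.PbEv
import Pool.Agent.FuS.AnLF
import Pool.Agent.FuS.AnNilF
import Pool.Agent.HeS.CntP
import Pool.Agent.GcS.CntSm
import Pool.Agent.GcS.CntL
import Pool.Agent.SvS.CntNil
import Pool.Agent.SvS.AnSm
import Pool.Agent.GcS.AnRG

/-!
MP_7fa120_al, all subgroups. Almost all subgroups have odd part at most `52 !`.

The same proof as `HeS/CasesT.lean` (proved there; copy it) for all subgroups: `split_f` with `s₀ = sg n`, `k = kA n`, `k' = kB n`, `Λ = LF n`, `β = be n`, `g = gg n`, `B = BF n`, `c = cF n` (so `EE … + c = eF n`), for large `n` (`par_evF`; `lc_of_pb` and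
`pb_ev` give `Lc (BF n) (cF n) H` for all `H`, as `cF n = 2 * n / qF n`); the counts `cnt_smallG`, `cnt_LG` (with `ℓ = 3`), `cnt_p` (for `P n H = True`), `cnt_nil`; the limits `an_small`, `an_LF eF eF_le`, `an_RG`, `an_nilF eF eF_le`.
-/

set_option autoImplicit false

namespace Pool.Agent.FuS

open Equiv Pool.Agent.NilS Pool.Agent.BdO Pool.Agent.SvS Pool.Agent.GcS Filter Topology

private theorem card_or {α : Type} [Finite α] (P Q : α → Prop) :
    Nat.card {x // P x ∨ Q x} ≤ Nat.card {x // P x} + Nat.card {x // Q x} :=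
  Set.ncard_union_le {x | P x} {x | Q x}

private theorem card_imp {α : Type} [Finite α] {P Q : α → Prop} (h : ∀ x, P x → Q x) :
    Nat.card {x // P x} ≤ Nat.card {x // Q x} :=
  Nat.card_le_card_of_injective (Subtype.map id h) (Subtype.map_injective _ Function.injective_id)

theorem nTwo_le_nAll (n : ℕ) : nTwo n ≤ nAll n :=
  Nat.card_le_card_of_injective (fun H : {H : Subgroup (Perm (Fin n)) // Two H} => H.1)
    Subtype.val_injective

private theorem nTwo_pos (n : ℕ) : 0 < nTwo n := by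
  have : Nonempty {H : Subgroup (Perm (Fin n)) // Two H} := ⟨⟨⊥, 0, by simp⟩⟩
  exact Nat.card_pos

private theorem nP_true (n : ℕ) : Pool.Agent.HeS.nP (fun _ _ => True) n = nAll n :=
  Nat.card_congr (Equiv.subtypeUnivEquiv fun _ => trivial)

private theorem card_true {n : ℕ} (Q : Subgroup (Perm (Fin n)) → Prop) :
    Nat.card {H : Subgroup (Perm (Fin n)) // True ∧ Q H} =
      Nat.card {H : Subgroup (Perm (Fin n)) // Q H} :=
  Nat.card_congr (Equiv.subtypeEquivRight fun _ => by simp)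

private theorem cases_bound {n : ℕ} (hp : Par (lf n) (kA n) (LF n) (be n) (gg n)) (hkk : kA n ≤ kB n)
    (hL : 1 ≤ LG n) (hB : 5 ≤ BF n) (hs : sg n ≤ n) (he : 1 ≤ kB n / 2)
    (hLc : ∀ H : Subgroup (Perm (Fin n)), Lc (BF n) (cF n) H) :
    nBigF n ≤
      n ^ sg n * nSub (sg n) ^ 2 * (∑ k ∈ Finset.Icc 2 n, n ^ k * nTwo (n - k) + nSub (sg n) * nTwo (n - 3)) +
      (∑ s ∈ Finset.Ioc (sg n) n,
        n ^ s * n ^ (s * (kB n + eF n)) * n ^ (s * Nat.log 2 n) * LBG n (LG n) 3 s +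
      (Nat.card {H : Subgroup (Perm (Fin n)) // Rl H (gg n) (jg (lf n) (kA n) + tg (lf n) (kA n) + 1)} +
      n.factorial ^ (kA n + eF n + tg (lf n) (kA n) + 1) *
        ∑ s ∈ (Finset.Icc 2 n).filter (fun s => kB n / 2 ≤ 2 * s * (Nat.log 2 n + 1)),
          n ^ (5 * s) * nTwo (n - s) * nOdn s)) := by
  have h1 := cnt_smallG (n := n) (sg n) hs
  have h2 := cnt_LG (n := n) (sg n) (kB n + eF n) (LG n) 3 hL
  have h4 := cnt_nil n (kB n / 2) (kA n + eF n + tg (lf n) (kA n) + 1) he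
  refine le_trans ?_ (Nat.add_le_add h1 (Nat.add_le_add h2 (Nat.add_le_add le_rfl h4)))
  refine le_trans ?_ (Nat.add_le_add le_rfl (Nat.add_le_add le_rfl (card_or _ _)))
  refine le_trans ?_ (Nat.add_le_add le_rfl (card_or _ _))
  refine le_trans ?_ (card_or _ _)
  refine card_imp fun H hH => ?_
  rcases split_f (sg n) (kA n) (kB n) (LF n) (be n) (gg n) (BF n) (cF n) hkk (by omega) hLc H hp
    with h5 | h5 | h5 | h5
  · exact Or.inl ⟨hH, h5⟩
  · exact Or.inr (Or.inl h5)
  · exact Or.inr (Or.inr (Or.inl h5))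
  · exact Or.inr (Or.inr (Or.inr h5))

theorem big_zeroF : Tendsto (fun n : ℕ => (nBigF n : ℝ) / nAll n) atTop (𝓝 0) := by
  have hlim := an_small.add ((an_LF eF eF_le).add (an_RG.add (an_nilF eF eF_le)))
  rw [add_zero, add_zero, add_zero] at hlim
  refine squeeze_zero' (Eventually.of_forall fun n => by positivity) ?_ hlim
  filter_upwards [par_evF, pb_ev] with n hn hpb
  obtain ⟨hp, hkk, hL, hB, hq, hs, he⟩ := hn
  have hLc : ∀ H : Subgroup (Perm (Fin n)), Lc (BF n) (cF n) H := fun H => lc_of_pb hpb hB hq n H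
  have hT : (0 : ℝ) < nTwo n := by exact_mod_cast nTwo_pos n
  have hTS : (nTwo n : ℝ) ≤ nAll n := by exact_mod_cast nTwo_le_nAll n
  have hS : (0 : ℝ) < nAll n := hT.trans_le hTS
  have hb := cases_bound hp hkk hL hB hs he hLc
  have hm := Pool.Agent.HeS.cnt_p (fun _ _ => True) (fun _ _ _ _ _ => trivial) n (gg n)
    (jg (lf n) (kA n) + tg (lf n) (kA n) + 1)
  rw [nP_true, card_true] at hm
  have key : ∀ a : ℕ, (a : ℝ) / nAll n ≤ (a : ℝ) / nTwo n := fun a =>
    div_le_div_of_nonneg_left (Nat.cast_nonneg a) hT hTS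
  have hm' : (Nat.card {H : Subgroup (Perm (Fin n)) //
        Rl H (gg n) (jg (lf n) (kA n) + tg (lf n) (kA n) + 1)} : ℝ) / nAll n ≤
      (n.factorial : ℝ) ^ (jg (lf n) (kA n) + tg (lf n) (kA n) + 1) / 2 ^ gg n := by
    rw [div_le_div_iff₀ hS (by positivity)]
    have h4 : ((2 ^ gg n * Nat.card {H : Subgroup (Perm (Fin n)) //
        Rl H (gg n) (jg (lf n) (kA n) + tg (lf n) (kA n) + 1)} : ℕ) : ℝ) ≤
        ((n.factorial ^ (jg (lf n) (kA n) + tg (lf n) (kA n) + 1) * nAll n : ℕ) : ℝ) := by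
      exact_mod_cast hm
    push_cast at h4
    linarith
  have hb' : (nBigF n : ℝ) ≤ _ := Nat.cast_le.mpr hb
  rw [Nat.cast_add, Nat.cast_add, Nat.cast_add] at hb'
  calc (nBigF n : ℝ) / nAll n ≤ _ / nAll n := div_le_div_of_nonneg_right hb' hS.le
    _ ≤ _ := by
      rw [add_div, add_div, add_div]
      exact add_le_add (key _) (add_le_add (key _) (add_le_add hm' (key _)))

end Pool.Agent.FuS
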