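import Pool.Agent.FuS.ChSplit
import Pool.Agent.GcS.ChDec
import Pool.Agent.GcS.ChPow

/-!
MP_7fa120_al, all subgroups. Generators of a chief factor which is not abelian.

`pow_gen_d`: the same as `GcS.pow_gen` (`GcS/ChPow.lean`, proved there; copy it), with given generators of `T`.
`ch_gen_f`: `ch_dec` gives `T`, `r`, `f : M →* (Fin r → T)` surjective with kernel `N`. `r ≤ Nat.log 2 |G| ≤ 2 ^ u` with `u = Nat.log 2 (Nat.log 2 |G|) + 1`. If `|T| ≤ 2 ^ B` or `T` is generated by 4 elements (`4 ≤ B`): `T` is generated by `B`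
elements, `c = 0`, `W = 1`, `pow_gen_d` and preimages in `M` (compare `GcS/ChGen.lean`). Otherwise `Bad B T`; let `p : M →* T` be `f` composed with a projection and `N₁` its kernel (as a subgroup of `G`): `N ≤ N₁ ≤ M`, a step from `N` to `N₁`
(`N` is normal) and a bad step from `N₁` to `M` with relative index `|T|`; `W = |T|`, `c = Nat.log 2 |T|`, `2 ^ c ≤ |T| < 2 ^ (c + 1)`, `T` is generated by `c + 1` elements (`few_gen`).
-/

set_option autoImplicit false

namespace Pool.Agent.FuS

open Pool.Agent.SvS Pool.Agent.GcS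

/-- A group of order at most `2 ^ B` is generated by `B` elements. -/
private theorem few_gen (T : Type) [Group T] [Finite T] (B : ℕ) (hB : Nat.card T ≤ 2 ^ B) :
    ∃ S : Finset T, S.card ≤ B ∧ Subgroup.closure (S : Set T) = ⊤ := by
  classical
  have key : ∀ j : ℕ, ∃ S : Finset T, S.card ≤ j ∧ (Subgroup.closure (S : Set T) = ⊤ ∨
      2 ^ j ≤ Nat.card (Subgroup.closure (S : Set T))) := by
    intro j
    induction j with
    | zero =>
      refine ⟨∅, by simp, Or.inr ?_⟩
      rw [pow_zero]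
      exact Nat.card_pos
    | succ j ih =>
      obtain ⟨S, hS, hf⟩ := ih
      by_cases htop : Subgroup.closure (S : Set T) = ⊤
      · exact ⟨S, by omega, Or.inl htop⟩
      · have hcard := hf.resolve_left htop
        obtain ⟨x, hx⟩ : ∃ x : T, x ∉ Subgroup.closure (S : Set T) := by
          by_contra hcon
          push Not at hcon
          exact htop (eq_top_iff.2 fun x _ => hcon x)
        refine ⟨insert x S, (Finset.card_insert_le _ _).trans (by omega), Or.inr ?_⟩
        have hAB : Subgroup.closure (S : Set T) ≤ Subgroup.closure ((insert x S : Finset T) : Set T) :=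
          Subgroup.closure_mono (by exact_mod_cast Finset.subset_insert x S)
        have hxB : x ∈ Subgroup.closure ((insert x S : Finset T) : Set T) :=
          Subgroup.subset_closure (by simp)
        obtain ⟨c, hc⟩ := Subgroup.card_dvd_of_le hAB
        have hBpos : 0 < Nat.card (Subgroup.closure ((insert x S : Finset T) : Set T)) := Nat.card_pos
        have hc0 : c ≠ 0 := by
          rintro rfl
          rw [hc] at hBpos
          simp at hBpos
        have hc1 : c ≠ 1 := by
          rintro rfl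
          rw [mul_one] at hc
          have h3 := Subgroup.eq_of_le_of_card_ge hAB (le_of_eq hc)
          rw [h3] at hx
          exact hx hxB
        have hc2 : 2 ≤ c := by omega
        calc 2 ^ (j + 1) = 2 ^ j * 2 := pow_succ _ _
          _ ≤ Nat.card (Subgroup.closure (S : Set T)) * c := Nat.mul_le_mul hcard hc2
          _ = _ := hc.symm
  obtain ⟨S, hS, hf⟩ := key B
  refine ⟨S, hS, ?_⟩
  rcases hf with hf | hf
  · exact hf
  · exact Subgroup.eq_top_of_card_eq _
      (le_antisymm (Subgroup.card_le_card_group _) (hB.trans hf))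

/-- The elements `w s`, `w ∈ W`, `w = 1` on `A`. -/
private def NA {T : Type} [Group T] {r : ℕ} (W : Subgroup (Fin r → T)) (s : Fin r) (A : Finset (Fin r)) :
    Subgroup T where
  carrier := {a | ∃ w ∈ W, w s = a ∧ ∀ t ∈ A, w t = 1}
  one_mem' := ⟨1, W.one_mem, rfl, fun _ _ => rfl⟩
  mul_mem' := by
    rintro a b ⟨w, hw, rfl, h1⟩ ⟨w', hw', rfl, h2⟩
    refine ⟨w * w', W.mul_mem hw hw', rfl, fun t ht => ?_⟩
    rw [Pi.mul_apply, h1 t ht, h2 t ht, mul_one]
  inv_mem' := by
    rintro a ⟨w, hw, rfl, h1⟩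
    refine ⟨w⁻¹, W.inv_mem hw, rfl, fun t ht => ?_⟩
    rw [Pi.inv_apply, h1 t ht, inv_one]

private theorem mem_NA {T : Type} [Group T] {r : ℕ} {W : Subgroup (Fin r → T)} {s : Fin r} {A : Finset (Fin r)}
    {a : T} : a ∈ NA W s A ↔ ∃ w ∈ W, w s = a ∧ ∀ t ∈ A, w t = 1 := Iff.rfl

private theorem NA_normal {T : Type} [Group T] {r : ℕ} {W : Subgroup (Fin r → T)}
    (hW : ∀ a : T, (fun _ => a : Fin r → T) ∈ W) (s : Fin r) (A : Finset (Fin r)) : (NA W s A).Normal := by
  constructor
  rintro a ⟨w, hw, rfl, h1⟩ g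
  refine ⟨(fun _ => g) * w * (fun _ => g)⁻¹, W.mul_mem (W.mul_mem (hW g) hw) (W.inv_mem (hW g)), rfl,
    fun t ht => ?_⟩
  rw [Pi.mul_apply, Pi.mul_apply, h1 t ht, Pi.inv_apply, mul_one, mul_inv_cancel]

theorem pow_gen_d (T : Type) [Group T] [Finite T] (hs : IsSimpleGroup T) (hn : ∃ a b : T, a * b ≠ b * a) (r u d : ℕ)
    (hr : r ≤ 2 ^ u) (S₀ : Finset T) (hS₀ : S₀.card ≤ d) (hcl : Subgroup.closure (S₀ : Set T) = ⊤) :
    ∃ S : Finset (Fin r → T), S.card ≤ d + u ∧ Subgroup.closure (S : Set (Fin r → T)) = ⊤ := by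
  classical
  -- different vectors
  obtain ⟨y⟩ : Nonempty (Fin r ↪ (Fin u → T)) := by
    have : Fintype T := Fintype.ofFinite T
    apply Function.Embedding.nonempty_of_card_le
    rw [Fintype.card_fin, Fintype.card_fun, Fintype.card_fin]
    refine hr.trans (Nat.pow_le_pow_left ?_ u)
    obtain ⟨a, b, hab⟩ := hn
    have : Nontrivial T := ⟨a, b, fun h => hab (by rw [h])⟩
    exact Fintype.one_lt_card
  let S : Finset (Fin r → T) := S₀.image (fun a _ => a) ∪ Finset.univ.image (fun j : Fin u => fun i => y i j)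
  refine ⟨S, ?_, ?_⟩
  · refine (Finset.card_union_le _ _).trans (Nat.add_le_add (Finset.card_image_le.trans hS₀) ?_)
    refine Finset.card_image_le.trans ?_
    rw [Finset.card_univ, Fintype.card_fin]
  set W := Subgroup.closure (S : Set (Fin r → T)) with hWdef
  -- constant vectors
  have hconst : ∀ a : T, (fun _ => a : Fin r → T) ∈ W := by
    let c : T →* (Fin r → T) := Pi.constMonoidHom (Fin r) T
    have h1 : (⊤ : Subgroup T) ≤ W.comap c := by
      rw [← hcl, Subgroup.closure_le]
      intro a ha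
      refine Subgroup.subset_closure ?_
      exact Finset.mem_coe.2 (Finset.mem_union_left _ (Finset.mem_image_of_mem _ (Finset.mem_coe.1 ha)))
    intro a
    exact h1 (Subgroup.mem_top a)
  have hy : ∀ j : Fin u, (fun i => y i j : Fin r → T) ∈ W := fun j =>
    Subgroup.subset_closure (Finset.mem_coe.2 (Finset.mem_union_right _
      (Finset.mem_image_of_mem _ (Finset.mem_univ j))))
  have hnorm := NA_normal hconst
  -- claim (*)
  have hstar : ∀ s t : Fin r, s ≠ t → NA W s {t} = ⊤ := by
    intro s t hst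
    rcases (hnorm s {t}).eq_bot_or_eq_top with h | h
    · exfalso
      apply hst
      apply y.injective
      funext j
      have h1 : y s j * (y t j)⁻¹ ∈ NA W s {t} := by
        refine ⟨(fun i => y i j) * (fun _ => y t j)⁻¹, W.mul_mem (hy j) (W.inv_mem (hconst _)), rfl, ?_⟩
        intro t' ht'
        rw [Finset.mem_singleton] at ht'
        subst ht'
        rw [Pi.mul_apply, Pi.inv_apply, mul_inv_cancel]
      rw [h, Subgroup.mem_bot] at h1
      exact mul_inv_eq_one.1 h1
    · exact h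
  -- claim (**)
  have hall : ∀ (s : Fin r) (A : Finset (Fin r)), s ∉ A → NA W s A = ⊤ := by
    intro s A
    induction A using Finset.induction_on with
    | empty =>
      intro _
      rw [eq_top_iff]
      intro a _
      exact ⟨fun _ => a, hconst a, rfl, fun t ht => absurd ht (Finset.notMem_empty t)⟩
    | insert t A htA ih =>
      intro hsA
      rw [Finset.mem_insert, not_or] at hsA
      have h1 := ih hsA.2
      have h2 := hstar s t hsA.1
      rcases (hnorm s (insert t A)).eq_bot_or_eq_top with h | h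
      · exfalso
        obtain ⟨a, b, hab⟩ := hn
        obtain ⟨w, hw, hws, hwA⟩ := mem_NA.1 (h1 ▸ Subgroup.mem_top a : a ∈ NA W s A)
        obtain ⟨w', hw', hws', hwt⟩ := mem_NA.1 (h2 ▸ Subgroup.mem_top b : b ∈ NA W s {t})
        have h3 : a * b * a⁻¹ * b⁻¹ ∈ NA W s (insert t A) := by
          refine ⟨w * w' * w⁻¹ * w'⁻¹, W.mul_mem (W.mul_mem (W.mul_mem hw hw') (W.inv_mem hw)) (W.inv_mem hw'),
            ?_, ?_⟩
          · simp only [Pi.mul_apply, Pi.inv_apply, hws, hws']
          · intro i hi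
            rw [Finset.mem_insert] at hi
            rcases hi with rfl | hi
            · have := hwt i (Finset.mem_singleton_self i)
              simp only [Pi.mul_apply, Pi.inv_apply, this, mul_one, inv_one, mul_inv_cancel]
            · have := hwA i hi
              simp only [Pi.mul_apply, Pi.inv_apply, this, one_mul, inv_one, mul_one, mul_inv_cancel]
        rw [h, Subgroup.mem_bot] at h3
        apply hab
        have h4 : a * b * a⁻¹ = b := mul_inv_eq_one.1 h3
        calc a * b = a * b * a⁻¹ * a := by group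
          _ = b * a := by rw [h4]
      · exact h
  rw [eq_top_iff]
  intro x _
  refine Subgroup.pi_mem_of_mulSingle_mem x fun i => ?_
  have h1 : x i ∈ NA W i (Finset.univ.erase i) := by
    rw [hall i _ (Finset.notMem_erase i _)]
    exact Subgroup.mem_top _
  obtain ⟨w, hw, hwi, hwA⟩ := h1
  have h2 : Pi.mulSingle i (x i) = w := by
    funext t
    by_cases ht : t = i
    · subst ht
      rw [Pi.mulSingle_eq_same, hwi]
    · rw [Pi.mulSingle_eq_of_ne ht, hwA t (Finset.mem_erase.2 ⟨ht, Finset.mem_univ t⟩)]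
  rw [h2]
  exact hw

/-- Preimages of generators. -/
private theorem lift_gen {G : Type} [Group G] {N M : Subgroup G} (hNM : N ≤ M) {T : Type} [Group T] {r : ℕ}
    (f : M →* (Fin r → T)) (hf : Function.Surjective f) (hk : ∀ x : M, f x = 1 ↔ (x : G) ∈ N) (m : ℕ)
    (S0 : Finset (Fin r → T)) (hS0 : S0.card ≤ m) (hcl : Subgroup.closure (S0 : Set (Fin r → T)) = ⊤) :
    ∃ S : Finset G, (∀ x ∈ S, x ∈ M) ∧ S.card ≤ m ∧ N ⊔ Subgroup.closure (S : Set G) = M := by
  classical
  choose g hg using hf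
  refine ⟨S0.image fun s => (g s : G), ?_, ?_, ?_⟩
  · intro x hx
    rw [Finset.mem_image] at hx
    obtain ⟨s, -, rfl⟩ := hx
    exact (g s).2
  · exact Finset.card_image_le.trans hS0
  · apply le_antisymm
    · refine sup_le hNM ?_
      rw [Subgroup.closure_le]
      intro x hx
      rw [Finset.mem_coe, Finset.mem_image] at hx
      obtain ⟨s, -, rfl⟩ := hx
      exact (g s).2
    · intro x hx
      set L : Subgroup G := N ⊔ Subgroup.closure ((S0.image fun s => (g s : G) : Finset G) : Set G)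
        with hL
      have h1 : (L.subgroupOf M).map f = ⊤ := by
        rw [eq_top_iff, ← hcl, Subgroup.closure_le]
        intro s hs0
        refine ⟨g s, ?_, hg s⟩
        rw [SetLike.mem_coe, Subgroup.mem_subgroupOf, hL]
        refine Subgroup.mem_sup_right (Subgroup.subset_closure ?_)
        rw [Finset.mem_coe, Finset.mem_image]
        exact ⟨s, hs0, rfl⟩
      have h2 : f ⟨x, hx⟩ ∈ (L.subgroupOf M).map f := by
        rw [h1]
        exact Subgroup.mem_top _
      obtain ⟨y, hy, hyx⟩ := h2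
      have h3 : f (y⁻¹ * ⟨x, hx⟩) = 1 := by
        rw [map_mul, map_inv, hyx, inv_mul_cancel]
      have h4 := (hk _).1 h3
      have h5 : (y : G) ∈ L := hy
      have h6 : (y : G)⁻¹ * x ∈ L := by
        rw [hL]
        exact Subgroup.mem_sup_left h4
      have h7 := L.mul_mem h5 h6
      rwa [mul_inv_cancel_left] at h7

theorem ch_gen_f {G : Type} [Group G] [Finite G] {B : ℕ} (hB : 4 ≤ B) {N M : Subgroup G} (h : Chief N M) (hna : ¬ Ab N M) :
    ∃ c W : ℕ, 2 ^ c ≤ W ∧ Ch B N M W ∧ ∃ S : Finset G, (∀ x ∈ S, x ∈ M) ∧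
      S.card ≤ (B + Nat.log 2 (Nat.log 2 (Nat.card G)) + 2) + c ∧ N ⊔ Subgroup.closure (S : Set G) = M := by
  classical
  obtain ⟨T, _, _, r, f, hf, hk, hs, hn, hr1, hr2⟩ := ch_dec h hna
  have hNM : N ≤ M := h.2.2.1.le
  have hNn : N.Normal := h.1
  have hr3 : r ≤ Nat.log 2 (Nat.card G) := Nat.le_log_of_pow_le (by norm_num) hr2
  have hr : r ≤ 2 ^ (Nat.log 2 (Nat.log 2 (Nat.card G)) + 1) :=
    hr3.trans (Nat.lt_pow_succ_log_self (by norm_num) _).le
  by_cases hsm : Nat.card T ≤ 2 ^ B ∨ ∃ S : Finset T, S.card ≤ 4 ∧ Subgroup.closure (S : Set T) = ⊤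
  · obtain ⟨S₀, hS₀, hcl₀⟩ : ∃ S : Finset T, S.card ≤ B ∧ Subgroup.closure (S : Set T) = ⊤ := by
      rcases hsm with h1 | ⟨S, h1, h2⟩
      · exact few_gen T B h1
      · exact ⟨S, h1.trans hB, h2⟩
    obtain ⟨S0, hS0, hcl⟩ := pow_gen_d T hs hn r _ B hr S₀ hS₀ hcl₀
    obtain ⟨S, h1, h2, h3⟩ := lift_gen hNM f hf hk _ S0 hS0 hcl
    refine ⟨0, 1, by norm_num, Ch.step N M M 1 hNM (fun g _ x hx => hNn.conj_mem x hx g) (Ch.refl M),
      S, h1, ?_, h3⟩
    omega
  · push Not at hsm
    obtain ⟨hsm1, hsm2⟩ := hsm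
    have hbad : Bad B T := ⟨hs, hn, hsm1, fun ⟨S, h1, h2⟩ => hsm2 S h1 h2⟩
    let i0 : Fin r := ⟨0, by omega⟩
    let p : M →* T := (Pi.evalMonoidHom (fun _ : Fin r => T) i0).comp f
    have hp : Function.Surjective p := by
      intro t
      obtain ⟨x, hx⟩ := hf (fun _ => t)
      refine ⟨x, ?_⟩
      change f x i0 = t
      rw [hx]
    set N₁ : Subgroup G := p.ker.map M.subtype with hN₁
    have hN₁M : N₁ ≤ M := Subgroup.map_subtype_le _
    have hmem : ∀ y : M, p y = 1 ↔ (y : G) ∈ N₁ := by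
      intro y
      rw [hN₁]
      constructor
      · intro hy
        exact ⟨y, hy, rfl⟩
      · rintro ⟨z, hz, hzy⟩
        have : z = y := Subtype.ext hzy
        rw [← this]
        exact hz
    have hNN₁ : N ≤ N₁ := by
      intro x hx
      have h1 : f ⟨x, hNM hx⟩ = 1 := (hk _).2 hx
      have h2 : p ⟨x, hNM hx⟩ = 1 := by
        change f ⟨x, hNM hx⟩ i0 = 1
        rw [h1]
        rfl
      exact (hmem ⟨x, hNM hx⟩).1 h2
    have hrel : N₁.relIndex M = Nat.card T := by
      have h1 : N₁.subgroupOf M = p.ker := by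
        ext y
        rw [Subgroup.mem_subgroupOf, ← hmem y, MonoidHom.mem_ker]
      rw [Subgroup.relIndex, h1, Subgroup.index_ker, MonoidHom.range_eq_top.2 hp]
      exact Nat.card_congr Subgroup.topEquiv.toEquiv
    have hT0 : Nat.card T ≠ 0 := Nat.card_pos.ne'
    obtain ⟨S₀, hS₀, hcl₀⟩ := few_gen T (Nat.log 2 (Nat.card T) + 1)
      (Nat.lt_pow_succ_log_self (by norm_num) _).le
    obtain ⟨S0, hS0, hcl⟩ := pow_gen_d T hs hn r _ _ hr S₀ hS₀ hcl₀
    obtain ⟨S, h1, h2, h3⟩ := lift_gen hNM f hf hk _ S0 hS0 hcl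
    refine ⟨Nat.log 2 (Nat.card T), N₁.relIndex M * 1, ?_, ?_, S, h1, ?_, h3⟩
    · rw [mul_one, hrel]
      exact Nat.pow_log_le_self 2 hT0
    · exact Ch.step N N₁ M _ hNN₁ (fun g _ x hx => hNn.conj_mem x hx g)
        (Ch.bad N₁ M M 1 hN₁M T inferInstance p hp hmem hbad (Ch.refl M))
    · omega

end Pool.Agent.FuS
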