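import Pool.Agent.FuS.ChSplit

/-!
MP_7fa120_al, all subgroups. Bad factors of primitive groups.

`alt_gen`: `Perm Ω` is generated by 2 elements (`Equiv.Perm.closure_cycle_adjacent_swap`, a cycle moving all points and a transposition of neighbours; trivial for at most one point), and the alternating group has index at most 2, so it is
generated by at most 4 elements (Schreier's lemma, `Subgroup.rank_le_index_mul_rank` or `Subgroup.exists_finset_card_le_mul`).
`ch_prim`: if `Z` does not contain the alternating group `A`, by `Pb` `|Z| ≤ 2 ^ B`, `W = 1` (`ch_one`), or `W ^ q ≤ |Z| ^ q ≤ 2 ^ |Ω|` (`ch_card`). Let `A ≤ Z`. If `|Ω| ≤ 4`, `|Z| ≤ 24 ≤ 2 ^ B` and `W = 1`. Let `|Ω| ≥ 5`. By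
induction on the chain from `X` to `Z`: `W = 1`, and `A ≤ X` or `X = ⊥`. For `Z` itself clear. Let `X ≤ Y`, `X` normal in `Y`, and the claim true for `Y`. If `Y = ⊥` then `X = ⊥`, and the step is not bad. Let `A ≤ Y`. `X ⊓ A` is a
normal subgroup of the simple group `A`. If it is `A`, `A ≤ X`, and `|Y : X| ≤ 2`, so the step is not bad. If it is `⊥`, `X` has order at most 2 and commutes with `A` (commutators are in `X ⊓ A`), so `X = ⊥` (for `x ∈ X` with
`x a = b ≠ a` take a 3-cycle fixing `a` and moving `b`). A bad step would make `Y ≅ T` a simple group not generated by 4 elements, but `Y = A` or `Y = Perm Ω` is generated by 4 elements.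
-/

set_option autoImplicit false

namespace Pool.Agent.FuS

open Equiv

/-- Primitive groups not containing the alternating group are small. -/
def Pb (B q : ℕ) : Prop := ∀ (Ω : Type) [Fintype Ω] [DecidableEq Ω] (G : Subgroup (Perm Ω)), MulAction.IsPreprimitive G Ω →
  ¬ alternatingGroup Ω ≤ G → Nat.card G ≤ 2 ^ B ∨ Nat.card G ^ q ≤ 2 ^ Fintype.card Ω

/-- images of generators -/
private theorem gen_map {G G' : Type} [Group G] [Group G'] {m : ℕ} (f : G →* G') (hf : Function.Surjective f)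
    (h : ∃ S : Finset G, S.card ≤ m ∧ Subgroup.closure (S : Set G) = ⊤) :
    ∃ S : Finset G', S.card ≤ m ∧ Subgroup.closure (S : Set G') = ⊤ := by
  classical
  obtain ⟨S, h1, h2⟩ := h
  refine ⟨S.image f, Finset.card_image_le.trans h1, ?_⟩
  rw [Finset.coe_image, ← MonoidHom.map_closure, h2, ← MonoidHom.range_eq_map]
  exact MonoidHom.range_eq_top.2 hf

private theorem perm_gen_two {Ω : Type} [Fintype Ω] [DecidableEq Ω] :
    ∃ S : Finset (Perm Ω), S.card ≤ 2 ∧ Subgroup.closure (S : Set (Perm Ω)) = ⊤ := by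
  classical
  have e : Fin (Fintype.card Ω) ≃ Ω := (Fintype.equivFin Ω).symm
  refine gen_map (Equiv.permCongrHom e).toMonoidHom (Equiv.permCongrHom e).surjective ?_
  generalize Fintype.card Ω = k
  match k with
  | 0 => exact ⟨∅, by simp, Subsingleton.elim _ _⟩
  | 1 => exact ⟨∅, by simp, Subsingleton.elim _ _⟩
  | n + 2 =>
    refine ⟨{finRotate (n + 2), swap 0 (finRotate (n + 2) 0)}, Finset.card_le_two, ?_⟩
    rw [Finset.coe_insert, Finset.coe_singleton]
    exact Perm.closure_cycle_adjacent_swap isCycle_finRotate support_finRotate 0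

theorem perm_gen {Ω : Type} [Fintype Ω] [DecidableEq Ω] :
    ∃ S : Finset (Perm Ω), S.card ≤ 4 ∧ Subgroup.closure (S : Set (Perm Ω)) = ⊤ := by
  obtain ⟨S, h1, h2⟩ := perm_gen_two (Ω := Ω)
  exact ⟨S, h1.trans (by norm_num), h2⟩

private theorem alt_index {Ω : Type} [Fintype Ω] [DecidableEq Ω] : (alternatingGroup Ω).index ≤ 2 := by
  rcases subsingleton_or_nontrivial Ω with h | h
  · rw [alternatingGroup.index_eq_one]
    norm_num
  · rw [alternatingGroup.index_eq_two]

/-- every group containing the alternating group is generated by at most 4 elements -/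
private theorem over_gen {Ω : Type} [Fintype Ω] [DecidableEq Ω] (Y : Subgroup (Perm Ω)) (hY : alternatingGroup Ω ≤ Y) :
    ∃ S : Finset Y, S.card ≤ 4 ∧ Subgroup.closure (S : Set Y) = ⊤ := by
  obtain ⟨S, h1, h2⟩ := perm_gen_two (Ω := Ω)
  obtain ⟨T, h3, h4⟩ := Subgroup.exists_finset_card_le_mul Y h2
  refine ⟨T, h3.trans ?_, h4⟩
  have h5 : Y.index ≤ 2 := (Subgroup.index_antitone hY).trans alt_index
  calc Y.index * S.card ≤ 2 * 2 := Nat.mul_le_mul h5 h1
    _ = 4 := by norm_num

theorem alt_gen {Ω : Type} [Fintype Ω] [DecidableEq Ω] :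
    ∃ S : Finset (alternatingGroup Ω), S.card ≤ 4 ∧ Subgroup.closure (S : Set (alternatingGroup Ω)) = ⊤ :=
  over_gen _ le_rfl

/-- only the identity commutes with the alternating group -/
private theorem comm_alt {Ω : Type} [Fintype Ω] [DecidableEq Ω] (h5 : 5 ≤ Fintype.card Ω) (x : Perm Ω)
    (hx : ∀ a ∈ alternatingGroup Ω, x * a = a * x) : x = 1 := by
  by_contra hne
  obtain ⟨p, hp⟩ : ∃ p, x p ≠ p := by
    by_contra hcon
    push Not at hcon
    exact hne (Equiv.ext hcon)
  obtain ⟨a, ha⟩ : ∃ a, a ∉ ({p, x p} : Finset Ω) := by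
    by_contra hcon
    push Not at hcon
    have h1 : Fintype.card Ω ≤ ({p, x p} : Finset Ω).card := by
      rw [← Finset.card_univ]
      exact Finset.card_le_card fun y _ => hcon y
    have h2 : ({p, x p} : Finset Ω).card ≤ 2 := Finset.card_le_two
    omega
  obtain ⟨b, hb⟩ : ∃ b, b ∉ ({p, x p, a} : Finset Ω) := by
    by_contra hcon
    push Not at hcon
    have h1 : Fintype.card Ω ≤ ({p, x p, a} : Finset Ω).card := by
      rw [← Finset.card_univ]
      exact Finset.card_le_card fun y _ => hcon y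
    have h2 : ({p, x p, a} : Finset Ω).card ≤ 3 := Finset.card_le_three
    omega
  simp only [Finset.mem_insert, Finset.mem_singleton, not_or] at ha hb
  obtain ⟨ha1, ha2⟩ := ha
  obtain ⟨hb1, hb2, hb3⟩ := hb
  have hmem : swap (x p) a * swap (x p) b ∈ alternatingGroup Ω :=
    Perm.mul_mem_alternatingGroup_of_isSwap ⟨_, _, Ne.symm ha2, rfl⟩ ⟨_, _, Ne.symm hb2, rfl⟩
  have h1 := congrArg (fun g : Perm Ω => g p) (hx _ hmem)
  have h2 : (swap (x p) a * swap (x p) b) p = p := by
    rw [Perm.mul_apply, swap_apply_of_ne_of_ne hp.symm (Ne.symm hb1), swap_apply_of_ne_of_ne hp.symm (Ne.symm ha1)]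
  have h3 : (swap (x p) a * swap (x p) b) (x p) = b := by
    rw [Perm.mul_apply, swap_apply_left, swap_apply_of_ne_of_ne hb2 hb3]
  simp only [Perm.mul_apply] at h1 h2 h3
  rw [h2, h3] at h1
  exact hb2 h1.symm

/-- one step -/
private theorem step_alt {Ω : Type} [Fintype Ω] [DecidableEq Ω] (h5 : 5 ≤ Fintype.card Ω) {X Y : Subgroup (Perm Ω)}
    (hn : ∀ g ∈ Y, ∀ x ∈ X, g * x * g⁻¹ ∈ X) (hY : alternatingGroup Ω ≤ Y) :
    alternatingGroup Ω ≤ X ∨ X = ⊥ := by
  have hnorm : (X.subgroupOf (alternatingGroup Ω)).Normal := by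
    constructor
    intro x hx a
    exact Subgroup.mem_subgroupOf.2 (hn a (hY a.2) x (Subgroup.mem_subgroupOf.1 hx))
  have h5' : 5 ≤ Nat.card Ω := by rwa [Nat.card_eq_fintype_card]
  rcases alternatingGroup.normal_subgroup_eq_bot_or_eq_top h5' (N := X.subgroupOf (alternatingGroup Ω)) with h | h
  · right
    rw [eq_bot_iff]
    intro x hx
    rw [Subgroup.mem_bot]
    refine comm_alt h5 x fun a ha => ?_
    have h1 : x * a * x⁻¹ * a⁻¹ ∈ X := by
      have h2 : x * a * x⁻¹ * a⁻¹ = x * (a * x⁻¹ * a⁻¹) := by group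
      rw [h2]
      exact X.mul_mem hx (hn a (hY ha) _ (X.inv_mem hx))
    have h3 : x * a * x⁻¹ * a⁻¹ ∈ alternatingGroup Ω :=
      Subgroup.mul_mem _ ((inferInstance : (alternatingGroup Ω).Normal).conj_mem a ha x) (Subgroup.inv_mem _ ha)
    have h4 : (⟨x * a * x⁻¹ * a⁻¹, h3⟩ : alternatingGroup Ω) ∈ X.subgroupOf (alternatingGroup Ω) :=
      Subgroup.mem_subgroupOf.2 h1
    rw [h, Subgroup.mem_bot] at h4
    have h5 : x * a * x⁻¹ * a⁻¹ = 1 := congrArg Subtype.val h4
    have h6 : x * a = (x * a * x⁻¹ * a⁻¹) * (a * x) := by group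
    rw [h6, h5, one_mul]
  · left
    rw [Subgroup.subgroupOf_eq_top] at h
    exact h

private theorem chain_alt {B : ℕ} {Ω : Type} [Fintype Ω] [DecidableEq Ω] (h5 : 5 ≤ Fintype.card Ω)
    {X Z : Subgroup (Perm Ω)} {W : ℕ} (hc : Ch B X Z W) (hZ : alternatingGroup Ω ≤ Z) :
    W = 1 ∧ (alternatingGroup Ω ≤ X ∨ X = ⊥) := by
  induction hc with
  | refl X => exact ⟨rfl, Or.inl hZ⟩
  | step X Y Z W h hn hc ih =>
    obtain ⟨h1, h2⟩ := ih hZ
    refine ⟨h1, ?_⟩
    rcases h2 with h2 | h2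
    · exact step_alt h5 hn h2
    · right
      rw [eq_bot_iff, ← h2]
      exact h
  | bad X Y Z W h T iT f hf hk hT hc ih =>
    exfalso
    obtain ⟨h1, h2⟩ := ih hZ
    rcases h2 with h2 | h2
    · exact hT.2.2.2 (gen_map f hf (over_gen Y h2))
    · subst h2
      refine hT.2.2.2 (gen_map f hf ⟨∅, by simp, Subsingleton.elim _ _⟩)

theorem ch_prim {B q : ℕ} (hP : Pb B q) (hB : 5 ≤ B) {Ω : Type} [Fintype Ω] [DecidableEq Ω] (Z : Subgroup (Perm Ω))
    (hp : MulAction.IsPreprimitive Z Ω) (X : Subgroup (Perm Ω)) (W : ℕ) (hc : Ch B X Z W) : W ^ q ≤ 2 ^ Fintype.card Ω := by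
  have hone : W = 1 → W ^ q ≤ 2 ^ Fintype.card Ω := by
    intro h
    rw [h, one_pow]
    exact Nat.one_le_two_pow
  by_cases hA : alternatingGroup Ω ≤ Z
  · by_cases h5 : 5 ≤ Fintype.card Ω
    · exact hone (chain_alt h5 hc hA).1
    · refine hone (ch_one hc ?_)
      calc Nat.card Z ≤ Nat.card (Perm Ω) := Subgroup.card_le_card_group Z
        _ = (Fintype.card Ω).factorial := by rw [Nat.card_eq_fintype_card, Fintype.card_perm]
        _ ≤ Nat.factorial 4 := Nat.factorial_le (by omega)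
        _ ≤ 2 ^ 5 := by decide
        _ ≤ 2 ^ B := Nat.pow_le_pow_right (by norm_num) hB
  · rcases hP Ω Z hp hA with h | h
    · exact hone (ch_one hc h)
    · exact (Nat.pow_le_pow_left (ch_card hc) q).trans h

end Pool.Agent.FuS
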