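import Pool.Agent.FuS.Defs

/-!
MP_7fa120_al, all subgroups. Chains with bad factors.

All by induction on the chain `Ch`. `ch_le`, `ch_card`, `ch_comp`, `ch_sub` (restrict `f`; `Subgroup.relIndex_subgroupOf`) are clear. `ch_one`: a bad factor has order more than `2 ^ B`, at most `|Y| ≤ |Z|`.
`ch_split`: let `N = f.ker`. Let `X` be normal in `Y` (`X ≤ Y`, `g x g⁻¹ ∈ X`). Step without weight: clear, `X ⊓ N` is normal in `Y ⊓ N` and `X.map f` in `Y.map f`. Bad step, `φ : Y →* T` surjective with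
kernel `X`, `T` simple: `φ (Y ⊓ N)` is a normal subgroup of `T`, so it is `1` or `T`.
(a) It is `T`: then `φ` restricted to `Y ⊓ N` is surjective with kernel `X ⊓ N`, so this is a bad step from `X ⊓ N` to `Y ⊓ N`, with `(X ⊓ N).relIndex (Y ⊓ N) = |T| = X.relIndex Y`; and `X.map f`, `Y.map f` is a
step without weight.
(b) It is `1`: `Y ⊓ N ≤ X`, so `φ` induces a homomorphism of `Y.map f` onto `T` with kernel `X.map f` (if `f y = f y'` then `y⁻¹ y' ∈ Y ⊓ N ≤ X`): a bad step from `X.map f` to `Y.map f`, with relative index `|T|`, and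
`X ⊓ N = Y ⊓ N`.
-/

set_option autoImplicit false

namespace Pool.Agent.FuS

private theorem chs_rel {G : Type} [Group G] {X Y : Subgroup G} {T : Type} [Group T] (f : Y →* T)
    (hf : Function.Surjective f) (hk : ∀ y : Y, f y = 1 ↔ (y : G) ∈ X) :
    X.relIndex Y = Nat.card T := by
  have h1 : X.subgroupOf Y = f.ker := by
    ext y
    rw [Subgroup.mem_subgroupOf, MonoidHom.mem_ker]
    exact (hk y).symm
  rw [Subgroup.relIndex, h1, Subgroup.index_ker, MonoidHom.range_eq_top.2 hf, Subgroup.card_top]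

theorem ch_le {B : ℕ} {G : Type} [Group G] {X Z : Subgroup G} {W : ℕ} (hc : Ch B X Z W) : X ≤ Z := by
  induction hc with
  | refl X => exact le_refl X
  | step X Y Z W h hn hc ih => exact h.trans ih
  | bad X Y Z W h T iT f hf hk hT hc ih => exact h.trans ih

private theorem chs_card {B : ℕ} {G : Type} [Group G] [Finite G] {X Z : Subgroup G} {W : ℕ}
    (hc : Ch B X Z W) : W * Nat.card X ≤ Nat.card Z := by
  induction hc with
  | refl X => rw [one_mul]
  | step X Y Z W h hn hc ih =>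
    refine le_trans (Nat.mul_le_mul_left W ?_) ih
    exact Nat.card_le_card_of_injective _ (Subgroup.inclusion_injective h)
  | bad X Y Z W h T iT f hf hk hT hc ih =>
    have h1 : Nat.card X * X.relIndex Y = Nat.card Y := by
      have h2 := (X.subgroupOf Y).card_mul_index
      rw [Nat.card_congr (Subgroup.subgroupOfEquivOfLe h).toEquiv] at h2
      exact h2
    calc X.relIndex Y * W * Nat.card X = W * (Nat.card X * X.relIndex Y) := by ring
      _ = W * Nat.card Y := by rw [h1]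
      _ ≤ Nat.card Z := ih

theorem ch_card {B : ℕ} {G : Type} [Group G] [Finite G] {X Z : Subgroup G} {W : ℕ} (hc : Ch B X Z W) : W ≤ Nat.card Z := by
  refine le_trans ?_ (chs_card hc)
  exact Nat.le_mul_of_pos_right W Nat.card_pos

theorem ch_one {B : ℕ} {G : Type} [Group G] [Finite G] {X Z : Subgroup G} {W : ℕ} (hc : Ch B X Z W)
    (h : Nat.card Z ≤ 2 ^ B) : W = 1 := by
  induction hc with
  | refl X => rfl
  | step X Y Z W hXY hn hc ih => exact ih h
  | bad X Y Z W hXY T iT f hf hk hT hc ih =>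
    exfalso
    have h1 : Nat.card T ≤ Nat.card Y := Nat.card_le_card_of_surjective f hf
    have h2 : Nat.card Y ≤ Nat.card Z :=
      Nat.card_le_card_of_injective _ (Subgroup.inclusion_injective (ch_le hc))
    have h3 := hT.2.2.1
    omega

theorem ch_comp {B : ℕ} {G : Type} [Group G] {X Y Z : Subgroup G} {W W' : ℕ} (h : Ch B X Y W) (h' : Ch B Y Z W') :
    Ch B X Z (W * W') := by
  induction h with
  | refl X => rw [one_mul]; exact h'
  | step X Y₁ Y W hXY hn hc ih => exact Ch.step _ Y₁ _ _ hXY hn (ih h')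
  | bad X Y₁ Y W hXY T iT f hf hk hT hc ih =>
    rw [mul_assoc]
    exact Ch.bad _ Y₁ _ _ hXY T iT f hf hk hT (ih h')

theorem ch_sub {B : ℕ} {G : Type} [Group G] {X Z : Subgroup G} {W : ℕ} (hc : Ch B X Z W) (N : Subgroup G) (hZ : Z ≤ N) :
    Ch B (X.subgroupOf N) (Z.subgroupOf N) W := by
  induction hc with
  | refl X => exact Ch.refl _
  | step X Y Z W h hn hc ih =>
    refine Ch.step _ (Y.subgroupOf N) _ _ (Subgroup.comap_mono h) ?_ (ih hZ)
    intro g hg x hx
    rw [Subgroup.mem_subgroupOf] at hg hx ⊢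
    exact hn _ hg _ hx
  | bad X Y Z W h T iT f hf hk hT hc ih =>
    have hYN : Y ≤ N := (ch_le hc).trans hZ
    rw [← Subgroup.relIndex_subgroupOf (H := X) hYN]
    refine Ch.bad _ (Y.subgroupOf N) _ _ (Subgroup.comap_mono h) T iT
      (f.comp (Subgroup.subgroupOfEquivOfLe hYN).toMonoidHom) ?_ ?_ hT (ih hZ)
    · exact hf.comp (Subgroup.subgroupOfEquivOfLe hYN).surjective
    · intro y
      rw [Subgroup.mem_subgroupOf]
      exact hk _

theorem ch_split {B : ℕ} {G G' : Type} [Group G] [Finite G] [Group G'] {X Z : Subgroup G} {W : ℕ} (hc : Ch B X Z W)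
    (f : G →* G') :
    ∃ W₁ W₂ : ℕ, W = W₁ * W₂ ∧ Ch B (X ⊓ f.ker) (Z ⊓ f.ker) W₁ ∧ Ch B (X.map f) (Z.map f) W₂ := by
  induction hc with
  | refl X => exact ⟨1, 1, rfl, Ch.refl _, Ch.refl _⟩
  | step X Y Z W h hn hc ih =>
    obtain ⟨W₁, W₂, hW, h1, h2⟩ := ih
    refine ⟨W₁, W₂, hW, Ch.step _ (Y ⊓ f.ker) _ _ (inf_le_inf_right _ h) ?_ h1,
      Ch.step _ (Y.map f) _ _ (Subgroup.map_mono h) ?_ h2⟩
    · rintro g ⟨hg, hgf⟩ x ⟨hx, hxf⟩
      exact ⟨hn g hg x hx, (inferInstance : f.ker.Normal).conj_mem x hxf g⟩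
    · rintro _ ⟨g, hg, rfl⟩ _ ⟨x, hx, rfl⟩
      refine ⟨g * x * g⁻¹, hn g hg x hx, ?_⟩
      rw [map_mul, map_mul, map_inv]
  | bad X Y Z W h T iT φ hφ hk hT hc ih =>
    obtain ⟨W₁, W₂, hW, h1, h2⟩ := ih
    have hrel := chs_rel φ hφ hk
    have hXn : ∀ g ∈ Y, ∀ x ∈ X, g * x * g⁻¹ ∈ X := by
      intro g hg x hx
      have h3 : φ ⟨x, h hx⟩ = 1 := (hk ⟨x, h hx⟩).2 hx
      have h4 := (hk (⟨g, hg⟩ * ⟨x, h hx⟩ * ⟨g, hg⟩⁻¹)).1 (by
        rw [map_mul, map_mul, map_inv, h3, mul_one, mul_inv_cancel])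
      exact h4
    haveI hsimp : IsSimpleGroup T := hT.1
    have hnorm : ((f.ker.subgroupOf Y).map φ).Normal :=
      Subgroup.Normal.map inferInstance φ hφ
    rcases hnorm.eq_bot_or_eq_top with h0 | h0
    · -- the kernel is contained in `X`
      have hle : ∀ y ∈ Y, f y = 1 → y ∈ X := by
        intro y hy hfy
        have h3 : φ ⟨y, hy⟩ ∈ (f.ker.subgroupOf Y).map φ :=
          ⟨⟨y, hy⟩, Subgroup.mem_subgroupOf.2 (MonoidHom.mem_ker.2 hfy), rfl⟩
        rw [h0, Subgroup.mem_bot] at h3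
        exact (hk ⟨y, hy⟩).1 h3
      have hinf : X ⊓ f.ker = Y ⊓ f.ker := by
        apply le_antisymm (inf_le_inf_right _ h)
        rintro y ⟨hy, hyf⟩
        exact ⟨hle y hy hyf, hyf⟩
      have hsurj : Function.Surjective (f.subgroupMap Y) := f.subgroupMap_surjective Y
      have hker : (f.subgroupMap Y).ker ≤ φ.ker := by
        intro y hy
        rw [MonoidHom.mem_ker] at hy ⊢
        have h3 : f y = 1 := congrArg Subtype.val hy
        exact (hk y).2 (hle y y.2 h3)
      let ψ : Y.map f →* T := (f.subgroupMap Y).liftOfRightInverse (Function.surjInv hsurj)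
        (Function.rightInverse_surjInv hsurj) ⟨φ, hker⟩
      have hψ : ∀ y : Y, ψ (f.subgroupMap Y y) = φ y := fun y =>
        MonoidHom.liftOfRightInverse_comp_apply _ _ _ _ y
      have hψs : Function.Surjective ψ := by
        intro t
        obtain ⟨y, hy⟩ := hφ t
        exact ⟨f.subgroupMap Y y, (hψ y).trans hy⟩
      have hψk : ∀ u : Y.map f, ψ u = 1 ↔ (u : G') ∈ X.map f := by
        intro u
        obtain ⟨y, rfl⟩ := hsurj u
        rw [hψ, hk]
        constructor
        · intro hy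
          exact ⟨y, hy, rfl⟩
        · rintro ⟨x, hx, hxy⟩
          have hxy' : f x = f y := hxy
          have h3 : x⁻¹ * (y : G) ∈ X := by
            apply hle _ (Y.mul_mem (Y.inv_mem (h hx)) y.2)
            rw [map_mul, map_inv, hxy', inv_mul_cancel]
          have h4 := X.mul_mem hx h3
          rwa [mul_inv_cancel_left] at h4
      have hrel' := chs_rel ψ hψs hψk
      refine ⟨W₁, (X.map f).relIndex (Y.map f) * W₂, ?_, ?_, ?_⟩
      · rw [hrel, hrel', hW]
        ring
      · rw [hinf]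
        exact h1
      · exact Ch.bad _ (Y.map f) _ _ (Subgroup.map_mono h) T iT ψ hψs hψk hT h2
    · -- `φ` is surjective on the kernel
      let ψ : (Y ⊓ f.ker : Subgroup G) →* T := φ.comp (Subgroup.inclusion inf_le_left)
      have hψs : Function.Surjective ψ := by
        intro t
        have ht : t ∈ (f.ker.subgroupOf Y).map φ := by
          rw [h0]
          exact Subgroup.mem_top t
        obtain ⟨y, hy, rfl⟩ := ht
        exact ⟨⟨y, y.2, Subgroup.mem_subgroupOf.1 hy⟩, rfl⟩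
      have hψk : ∀ u : (Y ⊓ f.ker : Subgroup G), ψ u = 1 ↔ (u : G) ∈ X ⊓ f.ker := by
        intro u
        constructor
        · intro hu
          exact ⟨(hk _).1 hu, u.2.2⟩
        · intro hu
          exact (hk _).2 hu.1
      have hrel' := chs_rel ψ hψs hψk
      refine ⟨(X ⊓ f.ker).relIndex (Y ⊓ f.ker) * W₁, W₂, ?_, ?_, ?_⟩
      · rw [hrel, hrel', hW]
        ring
      · exact Ch.bad _ (Y ⊓ f.ker) _ _ (inf_le_inf_right _ h) T iT ψ hψs hψk hT h1
      · refine Ch.step _ (Y.map f) _ _ (Subgroup.map_mono h) ?_ h2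
        rintro _ ⟨g, hg, rfl⟩ _ ⟨x, hx, rfl⟩
        refine ⟨g * x * g⁻¹, hXn g hg x hx, ?_⟩
        rw [map_mul, map_mul, map_inv]

end Pool.Agent.FuS
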