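import Pool.Agent.FuS.GenF
import Pool.Agent.GcS.Core
import Pool.Agent.GcS.StepG
import Pool.Agent.GcS.ProcG
import Pool.Agent.GcS.FirstG

/-!
MP_7fa120_al, all subgroups. The steps.

The same proofs as for `GcS.core_g`, `step_g`, `proc_g`, `first_g` (`GcS/Core.lean`, `StepG.lean`, `ProcG.lean`, `FirstG.lean`, proved there; copy them), with `gen_f` instead of `gen_g`, so with the hypothesis `Lc B c H`, `4 ≤ B` instead of `Sb B H` (in `proc_f` for
all subgroups of `X`, as it is used for smaller `H`) and `EE … + c` instead of `EE …`.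
-/

set_option autoImplicit false

namespace Pool.Agent.FuS

open Equiv Pool.Agent.NilS Pool.Agent.BdO Pool.Agent.SvS Pool.Agent.GcS

private theorem EE_mono {b b' : ℕ} (h : b ≤ b') (Λ B : ℕ) : EE b Λ B ≤ EE b' Λ B := by
  unfold EE
  exact Nat.mul_le_mul (Nat.div_le_div_right h)
    (Nat.add_le_add_right (Nat.add_le_add_left (Nat.log_mono_right h) _) _)

private theorem mx_mono {G : Type} [Group G] [Finite G] {Y Y' N M : Subgroup G} (h : Y ≤ Y') (j : ℕ) :
    Nat.card (Mx Y' N M j) ≤ Nat.card (Mx Y N M j) := by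
  have : Finite (Mx Y N M j) := Subtype.finite
  refine Nat.card_le_card_of_injective (fun L => ⟨L.1, L.2.1, L.2.2.1, h.trans L.2.2.2.1, L.2.2.2.2⟩) ?_
  intro L L' e
  exact Subtype.ext (congrArg (fun z : Mx Y N M j => z.1) e)

theorem core_f {X : Type} [Group X] [Finite X] (H : Subgroup X) (B c k Λ β g : ℕ) (hB4 : 4 ≤ B) (hB : Lc B c H)
    (hp : Par (Nat.log 2 (Nat.card X)) k Λ β g) (Y R : Subgroup H) (hR : R.Normal) (hY : Y ⊔ R = ⊤) :
    (∃ S : Finset H, (∀ x ∈ S, x ∈ R) ∧ S.card ≤ k + (EE (Nat.log 2 (Nat.card X)) Λ B + c) ∧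
      Y ⊔ Subgroup.closure (S : Set H) = ⊤) ∨
    Rl H g (jg (Nat.log 2 (Nat.card X)) k) ∨
    ∃ (N M C : Subgroup H) (δ : ℕ) (K : Fin δ → Subgroup H), Chief N M ∧ M ≤ R ∧ Ab N M ∧ Czr C N M ∧
      Indep C (N.relIndex M) δ K ∧ k / 2 ≤ δ ∧ (N.relIndex M).Prime ∧ Nonempty (Mx Y N M (N.relIndex M)) := by
  obtain ⟨hΛ, h1, h2, h3, h4⟩ := hp
  have hcard : Nat.card H ≤ Nat.card X := Subgroup.card_le_card_group H
  have hlog : Nat.log 2 (Nat.card H) ≤ Nat.log 2 (Nat.card X) := Nat.log_mono_right hcard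
  have hk8 : 8 ≤ k := by omega
  rcases gen_f H B c hB4 hB Y R hR hY k Λ hΛ with ⟨S, hS1, hS2, hS3⟩ | ⟨N, M, hch, hMR, hor, Y', hYY', x, hx, hb⟩
  · exact Or.inl ⟨S, hS1, hS2.trans (Nat.add_le_add_left (Nat.add_le_add_right (EE_mono hlog Λ B) c) k), hS3⟩
  right
  obtain ⟨j, hj, hm'⟩ := bad_j Y' N M hch.1 hch.2.1 hch.2.2.1.le k (by omega) x hx hb
  have hm : j ^ (k - 2) ≤ Nat.card (Mx Y N M j) := hm'.trans (mx_mono hYY' j)
  by_cases hab : Ab N M
  swap
  · exfalso
    refine non_false Y hch hab Λ j k (hor.resolve_left hab) hj ?_ hm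
    have := Nat.log_mono_right (b := 2) hlog
    omega
  obtain ⟨hjq, hcm⟩ := mx_cm Y hch hab j (k - 2) hj hm
  subst hjq
  rcases Nat.lt_or_ge (Nat.log 2 (N.relIndex M)) β with hβ | hβ
  swap
  · left
    have e1 : 2 ^ g ≤ Nat.card (Mx Y N M (N.relIndex M)) := by
      calc 2 ^ g ≤ 2 ^ ((k - 2) * β) := Nat.pow_le_pow_right (by norm_num) h3
        _ = (2 ^ β) ^ (k - 2) := by rw [← pow_mul, mul_comm]
        _ ≤ (N.relIndex M) ^ (k - 2) := by
          refine Nat.pow_le_pow_left ?_ _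
          exact (Nat.pow_le_pow_right (by norm_num) hβ).trans (Nat.pow_log_le_self 2 (by omega))
        _ ≤ _ := hm
    refine rl_mono (rl_of_mx H Y N M g _ e1) le_rfl ?_
    unfold jg
    exact Nat.one_le_pow _ _ (Nat.succ_pos _)
  obtain ⟨C, δ, K, hCz, hInd, hkδ⟩ := ab_c Y N M hch hab (k - 2) hcm
  have hδ : k / 2 ≤ δ := by
    have a1 : (Nat.log 2 (N.relIndex M) + 1) ^ 2 ≤ β ^ 2 := Nat.pow_le_pow_left (by omega) 2
    have a2 : 2 * (β + 2) ^ 2 = 2 * β ^ 2 + 8 * β + 8 := by ring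
    omega
  by_cases hq : (N.relIndex M).Prime
  · right
    refine ⟨N, M, C, δ, K, hch, hMR, hab, hCz, hInd, hδ, hq, ?_⟩
    have a1 : 0 < Nat.card (Mx Y N M (N.relIndex M)) :=
      (Nat.pow_pos (by omega : 0 < N.relIndex M)).trans_le hm
    exact (Nat.card_pos_iff.1 a1).1
  · left
    have hδ0 : 0 < δ := by omega
    obtain ⟨c1, c2, c3⟩ := hInd.1 ⟨0, hδ0⟩
    obtain ⟨S, hS1, hS2⟩ := type_s c1 c2 c3
    have e1 := type_r hInd hq S hS2
    have e2 : 2 ^ g ≤ Nat.card (Rec C S) := by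
      refine (Nat.pow_le_pow_right (by norm_num) ?_).trans e1
      exact h4.trans (Nat.mul_le_mul (by omega) (by omega))
    have e3 : Many H g ((Nat.log 2 (N.relIndex M) + 1) ^ 2) := many_of_rec H C S hS2 g _ hS1 e2
    refine rl_mono (rl_of_many e3) le_rfl ?_
    unfold jg
    refine Nat.pow_le_pow_left (Nat.add_le_add_right ?_ 1) 2
    rw [Nat.le_div_iff_mul_le (by omega)]
    have d1 := indep_card hInd
    have d2 : 2 ^ (Nat.log 2 (N.relIndex M) * δ) ≤ Nat.card H := by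
      rw [pow_mul]
      exact (Nat.pow_le_pow_left (Nat.pow_log_le_self 2 (by omega)) δ).trans d1
    have d3 : Nat.log 2 (N.relIndex M) * δ ≤ Nat.log 2 (Nat.card H) :=
      Nat.le_log_of_pow_le (by norm_num) d2
    exact (Nat.mul_le_mul_left _ hδ).trans (d3.trans hlog)

theorem step_f {X : Type} [Group X] [Finite X] (H : Subgroup X) (B c k Λ β g : ℕ) (hB4 : 4 ≤ B) (hB : Lc B c H)
    (hp : Par (Nat.log 2 (Nat.card X)) k Λ β g) :
    Nil H (no H).index (k + (EE (Nat.log 2 (Nat.card X)) Λ B + c)) ∨ Rl H g (jg (Nat.log 2 (Nat.card X)) k) ∨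
      ∃ (H' : Subgroup X) (x : X), H' ≤ H ∧ H' ⊔ Subgroup.zpowers x = H ∧
        (no H).index * 2 ^ (k / 2 - 1) ≤ (no H').index := by
  obtain ⟨Y, hY1, hY2⟩ := nil_supp H
  rcases core_f H B c k Λ β g hB4 hB hp Y (na H) (na_normal H) hY2 with
    ⟨S, _, hS2, hS3⟩ | h | ⟨N, M, C, δ, K, hch, hM, hab, hC, hI, hδ, hq, ⟨⟨L, hL1, hL2, _, hL4, hL5⟩⟩⟩
  · left
    obtain ⟨a, m, hm1, hm2, hm3⟩ := nil_odd Y hY2
    refine ⟨Y.map H.subtype, S.map ⟨H.subtype, H.subtype_injective⟩, a, m, ?_, ?_, hm2, hm3, ?_, ?_⟩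
    · have e := Y.equivMapOfInjective H.subtype H.subtype_injective
      exact (Group.isNilpotent_congr e).1 hY1
    · rw [← hm1]
      exact Subgroup.card_map_of_injective H.subtype_injective
    · rw [Finset.card_map]
      exact hS2
    · rw [Finset.coe_map]
      change Y.map H.subtype ⊔ Subgroup.closure (H.subtype '' (S : Set H)) = H
      rw [← MonoidHom.map_closure, ← Subgroup.map_sup, hS3, ← MonoidHom.range_eq_map, Subgroup.range_subtype]
  · right
    left
    exact h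
  · right
    right
    have hk : 8 ≤ k := by
      obtain ⟨-, h2, -⟩ := hp
      omega
    have i0 : Fin δ := ⟨0, by omega⟩
    have hCtop : C ≠ ⊤ := by
      intro htop
      obtain ⟨hNn, hMn, hlt, _⟩ := hch
      have hLn : L.Normal := by
        refine ⟨fun x hx g => ?_⟩
        have hg : g ∈ L ⊔ M := by rw [hL4]; exact Subgroup.mem_top g
        obtain ⟨l, hl, m, hm, rfl⟩ := Subgroup.mem_sup_of_normal_right.1 hg
        have h1 : x * m * x⁻¹ * m⁻¹ ∈ N := (hC x).1 (by rw [htop]; exact Subgroup.mem_top x) m hm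
        have e1 : l * m * x * (l * m)⁻¹ = l * ((x * m * x⁻¹ * m⁻¹)⁻¹ * x) * l⁻¹ := by group
        rw [e1]
        exact mul_mem (mul_mem hl (mul_mem (inv_mem (hL2 h1)) hx)) (inv_mem hl)
      have h2 : na H ≤ L := sInf_le ⟨hLn, N.relIndex M, hq, hL5⟩
      apply hL1.1
      rw [← hL4]
      exact (sup_eq_left.2 (hM.trans h2)).symm
    obtain ⟨⟨x, hx⟩, _, _⟩ := prime_x (hI.1 i0).1 (hI.1 i0).2.1 hq (hI.1 i0).2.2
    have h1 := prime_c hI hq (by omega) hCtop
    refine ⟨C.map H.subtype, (x : X), Subgroup.map_subtype_le C, ?_, ?_⟩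
    · have h2 : (Subgroup.zpowers x).map H.subtype = Subgroup.zpowers (x : X) :=
        MonoidHom.map_zpowers H.subtype x
      rw [← h2, ← Subgroup.map_sup, hx, ← MonoidHom.range_eq_map, Subgroup.range_subtype]
    · rw [← no_iso (C.equivMapOfInjective H.subtype H.subtype_injective)]
      refine le_trans (Nat.mul_le_mul_left _ ?_) h1
      exact Nat.pow_le_pow_right (by norm_num) (by omega)

private theorem proc_aux {X : Type} [Group X] [Finite X] (B c k Λ β g : ℕ) (hB4 : 4 ≤ B)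
    (hB : ∀ H : Subgroup X, Lc B c H)
    (hp : Par (Nat.log 2 (Nat.card X)) k Λ β g) : ∀ (t : ℕ) (H : Subgroup X),
    2 ^ (Nat.log 2 (Nat.card X) + 1) ≤ (no H).index * 2 ^ ((t + 1) * (k / 2 - 1)) →
    Nil H (no H).index (k + (EE (Nat.log 2 (Nat.card X)) Λ B + c) + t) ∨
      Rl H g (jg (Nat.log 2 (Nat.card X)) k + t) := by
  intro t
  induction t with
  | zero =>
    intro H h
    rcases step_f H B c k Λ β g hB4 (hB H) hp with h1 | h1 | ⟨H', x, h1, h2, h3⟩
    · exact Or.inl h1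
    · exact Or.inr h1
    · exfalso
      have h4 : (no H').index ≤ Nat.card X :=
        (Nat.le_of_dvd Nat.card_pos (Subgroup.index_dvd_card _)).trans
          (Nat.le_of_dvd Nat.card_pos (Subgroup.card_subgroup_dvd_card H'))
      have h5 : Nat.card X < 2 ^ (Nat.log 2 (Nat.card X) + 1) :=
        Nat.lt_pow_succ_log_self (by norm_num) _
      rw [zero_add, one_mul] at h
      omega
  | succ t ih =>
    intro H h
    rcases step_f H B c k Λ β g hB4 (hB H) hp with h1 | h1 | ⟨H', x, h1, h2, h3⟩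
    · refine Or.inl (nil_up h1 le_rfl ∅ (Nat.zero_le _) ?_)
      rw [Finset.coe_empty, Subgroup.closure_empty, sup_bot_eq]
    · exact Or.inr (rl_mono h1 le_rfl (Nat.le_add_right _ _))
    · have h4 : 2 ^ (Nat.log 2 (Nat.card X) + 1) ≤ (no H').index * 2 ^ ((t + 1) * (k / 2 - 1)) :=
        calc 2 ^ (Nat.log 2 (Nat.card X) + 1) ≤
              (no H).index * 2 ^ ((t + 1 + 1) * (k / 2 - 1)) := h
          _ = (no H).index * 2 ^ (k / 2 - 1) * 2 ^ ((t + 1) * (k / 2 - 1)) := by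
            rw [mul_assoc, ← pow_add]
            congr 2
            ring
          _ ≤ (no H').index * 2 ^ ((t + 1) * (k / 2 - 1)) := Nat.mul_le_mul_right _ h3
      have h5 : (no H).index ≤ (no H').index := by
        refine le_trans ?_ h3
        exact Nat.le_mul_of_pos_right _ (by positivity)
      have h6 : H' ⊔ Subgroup.closure ((({x} : Finset X)) : Set X) = H := by
        rw [Finset.coe_singleton, ← Subgroup.zpowers_eq_closure, h2]
      rcases ih H' h4 with h7 | h7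
      · exact Or.inl (nil_up (t := 1) h7 h5 {x} (by rw [Finset.card_singleton]) h6)
      · exact Or.inr (rl_up (t := 1) h7 {x} (by rw [Finset.card_singleton]) h6)

theorem proc_f {X : Type} [Group X] [Finite X] (H : Subgroup X) (B c k Λ β g : ℕ) (hB4 : 4 ≤ B)
    (hB : ∀ H : Subgroup X, Lc B c H) (hp : Par (Nat.log 2 (Nat.card X)) k Λ β g) :
    Nil H (no H).index (k + (EE (Nat.log 2 (Nat.card X)) Λ B + c) + tg (Nat.log 2 (Nat.card X)) k) ∨
      Rl H g (jg (Nat.log 2 (Nat.card X)) k + tg (Nat.log 2 (Nat.card X)) k) := by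
  refine proc_aux B c k Λ β g hB4 hB hp _ H ?_
  have hk : 8 ≤ k := by
    obtain ⟨_, h, _⟩ := hp
    omega
  have h1 : Nat.log 2 (Nat.card X) + 1 ≤ (tg (Nat.log 2 (Nat.card X)) k + 1) * (k / 2 - 1) := by
    have h2 := Nat.lt_mul_div_succ (Nat.log 2 (Nat.card X)) (show 0 < k / 2 - 1 by omega)
    unfold tg
    rw [mul_comm]
    exact h2
  have h3 : 1 ≤ (no H).index := Nat.one_le_iff_ne_zero.2 Subgroup.index_ne_zero_of_finite
  calc 2 ^ (Nat.log 2 (Nat.card X) + 1) ≤
        2 ^ ((tg (Nat.log 2 (Nat.card X)) k + 1) * (k / 2 - 1)) :=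
          Nat.pow_le_pow_right (by norm_num) h1
    _ ≤ (no H).index * 2 ^ ((tg (Nat.log 2 (Nat.card X)) k + 1) * (k / 2 - 1)) :=
        Nat.le_mul_of_pos_left _ h3

private theorem fg_map {n : ℕ} (H : Subgroup (Perm (Fin n))) :
    oddGen H = (oddGen (⊤ : Subgroup H)).map H.subtype := by
  unfold oddGen
  rw [MonoidHom.map_closure]
  congr 1
  ext g
  constructor
  · rintro ⟨hg, r, j, hr, hr2, ho⟩
    exact ⟨⟨g, hg⟩, ⟨Subgroup.mem_top _, r, j, hr, hr2, by rw [Subgroup.orderOf_mk]; exact ho⟩, rfl⟩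
  · rintro ⟨g', ⟨-, r, j, hr, hr2, ho⟩, rfl⟩
    exact ⟨g'.2, r, j, hr, hr2, by rw [← ho]; exact Subgroup.orderOf_coe g'⟩

private theorem fg_normal (G : Type) [Group G] : (oddGen (⊤ : Subgroup G)).Normal := by
  constructor
  intro n hn g
  have h1 : oddGen (⊤ : Subgroup G) ≤ (oddGen (⊤ : Subgroup G)).comap (MulAut.conj g).toMonoidHom := by
    conv_lhs => unfold oddGen
    rw [Subgroup.closure_le]
    rintro x ⟨-, r, j, hr, hr2, hx⟩
    rw [SetLike.mem_coe, Subgroup.mem_comap]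
    refine Subgroup.subset_closure ⟨Subgroup.mem_top _, r, j, hr, hr2, ?_⟩
    rw [← hx]
    exact MulEquiv.orderOf_eq (MulAut.conj g) x
  have h2 := h1 hn
  rw [Subgroup.mem_comap] at h2
  exact h2

private theorem fg_two {G : Type} [Group G] (L : Subgroup G) (h : L.index = 2) : oddGen (⊤ : Subgroup G) ≤ L := by
  unfold oddGen
  rw [Subgroup.closure_le]
  rintro x ⟨-, r, j, hr, hr2, hx⟩
  have hodd : Odd (orderOf x) := by
    rw [hx]
    exact (hr.odd_of_ne_two hr2).pow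
  obtain ⟨m, hm⟩ := hodd
  have h1 : x ^ 2 ∈ L := Subgroup.sq_mem_of_index_two h x
  have h2 : x = (x ^ 2) ^ (m + 1) := by
    rw [← pow_mul]
    have h3 : 2 * (m + 1) = orderOf x + 1 := by omega
    rw [h3, pow_succ, pow_orderOf_eq_one, one_mul]
  rw [h2]
  exact pow_mem h1 _

theorem first_f {n : ℕ} (H D : Subgroup (Perm (Fin n))) (hR : oddGen H ⊔ D = H) (B c k Λ β g : ℕ) (hB4 : 4 ≤ B)
    (hB : Lc B c H) (hp : Par (lf n) k Λ β g) :
    (∃ S : Finset (Perm (Fin n)), (∀ x ∈ S, x ∈ oddGen H) ∧ S.card ≤ k + (EE (lf n) Λ B + c) ∧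
      D ⊔ Subgroup.closure (S : Set (Perm (Fin n))) = H) ∨
    Rl H g (jg (lf n) k) ∨
    ∃ (C : Subgroup (Perm (Fin n))) (x : Perm (Fin n)), C ≤ H ∧ C ⊔ Subgroup.zpowers x = H ∧
      2 ^ (k / 2) ≤ (no C).index := by
  have hcardX : Nat.card (Perm (Fin n)) = n.factorial := by
    rw [Nat.card_perm, Nat.card_fin]
  have hlf : Nat.log 2 (Nat.card (Perm (Fin n))) = lf n := by
    rw [hcardX, lf]
  have hDH : D ≤ H := by
    rw [← hR]
    exact le_sup_right
  have hinj := Subgroup.subtype_injective H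
  have hRn := fg_normal H
  have hmap := fg_map H
  have hDmap : (D.subgroupOf H).map H.subtype = D := Subgroup.map_subgroupOf_eq_of_le hDH
  have htop : (⊤ : Subgroup H).map H.subtype = H := by
    rw [← MonoidHom.range_eq_map, Subgroup.range_subtype]
  have hY : D.subgroupOf H ⊔ oddGen (⊤ : Subgroup H) = ⊤ := by
    apply Subgroup.map_injective hinj
    rw [Subgroup.map_sup, hDmap, ← hmap, htop, sup_comm, hR]
  have hk8 : 8 ≤ k := by
    have := hp.2.2.1
    omega
  have hcore := core_f H B c k Λ β g hB4 hB (by rw [hlf]; exact hp) (D.subgroupOf H) (oddGen (⊤ : Subgroup H)) hRn hY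
  rw [hlf] at hcore
  rcases hcore with ⟨S, hS1, hS2, hS3⟩ | hrl | ⟨N, M, C, δ, K, hch, hMR, -, -, hI, hδ, hq, hne⟩
  · left
    refine ⟨S.map ⟨H.subtype, hinj⟩, ?_, ?_, ?_⟩
    · intro x hx
      obtain ⟨y, hy, rfl⟩ := Finset.mem_map.1 hx
      rw [hmap]
      exact Subgroup.mem_map_of_mem _ (hS1 y hy)
    · rw [Finset.card_map]
      exact hS2
    · rw [Finset.coe_map]
      change D ⊔ Subgroup.closure (H.subtype '' (S : Set H)) = H
      rw [← MonoidHom.map_closure]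
      conv_lhs => rw [← hDmap]
      rw [← Subgroup.map_sup, hS3, htop]
  · right
    left
    exact hrl
  · right
    right
    obtain ⟨L, hLc, hNL, hYL, hLM, hidx⟩ := hne
    have hq2 : N.relIndex M ≠ 2 := by
      intro h2
      apply hLc.1
      have h3 := fg_two L (hidx.trans h2)
      rw [← hLM]
      exact (sup_eq_left.2 (hMR.trans h3)).symm
    have hδ0 : 0 < δ := by omega
    have hI0 := hI.1 ⟨0, hδ0⟩
    obtain ⟨⟨x, hx⟩, -, -⟩ := prime_x hI0.1 hI0.2.1 hq hI0.2.2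
    have hb := prime_b hI hq hq2
    refine ⟨C.map H.subtype, H.subtype x, Subgroup.map_subtype_le _, ?_, ?_⟩
    · rw [← MonoidHom.map_zpowers, ← Subgroup.map_sup, hx, htop]
    · rw [← no_iso (C.equivMapOfInjective H.subtype hinj)]
      exact le_trans (Nat.pow_le_pow_right (by norm_num) hδ) hb

end Pool.Agent.FuS
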