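import Pool.Agent.GcS.Defs

/-!
MP_7fa120_al: ALL subgroups of the symmetric groups; the negated form of Q1. Definitions and overview.

For all subgroups `H` of `S_n` (no restriction): almost all have odd part at most `52 !`, and then (`Pool.Agent.BdO`) for some odd prime `r` the proportion of
the subgroups with order divisible by `r` has no limit. The proof is the one of `Pool.Agent.GcS` (see `GcS/Defs.lean`) with two new ingredients.
(I) Support (`Pron`, `Parity`, `SupF`). Every `R = oddGen H` contains a solvable subgroup `Q` of odd order, pronormal in `H`, such that `N_R(Q) / Q` is a 2-group;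
it moves at least a third of the points of every nontrivial orbit of `R`.
(II) Primitive groups of degree `k` not containing the alternating group have order at most `2 ^ (k ^ (4/5))` for large `k` (`Sep`, `Uni*`, `Two*`, `Miller*`, `Prim*`).
(III) So the product `W` of the orders of the bad composition factors (not abelian, of order more than `2 ^ B`, not generated by 4 elements) of a group acting on `n` points
satisfies `W ^ q ≤ 4 ^ n` (`ChSplit`, `ChPrim`, `ChPerm`). Hence (`GenF`) large non-abelian chief factors need few generators all together.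
-/

set_option autoImplicit false

namespace Pool.Agent.FuS

open Equiv Pool.Agent.NilS Pool.Agent.BdO Pool.Agent.SvS Pool.Agent.GcS

/-- `Q` is pronormal: if `Q` and its conjugate by `g` are contained in `L` then they are conjugate by an element of `L`. -/
def Pron {G : Type} [Group G] (Q : Subgroup G) : Prop :=
  ∀ (L : Subgroup G) (g : G), Q ≤ L → (∀ q ∈ Q, g * q * g⁻¹ ∈ L) → ∃ l ∈ L, l * g ∈ Subgroup.normalizer (Q : Set G)

/-- `x` and `y` are in different orbits of the stabiliser of `z`. -/
def Dis (G : Type) [Group G] {Ω : Type} [MulAction G Ω] (z x y : Ω) : Prop := ¬ ∃ g : G, g • z = z ∧ g • x = y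

/-- The number of points `z` such that `x` and `y` are in different orbits of the stabiliser of `z`. -/
noncomputable def dd (G : Type) [Group G] {Ω : Type} [MulAction G Ω] (x y : Ω) : ℕ := Nat.card {z : Ω // Dis G z x y}

/-- Transitive on pairs of different points. -/
def Tw (G : Type) [Group G] (Ω : Type) [MulAction G Ω] : Prop :=
  ∀ x y x' y' : Ω, x ≠ y → x' ≠ y' → ∃ g : G, g • x = x' ∧ g • y = y'

/-- Only the identity fixes all points of `T`. -/
def Base (G : Type) [Group G] {Ω : Type} [MulAction G Ω] (T : Finset Ω) : Prop := ∀ g : G, (∀ x ∈ T, g • x = x) → g = 1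

/-- A simple group which is not abelian, of order more than `2 ^ B`, not generated by 4 elements. -/
def Bad (B : ℕ) (T : Type) [Group T] : Prop :=
  IsSimpleGroup T ∧ (∃ a b : T, a * b ≠ b * a) ∧ 2 ^ B < Nat.card T ∧
    ¬ ∃ S : Finset T, S.card ≤ 4 ∧ Subgroup.closure (S : Set T) = ⊤

/-- There is a chain of subgroups from `X` to `Z`, each normal in the next, such that the product of some of the orders of the bad factors is `W`. -/
inductive Ch (B : ℕ) {G : Type} [Group G] : Subgroup G → Subgroup G → ℕ → Prop
  | refl (X : Subgroup G) : Ch B X X 1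
  | step (X Y Z : Subgroup G) (W : ℕ) (h : X ≤ Y) (hn : ∀ g ∈ Y, ∀ x ∈ X, g * x * g⁻¹ ∈ X) (hc : Ch B Y Z W) : Ch B X Z W
  | bad (X Y Z : Subgroup G) (W : ℕ) (h : X ≤ Y) (T : Type) (iT : Group T) (f : Y →* T) (hf : Function.Surjective f)
      (hk : ∀ y : Y, f y = 1 ↔ (y : G) ∈ X) (hT : Bad B T) (hc : Ch B Y Z W) : Ch B X Z (X.relIndex Y * W)

/-- The bad factors of `G` have product less than `2 ^ (c + 1)`. -/
def Lc (B c : ℕ) (G : Type) [Group G] : Prop := ∀ (X : Subgroup G) (W : ℕ), Ch B X ⊤ W → W < 2 ^ (c + 1)

/-- `n ^ (48 / 256)`. -/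
noncomputable def BF (n : ℕ) : ℕ := ⌊(n : ℝ) ^ (48 / 256 : ℝ)⌋₊

/-- `n ^ (60 / 256)`. -/
noncomputable def LF (n : ℕ) : ℕ := ⌊(n : ℝ) ^ (60 / 256 : ℝ)⌋₊

/-- `n ^ (12 / 256)`. -/
noncomputable def qF (n : ℕ) : ℕ := ⌊(n : ℝ) ^ (12 / 256 : ℝ)⌋₊

/-- The bound for the bad factors. -/
noncomputable def cF (n : ℕ) : ℕ := 2 * n / qF n

/-- The number of generators needed for the large chief factors which are not abelian. -/
noncomputable def eF (n : ℕ) : ℕ := EE (lf n) (LF n) (BF n) + cF n

/-- The number of all subgroups of `S_n`. -/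
noncomputable def nAll (n : ℕ) : ℕ := Nat.card (Subgroup (Perm (Fin n)))

/-- The proportion of the subgroups of `S_n` whose order is a multiple of `m`. -/
noncomputable def dens (n m : ℕ) : ℝ :=
  (Nat.card {H : Subgroup (Perm (Fin n)) // m ∣ Nat.card H} : ℝ) / (Nat.card (Subgroup (Perm (Fin n))) : ℝ)

/-- The number of subgroups with odd part more than `52 !`. -/
noncomputable def nBigF (n : ℕ) : ℕ := Nat.card {H : Subgroup (Perm (Fin n)) // ¬ Bdd (Nat.factorial 52) H}

end Pool.Agent.FuS
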