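import Pool.Agent.FuS.TwoA

/-!
MP_7fa120_al, all subgroups. Miller's theorem, part A: Sylow subgroups.

`mil_syl`: let `K` be a finite group acting on `X` (`X = Ω \ Γ`), transitively, `|X| = p q`, `1 ≤ q < p`, `p` prime, `P` a Sylow `p`-subgroup. Every orbit of `P` has exactly `p` points: for `x ∈ X`,
`|P : P_x| |P_x| = |P|`, `|P_x|` divides the `p`-part of `|K_x| = |K| / (p q)`, so `p` divides `|P : P_x|`, a power of `p` which is at most `p q < p ^ 2`.
`mil_norm`: let `P` be a `p`-subgroup of `Perm Ω`, `N₀` a subgroup of `Perm Ω` normalising `P`, `x` a point whose `P`-orbit `O` has exactly `p`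
points, and every `g ∈ N₀` maps `O` to itself. Then every element `a` of the second derived subgroup of `N₀` fixes `x`. The image `C` of `P` in the permutations of `O` is a `p`-group, transitive on `p` points, so it has order `p` (its order divides
`p !`, and it is a power of `p`); let it be generated by the restriction of `c ∈ P`. For `g ∈ N₀` there is `e` with `g c g⁻¹ = c ^ e` on `O`; so commutators `h = g g' g⁻¹ g'⁻¹` of elements of `N₀`, hence all `h` in the derived subgroup,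
commute with `c` on `O`. If `h` commutes with `c` on `O` then `h = c ^ i` on `O`, where `h x = c ^ i x` (`c` is transitive on `O`). So any two elements of the derived subgroup commute
on `O`, and the elements of the second derived subgroup are trivial on `O`.
-/

set_option autoImplicit false

namespace Pool.Agent.FuS

open Equiv

theorem mil_syl {K : Type} [Group K] [Finite K] {X : Type} [Finite X] [MulAction K X] (ht : MulAction.IsPretransitive K X)
    (p q : ℕ) (hp : p.Prime) (hq : 1 ≤ q) (hqp : q < p) (hX : Nat.card X = p * q) (P : Sylow p K) (x : X) :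
    Nat.card {y : X // ∃ g ∈ P, g • x = y} = p := by
  have : Fact p.Prime := ⟨hp⟩
  have := ht
  have he : Nat.card {y : X // ∃ g ∈ P, g • x = y} = Nat.card (MulAction.orbit (P : Subgroup K) x) := by
    refine Nat.card_congr (Equiv.subtypeEquivRight ?_)
    intro y
    rw [MulAction.mem_orbit_iff]
    constructor
    · rintro ⟨g, hg, h⟩
      exact ⟨⟨g, hg⟩, h⟩
    · rintro ⟨g, h⟩
      exact ⟨g.1, g.2, h⟩
  obtain ⟨n, hn⟩ := P.isPGroup'.card_orbit x
  rw [he, hn]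
  have hle : Nat.card (MulAction.orbit (P : Subgroup K) x) ≤ Nat.card X :=
    Nat.card_le_card_of_injective Subtype.val Subtype.val_injective
  rw [hn, hX] at hle
  have hn2 : n < 2 := by
    by_contra hc
    have h1 : p ^ 2 ≤ p ^ n := Nat.pow_le_pow_right hp.pos (by omega)
    have h2 : p * q < p * p := Nat.mul_lt_mul_of_pos_left hqp hp.pos
    rw [pow_two] at h1
    omega
  have hn0 : n ≠ 0 := by
    rintro rfl
    rw [pow_zero] at hn
    have hsub : Subsingleton (MulAction.orbit (P : Subgroup K) x) := (Nat.card_eq_one_iff_unique.mp hn).1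
    have hst : (P : Subgroup K) ≤ MulAction.stabilizer K x := by
      intro g hg
      rw [MulAction.mem_stabilizer_iff]
      have h1 : g • x ∈ MulAction.orbit (P : Subgroup K) x := ⟨⟨g, hg⟩, rfl⟩
      have h2 : x ∈ MulAction.orbit (P : Subgroup K) x := MulAction.mem_orbit_self x
      exact congrArg Subtype.val (hsub.elim ⟨g • x, h1⟩ ⟨x, h2⟩)
    have h3 := Subgroup.index_dvd_of_le hst
    rw [MulAction.index_stabilizer_of_transitive, hX] at h3
    exact P.not_dvd_index ((dvd_mul_right p q).trans h3)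
  have : n = 1 := by omega
  rw [this, pow_one]

private theorem agree_pow {Ω : Type} (O : Set Ω) (a b : Perm Ω) (hb : ∀ y ∈ O, b y ∈ O) (h : ∀ y ∈ O, a y = b y)
    (i : ℕ) : ∀ y ∈ O, (b ^ i) y ∈ O ∧ (a ^ i) y = (b ^ i) y := by
  induction i with
  | zero => intro y hy; simpa using hy
  | succ i ih =>
    intro y hy
    obtain ⟨h1, h2⟩ := ih y hy
    rw [pow_succ', pow_succ', Perm.mul_apply, Perm.mul_apply, h2]
    exact ⟨hb _ h1, h _ h1⟩

private theorem conj_pow_on {Ω : Type} (O : Set Ω) (g c : Perm Ω) (e : ℕ) (hg : ∀ y ∈ O, g y ∈ O)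
    (hc : ∀ y ∈ O, c y ∈ O) (h : ∀ y ∈ O, g (c y) = (c ^ e) (g y)) (i : ℕ) :
    ∀ y ∈ O, g ((c ^ i) y) = (c ^ (e * i)) (g y) := by
  induction i with
  | zero => intro y _; simp
  | succ i ih =>
    intro y hy
    rw [pow_succ, Perm.mul_apply, ih _ (hc y hy), h y hy, mul_add, mul_one, pow_add, Perm.mul_apply]

/-- The commutator of two elements commutes with `c` on `O`. -/
private theorem comm_c {Ω : Type} (O : Set Ω) (g g' c : Perm Ω) (hc : ∀ y ∈ O, c y ∈ O)
    (hg : ∀ y ∈ O, g y ∈ O) (hg' : ∀ y ∈ O, g' y ∈ O) (hgi : ∀ y ∈ O, g⁻¹ y ∈ O) (hgi' : ∀ y ∈ O, g'⁻¹ y ∈ O)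
    (e e' f f' : ℕ) (he : ∀ y ∈ O, g (c y) = (c ^ e) (g y)) (he' : ∀ y ∈ O, g' (c y) = (c ^ e') (g' y))
    (hf : ∀ y ∈ O, g⁻¹ (c y) = (c ^ f) (g⁻¹ y)) (hf' : ∀ y ∈ O, g'⁻¹ (c y) = (c ^ f') (g'⁻¹ y)) :
    ∀ y ∈ O, (g * g' * g⁻¹ * g'⁻¹) (c y) = c ((g * g' * g⁻¹ * g'⁻¹) y) := by
  have hpow : ∀ (i : ℕ), ∀ y ∈ O, (c ^ i) y ∈ O := fun i y hy => (agree_pow O c c hc (fun _ _ => rfl) i y hy).1
  have k1 : ∀ y ∈ O, (c ^ (e * f)) y = c y := by
    intro y hy
    have h1 := conj_pow_on O g c e hg hc he f (g⁻¹ y) (hgi y hy)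
    rw [← hf y hy] at h1
    simpa using h1.symm
  have k2 : ∀ y ∈ O, (c ^ (e' * f')) y = c y := by
    intro y hy
    have h1 := conj_pow_on O g' c e' hg' hc he' f' (g'⁻¹ y) (hgi' y hy)
    rw [← hf' y hy] at h1
    simpa using h1.symm
  intro y hy
  have y1 := hgi' y hy
  have y2 := hgi _ y1
  have y3 := hg' _ y2
  have y4 := hg _ y3
  have s1 : (g * g' * g⁻¹ * g'⁻¹) (c y) = g (g' (g⁻¹ (g'⁻¹ (c y)))) := by simp [Perm.mul_apply]
  have s2 : (g * g' * g⁻¹ * g'⁻¹) y = g (g' (g⁻¹ (g'⁻¹ y))) := by simp [Perm.mul_apply]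
  rw [s1, s2, hf' y hy, conj_pow_on O g⁻¹ c f hgi hc hf f' _ y1, conj_pow_on O g' c e' hg' hc he' _ _ y2,
    conj_pow_on O g c e hg hc he _ _ y3]
  have h5 : e * (e' * (f * f')) = (e * f) * (e' * f') := by ring
  rw [h5, pow_mul]
  rw [(agree_pow O (c ^ (e * f)) c hc k1 (e' * f') _ y4).2]
  exact k2 _ y4

theorem mil_norm {Ω : Type} [Finite Ω] (p : ℕ) (hp : p.Prime) (P N₀ : Subgroup (Perm Ω)) (hP : IsPGroup p P)
    (hN : ∀ g ∈ N₀, ∀ c ∈ P, g * c * g⁻¹ ∈ P) (x : Ω)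
    (hO : ∀ g ∈ N₀, ∀ y : Ω, (∃ c ∈ P, c x = y) → ∃ c ∈ P, c y = g y)
    (hx : Nat.card {y : Ω // ∃ c ∈ P, c x = y} = p) (a : Perm Ω) (ha : a ∈ ⁅⁅N₀, N₀⁆, ⁅N₀, N₀⁆⁆) : a x = x := by
  classical
  have : Fact p.Prime := ⟨hp⟩
  set O : Set Ω := {y | ∃ c ∈ P, c x = y} with hOdef
  have hOc : O.ncard = p := by rw [← hx, ← Nat.card_coe_set_eq]; rfl
  have hOfin : O.Finite := Set.toFinite O
  have hxO : x ∈ O := ⟨1, P.one_mem, rfl⟩
  have f2 : ∀ c ∈ P, ∀ y ∈ O, c y ∈ O := by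
    rintro c hc y ⟨d, hd, rfl⟩
    exact ⟨c * d, P.mul_mem hc hd, rfl⟩
  have f1 : ∀ g ∈ N₀, ∀ y ∈ O, g y ∈ O := by
    intro g hg y hy
    obtain ⟨c, hc, h⟩ := hO g hg y hy
    rw [← h]
    exact f2 c hc y hy
  have f4 : ∀ y ∈ O, ∀ z ∈ O, ∃ c ∈ P, c y = z := by
    rintro y ⟨c, hc, rfl⟩ z ⟨d, hd, rfl⟩
    exact ⟨d * c⁻¹, P.mul_mem hd (P.inv_mem hc), by simp [Perm.mul_apply]⟩
  -- an element of a `p`-subgroup `H` of `P` fixing `y ∈ O` fixes `O`
  have f3 : ∀ y ∈ O, ∀ c ∈ P, c y = y → ∀ z ∈ O, c z = z := by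
    intro y hy c hc hcy z hz
    by_cases hzy : z = y
    · rw [hzy, hcy]
    let H : Subgroup (Perm Ω) := Subgroup.zpowers c
    have hHP : H ≤ P := by rw [Subgroup.zpowers_le]; exact hc
    have hHp : IsPGroup p H := hP.to_le hHP
    have hHy : ∀ h ∈ H, h y = y := by
      have : H ≤ MulAction.stabilizer (Perm Ω) y := by
        rw [Subgroup.zpowers_le]; exact hcy
      intro h hh
      exact this hh
    obtain ⟨n, hn⟩ := hHp.card_orbit z
    have hsub : (MulAction.orbit H z : Set Ω) ⊆ O \ {y} := by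
      rintro w ⟨h, rfl⟩
      refine ⟨f2 h.1 (hHP h.2) z hz, ?_⟩
      intro hw
      apply hzy
      have h1 : h.1 z = y := hw
      have h2 : h.1 y = y := hHy h.1 h.2
      exact h.1.injective (h1.trans h2.symm)
    have hle : (MulAction.orbit H z : Set Ω).ncard ≤ (O \ {y}).ncard := Set.ncard_le_ncard hsub (Set.toFinite _)
    rw [Set.ncard_sdiff_singleton_of_mem hy, hOc, ← Nat.card_coe_set_eq, hn] at hle
    have hn0 : n = 0 := by
      by_contra hc0
      have : p ^ 1 ≤ p ^ n := Nat.pow_le_pow_right hp.pos (by omega)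
      have := hp.pos
      rw [pow_one] at *
      omega
    rw [hn0, pow_zero] at hn
    have hss : Subsingleton (MulAction.orbit H z) := (Nat.card_eq_one_iff_unique.mp hn).1
    have h1 : c z ∈ MulAction.orbit H z := ⟨⟨c, Subgroup.mem_zpowers c⟩, rfl⟩
    exact congrArg Subtype.val (hss.elim ⟨c z, h1⟩ ⟨z, MulAction.mem_orbit_self z⟩)
  -- the generator
  obtain ⟨c, hc, hcx⟩ : ∃ c ∈ P, c x ≠ x := by
    by_contra hno
    push Not at hno
    have : O ⊆ {x} := by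
      rintro y ⟨c, hc, rfl⟩
      exact hno c hc
    have h1 := Set.ncard_le_ncard this (Set.toFinite _)
    rw [hOc, Set.ncard_singleton] at h1
    exact absurd h1 (by have := hp.two_le; omega)
  have hHP : Subgroup.zpowers c ≤ P := by rw [Subgroup.zpowers_le]; exact hc
  have horb : (MulAction.orbit (Subgroup.zpowers c) x : Set Ω) = O := by
    have hsub : (MulAction.orbit (Subgroup.zpowers c) x : Set Ω) ⊆ O := by
      rintro w ⟨h, rfl⟩
      exact ⟨h.1, hHP h.2, rfl⟩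
    apply Set.eq_of_subset_of_ncard_le hsub _ hOfin
    obtain ⟨n, hn⟩ := (hP.to_le hHP).card_orbit x
    rw [hOc, ← Nat.card_coe_set_eq, hn]
    rcases Nat.eq_zero_or_pos n with h0 | h0
    · exfalso
      rw [h0, pow_zero] at hn
      have hss : Subsingleton (MulAction.orbit (Subgroup.zpowers c) x) := (Nat.card_eq_one_iff_unique.mp hn).1
      have h1 : c x ∈ MulAction.orbit (Subgroup.zpowers c) x := ⟨⟨c, Subgroup.mem_zpowers c⟩, rfl⟩
      exact hcx (congrArg Subtype.val (hss.elim ⟨c x, h1⟩ ⟨x, MulAction.mem_orbit_self x⟩))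
    · calc p = p ^ 1 := (pow_one p).symm
        _ ≤ p ^ n := Nat.pow_le_pow_right hp.pos h0
  have gen : ∀ d ∈ P, ∃ i : ℕ, ∀ y ∈ O, d y = (c ^ i) y := by
    intro d hd
    have h1 : d x ∈ MulAction.orbit (Subgroup.zpowers c) x := by
      rw [horb]; exact ⟨d, hd, rfl⟩
    obtain ⟨⟨b, hb⟩, hbx⟩ := h1
    have hb2 : b ∈ Submonoid.powers c := mem_powers_iff_mem_zpowers.mpr hb
    obtain ⟨i, hi⟩ := hb2
    have hi' : c ^ i = b := hi
    refine ⟨i, fun y hy => ?_⟩
    have hbx' : b x = d x := hbx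
    have h2 : (b⁻¹ * d) x = x := by
      rw [Perm.mul_apply, ← hbx']; simp
    have h3 := f3 x hxO (b⁻¹ * d) (P.mul_mem (P.inv_mem (hHP hb)) hd) h2 y hy
    rw [Perm.mul_apply, Perm.inv_eq_iff_eq] at h3
    rw [hi']
    exact h3
  -- elements of the derived subgroup commute with `P` on `O`
  have hcO : ∀ y ∈ O, c y ∈ O := f2 c hc
  have hex : ∀ g ∈ N₀, ∃ e : ℕ, ∀ y ∈ O, g (c y) = (c ^ e) (g y) := by
    intro g hg
    obtain ⟨e, he⟩ := gen _ (hN g hg c hc)
    refine ⟨e, fun y hy => ?_⟩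
    rw [← he (g y) (f1 g hg y hy)]
    simp [Perm.mul_apply]
  let Z : Subgroup (Perm Ω) :=
    { carrier := {h | h ∈ N₀ ∧ ∀ d ∈ P, ∀ y ∈ O, h (d y) = d (h y)}
      mul_mem' := by
        rintro h h' ⟨h1, h2⟩ ⟨h1', h2'⟩
        refine ⟨N₀.mul_mem h1 h1', fun d hd y hy => ?_⟩
        rw [Perm.mul_apply, Perm.mul_apply, h2' d hd y hy, h2 d hd _ (f1 h' h1' y hy)]
      one_mem' := ⟨N₀.one_mem, fun d _ y _ => rfl⟩
      inv_mem' := by
        rintro h ⟨h1, h2⟩
        refine ⟨N₀.inv_mem h1, fun d hd y hy => ?_⟩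
        have hz := f1 h⁻¹ (N₀.inv_mem h1) y hy
        rw [Perm.inv_eq_iff_eq, h2 d hd _ hz]
        simp }
  have hZ : ⁅N₀, N₀⁆ ≤ Z := by
    rw [Subgroup.commutator_le]
    intro g hg g' hg'
    refine ⟨?_, ?_⟩
    · rw [commutatorElement_def]
      exact N₀.mul_mem (N₀.mul_mem (N₀.mul_mem hg hg') (N₀.inv_mem hg)) (N₀.inv_mem hg')
    · obtain ⟨e, he⟩ := hex g hg
      obtain ⟨e', he'⟩ := hex g' hg'
      obtain ⟨f, hf⟩ := hex g⁻¹ (N₀.inv_mem hg)
      obtain ⟨f', hf'⟩ := hex g'⁻¹ (N₀.inv_mem hg')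
      have key := comm_c O g g' c hcO (f1 g hg) (f1 g' hg') (f1 _ (N₀.inv_mem hg)) (f1 _ (N₀.inv_mem hg'))
        e e' f f' he he' hf hf'
      have hk : ∀ y ∈ O, (g * g' * g⁻¹ * g'⁻¹) y ∈ O :=
        f1 _ (N₀.mul_mem (N₀.mul_mem (N₀.mul_mem hg hg') (N₀.inv_mem hg)) (N₀.inv_mem hg'))
      intro d hd y hy
      rw [commutatorElement_def]
      obtain ⟨i, hi⟩ := gen d hd
      rw [hi y hy, hi _ (hk y hy)]
      have h5 := conj_pow_on O (g * g' * g⁻¹ * g'⁻¹) c 1 hk hcO (by intro z hz; rw [pow_one]; exact key z hz) i y hy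
      rw [one_mul] at h5
      exact h5
  let T : Subgroup (Perm Ω) :=
    { carrier := {h | ∀ y ∈ O, h y = y}
      mul_mem' := by
        intro h h' h1 h2 y hy
        rw [Perm.mul_apply, h2 y hy, h1 y hy]
      one_mem' := fun y _ => rfl
      inv_mem' := by
        intro h h1 y hy
        rw [Perm.inv_eq_iff_eq, h1 y hy] }
  have hT : ⁅⁅N₀, N₀⁆, ⁅N₀, N₀⁆⁆ ≤ T := by
    rw [Subgroup.commutator_le]
    intro h hh h' hh' y hy
    obtain ⟨a1, a2⟩ := hZ hh
    obtain ⟨b1, b2⟩ := hZ hh'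
    -- two elements of `Z` commute on `O`
    have hcomm : ∀ z ∈ O, h (h' z) = h' (h z) := by
      intro z hz
      obtain ⟨d', hd', e'⟩ := f4 z hz (h' z) (f1 h' b1 z hz)
      rw [← e', a2 d' hd' z hz]
      obtain ⟨d, hd, e⟩ := f4 z hz (h z) (f1 h a1 z hz)
      rw [← e]
      rw [b2 d hd z hz, ← e']
      obtain ⟨i, hi⟩ := gen d hd
      obtain ⟨j, hj⟩ := gen d' hd'
      rw [hj (d z) (f2 d hd z hz), hi (d' z) (f2 d' hd' z hz), hi z hz, hj z hz]
      rw [← Perm.mul_apply, ← Perm.mul_apply, ← pow_add, ← pow_add, add_comm]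
    have hw := f1 _ (N₀.inv_mem a1) _ (f1 _ (N₀.inv_mem b1) y hy)
    have h6 := hcomm _ hw
    rw [commutatorElement_def]
    have s1 : (h * h' * h⁻¹ * h'⁻¹) y = h (h' (h⁻¹ (h'⁻¹ y))) := by simp [Perm.mul_apply]
    rw [s1, h6]
    simp
  exact hT ha x hxO

end Pool.Agent.FuS
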