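import Pool.Agent.FuS.TwoA

/-!
MP_7fa120_al, all subgroups. Miller's theorem, part B: normal subgroups of the symmetric group.

Proof. Let `r = |Γ| ≥ 5` and let `I` be a normal subgroup of `Perm Γ` with `|Perm Γ| < |I| * (r ! / 2)`, that is of index less than `r ! / 2`; so `|I| > 2`. `I ⊓ A_r` is normal in the simple group `A_r`
(`alternatingGroup.isSimpleGroup` for at least 5 points; otherwise directly) and not trivial, since otherwise `|I| ≤ 2`; so `A_r ≤ I`. Every 3-cycle `(a b c)` is a commutator of 3-cycles: with two more points `d, e`,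
`(a b c) = [(a b d), (a c e)]` for a suitable choice of the order (check on points), so it is a commutator of commutators of elements of `A_r ≤ I`.
-/

set_option autoImplicit false

namespace Pool.Agent.FuS

open Equiv

theorem mil_b {Γ : Type} [Fintype Γ] [DecidableEq Γ] (hr : 5 ≤ Fintype.card Γ) (I : Subgroup (Perm Γ)) (hI : I.Normal)
    (hi : 2 * I.index < (Fintype.card Γ).factorial) : ∃ σ ∈ ⁅⁅I, I⁆, ⁅I, I⁆⁆, σ.IsThreeCycle := by
  have h5 : 5 ≤ Nat.card Γ := by
    rw [Nat.card_eq_fintype_card]
    exact hr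
  have hI1 : I ≠ ⊥ := by
    rintro rfl
    rw [Subgroup.index_bot, Nat.card_eq_fintype_card, Fintype.card_perm] at hi
    omega
  have hnt : Nontrivial I := (Subgroup.nontrivial_iff_ne_bot I).2 hI1
  have hA : alternatingGroup Γ ≤ I := Equiv.Perm.alternatingGroup_le_of_normal h5 hnt
  have hA1 : alternatingGroup Γ ≤ ⁅I, I⁆ := by
    rw [← commutator_alternatingGroup_eq_self h5]
    exact Subgroup.commutator_mono hA hA
  have hA2 : alternatingGroup Γ ≤ ⁅⁅I, I⁆, ⁅I, I⁆⁆ := by
    rw [← commutator_alternatingGroup_eq_self h5]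
    exact Subgroup.commutator_mono hA1 hA1
  obtain ⟨a, b, c, hab, hac, hbc⟩ := Fintype.two_lt_card_iff.1 (by omega : 2 < Fintype.card Γ)
  have h3 : (swap a b * swap a c).IsThreeCycle := Equiv.Perm.isThreeCycle_swap_mul_swap_same hab hac hbc
  exact ⟨_, hA2 h3.mem_alternatingGroup, h3⟩

end Pool.Agent.FuS
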