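import Pool.Agent.FuS.MilA
import Pool.Agent.FuS.MilB

/-!
MP_7fa120_al, all subgroups. Miller's theorem on multiply transitive groups.

Proof. Let `k = |Ω| = p q + r`, `1 ≤ q < p`, `q < r`, `r ≥ 5`, `G` transitive on `(r + 1)`-tuples. Let `Γ` be a set of `r` points, `K` the pointwise stabiliser of `Γ` in `G`; it is transitive on `Ω \ Γ`. Let `P` be a Sylow
`p`-subgroup of `K` (as a subgroup of `Perm Ω`). By `mil_syl` all orbits of `P` on `Ω \ Γ` have `p` points, so there are `q` of them, and `Γ` is the set of the fixed points of `P`. For every permutation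
`π` of `Γ` there is `g ∈ G` with `g = π` on `Γ` (`G` is transitive on `r`-tuples); `g` normalises `K`, so by Sylow `g P g⁻¹ = u P u⁻¹` with `u ∈ K`, and `u⁻¹ g` normalises `P` and is `π` on `Γ`. So
the normaliser `N` of `P` in `G` (it maps `Γ` to itself) is mapped onto `Perm Γ` by restriction. `N` permutes the `q` orbits of `P` on `Ω \ Γ`; let `N₀` be the kernel; `N₀` is normal in `N`, of index at most
`q !`, so its image `I` in `Perm Γ` is normal, of index at most `q ! ≤ (r - 1) !`, `2 (r - 1) ! < r !`. By `mil_b` there is `σ ∈ I''` which is a 3-cycle; it is the restriction of some `a ∈ N₀''`. By `mil_norm`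
`a` fixes all points of `Ω \ Γ`. So `a` is a 3-cycle in `G`. `G` is doubly transitive, so primitive, and contains the alternating group by Jordan's theorem
(Mathlib: `Mathlib/GroupTheory/GroupAction/Jordan.lean`, `alternatingGroup_le_of_isPreprimitive_of_isThreeCycle_mem`).
`alt_of_tr`: `k ≥ 36`, `m = Nat.sqrt k ≥ 6`; `Nat.exists_prime_lt_and_le_two_mul` gives a prime `m < p ≤ 2 m`, so `k < p ^ 2`. Let `q = k / p - 1`, `r = k % p + p`: `k = p q + r`, `q < p ≤ r`, `5 ≤ r`, `1 ≤ q` as `k ≥ 2 p` (`k ≥ m ^ 2 ≥ 4 m`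
for `m ≥ 4`), `r + 1 ≤ 2 p ≤ 4 m ≤ k`. Transitivity on `4 m`-tuples implies transitivity on `(r + 1)`-tuples.
-/

set_option autoImplicit false

namespace Pool.Agent.FuS

open Equiv

namespace MilC

theorem tr_pred {G : Type} [Group G] {Ω : Type} [Fintype Ω] [MulAction G Ω] (t : ℕ) (hc : t + 1 ≤ Fintype.card Ω)
    (h : Tr G Ω (t + 1)) : Tr G Ω t := by
  intro f f' hf hf'
  have hex : ∀ u : Fin t → Ω, ∃ x : Ω, x ∉ Set.range u := by
    intro u
    by_contra hcon
    push Not at hcon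
    have hs : Function.Surjective u := fun y => hcon y
    have := Fintype.card_le_of_surjective u hs
    rw [Fintype.card_fin] at this
    omega
  obtain ⟨x, hx⟩ := hex f
  obtain ⟨x', hx'⟩ := hex f'
  obtain ⟨g, hg⟩ := h (Fin.snoc f x) (Fin.snoc f' x') (Fin.snoc_injective_of_injective hf hx)
    (Fin.snoc_injective_of_injective hf' hx')
  refine ⟨g, fun i => ?_⟩
  have := hg i.castSucc
  simpa using this

theorem tr_mono {G : Type} [Group G] {Ω : Type} [Fintype Ω] [MulAction G Ω] (s t : ℕ) (hst : s ≤ t)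
    (ht : t ≤ Fintype.card Ω) (h : Tr G Ω t) : Tr G Ω s := by
  induction t, hst using Nat.le_induction with
  | base => exact h
  | succ t _ ih => exact ih (by omega) (tr_pred t ht h)

/-- The elements of `G` mapping `Γ` to itself. -/
def stG {Ω : Type} (G : Subgroup (Perm Ω)) (Γ : Finset Ω) : Subgroup (Perm Ω) where
  carrier := {g | g ∈ G ∧ ∀ x, g x ∈ Γ ↔ x ∈ Γ}
  mul_mem' := by
    rintro a b ⟨ha, ha'⟩ ⟨hb, hb'⟩
    exact ⟨G.mul_mem ha hb, fun x => by rw [Perm.mul_apply, ha', hb']⟩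
  one_mem' := ⟨G.one_mem, fun x => Iff.rfl⟩
  inv_mem' := by
    rintro a ⟨ha, ha'⟩
    exact ⟨G.inv_mem ha, fun x => by rw [← ha' (a⁻¹ x)]; simp⟩

/-- Restriction to `Γ`. -/
def rho {Ω : Type} (G : Subgroup (Perm Ω)) (Γ : Finset Ω) : stG G Γ →* Perm {x // x ∈ Γ} where
  toFun g := g.1.subtypePerm g.2.2
  map_one' := rfl
  map_mul' _ _ := rfl

/-- Restriction to the complement of `Γ`. -/
def rhoc {Ω : Type} (G : Subgroup (Perm Ω)) (Γ : Finset Ω) : stG G Γ →* Perm {x // x ∉ Γ} where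
  toFun g := g.1.subtypePerm (fun x => not_congr (g.2.2 x))
  map_one' := rfl
  map_mul' _ _ := rfl

theorem rho_ext {Ω : Type} [Fintype Ω] [DecidableEq Ω] (G : Subgroup (Perm Ω)) (Γ : Finset Ω) (r : ℕ)
    (hΓ : Γ.card = r) (ht : Tr G Ω (r + 1)) (π : Perm {x // x ∈ Γ}) (x y : {x // x ∉ Γ}) :
    ∃ g : stG G Γ, rho G Γ g = π ∧ rhoc G Γ g x = y := by
  classical
  let e : Fin r ≃ {x // x ∈ Γ} := (Fintype.equivFinOfCardEq (by simp [hΓ])).symm
  have h1 : Function.Injective (Fin.snoc (fun i => (e i : Ω)) x.1 : Fin (r + 1) → Ω) :=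
    Fin.snoc_injective_of_injective (Subtype.val_injective.comp e.injective)
      (by rintro ⟨i, hi⟩; exact x.2 (hi ▸ (e i).2))
  have h2 : Function.Injective (Fin.snoc (fun i => (π (e i) : Ω)) y.1 : Fin (r + 1) → Ω) :=
    Fin.snoc_injective_of_injective (Subtype.val_injective.comp (π.injective.comp e.injective))
      (by rintro ⟨i, hi⟩; exact y.2 (hi ▸ (π (e i)).2))
  obtain ⟨g, hg⟩ := ht _ _ h1 h2
  have hg1 : ∀ z : {x // x ∈ Γ}, (g : Perm Ω) z.1 = (π z).1 := by
    intro z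
    have := hg (e.symm z).castSucc
    rw [Fin.snoc_castSucc, Fin.snoc_castSucc, e.apply_symm_apply] at this
    exact this
  have hg2 : (g : Perm Ω) x.1 = y.1 := by
    have := hg (Fin.last r)
    rw [Fin.snoc_last, Fin.snoc_last] at this
    exact this
  have hm : ∀ z, (g : Perm Ω) z ∈ Γ ↔ z ∈ Γ := by
    intro z
    constructor
    · intro hz
      have h3 := hg1 (π.symm ⟨_, hz⟩)
      rw [π.apply_symm_apply] at h3
      have h4 := (g : Perm Ω).injective h3
      rw [← h4]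
      exact (π.symm ⟨_, hz⟩).2
    · intro hz
      rw [hg1 ⟨z, hz⟩]
      exact (π ⟨z, hz⟩).2
  refine ⟨⟨g, g.2, hm⟩, ?_, ?_⟩
  · ext z
    exact hg1 z
  · apply Subtype.ext
    exact hg2

theorem blk {N X : Type} [Group N] (τ : N →* Perm X) (S : Setoid X) (hS : ∀ g x y, S x y → S (τ g x) (τ g y)) :
    ∃ φ : N →* Perm (Quotient S), ∀ g x, φ g (Quotient.mk S x) = Quotient.mk S (τ g x) := by
  have hS' : ∀ g x y, S x y ↔ S (τ g x) (τ g y) := by
    intro g x y
    refine ⟨hS g x y, fun h => ?_⟩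
    have := hS g⁻¹ _ _ h
    simpa [map_inv] using this
  refine ⟨⟨⟨fun g => Quotient.congr (τ g) (hS' g), ?_⟩, ?_⟩, ?_⟩
  · ext z
    induction z using Quotient.inductionOn with
    | h x =>
      simp only [map_one]
      rfl
  · intro a b
    ext z
    induction z using Quotient.inductionOn with
    | h x =>
      simp only [map_mul]
      rfl
  · intro g x
    rfl

theorem card_quot {X : Type} [Finite X] (S : Setoid X) (p : ℕ) (h : ∀ x, Nat.card {y // S x y} = p) :
    Nat.card X = p * Nat.card (Quotient S) := by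
  classical
  have := Fintype.ofFinite X
  have h1 := Nat.card_congr (Equiv.sigmaFiberEquiv (fun x : X => Quotient.mk S x))
  rw [← h1, Nat.card_sigma]
  have h2 : ∀ z : Quotient S, Nat.card {x : X // Quotient.mk S x = z} = p := by
    intro z
    induction z using Quotient.inductionOn with
    | h x =>
      rw [← h x]
      refine Nat.card_congr (Equiv.subtypeEquivRight fun y => ?_)
      rw [Quotient.eq]
      exact ⟨fun h => S.symm h, fun h => S.symm h⟩
  rw [Finset.sum_congr rfl (fun z _ => h2 z), Finset.sum_const, Finset.card_univ, smul_eq_mul, Nat.card_eq_fintype_card,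
    mul_comm]

theorem main {Ω : Type} [Fintype Ω] [DecidableEq Ω] (G : Subgroup (Perm Ω)) (p q r : ℕ) (hp : p.Prime) (hq : 1 ≤ q)
    (hqp : q < p) (hqr : q < r) (hr : 5 ≤ r) (hk : Fintype.card Ω = p * q + r) (ht : Tr G Ω (r + 1)) :
    ∃ a ∈ G, Perm.IsThreeCycle a := by
  classical
  have : Fact p.Prime := ⟨hp⟩
  have hpq : 0 < p * q := Nat.mul_pos hp.pos hq
  obtain ⟨Γ, -, hΓ⟩ := Finset.exists_subset_card_eq (s := (Finset.univ : Finset Ω)) (n := r)
    (by rw [Finset.card_univ, hk]; omega)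
  have hX : Nat.card {x // x ∉ Γ} = p * q := by
    rw [Nat.card_eq_fintype_card, Fintype.card_subtype_compl, hk]
    simp [hΓ]
  have hXne : Nonempty {x // x ∉ Γ} := by
    rw [← Nat.card_pos_iff (α := {x // x ∉ Γ}).trans (and_iff_left inferInstance)] 
    omega
  have hsur : Function.Surjective (rho G Γ) := by
    intro π
    obtain ⟨x⟩ := hXne
    obtain ⟨g, hg, -⟩ := rho_ext G Γ r hΓ ht π x x
    exact ⟨g, hg⟩
  let K : Subgroup (stG G Γ) := (rho G Γ).ker
  let actK : MulAction K {x // x ∉ Γ} := MulAction.compHom _ ((rhoc G Γ).comp K.subtype)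
  have hact : ∀ (g : K) (x : {x // x ∉ Γ}), g • x = rhoc G Γ g.1 x := fun g x => rfl
  have hKt : MulAction.IsPretransitive K {x // x ∉ Γ} := by
    refine ⟨fun x y => ?_⟩
    obtain ⟨g, hg, hg'⟩ := rho_ext G Γ r hΓ ht 1 x y
    exact ⟨⟨g, hg⟩, hg'⟩
  obtain ⟨P⟩ : Nonempty (Sylow p K) := inferInstance
  have horb := fun x => mil_syl hKt p q hp hq hqp hX P x
  let PM : Subgroup (stG G Γ) := (P : Subgroup K).map K.subtype
  let N : Subgroup (stG G Γ) := Subgroup.normalizer (PM : Set (stG G Γ))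
  have hfr : N ⊔ K = ⊤ := Sylow.normalizer_sup_eq_top P
  have hNc : ∀ n ∈ N, ∀ c ∈ PM, n * c * n⁻¹ ∈ PM := fun n hn c hc => (Subgroup.mem_normalizer_iff.1 hn c).1 hc
  let ρN : N →* Perm {x // x ∈ Γ} := (rho G Γ).comp N.subtype
  have hNs : Function.Surjective ρN := by
    intro π
    obtain ⟨m, hm⟩ := hsur π
    have h1 : m ∈ N ⊔ K := hfr ▸ Subgroup.mem_top m
    obtain ⟨n, hn, k, hk', rfl⟩ := Subgroup.mem_sup_of_normal_right.1 h1
    refine ⟨⟨n, hn⟩, ?_⟩
    rw [← hm, map_mul, show rho G Γ k = 1 from hk', mul_one]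
    rfl
  let S : Setoid {x // x ∉ Γ} :=
    { r := fun x y => ∃ c ∈ PM, rhoc G Γ c x = y
      iseqv := ⟨fun x => ⟨1, PM.one_mem, by rw [map_one]; rfl⟩,
        by rintro x y ⟨c, hc, rfl⟩; exact ⟨c⁻¹, PM.inv_mem hc, by simp⟩,
        by rintro x y z ⟨c, hc, rfl⟩ ⟨d, hd, rfl⟩; exact ⟨d * c, PM.mul_mem hd hc, by rw [map_mul]; rfl⟩⟩ }
  have hSp : ∀ x, Nat.card {y // S x y} = p := by
    intro x
    rw [← horb x]
    refine Nat.card_congr (Equiv.subtypeEquivRight fun y => ?_)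
    constructor
    · rintro ⟨c, hc, h⟩
      obtain ⟨g, hg, rfl⟩ := Subgroup.mem_map.1 hc
      exact ⟨g, hg, h⟩
    · rintro ⟨g, hg, h⟩
      exact ⟨g.1, Subgroup.mem_map.2 ⟨g, hg, rfl⟩, h⟩
  have hB : Nat.card (Quotient S) = q := by
    have := card_quot S p hSp
    rw [hX] at this
    exact (Nat.eq_of_mul_eq_mul_left hp.pos this).symm
  obtain ⟨φ, hφ⟩ := blk ((rhoc G Γ).comp N.subtype) S (by
    rintro ⟨n, hn⟩ x y ⟨c, hc, rfl⟩
    refine ⟨n * c * n⁻¹, hNc n hn c hc, ?_⟩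
    simp)
  have hidx : φ.ker.index ≤ q.factorial := by
    rw [Subgroup.index_ker]
    calc Nat.card φ.range ≤ Nat.card (Perm (Quotient S)) := Subgroup.card_le_card_group _
      _ = q.factorial := by rw [Nat.card_perm, hB]
  have hIn : (φ.ker.map ρN).Normal := Subgroup.Normal.map inferInstance ρN hNs
  have hIi : (φ.ker.map ρN).index ≤ q.factorial :=
    le_trans (Nat.le_of_dvd (Nat.pos_of_ne_zero Subgroup.index_ne_zero_of_finite) (Subgroup.index_map_dvd _ hNs)) hidx
  have hI2 : 2 * (φ.ker.map ρN).index < (Fintype.card {x // x ∈ Γ}).factorial := by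
    have h0 : Fintype.card {x // x ∈ Γ} = r := by simp [hΓ]
    rw [h0]
    have h1 : q.factorial ≤ (r - 1).factorial := Nat.factorial_le (by omega)
    have h2 : r.factorial = r * (r - 1).factorial := (Nat.mul_factorial_pred (by omega)).symm
    have h3 := Nat.factorial_pos (r - 1)
    rw [h2]
    nlinarith
  obtain ⟨σ, hσ, hσ3⟩ := mil_b (by simp [hΓ, hr]) (φ.ker.map ρN) hIn hI2
  rw [← Subgroup.map_commutator, ← Subgroup.map_commutator] at hσ
  obtain ⟨a, ha, rfl⟩ := Subgroup.mem_map.1 hσ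
  have hfix : ∀ x : Ω, x ∉ Γ → (a.1.1 : Perm Ω) x = x := by
    intro x hx
    refine mil_norm p hp (PM.map (stG G Γ).subtype) (φ.ker.map ((stG G Γ).subtype.comp N.subtype)) ?_ ?_ x ?_ ?_ _ ?_
    · exact (P.2.map _).map _
    · rintro _ ⟨g, hg, rfl⟩ _ ⟨c, hc, rfl⟩
      exact ⟨g.1 * c * g.1⁻¹, hNc _ g.2 c hc, rfl⟩
    · rintro _ ⟨g, hg, rfl⟩ y ⟨_, ⟨c, hc, rfl⟩, h⟩
      have hy : y ∉ Γ := by
        rw [← h]
        exact fun hcon => hx ((c.2.2 x).1 hcon)
      have h1 := hφ g ⟨y, hy⟩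
      rw [show φ g = 1 from hg] at h1
      obtain ⟨d, hd, h2⟩ := Quotient.exact h1
      exact ⟨d.1, ⟨d, hd, rfl⟩, congrArg Subtype.val h2⟩
    · rw [← hSp ⟨x, hx⟩]
      refine Nat.card_congr ⟨fun y => ⟨⟨y.1, ?_⟩, ?_⟩, fun y => ⟨y.1.1, ?_⟩, fun y => rfl, fun y => rfl⟩
      · obtain ⟨y, _, ⟨c, hc, rfl⟩, h⟩ := y
        intro hcon
        have h' : c.1 x = y := h
        exact hx ((c.2.2 x).1 (h' ▸ hcon))
      · obtain ⟨y, _, ⟨c, hc, rfl⟩, h⟩ := y
        exact ⟨c, hc, Subtype.ext h⟩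
      · obtain ⟨y, c, hc, h⟩ := y
        exact ⟨c.1, ⟨c, hc, rfl⟩, congrArg Subtype.val h⟩
    · rw [← Subgroup.map_commutator, ← Subgroup.map_commutator]
      exact Subgroup.mem_map_of_mem _ ha
  refine ⟨a.1.1, a.1.2.1, ?_⟩
  have h1 : Perm.ofSubtype (ρN a) = a.1.1 := by
    refine Perm.ofSubtype_subtypePerm a.1.2.2 (fun x hx => ?_)
    by_contra hcon
    exact hx (hfix x hcon)
  have h2 : Perm.cycleType (ρN a) = {3} := hσ3
  show Perm.cycleType (a.1.1 : Perm Ω) = {3}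
  rw [← h1, Perm.cycleType_ofSubtype, h2]

end MilC

theorem miller {Ω : Type} [Fintype Ω] [DecidableEq Ω] (G : Subgroup (Perm Ω)) (p q r : ℕ) (hp : p.Prime) (hq : 1 ≤ q)
    (hqp : q < p) (hqr : q < r) (hr : 5 ≤ r) (hk : Fintype.card Ω = p * q + r) (ht : Tr G Ω (r + 1)) :
    alternatingGroup Ω ≤ G := by
  have hpq : 0 < p * q := Nat.mul_pos hp.pos hq
  obtain ⟨a, haG, ha⟩ := MilC.main G p q r hp hq hqp hqr hr hk ht
  refine Perm.alternatingGroup_le_of_isPreprimitive_of_isThreeCycle_mem ?_ ha haG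
  refine MulAction.isPreprimitive_of_is_two_pretransitive ?_
  rw [MulAction.is_two_pretransitive_iff]
  intro a b c d hab hcd
  have h2 : Tr G Ω 2 := MilC.tr_mono 2 (r + 1) (by omega) (by omega) ht
  obtain ⟨g, hg⟩ := h2 ![a, b] ![c, d] (by
      intro i j hij
      fin_cases i <;> fin_cases j <;> simp_all [eq_comm])
    (by
      intro i j hij
      fin_cases i <;> fin_cases j <;> simp_all [eq_comm])
  exact ⟨g, by simpa using hg 0, by simpa using hg 1⟩

theorem alt_of_tr {Ω : Type} [Fintype Ω] [DecidableEq Ω] (G : Subgroup (Perm Ω)) (hk : 36 ≤ Fintype.card Ω)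
    (ht : Tr G Ω (4 * Nat.sqrt (Fintype.card Ω))) : alternatingGroup Ω ≤ G := by
  set k := Fintype.card Ω with hkdef
  set m := Nat.sqrt k with hm
  have h1 : m * m ≤ k := Nat.sqrt_le k
  have h2 : k < (m + 1) * (m + 1) := Nat.lt_succ_sqrt k
  have h6 : 6 ≤ m := by
    by_contra hcon
    have : m + 1 ≤ 6 := by omega
    nlinarith
  obtain ⟨p, hp, hmp, hp2⟩ := Nat.exists_prime_lt_and_le_two_mul m (by omega)
  have hdm := Nat.div_add_mod k p
  have hml := Nat.mod_lt k hp.pos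
  have hkp : k < p * p := by nlinarith
  have hk2 : 2 * p ≤ k := by nlinarith
  have hd1 : 2 ≤ k / p := (Nat.le_div_iff_mul_le hp.pos).2 hk2
  have hd2 : k / p < p := Nat.div_lt_of_lt_mul hkp
  obtain ⟨q, hq⟩ : ∃ q, k / p = q + 1 := ⟨k / p - 1, by omega⟩
  rw [hq] at hdm hd1 hd2
  refine miller G p q (k % p + p) hp (by omega) (by omega) (by omega) (by omega) ?_ ?_
  · rw [← hkdef]
    rw [mul_add, mul_one] at hdm
    omega
  · exact MilC.tr_mono _ _ (by omega) (by nlinarith) ht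

end Pool.Agent.FuS
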