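import Pool.Agent.FuS.Defs

/-!
MP_7fa120_al, all subgroups. The fixed points of a pronormal subgroup.

Proof. Let `X = R ⧸ M`, `k = |X| ≥ 2`, `F ⊆ X` the set of the fixed points of `Q`, `N = N_R(Q)`, `R_x` the stabiliser of `x`. If `F` is empty there is nothing to prove.
(1) For every subgroup `L` of `R` containing `Q`, if `g Q g⁻¹ ≤ L` then `g Q g⁻¹` is conjugate to `Q` under `L`. So `N` is transitive on `F` (for `x, y = g x ∈ F`: `Q`, `g Q g⁻¹ ≤ R_y`,
so `l g ∈ N` for some `l ∈ R_y` and `l g x = y`). `Q` is trivial on `F`, `|N| = |Q| 2 ^ a`, so `|F|` is a power of two, `|F| = 2 ^ b`. If `b = 0`, `3 * 1 ≤ 2 * k`. Let `b ≥ 1`, `x ∈ F`.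
(2) The orbits of `N ⊓ R_x` on `F` have lengths powers of two (it is trivial for `Q`); `{x}` is one of them and `|F|` is even, so there is another fixed point `y ≠ x` of `N ⊓ R_x` in
`F`. Let `Λ = R_x y`. `|Λ| ≥ 2`: otherwise `R_x ≤ R_y`, `R_x = R_y` (same order), so `R_x ≠ R` is normalised by an element `g` with `g x = y`, not in `R_x`; `R_x` is a maximal
subgroup (a conjugate of `M`), so it is normal, and `k` is a prime (`R / R_x` has no proper subgroups), `k ≠ 2` by `h2`; as `Q ≤ R_x` is trivial on `X`, `F = X`, `k = 2 ^ b`, a contradiction.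
`Λ ∩ F = {y}`: for `y' = h y ∈ F`, `h ∈ R_x`, `Q` and `h⁻¹ Q h` are in `R_x ⊓ R_y`, so there is `l ∈ R_x ⊓ R_y` with `l h⁻¹ ∈ N`; `l h⁻¹ ∈ N ⊓ R_x` fixes `y`, and `l h⁻¹ y' = y`, so `y' = y`.
(3) Let `c` be the number of the conjugates of `Q` in `R`, `c_x` the number of those in `R_x` (the same for all `x`), `c_xy` the number of those in `R_x ⊓ R_y`. Counting pairs:
`k c_x = c |F|`. The number of pairs of `y' ∈ Λ` and a conjugate of `Q` (under `R`, equivalently by (1) under `R_x`) contained in `R_x ⊓ R_y'` is `|Λ| c_xy`, and it is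
`c_x * |Λ ∩ F| = c_x`. And `c_xy ≥ 2 c_x - c`. So `c_x ≥ 2 (2 c_x - c)`, `3 c_x ≤ 2 c`, `3 |F| ≤ 2 k`.
(It is convenient to count the elements `g ∈ R` with `g Q g⁻¹ ≤ R_x` instead of the conjugates: `|{g : g Q g⁻¹ ≤ R_x}| = |{g : g⁻¹ x ∈ F}|`.)
-/

set_option autoImplicit false

namespace Pool.Agent.FuS

open MulAction

private def fx {R : Type} [Group R] (Q : Subgroup R) (Ω : Type) [MulAction R Ω] : Set Ω :=
  {x | ∀ q ∈ Q, q • x = x}

private theorem fx_norm {R : Type} [Group R] {Ω : Type} [MulAction R Ω] (Q : Subgroup R) {n : R}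
    (hn : n ∈ Subgroup.normalizer (Q : Set R)) {x : Ω} (hx : x ∈ fx Q Ω) : n • x ∈ fx Q Ω := by
  intro q hq
  have h1 : n⁻¹ * q * n ∈ Q := (Subgroup.mem_normalizer_iff''.1 hn q).1 hq
  have h2 : q • n • x = n • ((n⁻¹ * q * n) • x) := by
    simp only [smul_smul]
    congr 1
    group
  rw [h2, hx _ h1]

private theorem fx_conj {R : Type} [Group R] {Ω : Type} [MulAction R Ω] (Q : Subgroup R) {g : R}
    {z : Ω} (hz : g⁻¹ • z ∈ fx Q Ω) : ∀ q ∈ Q, g * q * g⁻¹ ∈ stabilizer R z := by
  intro q hq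
  rw [mem_stabilizer_iff, mul_smul, mul_smul, hz q hq, smul_inv_smul]

private theorem fx_le {R : Type} [Group R] {Ω : Type} [MulAction R Ω] (Q : Subgroup R)
    {z : Ω} (hz : z ∈ fx Q Ω) : Q ≤ stabilizer R z := by
  intro q hq
  exact mem_stabilizer_iff.2 (hz q hq)

/-- The action of the normaliser on the fixed points. -/
private def fxa {R : Type} [Group R] (Q : Subgroup R) (Ω : Type) [MulAction R Ω] :
    SubMulAction (Subgroup.normalizer (Q : Set R)) Ω where
  carrier := fx Q Ω
  smul_mem' := by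
    intro c x hx
    exact fx_norm Q c.2 hx

private theorem two_range {G : Type} [Group G] [Finite G] {Y : Type} [MulAction G Y]
    (K : Subgroup G) (hK : ∀ k ∈ K, ∀ y : Y, k • y = y) (a : ℕ) (hc : K.index ∣ 2 ^ a) :
    IsPGroup 2 (MulAction.toPermHom G Y).range := by
  apply IsPGroup.of_card_dvd_pow (n := a)
  rw [← Subgroup.index_ker]
  refine dvd_trans (Subgroup.index_dvd_of_le ?_) hc
  intro k hk
  rw [MonoidHom.mem_ker]
  ext y
  exact hK k hk y

private theorem two_fixed {G : Type} [Group G] [Finite G] {Y : Type} [Finite Y] [MulAction G Y]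
    (K : Subgroup G) (hK : ∀ k ∈ K, ∀ y : Y, k • y = y) (a : ℕ) (hc : K.index ∣ 2 ^ a)
    (he : Even (Nat.card Y)) (x : Y) (hx : ∀ g : G, g • x = x) :
    ∃ y : Y, y ≠ x ∧ ∀ g : G, g • y = y := by
  have hP := two_range K hK a hc
  haveI : Fact (Nat.Prime 2) := ⟨Nat.prime_two⟩
  have h1 := hP.card_modEq_card_fixedPoints Y
  have hfix : ∀ y : Y, y ∈ fixedPoints (MulAction.toPermHom G Y).range Y ↔ ∀ g : G, g • y = y := by
    intro y
    constructor
    · intro h g
      exact h ⟨MulAction.toPermHom G Y g, ⟨g, rfl⟩⟩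
    · rintro h ⟨_, g, rfl⟩
      exact h g
  have hx' := (hfix x).2 hx
  have h2 : Even (Nat.card (fixedPoints (MulAction.toPermHom G Y).range Y)) := by
    rw [Nat.even_iff] at he ⊢
    rw [← h1]
    exact he
  by_contra hcon
  push Not at hcon
  have h3 : Nat.card (fixedPoints (MulAction.toPermHom G Y).range Y) = 1 := by
    rw [Nat.card_eq_one_iff_unique]
    refine ⟨⟨?_⟩, ⟨⟨x, hx'⟩⟩⟩
    have hall : ∀ u : fixedPoints (MulAction.toPermHom G Y).range Y, (u : Y) = x := by
      intro u
      by_contra hne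
      obtain ⟨g, hg⟩ := hcon u hne
      exact hg ((hfix u).1 u.2 g)
    intro u v
    exact Subtype.ext ((hall u).trans (hall v).symm)
  rw [h3] at h2
  exact absurd h2 (by decide)

private theorem count {R : Type} [Group R] [Fintype R] {Ω : Type} [Fintype Ω] [DecidableEq Ω]
    [MulAction R Ω] [IsPretransitive R Ω] (F : Finset Ω) (z : Ω) :
    Fintype.card Ω * (Finset.univ.filter fun g : R => g⁻¹ • z ∈ F).card =
      Fintype.card R * F.card := by
  have h1 : ∀ z' : Ω, (Finset.univ.filter fun g : R => g⁻¹ • z' ∈ F).card =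
      (Finset.univ.filter fun g : R => g⁻¹ • z ∈ F).card := by
    intro z'
    obtain ⟨k, hk⟩ := exists_smul_eq R z' z
    refine Finset.card_bij (fun g _ => k * g) ?_ ?_ ?_
    · intro g hg
      rw [Finset.mem_filter] at hg ⊢
      refine ⟨Finset.mem_univ _, ?_⟩
      rw [mul_inv_rev, ← hk, mul_smul, inv_smul_smul]
      exact hg.2
    · intro a _ b _ hab
      exact mul_left_cancel hab
    · intro g hg
      rw [Finset.mem_filter] at hg
      refine ⟨k⁻¹ * g, ?_, by group⟩
      rw [Finset.mem_filter]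
      refine ⟨Finset.mem_univ _, ?_⟩
      rw [mul_inv_rev, inv_inv, mul_smul, hk]
      exact hg.2
  have h2 : ∑ z' : Ω, (Finset.univ.filter fun g : R => g⁻¹ • z' ∈ F).card =
      Fintype.card R * F.card := by
    simp only [Finset.card_filter]
    rw [Finset.sum_comm]
    have h3 : ∀ g : R, (∑ z' : Ω, if g⁻¹ • z' ∈ F then 1 else 0) = F.card := by
      intro g
      rw [← Finset.card_filter]
      refine Finset.card_bij (fun w _ => g⁻¹ • w) ?_ ?_ ?_
      · intro w hw
        exact (Finset.mem_filter.1 hw).2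
      · intro a _ b _ hab
        exact smul_left_cancel _ hab
      · intro w hw
        refine ⟨g • w, ?_, inv_smul_smul _ _⟩
        rw [Finset.mem_filter]
        refine ⟨Finset.mem_univ _, ?_⟩
        rw [inv_smul_smul]
        exact hw
    rw [Finset.sum_congr rfl (fun g _ => h3 g), Finset.sum_const, Finset.card_univ, smul_eq_mul]
  rw [← h2, Finset.sum_congr rfl (fun z' _ => h1 z'), Finset.sum_const, Finset.card_univ,
    smul_eq_mul]

private theorem final_count {R : Type} [Group R] [Fintype R] {Ω : Type} [Fintype Ω]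
    [DecidableEq Ω] [DecidableEq R] [MulAction R Ω] [IsPretransitive R Ω] (F : Finset Ω)
    (x y : Ω) (h : R) (hx : h • x = x)
    (hu : ∀ g : R, g⁻¹ • x ∈ F → g⁻¹ • y ∈ F → g⁻¹ • (h • y) ∈ F → False) :
    3 * F.card ≤ 2 * Fintype.card Ω := by
  set A : Ω → Finset R := fun z => Finset.univ.filter fun g : R => g⁻¹ • z ∈ F with hA
  have hAm : ∀ z g, g ∈ A z ↔ g⁻¹ • z ∈ F := by
    intro z g
    rw [hA, Finset.mem_filter]
    exact ⟨fun h => h.2, fun h => ⟨Finset.mem_univ _, h⟩⟩
  have cx := count (R := R) F x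
  have cy := count (R := R) F y
  have hO : 0 < Fintype.card Ω := Fintype.card_pos_iff.2 ⟨x⟩
  have hR : 0 < Fintype.card R := Fintype.card_pos_iff.2 ⟨1⟩
  have e1 : (A x).card = (A y).card := Nat.eq_of_mul_eq_mul_left hO (cx.trans cy.symm)
  have e2 : (A x ∩ A (h • y)).card = (A x ∩ A y).card := by
    symm
    refine Finset.card_bij (fun g _ => h * g) ?_ ?_ ?_
    · intro g hg
      rw [Finset.mem_inter, hAm, hAm] at hg ⊢
      rw [mul_inv_rev, mul_smul, mul_smul, inv_smul_smul]
      refine ⟨?_, hg.2⟩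
      rw [inv_smul_eq_iff.2 hx.symm]
      exact hg.1
    · intro a _ b _ hab
      exact mul_left_cancel hab
    · intro g hg
      rw [Finset.mem_inter, hAm, hAm] at hg
      refine ⟨h⁻¹ * g, ?_, by group⟩
      rw [Finset.mem_inter, hAm, hAm, mul_inv_rev, inv_inv, mul_smul, mul_smul, hx]
      exact hg
  have e3 : (A x ∪ A y).card + (A x ∩ A y).card = (A x).card + (A y).card :=
    Finset.card_union_add_card_inter _ _
  have e4 : (A x ∪ A y).card ≤ Fintype.card R := Finset.card_le_univ _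
  have e5 : (A x ∩ A y).card + (A x ∩ A (h • y)).card ≤ (A x).card := by
    rw [← Finset.card_union_of_disjoint]
    · apply Finset.card_le_card
      apply Finset.union_subset Finset.inter_subset_left Finset.inter_subset_left
    · rw [Finset.disjoint_left]
      intro g hg hg'
      rw [Finset.mem_inter, hAm, hAm] at hg hg'
      exact hu g hg.1 hg.2 hg'.2
  have e6 : 3 * (A x).card ≤ 2 * Fintype.card R := by omega
  have e7 : Fintype.card R * (3 * F.card) ≤ Fintype.card R * (2 * Fintype.card Ω) := by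
    calc Fintype.card R * (3 * F.card) = 3 * (Fintype.card R * F.card) := by ring
      _ = 3 * (Fintype.card Ω * (A x).card) := by rw [← cx]
      _ = Fintype.card Ω * (3 * (A x).card) := by ring
      _ ≤ Fintype.card Ω * (2 * Fintype.card R) := Nat.mul_le_mul_left _ e6
      _ = Fintype.card R * (2 * Fintype.card Ω) := by ring
  exact Nat.le_of_mul_le_mul_left e7 hR

/-- A maximal subgroup which is normal and of index divisible by 2 has index 2. -/
private theorem index_two {R : Type} [Group R] [Finite R] (S : Subgroup R) (hS : IsCoatom S)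
    (hn : S.Normal) (h2 : 2 ∣ S.index) : S.index = 2 := by
  haveI : Fact (Nat.Prime 2) := ⟨Nat.prime_two⟩
  have h3 : 2 ∣ Nat.card (R ⧸ S) := h2
  obtain ⟨t, ht⟩ := exists_prime_orderOf_dvd_card' (G := R ⧸ S) 2 h3
  have h4 : S < (Subgroup.zpowers t).comap (QuotientGroup.mk' S) := by
    rw [SetLike.lt_iff_le_and_exists]
    constructor
    · intro s hs
      rw [Subgroup.mem_comap]
      have : QuotientGroup.mk' S s = 1 := (QuotientGroup.eq_one_iff s).2 hs
      rw [this]
      exact Subgroup.one_mem _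
    · obtain ⟨u, hu⟩ := QuotientGroup.mk'_surjective S t
      refine ⟨u, ?_, ?_⟩
      · rw [Subgroup.mem_comap, hu]
        exact Subgroup.mem_zpowers t
      · intro hu'
        have : QuotientGroup.mk' S u = 1 := (QuotientGroup.eq_one_iff u).2 hu'
        rw [hu] at this
        rw [this, orderOf_one] at ht
        exact absurd ht (by decide)
  have h5 := hS.2 _ h4
  have h6 : Subgroup.zpowers t = ⊤ := by
    rw [eq_top_iff]
    intro v _
    obtain ⟨u, hu⟩ := QuotientGroup.mk'_surjective S v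
    have : u ∈ (Subgroup.zpowers t).comap (QuotientGroup.mk' S) := by
      rw [h5]
      exact Subgroup.mem_top u
    rw [Subgroup.mem_comap, hu] at this
    exact this
  have h7 : Nat.card (Subgroup.zpowers t) = 2 := by
    rw [Nat.card_zpowers, ht]
  rw [h6, Subgroup.card_top] at h7
  exact h7

private theorem main_gen {R : Type} [Group R] [Finite R] {Ω : Type} [Finite Ω] [MulAction R Ω]
    [IsPretransitive R Ω] (h2 : ∀ K : Subgroup R, K.index ≠ 2)
    (hco : ∀ x : Ω, IsCoatom (stabilizer R x)) (Q : Subgroup R) (hQ : Pron Q)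
    (hN : ∃ a : ℕ, Nat.card (Subgroup.normalizer (Q : Set R)) = Nat.card Q * 2 ^ a) :
    3 * (fx Q Ω).ncard ≤ 2 * Nat.card Ω := by
  classical
  rcases Set.eq_empty_or_nonempty (fx Q Ω) with h0 | ⟨x, hx⟩
  · rw [h0, Set.ncard_empty]
    omega
  obtain ⟨a, ha⟩ := hN
  set N : Subgroup R := Subgroup.normalizer (Q : Set R) with hNdef
  have hQN : Q ≤ N := Subgroup.le_normalizer
  have hidx : (Q.subgroupOf N).index = 2 ^ a := by
    have h := (Q.subgroupOf N).card_mul_index
    have h' : Nat.card (Q.subgroupOf N) = Nat.card Q :=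
      Nat.card_congr (Subgroup.subgroupOfEquivOfLe hQN).toEquiv
    rw [h', ha] at h
    exact Nat.eq_of_mul_eq_mul_left Nat.card_pos h
  -- the normaliser is transitive on the fixed points
  have htr : ∀ u ∈ fx Q Ω, ∀ v ∈ fx Q Ω, ∃ n ∈ N, n • u = v := by
    intro u hu v hv
    obtain ⟨g, hg⟩ := exists_smul_eq R u v
    have h1 : g⁻¹ • v ∈ fx Q Ω := by
      rw [← hg, inv_smul_smul]
      exact hu
    obtain ⟨l, hl, hln⟩ := hQ (stabilizer R v) g (fx_le Q hv) (fx_conj Q h1)
    refine ⟨l * g, hln, ?_⟩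
    rw [mul_smul, hg]
    exact hl
  let X0 : fxa Q Ω := ⟨x, hx⟩
  have hcard : (fx Q Ω).ncard = Nat.card (fxa Q Ω) := rfl
  have hdiv : Nat.card (fxa Q Ω) ∣ 2 ^ a := by
    haveI : IsPretransitive N (fxa Q Ω) := by
      refine ⟨?_⟩
      rintro ⟨u, hu⟩ ⟨v, hv⟩
      obtain ⟨n, hn, hnu⟩ := htr u hu v hv
      exact ⟨⟨n, hn⟩, Subtype.ext hnu⟩
    rw [← index_stabilizer_of_transitive N X0, ← hidx]
    apply Subgroup.index_dvd_of_le
    intro q hq
    rw [mem_stabilizer_iff]
    apply Subtype.ext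
    exact hx q (Subgroup.mem_subgroupOf.1 hq)
  obtain ⟨b, _, hb⟩ := (Nat.dvd_prime_pow Nat.prime_two).1 hdiv
  have hOmega : 2 ≤ Nat.card Ω := by
    by_contra hlt
    have h1 : Nat.card Ω ≤ 1 := by omega
    have h3 : stabilizer R x = ⊤ := by
      rw [eq_top_iff]
      intro g _
      rw [mem_stabilizer_iff]
      haveI := Finite.card_le_one_iff_subsingleton.1 h1
      exact Subsingleton.elim _ _
    exact (hco x).1 h3
  rcases Nat.eq_zero_or_pos b with hb0 | hbpos
  · rw [hcard, hb, hb0]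
    omega
  have heven : Even (Nat.card (fxa Q Ω)) := by
    rw [hb]
    exact (Nat.even_pow.2 ⟨even_two, by omega⟩)
  -- the second fixed point of `N ⊓ R_x`
  obtain ⟨⟨y, hy⟩, hyx, hyfix⟩ : ∃ y : fxa Q Ω, y ≠ X0 ∧ ∀ g : stabilizer N X0, g • y = y := by
    refine two_fixed (G := stabilizer N X0) (Y := fxa Q Ω)
      ((Q.subgroupOf N).subgroupOf (stabilizer N X0)) ?_ a ?_ heven X0 (fun g => g.2)
    · intro k hk u
      apply Subtype.ext
      exact u.2 _ (Subgroup.mem_subgroupOf.1 (Subgroup.mem_subgroupOf.1 hk))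
    · rw [← hidx]
      apply Subgroup.relIndex_dvd_index_of_le
      intro q hq
      rw [mem_stabilizer_iff]
      apply Subtype.ext
      exact hx q (Subgroup.mem_subgroupOf.1 hq)
  have hyx' : y ≠ x := fun h => hyx (Subtype.ext h)
  have hyf : ∀ n ∈ N, n • x = x → n • y = y := by
    intro n hn hnx
    have h1 : (⟨n, hn⟩ : N) ∈ stabilizer N X0 := by
      rw [mem_stabilizer_iff]
      exact Subtype.ext hnx
    have h3 := hyfix ⟨⟨n, hn⟩, h1⟩
    exact congrArg Subtype.val h3
  have hxF : x ∈ fx Q Ω := hx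
  have hyF : y ∈ fx Q Ω := hy
  -- the orbit of `y` under `R_x` is not trivial
  have hmove : ∃ h : R, h • x = x ∧ h • y ≠ y := by
    by_contra hcon
    push Not at hcon
    have hle : stabilizer R x ≤ stabilizer R y := by
      intro g hg
      exact hcon g hg
    have heq : stabilizer R x = stabilizer R y := by
      rcases eq_or_lt_of_le hle with h | h
      · exact h
      · exact absurd ((hco x).2 _ h) (hco y).1
    obtain ⟨g, hg⟩ := exists_smul_eq R x y
    have hgS : g ∉ stabilizer R x := by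
      intro h
      rw [mem_stabilizer_iff, hg] at h
      exact hyx' h
    have hgN : g ∈ Subgroup.normalizer ((stabilizer R x : Subgroup R) : Set R) := by
      rw [Subgroup.mem_normalizer_iff]
      intro h
      constructor
      · intro hh
        rw [heq, mem_stabilizer_iff, mul_smul, mul_smul, ← hg, inv_smul_smul,
          mem_stabilizer_iff.1 hh]
      · intro hh
        rw [heq, mem_stabilizer_iff, mul_smul, mul_smul, ← hg, inv_smul_smul] at hh
        rw [mem_stabilizer_iff]
        exact smul_left_cancel g hh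
    have htop : Subgroup.normalizer ((stabilizer R x : Subgroup R) : Set R) = ⊤ := by
      apply (hco x).2
      rw [SetLike.lt_iff_le_and_exists]
      exact ⟨Subgroup.le_normalizer, g, hgN, hgS⟩
    have hnorm : (stabilizer R x).Normal := Subgroup.normalizer_eq_top_iff.1 htop
    -- all points are fixed by `Q`
    have hall : fx Q Ω = Set.univ := by
      rw [Set.eq_univ_iff_forall]
      intro z q hq
      obtain ⟨k, hk⟩ := exists_smul_eq R x z
      have h1 : k⁻¹ * q * k ∈ stabilizer R x := by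
        have := hnorm.conj_mem q (fx_le Q hxF hq) k⁻¹
        simpa using this
      rw [mem_stabilizer_iff, mul_smul, mul_smul, hk, inv_smul_eq_iff, hk] at h1
      exact h1
    have hidx2 : (stabilizer R x).index = 2 ^ b := by
      rw [index_stabilizer_of_transitive, ← hb, ← hcard, hall, Set.ncard_univ]
    apply h2 (stabilizer R x)
    apply index_two _ (hco x) hnorm
    rw [hidx2]
    exact dvd_pow_self 2 (by omega)
  obtain ⟨h, hhx, hhy⟩ := hmove
  -- `F` meets the orbit in `y` only
  have huniq : ∀ k : R, k • x = x → k • y ∈ fx Q Ω → k • y = y := by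
    intro k hkx hky
    have h1 : ∀ q ∈ Q, k⁻¹ * q * k⁻¹⁻¹ ∈ stabilizer R x ⊓ stabilizer R y := by
      intro q hq
      refine Subgroup.mem_inf.2 ⟨?_, ?_⟩
      · rw [mem_stabilizer_iff, inv_inv, mul_smul, mul_smul, hkx, hxF q hq, inv_smul_eq_iff,
          hkx]
      · rw [mem_stabilizer_iff, inv_inv, mul_smul, mul_smul, hky q hq, inv_smul_smul]
    obtain ⟨l, hl, hln⟩ := hQ (stabilizer R x ⊓ stabilizer R y) k⁻¹
      (le_inf (fx_le Q hxF) (fx_le Q hyF)) h1
    obtain ⟨hlx, hly⟩ := Subgroup.mem_inf.1 hl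
    rw [mem_stabilizer_iff] at hlx hly
    have h3 : (l * k⁻¹) • y = y := by
      apply hyf _ hln
      rw [mul_smul, inv_smul_eq_iff.2 hkx.symm, hlx]
    rw [mul_smul] at h3
    have h4 : k⁻¹ • y = y := by
      apply smul_left_cancel l
      rw [h3, hly]
    rw [inv_smul_eq_iff] at h4
    exact h4.symm
  haveI := Fintype.ofFinite R
  haveI := Fintype.ofFinite Ω
  have hfin := final_count (R := R) (Ω := Ω) (fx Q Ω).toFinset x y h hhx ?_
  · rw [Set.ncard_eq_toFinset_card', Nat.card_eq_fintype_card]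
    exact hfin
  intro g hgx hgy hghy
  rw [Set.mem_toFinset] at hgx hgy hghy
  obtain ⟨l, hl, hln⟩ := hQ (stabilizer R x) g (fx_le Q hxF) (fx_conj Q hgx)
  rw [mem_stabilizer_iff] at hl
  have hly : l • y ∈ fx Q Ω := by
    have := fx_norm (Ω := Ω) Q hln hgy
    rwa [mul_smul, smul_inv_smul] at this
  have hlhy : (l * h) • y ∈ fx Q Ω := by
    have := fx_norm (Ω := Ω) Q hln hghy
    rwa [mul_smul, smul_inv_smul, smul_smul] at this
  have e1 := huniq l hl hly
  have e2 := huniq (l * h) (by rw [mul_smul, hhx, hl]) hlhy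
  apply hhy
  rw [mul_smul] at e2
  apply smul_left_cancel l
  rw [e2, e1]

theorem pron_fix {R : Type} [Group R] [Finite R] (h2 : ∀ K : Subgroup R, K.index ≠ 2) (M : Subgroup R) (hM : IsCoatom M)
    (Q : Subgroup R) (hQ : Pron Q) (hN : ∃ a : ℕ, Nat.card (Subgroup.normalizer (Q : Set R)) = Nat.card Q * 2 ^ a) :
    3 * Nat.card {x : R ⧸ M // ∀ q ∈ Q, q • x = x} ≤ 2 * Nat.card (R ⧸ M) := by
  refine main_gen (Ω := R ⧸ M) h2 ?_ Q hQ hN
  intro x
  obtain ⟨g, hg⟩ := exists_smul_eq R ((1 : R) : R ⧸ M) x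
  rw [← hg, stabilizer_smul_eq_stabilizer_map_conj, stabilizer_quotient]
  have h := ((MulAut.conj g).mapSubgroup.isCoatom_iff M).2 hM
  exact h

end Pool.Agent.FuS
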