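import Pool.Agent.FuS.Defs

/-!
MP_7fa120_al, all subgroups. Bases.

`card_base`: an element is determined by the images of the points of a base.
`sep_greedy`. Let `N = |W| ≥ 1`. For a set `P` of pairs `(x, y)`, `x ≠ y`, some `w` separates at least `|P| D / N` of them; so by adding one `w` the number of pairs not yet separated is
multiplied by at most `1 - D / N`, and by adding `N / D + 1` of them by at most `(1 - D / N) ^ (N / D + 1) ≤ 1 / 2` (`(1 + t) ^ m ≥ 1 + m t`, or `exp`). After `2 (log_2 k + 1)` such rounds, `k = |Ω|`,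
the number is at most `k ^ 2 / 2 ^ (2 (log_2 k + 1)) < 1`.
-/

set_option autoImplicit false

namespace Pool.Agent.FuS

theorem card_base {G : Type} [Group G] [Finite G] {Ω : Type} [Finite Ω] [MulAction G Ω] (T : Finset Ω) (h : Base G T) :
    Nat.card G ≤ Nat.card Ω ^ T.card := by
  classical
  have h1 : Function.Injective (fun (g : G) (x : T) => g • (x : Ω)) := by
    intro g g' hg
    have h2 : g'⁻¹ * g = 1 := by
      apply h
      intro x hx
      have h3 : g • x = g' • x := congrFun hg ⟨x, hx⟩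
      rw [mul_smul, h3, inv_smul_smul]
    calc g = g' * (g'⁻¹ * g) := by group
      _ = g' := by rw [h2, mul_one]
  have h4 := Nat.card_le_card_of_injective _ h1
  rw [Nat.card_fun] at h4
  simpa using h4

private lemma sep_half {N D : ℕ} (hD : 1 ≤ D) (hDN : D ≤ N) :
    (1 - (D : ℝ) / N) ^ (N / D + 1) ≤ 1 / 2 := by
  have hN : 0 < N := by omega
  have hN' : (0 : ℝ) < N := by exact_mod_cast hN
  have hDN' : (D : ℝ) ≤ N := by exact_mod_cast hDN
  have h0 : 0 ≤ 1 - (D : ℝ) / N := by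
    rw [sub_nonneg, div_le_one hN']
    exact hDN'
  have h1 : 1 - (D : ℝ) / N ≤ Real.exp (-((D : ℝ) / N)) := Real.one_sub_le_exp_neg _
  have h2 : (1 - (D : ℝ) / N) ^ (N / D + 1) ≤ Real.exp (-((D : ℝ) / N)) ^ (N / D + 1) :=
    pow_le_pow_left₀ h0 h1 _
  refine h2.trans ?_
  rw [← Real.exp_nat_mul]
  have h3 : N < D * (N / D + 1) := Nat.lt_mul_div_succ N (by omega)
  have h4 : (N : ℝ) < D * ((N / D + 1 : ℕ) : ℝ) := by exact_mod_cast h3
  have h5 : ((N / D + 1 : ℕ) : ℝ) * -((D : ℝ) / N) ≤ -1 := by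
    have : ((N / D + 1 : ℕ) : ℝ) * -((D : ℝ) / N) = -((D * ((N / D + 1 : ℕ) : ℝ)) / N) := by ring
    rw [this, neg_le_neg_iff, le_div_iff₀ hN']
    linarith
  refine (Real.exp_le_exp.2 h5).trans ?_
  rw [Real.exp_neg, one_div]
  apply inv_anti₀ (by norm_num)
  have := Real.add_one_le_exp (1 : ℝ)
  linarith

theorem sep_greedy {Ω W : Type} [Finite Ω] [Finite W] (S : W → Ω → Ω → Prop) (D : ℕ) (hD : 1 ≤ D)
    (h : ∀ x y : Ω, x ≠ y → D ≤ Nat.card {w : W // S w x y}) :
    ∃ T : Finset W, T.card ≤ (Nat.card W / D + 1) * (2 * (Nat.log 2 (Nat.card Ω) + 1)) ∧ ∀ x y : Ω, x ≠ y → ∃ w ∈ T, S w x y := by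
  classical
  haveI := Fintype.ofFinite Ω
  haveI := Fintype.ofFinite W
  by_cases htriv : ∀ x y : Ω, x = y
  · exact ⟨∅, by simp, fun x y hxy => absurd (htriv x y) hxy⟩
  push Not at htriv
  obtain ⟨x0, y0, hxy0⟩ := htriv
  have hDN : D ≤ Nat.card W := (h x0 y0 hxy0).trans (Nat.card_le_card_of_injective _ Subtype.val_injective)
  obtain ⟨N, hN⟩ : ∃ N, N = Nat.card W := ⟨_, rfl⟩
  obtain ⟨k, hk⟩ : ∃ k, k = Nat.card Ω := ⟨_, rfl⟩
  rw [← hN] at hDN ⊢
  rw [← hk]
  have hN1 : 0 < N := by omega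
  have hN' : (0 : ℝ) < N := by exact_mod_cast hN1
  have hNc : (Finset.univ : Finset W).card = N := by
    rw [hN, Nat.card_eq_fintype_card, Finset.card_univ]
  have hDN' : (D : ℝ) ≤ N := by exact_mod_cast hDN
  obtain ⟨q, hq⟩ : ∃ q : ℝ, q = 1 - (D : ℝ) / N := ⟨_, rfl⟩
  have hq0 : 0 ≤ q := by
    rw [hq, sub_nonneg, div_le_one hN']
    exact hDN'
  let P : Finset W → Finset (Ω × Ω) := fun T =>
    Finset.univ.filter fun p => p.1 ≠ p.2 ∧ ∀ w ∈ T, ¬ S w p.1 p.2
  have hstep : ∀ T : Finset W, ∃ w : W, ((P (insert w T)).card : ℝ) ≤ q * (P T).card := by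
    intro T
    have h1 : (P T).card * D ≤ ∑ w : W, ((P T).filter fun p => S w p.1 p.2).card := by
      calc (P T).card * D = ∑ p ∈ P T, D := by rw [Finset.sum_const, smul_eq_mul]
        _ ≤ ∑ p ∈ P T, ((Finset.univ : Finset W).filter fun w => S w p.1 p.2).card := by
            refine Finset.sum_le_sum fun p hp => ?_
            have h2 : p.1 ≠ p.2 := by
              have := (Finset.mem_filter.1 hp).2
              exact this.1
            have h3 := h p.1 p.2 h2
            rwa [Nat.card_eq_fintype_card, Fintype.card_subtype] at h3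
        _ = ∑ w : W, ((P T).filter fun p => S w p.1 p.2).card := by
            simp only [Finset.card_filter]
            rw [Finset.sum_comm]
    have h2 : ∃ w : W, (P T).card * D ≤ ((P T).filter fun p => S w p.1 p.2).card * N := by
      by_contra hcon
      push Not at hcon
      have h3 : ∑ w : W, ((P T).filter fun p => S w p.1 p.2).card * N < ∑ w : W, (P T).card * D := by
        apply Finset.sum_lt_sum_of_nonempty
        · rw [← Finset.card_pos, hNc]
          exact hN1
        · exact fun w _ => hcon w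
      rw [← Finset.sum_mul, Finset.sum_const, hNc, smul_eq_mul] at h3
      have h4 : N * ((P T).card * D) ≤ (∑ w : W, ((P T).filter fun p => S w p.1 p.2).card) * N := by
        rw [mul_comm N]
        exact Nat.mul_le_mul_right N h1
      omega
    obtain ⟨w, hw⟩ := h2
    refine ⟨w, ?_⟩
    have h3 : P (insert w T) = (P T).filter fun p => ¬ S w p.1 p.2 := by
      ext p
      simp only [P, Finset.mem_filter, Finset.mem_univ, true_and, Finset.mem_insert, forall_eq_or_imp]
      tauto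
    have h4 : ((P T).filter fun p => S w p.1 p.2).card + ((P T).filter fun p => ¬ S w p.1 p.2).card = (P T).card :=
      Finset.card_filter_add_card_filter_not _
    rw [h3]
    have h5 : (((P T).filter fun p => S w p.1 p.2).card : ℝ) + (((P T).filter fun p => ¬ S w p.1 p.2).card : ℝ) =
        ((P T).card : ℝ) := by exact_mod_cast h4
    have h6 : ((P T).card : ℝ) * D ≤ (((P T).filter fun p => S w p.1 p.2).card : ℝ) * N := by exact_mod_cast hw
    have h7 : ((P T).card : ℝ) * ((D : ℝ) / N) ≤ (((P T).filter fun p => S w p.1 p.2).card : ℝ) := by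
      rw [← mul_div_assoc, div_le_iff₀ hN']
      exact h6
    rw [hq]
    linarith
  have hall : ∀ n : ℕ, ∃ T : Finset W, T.card ≤ n ∧ ((P T).card : ℝ) ≤ q ^ n * (k : ℝ) ^ 2 := by
    intro n
    induction n with
    | zero =>
      refine ⟨∅, by simp, ?_⟩
      have h1 : (P ∅).card ≤ k ^ 2 := by
        refine (Finset.card_le_univ _).trans ?_
        rw [Fintype.card_prod, hk, Nat.card_eq_fintype_card, sq]
      rw [pow_zero, one_mul]
      exact_mod_cast h1
    | succ n ih =>
      obtain ⟨T, hT1, hT2⟩ := ih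
      obtain ⟨w, hw⟩ := hstep T
      refine ⟨insert w T, (Finset.card_insert_le _ _).trans (by omega), hw.trans ?_⟩
      rw [pow_succ', mul_assoc]
      exact mul_le_mul_of_nonneg_left hT2 hq0
  obtain ⟨T, hT1, hT2⟩ := hall ((N / D + 1) * (2 * (Nat.log 2 k + 1)))
  refine ⟨T, hT1, ?_⟩
  have hk0 : k ≠ 0 := by
    rw [hk]
    haveI : Nonempty Ω := ⟨x0⟩
    exact Nat.card_pos.ne'
  have h1 : q ^ (N / D + 1) ≤ 1 / 2 := by
    rw [hq]
    exact sep_half hD hDN
  have h2 : q ^ ((N / D + 1) * (2 * (Nat.log 2 k + 1))) * (k : ℝ) ^ 2 < 1 := by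
    rw [pow_mul]
    have h3 : (q ^ (N / D + 1)) ^ (2 * (Nat.log 2 k + 1)) ≤ (1 / 2) ^ (2 * (Nat.log 2 k + 1)) :=
      pow_le_pow_left₀ (pow_nonneg hq0 _) h1 _
    have h4 : k < 2 ^ (Nat.log 2 k + 1) := Nat.lt_pow_succ_log_self (by norm_num) k
    have h5 : (k : ℝ) < 2 ^ (Nat.log 2 k + 1) := by exact_mod_cast h4
    have h6 : (k : ℝ) ^ 2 < 2 ^ (2 * (Nat.log 2 k + 1)) := by
      rw [mul_comm 2, pow_mul]
      exact pow_lt_pow_left₀ h5 (Nat.cast_nonneg k) two_ne_zero
    have h7 : (0 : ℝ) < 2 ^ (2 * (Nat.log 2 k + 1)) := by positivity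
    calc (q ^ (N / D + 1)) ^ (2 * (Nat.log 2 k + 1)) * (k : ℝ) ^ 2
        ≤ (1 / 2) ^ (2 * (Nat.log 2 k + 1)) * (k : ℝ) ^ 2 :=
          mul_le_mul_of_nonneg_right h3 (sq_nonneg _)
      _ < (1 / 2) ^ (2 * (Nat.log 2 k + 1)) * 2 ^ (2 * (Nat.log 2 k + 1)) :=
          mul_lt_mul_of_pos_left h6 (by positivity)
      _ = 1 := by rw [← mul_pow]; norm_num
  have h3 : (P T).card = 0 := by
    have h4 : ((P T).card : ℝ) < 1 := hT2.trans_lt h2
    have h5 : (P T).card < 1 := by exact_mod_cast h4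
    omega
  intro x y hxy
  by_contra hcon
  push Not at hcon
  have h4 : (x, y) ∈ P T := by
    simp only [P, Finset.mem_filter, Finset.mem_univ, true_and]
    exact ⟨hxy, hcon⟩
  rw [Finset.card_eq_zero.1 h3] at h4
  exact absurd h4 (Finset.notMem_empty _)

end Pool.Agent.FuS
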