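import Pool.Agent.FuS.TwoA

/-!
MP_7fa120_al, all subgroups. Doubly transitive groups: the counting argument.

Abstract form: `T : Ω → Ω → Ω → Prop` (`T u v x`), `k = |Ω| ≥ 4`, with the counts of `two_a`. Fix `x`. For `(i, j)` let `E_ij` be the set of the pairs `(a, b)`, `a b : Fin r → Ω`, with `a i ≠ b j` and
`T (a i) (b j) x`. `|E_ij| = (k - 1) s k ^ (2 r - 2)`. For `(i, j) ≠ (i', j')`: `|E_ij ∩ E_i'j'| ≤ s ^ 2 k ^ (2 r - 2)`: if `i ≠ i'`, `j ≠ j'` it is `((k - 1) s) ^ 2 k ^ (2 r - 4)`; if `i = i'`, `j ≠ j'` it is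
`∑_u |{v : u ≠ v, T u v x}| ^ 2 k ^ (2 r - 3) ≤ k s ^ 2 k ^ (2 r - 3)` (the count is `0` for `u = x`: hypothesis `hx`), similarly for `j = j'`. By Bonferroni
`|⋃ E_ij| ≥ ∑ |E_ij| - ∑_(pairs) |E_ij ∩ E_i'j'| ≥ r ^ 2 (k - 1) s k ^ (2 r - 2) - (r ^ 4 / 2) s ^ 2 k ^ (2 r - 2)`. If `r = 1` this is `(k - 1) s ≥ k s / 2` (there are no pairs). If `2 r ^ 2 s ≤ k` it is at least
`r ^ 2 s k ^ (2 r - 2) (k - 1 - k / 4) ≥ r ^ 2 s k ^ (2 r - 1) / 2`. Sum over `x`.
(Bonferroni: for a finite family of sets, `∑ |E_ij| ≤ |⋃ E_ij| + ∑_(unordered pairs) |E ∩ E'|`, because `m ≤ 1 + m (m - 1) / 2` for `m ≥ 1`; with ordered pairs: `2 ∑ |E| ≤ 2 |⋃ E| + ∑_(ordered pairs) |E ∩ E'|`.)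
-/

set_option autoImplicit false

namespace Pool.Agent.FuS

open Finset

/-- Bonferroni. -/
private theorem tb_bonf {I X : Type*} [Fintype I] [DecidableEq I] [Fintype X] (R : I → X → Prop)
    [∀ i p, Decidable (R i p)] :
    2 * ∑ i : I, #{p : X | R i p} ≤ 2 * #{p : X | ∃ i, R i p} +
      ∑ q ∈ (univ : Finset I).offDiag, #{p : X | R q.1 p ∧ R q.2 p} := by
  have e1 : ∑ i : I, #{p : X | R i p} = ∑ p : X, #{i : I | R i p} :=
    Finset.sum_card_bipartiteAbove_eq_sum_card_bipartiteBelow (s := (univ : Finset I))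
      (t := (univ : Finset X)) R
  have e2 : ∑ q ∈ (univ : Finset I).offDiag, #{p : X | R q.1 p ∧ R q.2 p} =
      ∑ p : X, #{q ∈ (univ : Finset I).offDiag | R q.1 p ∧ R q.2 p} :=
    Finset.sum_card_bipartiteAbove_eq_sum_card_bipartiteBelow (s := (univ : Finset I).offDiag)
      (t := (univ : Finset X)) (fun (q : I × I) p => R q.1 p ∧ R q.2 p)
  have e3 : #{p : X | ∃ i, R i p} = ∑ p : X, if ∃ i, R i p then 1 else 0 := Finset.card_filter _ _
  rw [e1, e2, e3, Finset.mul_sum, Finset.mul_sum, ← Finset.sum_add_distrib]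
  refine Finset.sum_le_sum fun p _ => ?_
  have e4 : ({q ∈ (univ : Finset I).offDiag | R q.1 p ∧ R q.2 p} : Finset (I × I)) =
      ({i : I | R i p} : Finset I).offDiag := by
    ext q
    simp only [mem_filter, mem_offDiag, mem_univ, true_and]
    tauto
  rw [e4, Finset.offDiag_card]
  by_cases h : ∃ i, R i p
  · rw [if_pos h]
    obtain ⟨i, hi⟩ := h
    have h1 : 1 ≤ #{i : I | R i p} := Finset.card_pos.2 ⟨i, by simpa using hi⟩
    obtain ⟨m, hm⟩ : ∃ m, #{i : I | R i p} = m + 1 := ⟨_, (Nat.sub_add_cancel h1).symm⟩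
    rw [hm]
    have h2 : (m + 1) * (m + 1) - (m + 1) = m * (m + 1) := by
      rw [show (m + 1) * (m + 1) = m * (m + 1) + (m + 1) by ring, Nat.add_sub_cancel]
    rw [h2]
    rcases Nat.eq_zero_or_pos m with h3 | h3
    · subst h3; norm_num
    · nlinarith
  · rw [if_neg h]
    have h1 : ({i : I | R i p} : Finset I) = ∅ := by
      rw [Finset.filter_eq_empty_iff]
      intro i _ hi
      exact h ⟨i, hi⟩
    rw [h1]
    simp

private theorem tb_one {Ω : Type} [Fintype Ω] [DecidableEq Ω] {r : ℕ} (j : Fin r) (A : Finset Ω) :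
    #{b : Fin r → Ω | b j ∈ A} = #A * Fintype.card Ω ^ (r - 1) := by
  have e : ({b : Fin r → Ω | b j ∈ A} : Finset (Fin r → Ω)) =
      Fintype.piFinset (fun l => if l = j then A else univ) := by
    ext b
    simp only [mem_filter, mem_univ, true_and, Fintype.mem_piFinset]
    constructor
    · intro h l
      by_cases hl : l = j
      · subst hl; simpa using h
      · simp [hl]
    · intro h
      simpa using h j
  rw [e, Fintype.card_piFinset, ← Finset.mul_prod_erase univ _ (mem_univ j), if_pos rfl]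
  congr 1
  rw [Finset.prod_congr rfl (g := fun _ => Fintype.card Ω), Finset.prod_const,
    Finset.card_erase_of_mem (mem_univ j), Finset.card_univ, Fintype.card_fin]
  intro l hl
  rw [if_neg (Finset.ne_of_mem_erase hl), Finset.card_univ]

private theorem tb_two {Ω : Type} [Fintype Ω] [DecidableEq Ω] {r : ℕ} {j j' : Fin r} (hj : j ≠ j')
    (A B : Finset Ω) :
    #{b : Fin r → Ω | b j ∈ A ∧ b j' ∈ B} = #A * (#B * Fintype.card Ω ^ (r - 2)) := by
  have e : ({b : Fin r → Ω | b j ∈ A ∧ b j' ∈ B} : Finset (Fin r → Ω)) =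
      Fintype.piFinset (fun l => if l = j then A else if l = j' then B else univ) := by
    ext b
    simp only [mem_filter, mem_univ, true_and, Fintype.mem_piFinset]
    constructor
    · intro h l
      by_cases hl : l = j
      · subst hl; simpa using h.1
      · by_cases hl' : l = j'
        · subst hl'; simpa [hl] using h.2
        · simp [hl, hl']
    · intro h
      refine ⟨by simpa using h j, by simpa [hj.symm] using h j'⟩
  have hm : j' ∈ (univ : Finset (Fin r)).erase j := Finset.mem_erase.2 ⟨hj.symm, mem_univ _⟩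
  rw [e, Fintype.card_piFinset, ← Finset.mul_prod_erase univ _ (mem_univ j), if_pos rfl,
    ← Finset.mul_prod_erase _ _ hm, if_neg hj.symm, if_pos rfl]
  congr 2
  rw [Finset.prod_congr rfl (g := fun _ => Fintype.card Ω), Finset.prod_const,
    Finset.card_erase_of_mem hm, Finset.card_erase_of_mem (mem_univ j), Finset.card_univ,
    Fintype.card_fin, Nat.sub_sub]
  intro l hl
  rw [if_neg (Finset.ne_of_mem_erase (Finset.mem_of_mem_erase hl)),
    if_neg (Finset.ne_of_mem_erase hl), Finset.card_univ]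

/-- A set of pairs, counted by the first component. -/
private theorem tb_prod {X Y : Type*} [Fintype X] [Fintype Y] (Q : X → Y → Prop)
    [∀ x y, Decidable (Q x y)] :
    #{p : X × Y | Q p.1 p.2} = ∑ x : X, #{y : Y | Q x y} := by
  rw [Finset.card_filter, Fintype.sum_prod_type]
  refine Finset.sum_congr rfl fun x _ => ?_
  rw [Finset.card_filter]

private theorem tb_prod' {X Y : Type*} [Fintype X] [Fintype Y] (Q : X → Y → Prop)
    [∀ x y, Decidable (Q x y)] :
    #{p : X × Y | Q p.1 p.2} = ∑ y : Y, #{x : X | Q x y} := by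
  rw [Finset.card_filter, Fintype.sum_prod_type_right]
  refine Finset.sum_congr rfl fun x _ => ?_
  rw [Finset.card_filter]

private theorem tb_arith {r s k K U : ℕ} (hk : 4 ≤ k) (hrs : r = 1 ∨ 2 * r ^ 2 * s ≤ k)
    (h : 2 * (r ^ 2 * ((k - 1) * s * K)) ≤ 2 * U + (r ^ 2 * r ^ 2 - r ^ 2) * (s ^ 2 * K)) :
    r ^ 2 * s * (k * K) ≤ 2 * U := by
  obtain ⟨t, rfl⟩ : ∃ t, k = t + 4 := ⟨k - 4, (Nat.sub_add_cancel hk).symm⟩
  rw [show t + 4 - 1 = t + 3 by omega] at h
  rcases hrs with h1 | h1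
  · subst h1
    norm_num at h
    nlinarith [Nat.zero_le (s * K), Nat.zero_le (t * (s * K))]
  · have h2 : (r ^ 2 * r ^ 2 - r ^ 2) * (s ^ 2 * K) ≤ r ^ 2 * r ^ 2 * (s ^ 2 * K) :=
      Nat.mul_le_mul_right _ (Nat.sub_le _ _)
    have h3 : 2 * (r ^ 2 * r ^ 2 * (s ^ 2 * K)) ≤ (t + 4) * (r ^ 2 * s * K) := by
      calc 2 * (r ^ 2 * r ^ 2 * (s ^ 2 * K)) = 2 * r ^ 2 * s * (r ^ 2 * s * K) := by ring
        _ ≤ (t + 4) * (r ^ 2 * s * K) := Nat.mul_le_mul_right _ h1
    have h4 : 2 * (r ^ 2 * ((t + 3) * s * K)) = 2 * (t + 3) * (r ^ 2 * s * K) := by ring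
    have h5 : r ^ 2 * s * ((t + 4) * K) = (t + 4) * (r ^ 2 * s * K) := by ring
    rw [h4] at h
    rw [h5]
    generalize r ^ 2 * s * K = Z at *
    have h6 : 4 * (t + 3) * Z ≤ 4 * U + (t + 4) * Z := by linarith
    have h7 : 2 * ((t + 4) * Z) + (t * Z) = 4 * (t + 3) * Z - (t + 4) * Z := by
      have : 4 * (t + 3) * Z = (t + 4) * Z + (2 * ((t + 4) * Z) + t * Z) := by ring
      omega
    have h8 : 2 * ((t + 4) * Z) + (t + 4) * Z ≤ 4 * U + (t + 4) * Z := by
      refine le_trans ?_ h6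
      have : 4 * (t + 3) * Z = (t + 4) * Z + (2 * ((t + 4) * Z) + t * Z) := by ring
      omega
    omega

theorem two_b {Ω : Type} [Finite Ω] (T : Ω → Ω → Ω → Prop) (s r : ℕ) (hs : 1 ≤ s) (hr : 1 ≤ r) (hk : 4 ≤ Nat.card Ω)
    (hx : ∀ u v x : Ω, T u v x → x ≠ u ∧ x ≠ v)
    (h1 : ∀ u w : Ω, u ≠ w → Nat.card {v : Ω // u ≠ v ∧ T u v w} = s)
    (h2 : ∀ v w : Ω, v ≠ w → Nat.card {u : Ω // u ≠ v ∧ T u v w} = s)
    (h3 : ∀ x : Ω, Nat.card {p : Ω × Ω // p.1 ≠ p.2 ∧ T p.1 p.2 x} = (Nat.card Ω - 1) * s)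
    (hrs : r = 1 ∨ 2 * r ^ 2 * s ≤ Nat.card Ω) :
    r ^ 2 * s * Nat.card Ω ^ (2 * r) ≤
      2 * Nat.card {p : ((Fin r → Ω) × (Fin r → Ω)) × Ω // ∃ i j, p.1.1 i ≠ p.1.2 j ∧ T (p.1.1 i) (p.1.2 j) p.2} := by
  classical
  have _ := hs
  have _ := h3
  have := Fintype.ofFinite Ω
  have hc : Nat.card {p : ((Fin r → Ω) × (Fin r → Ω)) × Ω //
      ∃ i j, p.1.1 i ≠ p.1.2 j ∧ T (p.1.1 i) (p.1.2 j) p.2} =
      #{p : ((Fin r → Ω) × (Fin r → Ω)) × Ω |
        ∃ i j, p.1.1 i ≠ p.1.2 j ∧ T (p.1.1 i) (p.1.2 j) p.2} := by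
    rw [Nat.card_eq_fintype_card, Fintype.card_subtype]
  rw [hc]
  rw [Nat.card_eq_fintype_card] at hk hrs
  obtain ⟨k, hkd⟩ : ∃ k, k = Fintype.card Ω := ⟨_, rfl⟩
  have g1 : ∀ u x : Ω, u ≠ x → #{v : Ω | u ≠ v ∧ T u v x} = s := by
    intro u x h
    have := h1 u x h
    rwa [Nat.card_eq_fintype_card, Fintype.card_subtype] at this
  have g1' : ∀ u x : Ω, #{v : Ω | u ≠ v ∧ T u v x} ≤ s := by
    intro u x
    by_cases h : u = x
    · have e : ({v : Ω | u ≠ v ∧ T u v x} : Finset Ω) = ∅ := by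
        rw [Finset.filter_eq_empty_iff]
        intro v _ hv
        exact (hx u v x hv.2).1 h.symm
      rw [e]
      simp
    · exact (g1 u x h).le
  have g2' : ∀ v x : Ω, #{u : Ω | u ≠ v ∧ T u v x} ≤ s := by
    intro v x
    by_cases h : v = x
    · have e : ({u : Ω | u ≠ v ∧ T u v x} : Finset Ω) = ∅ := by
        rw [Finset.filter_eq_empty_iff]
        intro u _ hu
        exact (hx u v x hu.2).2 h.symm
      rw [e]
      simp
    · have := h2 v x h
      rw [Nat.card_eq_fintype_card, Fintype.card_subtype] at this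
      exact this.le
  -- one point
  have main : ∀ x : Ω, r ^ 2 * s * (k * (k ^ (r - 1) * k ^ (r - 1))) ≤
      2 * #{p : (Fin r → Ω) × (Fin r → Ω) | ∃ i j, p.1 i ≠ p.2 j ∧ T (p.1 i) (p.2 j) x} := by
    intro x
    have hb := tb_bonf (I := Fin r × Fin r) (X := (Fin r → Ω) × (Fin r → Ω))
      (fun q p => p.1 q.1 ≠ p.2 q.2 ∧ T (p.1 q.1) (p.2 q.2) x)
    have e1 : ∀ q : Fin r × Fin r, (k - 1) * s * (k ^ (r - 1) * k ^ (r - 1)) ≤
        #{p : (Fin r → Ω) × (Fin r → Ω) | p.1 q.1 ≠ p.2 q.2 ∧ T (p.1 q.1) (p.2 q.2) x} := by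
      intro q
      rw [tb_prod (fun a b : Fin r → Ω => a q.1 ≠ b q.2 ∧ T (a q.1) (b q.2) x)]
      have f1 : ∀ a : Fin r → Ω, a q.1 ∈ (univ : Finset Ω).erase x →
          #{b : Fin r → Ω | a q.1 ≠ b q.2 ∧ T (a q.1) (b q.2) x} = s * k ^ (r - 1) := by
        intro a ha
        have := tb_one q.2 ({v : Ω | a q.1 ≠ v ∧ T (a q.1) v x} : Finset Ω)
        simp only [mem_filter, mem_univ, true_and] at this
        rw [this, g1 _ _ (Finset.ne_of_mem_erase ha), hkd]
      calc (k - 1) * s * (k ^ (r - 1) * k ^ (r - 1)) =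
          (#((univ : Finset Ω).erase x) * Fintype.card Ω ^ (r - 1)) * (s * k ^ (r - 1)) := by
            rw [Finset.card_erase_of_mem (mem_univ x), Finset.card_univ, ← hkd]
            ring
        _ = ∑ a ∈ ({a : Fin r → Ω | a q.1 ∈ (univ : Finset Ω).erase x} : Finset (Fin r → Ω)),
            #{b : Fin r → Ω | a q.1 ≠ b q.2 ∧ T (a q.1) (b q.2) x} := by
            rw [← tb_one q.1 ((univ : Finset Ω).erase x), Finset.sum_congr rfl
              (g := fun _ => s * k ^ (r - 1)) (fun a ha => f1 a (Finset.mem_filter.1 ha).2),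
              Finset.sum_const, smul_eq_mul]
        _ ≤ _ := Finset.sum_le_sum_of_subset (Finset.subset_univ _)
    have e2 : ∀ q ∈ (univ : Finset (Fin r × Fin r)).offDiag,
        #{p : (Fin r → Ω) × (Fin r → Ω) | (p.1 q.1.1 ≠ p.2 q.1.2 ∧ T (p.1 q.1.1) (p.2 q.1.2) x) ∧
          (p.1 q.2.1 ≠ p.2 q.2.2 ∧ T (p.1 q.2.1) (p.2 q.2.2) x)} ≤
          s ^ 2 * (k ^ (r - 1) * k ^ (r - 1)) := by
      rintro ⟨⟨i, j⟩, ⟨i', j'⟩⟩ hq
      rw [mem_offDiag] at hq
      have hne := hq.2.2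
      simp only
      have hcard : Fintype.card (Fin r → Ω) = k ^ r := by
        rw [Fintype.card_fun, Fintype.card_fin, hkd]
      by_cases hj : j = j'
      · have hi : i ≠ i' := by
          rintro rfl
          exact hne (by rw [hj])
        have hr2 : ∃ t, r = t + 2 := by
          have a1 := i.isLt
          have a2 := i'.isLt
          have a3 : (i : ℕ) ≠ i' := fun h => hi (Fin.ext h)
          exact ⟨r - 2, by omega⟩
        rw [tb_prod' (fun a b : Fin r → Ω => (a i ≠ b j ∧ T (a i) (b j) x) ∧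
          (a i' ≠ b j' ∧ T (a i') (b j') x))]
        have f1 : ∀ b : Fin r → Ω, #{a : Fin r → Ω | (a i ≠ b j ∧ T (a i) (b j) x) ∧
            (a i' ≠ b j' ∧ T (a i') (b j') x)} ≤ s * (s * k ^ (r - 2)) := by
          intro b
          have := tb_two hi ({u : Ω | u ≠ b j ∧ T u (b j) x} : Finset Ω)
            ({u : Ω | u ≠ b j' ∧ T u (b j') x} : Finset Ω)
          simp only [mem_filter, mem_univ, true_and] at this
          rw [this, ← hkd]
          exact Nat.mul_le_mul (g2' _ _) (Nat.mul_le_mul_right _ (g2' _ _))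
        refine (Finset.sum_le_sum fun b _ => f1 b).trans ?_
        rw [Finset.sum_const, smul_eq_mul, Finset.card_univ, hcard]
        obtain ⟨t, rfl⟩ := hr2
        refine le_of_eq ?_
        rw [show t + 2 - 2 = t by omega, show t + 2 - 1 = t + 1 by omega]
        ring
      · have hr2 : ∃ t, r = t + 2 := by
          have a1 := j.isLt
          have a2 := j'.isLt
          have a3 : (j : ℕ) ≠ j' := fun h => hj (Fin.ext h)
          exact ⟨r - 2, by omega⟩
        rw [tb_prod (fun a b : Fin r → Ω => (a i ≠ b j ∧ T (a i) (b j) x) ∧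
          (a i' ≠ b j' ∧ T (a i') (b j') x))]
        have f1 : ∀ a : Fin r → Ω, #{b : Fin r → Ω | (a i ≠ b j ∧ T (a i) (b j) x) ∧
            (a i' ≠ b j' ∧ T (a i') (b j') x)} ≤ s * (s * k ^ (r - 2)) := by
          intro a
          have := tb_two hj ({v : Ω | a i ≠ v ∧ T (a i) v x} : Finset Ω)
            ({v : Ω | a i' ≠ v ∧ T (a i') v x} : Finset Ω)
          simp only [mem_filter, mem_univ, true_and] at this
          rw [this, ← hkd]
          exact Nat.mul_le_mul (g1' _ _) (Nat.mul_le_mul_right _ (g1' _ _))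
        refine (Finset.sum_le_sum fun b _ => f1 b).trans ?_
        rw [Finset.sum_const, smul_eq_mul, Finset.card_univ, hcard]
        obtain ⟨t, rfl⟩ := hr2
        refine le_of_eq ?_
        rw [show t + 2 - 2 = t by omega, show t + 2 - 1 = t + 1 by omega]
        ring
    have e3 : #{p : (Fin r → Ω) × (Fin r → Ω) | ∃ q : Fin r × Fin r, p.1 q.1 ≠ p.2 q.2 ∧
        T (p.1 q.1) (p.2 q.2) x} =
        #{p : (Fin r → Ω) × (Fin r → Ω) | ∃ i j, p.1 i ≠ p.2 j ∧ T (p.1 i) (p.2 j) x} := by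
      congr 1
      ext p
      simp only [mem_filter, mem_univ, true_and, Prod.exists]
    rw [e3] at hb
    refine tb_arith (hkd ▸ hk) (hkd ▸ hrs) (le_trans ?_ (hb.trans ?_))
    · refine Nat.mul_le_mul_left 2 ?_
      calc r ^ 2 * ((k - 1) * s * (k ^ (r - 1) * k ^ (r - 1))) =
          ∑ _q : Fin r × Fin r, (k - 1) * s * (k ^ (r - 1) * k ^ (r - 1)) := by
            rw [Finset.sum_const, smul_eq_mul, Finset.card_univ, Fintype.card_prod,
              Fintype.card_fin, pow_two]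
        _ ≤ _ := Finset.sum_le_sum fun q _ => e1 q
    · refine Nat.add_le_add_left ?_ _
      refine (Finset.sum_le_sum e2).trans (le_of_eq ?_)
      rw [Finset.sum_const, smul_eq_mul, Finset.offDiag_card, Finset.card_univ, Fintype.card_prod,
        Fintype.card_fin, ← pow_two r]
  rw [tb_prod' (fun (p : (Fin r → Ω) × (Fin r → Ω)) (x : Ω) =>
    ∃ i j, p.1 i ≠ p.2 j ∧ T (p.1 i) (p.2 j) x), Finset.mul_sum]
  calc r ^ 2 * s * Nat.card Ω ^ (2 * r) =
      ∑ _x : Ω, r ^ 2 * s * (k * (k ^ (r - 1) * k ^ (r - 1))) := by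
        obtain ⟨t, rfl⟩ : ∃ t, r = t + 1 := ⟨r - 1, by omega⟩
        rw [Finset.sum_const, smul_eq_mul, Finset.card_univ, Nat.card_eq_fintype_card, ← hkd,
          show t + 1 - 1 = t by omega]
        ring
    _ ≤ _ := Finset.sum_le_sum fun x _ => main x

end Pool.Agent.FuS
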