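import Pool.Agent.FuS.TwoA
import Pool.Agent.FuS.TwoB
import Pool.Agent.FuS.Sep

/-!
MP_7fa120_al, all subgroups. Doubly but not triply transitive groups have a small base.

`two_base`: let `s` be from `two_a`, `k = |Ω|`. First let `r ≥ 1` with `r = 1 ∨ 2 r ^ 2 s ≤ k`. The tests are the pairs `w = (a, b)`, `a b : Fin r → Ω`, `N = k ^ (2 r)` of them, `S w x y = Sp G a b x y`.
By invariance and `Tw` the number `D` of the `w` with `S w x y` is the same for all `x ≠ y`, so `k (k - 1) D = ∑_w |{(x, y) : Sp a b x y}| ≥ (k / 4) ∑_w |A_w|` (`two_c`; `Sp a b x x` is false) and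
`2 ∑_w |A_w| ≥ r ^ 2 s k ^ (2 r)` (`two_b`): so `8 k D ≥ r ^ 2 s N`, `D ≥ 1`, `N / D ≤ 8 k / (r ^ 2 s)`. `sep_greedy` gives at most `(8 k / (r ^ 2 s) + 1) * (2 (log_2 k + 1))` tests separating all pairs; the
at most `2 r` points of each of them together form a base. Now let `r ≥ 1` be arbitrary. If `2 r ^ 2 s ≤ k` this is at most `2 r (8 k / r ^ 2 + 1) * (2 (log_2 k + 1))`. Otherwise
use it with `r = 1`: `8 k / s ≤ 16 r ^ 2`.
`two_red`: let `t' ≥ 2` be maximal with `t' < t` and `Tr G Ω t'` (`Tr G Ω 2` by `h2`), so not `Tr G Ω (t' + 1)` and `t' + 1 ≤ t ≤ k`. Choose `t' - 2` different points `Γ`; the pointwise stabiliser `K` of `Γ` acts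
on the complement `Ω'` of `Γ` (`k' = k - t' + 2` points), faithfully; `Tw K Ω'` and not `Tr K Ω' 3` (a triple in `Ω'` with `Γ` is a `(t' + 1)`-tuple; by `Tr G Ω t'` every `(t' + 1)`-tuple can be
mapped to one starting with `Γ`, so `Tr K Ω' 3` would give `Tr G Ω (t' + 1)`). `k' ≥ 4` if `k ≥ t + 4`. `two_base` for `K` with the same `r`; add the points of `Γ`.
-/

set_option autoImplicit false

namespace Pool.Agent.FuS

/-- The bound for the base. -/
def bT (k r : ℕ) : ℕ := (2 * r * (8 * k / r ^ 2 + 1) + 2 * (16 * r ^ 2 + 1)) * (2 * (Nat.log 2 k + 1))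

private theorem Sp_smul {G : Type} [Group G] {Ω : Type} [MulAction G Ω] {r : ℕ} (g : G) (a b : Fin r → Ω) (x y : Ω) :
    Sp G (fun i => g • a i) (fun j => g • b j) (g • x) (g • y) ↔ Sp G a b x y := by
  unfold Sp
  rw [not_iff_not]
  constructor
  · rintro ⟨h, h1, h2, h3⟩
    refine ⟨g⁻¹ * h * g, fun i => ?_, fun j => ?_, ?_⟩
    · rw [mul_smul, mul_smul, h1, inv_smul_smul]
    · rw [mul_smul, mul_smul, h2, inv_smul_smul]
    · rw [mul_smul, mul_smul, h3, inv_smul_smul]
  · rintro ⟨h, h1, h2, h3⟩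
    refine ⟨g * h * g⁻¹, fun i => ?_, fun j => ?_, ?_⟩
    · rw [mul_smul, mul_smul, inv_smul_smul, h1]
    · rw [mul_smul, mul_smul, inv_smul_smul, h2]
    · rw [mul_smul, mul_smul, inv_smul_smul, h3]

private theorem card_W (Ω : Type) [Finite Ω] (r : ℕ) :
    Nat.card ((Fin r → Ω) × (Fin r → Ω)) = Nat.card Ω ^ (2 * r) := by
  rw [Nat.card_prod, Nat.card_fun, Nat.card_fin, ← pow_add, two_mul]

/-- The core: a good parameter. -/
private theorem two_core {G : Type} [Group G] [Finite G] {Ω : Type} [Finite Ω] [MulAction G Ω] (h2 : Tw G Ω)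
    (hf : ∀ g : G, (∀ x : Ω, g • x = x) → g = 1) (hk : 4 ≤ Nat.card Ω) (s r : ℕ) (hs : 1 ≤ s) (hr : 1 ≤ r)
    (hb : r ^ 2 * s * Nat.card Ω ^ (2 * r) ≤
      2 * Nat.card {p : ((Fin r → Ω) × (Fin r → Ω)) × Ω // ∃ i j, p.1.1 i ≠ p.1.2 j ∧ Sm G (p.1.1 i) (p.1.2 j) p.2}) :
    ∃ T : Finset Ω, Base G T ∧ T.card ≤ 2 * r * (8 * Nat.card Ω / (r ^ 2 * s) + 1) * (2 * (Nat.log 2 (Nat.card Ω) + 1)) := by
  classical
  have := Fintype.ofFinite Ω
  obtain ⟨k, hkdef⟩ : ∃ k, k = Nat.card Ω := ⟨_, rfl⟩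
  have hkc : Fintype.card Ω = k := by rw [hkdef, Nat.card_eq_fintype_card]
  obtain ⟨x0, y0, hxy0⟩ : ∃ x0 y0 : Ω, x0 ≠ y0 := by
    haveI : Nontrivial Ω := by
      rw [← Fintype.one_lt_card_iff_nontrivial, hkc, hkdef]
      omega
    exact exists_pair_ne Ω
  obtain ⟨c, hc⟩ : ∃ c, c = Nat.card {w : (Fin r → Ω) × (Fin r → Ω) // Sp G w.1 w.2 x0 y0} := ⟨_, rfl⟩
  have hcst : ∀ x y : Ω, x ≠ y → Nat.card {w : (Fin r → Ω) × (Fin r → Ω) // Sp G w.1 w.2 x y} = c := by
    intro x y hxy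
    obtain ⟨g, hg1, hg2⟩ := h2 x0 y0 x y hxy0 hxy
    rw [hc]
    symm
    apply Nat.card_congr
    refine Equiv.subtypeEquiv (Equiv.prodCongr (Equiv.piCongrRight fun _ => MulAction.toPerm g)
      (Equiv.piCongrRight fun _ => MulAction.toPerm g)) ?_
    rintro ⟨a, b⟩
    rw [← hg1, ← hg2]
    exact (Sp_smul g a b x0 y0).symm
  have hdiag : ∀ (w : (Fin r → Ω) × (Fin r → Ω)) (x : Ω), ¬ Sp G w.1 w.2 x x := by
    intro w x h
    exact h ⟨1, fun i => one_smul _ _, fun j => one_smul _ _, one_smul _ _⟩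
  have hle : ∀ p : Ω × Ω, ((Finset.univ : Finset ((Fin r → Ω) × (Fin r → Ω))).filter
      fun w => Sp G w.1 w.2 p.1 p.2).card ≤ c := by
    rintro ⟨x, y⟩
    by_cases hxy : x = y
    · subst hxy
      have : ((Finset.univ : Finset ((Fin r → Ω) × (Fin r → Ω))).filter fun w => Sp G w.1 w.2 x x) = ∅ := by
        apply Finset.filter_eq_empty_iff.2
        intro w _
        exact hdiag w x
      simp only [this]
      simp
    · have h := hcst x y hxy
      rw [Nat.card_eq_fintype_card, Fintype.card_subtype] at h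
      exact h.le
  have hsum : ∑ w : (Fin r → Ω) × (Fin r → Ω), ((Finset.univ : Finset (Ω × Ω)).filter fun p => Sp G w.1 w.2 p.1 p.2).card ≤
      k ^ 2 * c := by
    have e1 : ∑ w : (Fin r → Ω) × (Fin r → Ω), ((Finset.univ : Finset (Ω × Ω)).filter fun p => Sp G w.1 w.2 p.1 p.2).card =
        ∑ p : Ω × Ω, ((Finset.univ : Finset ((Fin r → Ω) × (Fin r → Ω))).filter fun w => Sp G w.1 w.2 p.1 p.2).card := by
      simp only [Finset.card_filter]
      exact Finset.sum_comm
    rw [e1]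
    refine (Finset.sum_le_sum fun p _ => hle p).trans ?_
    rw [Finset.sum_const, smul_eq_mul, Finset.card_univ, Fintype.card_prod, hkc, sq]
  have hA : Nat.card {p : ((Fin r → Ω) × (Fin r → Ω)) × Ω // ∃ i j, p.1.1 i ≠ p.1.2 j ∧ Sm G (p.1.1 i) (p.1.2 j) p.2} =
      ∑ w : (Fin r → Ω) × (Fin r → Ω),
        ((Finset.univ : Finset Ω).filter fun x => ∃ i j, w.1 i ≠ w.2 j ∧ Sm G (w.1 i) (w.2 j) x).card := by
    rw [Nat.card_eq_fintype_card, Fintype.card_subtype, Finset.card_filter, Fintype.sum_prod_type]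
    simp only [Finset.card_filter]
  have hcw : ∀ w : (Fin r → Ω) × (Fin r → Ω),
      k * ((Finset.univ : Finset Ω).filter fun x => ∃ i j, w.1 i ≠ w.2 j ∧ Sm G (w.1 i) (w.2 j) x).card ≤
      4 * ((Finset.univ : Finset (Ω × Ω)).filter fun p => Sp G w.1 w.2 p.1 p.2).card := by
    intro w
    have h := two_c (G := G) w.1 w.2
    rw [Nat.card_eq_fintype_card (α := {x : Ω // ∃ i j, w.1 i ≠ w.2 j ∧ Sm G (w.1 i) (w.2 j) x}), Fintype.card_subtype,
      Nat.card_eq_fintype_card (α := {p : Ω × Ω // Sp G w.1 w.2 p.1 p.2}), Fintype.card_subtype, ← hkdef] at h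
    exact h
  have hkA : k * Nat.card {p : ((Fin r → Ω) × (Fin r → Ω)) × Ω // ∃ i j, p.1.1 i ≠ p.1.2 j ∧ Sm G (p.1.1 i) (p.1.2 j) p.2} ≤
      4 * (k ^ 2 * c) := by
    rw [hA, Finset.mul_sum]
    refine (Finset.sum_le_sum fun w _ => hcw w).trans ?_
    rw [← Finset.mul_sum]
    exact Nat.mul_le_mul_left 4 hsum
  rw [← hkdef] at hb hk ⊢
  have hk0 : 0 < k := by omega
  have hmain : r ^ 2 * s * k ^ (2 * r) ≤ 8 * k * c := by
    have h1 : k * (r ^ 2 * s * k ^ (2 * r)) ≤ k * (8 * k * c) := by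
      calc k * (r ^ 2 * s * k ^ (2 * r)) ≤ k * (2 * Nat.card {p : ((Fin r → Ω) × (Fin r → Ω)) × Ω //
            ∃ i j, p.1.1 i ≠ p.1.2 j ∧ Sm G (p.1.1 i) (p.1.2 j) p.2}) := Nat.mul_le_mul_left k hb
        _ = 2 * (k * Nat.card {p : ((Fin r → Ω) × (Fin r → Ω)) × Ω //
            ∃ i j, p.1.1 i ≠ p.1.2 j ∧ Sm G (p.1.1 i) (p.1.2 j) p.2}) := by ring
        _ ≤ 2 * (4 * (k ^ 2 * c)) := Nat.mul_le_mul_left 2 hkA
        _ = k * (8 * k * c) := by ring
    exact Nat.le_of_mul_le_mul_left h1 hk0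
  have hN0 : 0 < k ^ (2 * r) := pow_pos hk0 _
  have hrs : 0 < r ^ 2 * s := by positivity
  have hc1 : 1 ≤ c := by
    rcases Nat.eq_zero_or_pos c with h0 | h0
    · rw [h0, mul_zero] at hmain
      have := Nat.mul_pos hrs hN0
      omega
    · exact h0
  obtain ⟨T0, hT0, hT1⟩ := sep_greedy (Ω := Ω) (W := (Fin r → Ω) × (Fin r → Ω)) (fun w x y => Sp G w.1 w.2 x y) c hc1
    (fun x y hxy => (hcst x y hxy).ge)
  rw [card_W, ← hkdef] at hT0
  refine ⟨T0.biUnion fun w => Finset.univ.image w.1 ∪ Finset.univ.image w.2, ?_, ?_⟩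
  · intro g hg
    apply hf
    intro x
    by_contra hx
    obtain ⟨w, hw, hSp⟩ := hT1 x (g • x) (Ne.symm hx)
    apply hSp
    refine ⟨g, fun i => hg _ ?_, fun j => hg _ ?_, rfl⟩
    · exact Finset.mem_biUnion.2 ⟨w, hw, Finset.mem_union_left _ (Finset.mem_image_of_mem _ (Finset.mem_univ _))⟩
    · exact Finset.mem_biUnion.2 ⟨w, hw, Finset.mem_union_right _ (Finset.mem_image_of_mem _ (Finset.mem_univ _))⟩
  · have h1 : (T0.biUnion fun w => Finset.univ.image w.1 ∪ Finset.univ.image w.2).card ≤ T0.card * (2 * r) := by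
      apply Finset.card_biUnion_le_card_mul
      intro w _
      refine (Finset.card_union_le _ _).trans ?_
      have h2 : (Finset.univ.image w.1).card ≤ r := Finset.card_image_le.trans (by simp)
      have h3 : (Finset.univ.image w.2).card ≤ r := Finset.card_image_le.trans (by simp)
      omega
    have h2 : k ^ (2 * r) / c ≤ 8 * k / (r ^ 2 * s) := by
      rw [Nat.le_div_iff_mul_le hrs]
      have h3 : k ^ (2 * r) / c * c ≤ k ^ (2 * r) := Nat.div_mul_le_self _ _
      have h4 : (k ^ (2 * r) / c * (r ^ 2 * s)) * c ≤ (8 * k) * c := by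
        calc (k ^ (2 * r) / c * (r ^ 2 * s)) * c = (r ^ 2 * s) * (k ^ (2 * r) / c * c) := by ring
          _ ≤ (r ^ 2 * s) * k ^ (2 * r) := Nat.mul_le_mul_left _ h3
          _ ≤ 8 * k * c := hmain
      exact Nat.le_of_mul_le_mul_right h4 hc1
    calc (T0.biUnion fun w => Finset.univ.image w.1 ∪ Finset.univ.image w.2).card ≤ T0.card * (2 * r) := h1
      _ ≤ ((k ^ (2 * r) / c + 1) * (2 * (Nat.log 2 k + 1))) * (2 * r) := Nat.mul_le_mul_right _ hT0
      _ ≤ ((8 * k / (r ^ 2 * s) + 1) * (2 * (Nat.log 2 k + 1))) * (2 * r) :=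
          Nat.mul_le_mul_right _ (Nat.mul_le_mul_right _ (Nat.add_le_add_right h2 1))
      _ = 2 * r * (8 * k / (r ^ 2 * s) + 1) * (2 * (Nat.log 2 k + 1)) := by ring

theorem two_base {G : Type} [Group G] [Finite G] {Ω : Type} [Finite Ω] [MulAction G Ω] (h2 : Tw G Ω) (h3 : ¬ Tr G Ω 3)
    (hf : ∀ g : G, (∀ x : Ω, g • x = x) → g = 1) (hk : 4 ≤ Nat.card Ω) (r : ℕ) (hr : 1 ≤ r) :
    ∃ T : Finset Ω, Base G T ∧ T.card ≤ bT (Nat.card Ω) r := by
  obtain ⟨s, hs, -, hv, hu, hp⟩ := two_a h2 h3 (by omega)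
  have hB : ∀ r : ℕ, 1 ≤ r → (r = 1 ∨ 2 * r ^ 2 * s ≤ Nat.card Ω) →
      ∃ T : Finset Ω, Base G T ∧ T.card ≤ 2 * r * (8 * Nat.card Ω / (r ^ 2 * s) + 1) * (2 * (Nat.log 2 (Nat.card Ω) + 1)) := by
    intro r hr hrs
    refine two_core h2 hf hk s r hs hr ?_
    exact two_b (fun u v w => Sm G u v w) s r hs hr hk (fun u v x h => ⟨h.1, h.2.1⟩) hv hu hp hrs
  by_cases hrs : 2 * r ^ 2 * s ≤ Nat.card Ω
  · obtain ⟨T, hT, hTc⟩ := hB r hr (Or.inr hrs)
    refine ⟨T, hT, hTc.trans ?_⟩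
    unfold bT
    apply Nat.mul_le_mul_right
    refine le_trans ?_ (Nat.le_add_right _ _)
    apply Nat.mul_le_mul_left
    apply Nat.add_le_add_right
    apply Nat.div_le_div_left
    · exact Nat.le_mul_of_pos_right _ hs
    · positivity
  · obtain ⟨T, hT, hTc⟩ := hB 1 le_rfl (Or.inl rfl)
    refine ⟨T, hT, hTc.trans ?_⟩
    unfold bT
    apply Nat.mul_le_mul_right
    refine le_trans ?_ (Nat.le_add_left _ _)
    rw [mul_one]
    apply Nat.mul_le_mul_left
    apply Nat.add_le_add_right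
    rw [one_pow, one_mul]
    apply Nat.div_le_of_le_mul
    push Not at hrs
    nlinarith

private theorem bT_mono {k k' : ℕ} (h : k ≤ k') (r : ℕ) : bT k r ≤ bT k' r := by
  unfold bT
  have h1 : 8 * k / r ^ 2 ≤ 8 * k' / r ^ 2 := Nat.div_le_div_right (Nat.mul_le_mul_left 8 h)
  have h2 : Nat.log 2 k ≤ Nat.log 2 k' := Nat.log_mono_right h
  apply Nat.mul_le_mul
  · apply Nat.add_le_add_right
    exact Nat.mul_le_mul_left _ (Nat.add_le_add_right h1 1)
  · exact Nat.mul_le_mul_left _ (Nat.add_le_add_right h2 1)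

private theorem app_inj {Ω : Type} {m n : ℕ} {f : Fin m → Ω} {h : Fin n → Ω} (hf : Function.Injective f)
    (hh : Function.Injective h) (hd : ∀ i j, f i ≠ h j) : Function.Injective (Fin.append f h) := by
  intro i j
  refine Fin.addCases (fun i => ?_) (fun i => ?_) i
  · refine Fin.addCases (fun j => ?_) (fun j => ?_) j
    · rw [Fin.append_left, Fin.append_left]
      intro h1
      rw [hf h1]
    · rw [Fin.append_left, Fin.append_right]
      intro h1
      exact absurd h1 (hd i j)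
  · refine Fin.addCases (fun j => ?_) (fun j => ?_) j
    · rw [Fin.append_left, Fin.append_right]
      intro h1
      exact absurd h1.symm (hd j i)
    · rw [Fin.append_right, Fin.append_right]
      intro h1
      rw [hh h1]

/-- The pointwise stabiliser. -/
private def Kf {G : Type} [Group G] {Ω : Type} [MulAction G Ω] {m : ℕ} (f : Fin m → Ω) : Subgroup G where
  carrier := {g | ∀ i, g • f i = f i}
  mul_mem' := by
    intro a b ha hb i
    rw [mul_smul, hb i, ha i]
  one_mem' := fun i => one_smul _ _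
  inv_mem' := by
    intro a ha i
    rw [inv_smul_eq_iff]
    exact (ha i).symm

private def Of {Ω : Type} {m : ℕ} (f : Fin m → Ω) : Type := {x : Ω // ∀ i, f i ≠ x}

private instance {Ω : Type} [Finite Ω] {m : ℕ} (f : Fin m → Ω) : Finite (Of f) :=
  inferInstanceAs (Finite {x : Ω // ∀ i, f i ≠ x})

private instance actK {G : Type} [Group G] {Ω : Type} [MulAction G Ω] {m : ℕ} (f : Fin m → Ω) : MulAction (Kf (G := G) f) (Of f) where
  smul g x := ⟨(g : G) • x.1, fun i h => x.2 i (by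
    have h1 : f i = (g : G) • x.1 := h
    have h2 : (g : G) • f i = f i := g.2 i
    exact MulAction.injective (g : G) (h2.trans h1))⟩
  one_smul x := Subtype.ext (one_smul G x.1)
  mul_smul a b x := Subtype.ext (mul_smul (a : G) (b : G) x.1)

private theorem smul_val {G : Type} [Group G] {Ω : Type} [MulAction G Ω] {m : ℕ} (f : Fin m → Ω) (g : Kf (G := G) f)
    (x : Of f) : (g • x).1 = (g : G) • x.1 := rfl

private theorem red_core {G : Type} [Group G] [Finite G] {Ω : Type} [Finite Ω] [MulAction G Ω] (m : ℕ)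
    (hT : Tr G Ω (m + 2)) (hn : ¬ Tr G Ω (m + 3)) (hf : ∀ g : G, (∀ x : Ω, g • x = x) → g = 1)
    (hk : m + 4 ≤ Nat.card Ω) (r : ℕ) (hr : 1 ≤ r) :
    ∃ T : Finset Ω, Base G T ∧ T.card ≤ m + bT (Nat.card Ω) r := by
  classical
  obtain ⟨h0, hh0⟩ : ∃ h0 : Fin (m + 2) → Ω, Function.Injective h0 :=
    ⟨fun i => (Finite.equivFin Ω).symm (Fin.castLE (by omega : m + 2 ≤ Nat.card Ω) i),
      (Finite.equivFin Ω).symm.injective.comp (Fin.castLE_injective (by omega : m + 2 ≤ Nat.card Ω))⟩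
  obtain ⟨f0, hf0⟩ : ∃ f0 : Fin m → Ω, f0 = fun i => h0 (Fin.castAdd 2 i) := ⟨_, rfl⟩
  have hf0i : Function.Injective f0 := by
    rw [hf0]
    exact hh0.comp (Fin.castAdd_injective m 2)
  have hcard : m + Nat.card (Of f0) = Nat.card Ω := by
    haveI := Fintype.ofFinite Ω
    have e1 : Nat.card (Of f0) = (Finset.univ.filter fun x : Ω => ∀ i, f0 i ≠ x).card := by
      change Nat.card {x : Ω // ∀ i, f0 i ≠ x} = _
      rw [Nat.card_eq_fintype_card, Fintype.card_subtype]
    have e2 : (Finset.univ.filter fun x : Ω => ¬ ∀ i, f0 i ≠ x) = Finset.univ.image f0 := by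
      ext x
      simp
    have e3 : (Finset.univ.image f0).card = m := by
      rw [Finset.card_image_of_injective _ hf0i]
      simp
    have e4 : (Finset.univ.filter fun x : Ω => ∀ i, f0 i ≠ x).card +
        (Finset.univ.filter fun x : Ω => ¬ ∀ i, f0 i ≠ x).card = (Finset.univ : Finset Ω).card :=
      Finset.card_filter_add_card_filter_not _
    rw [e2, e3, Finset.card_univ] at e4
    rw [e1, Nat.card_eq_fintype_card]
    omega
  have hTw : Tw (Kf (G := G) f0) (Of f0) := by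
    intro x y x' y' hxy hxy'
    have hpair : ∀ u v : Of f0, u ≠ v → Function.Injective (Fin.append f0 ![u.1, v.1]) := by
      intro u v huv
      refine app_inj hf0i ?_ ?_
      · intro i j
        fin_cases i <;> fin_cases j <;> intro h
        · rfl
        · exact absurd (Subtype.ext h) huv
        · exact absurd (Subtype.ext h.symm) huv
        · rfl
      · intro i j
        fin_cases j
        · exact u.2 i
        · exact v.2 i
    obtain ⟨g, hg⟩ := hT _ _ (hpair x y hxy) (hpair x' y' hxy')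
    have hgK : g ∈ Kf (G := G) f0 := by
      intro i
      have := hg (Fin.castAdd 2 i)
      rwa [Fin.append_left, Fin.append_left] at this
    refine ⟨⟨g, hgK⟩, Subtype.ext ?_, Subtype.ext ?_⟩
    · have := hg (Fin.natAdd m 0)
      rwa [Fin.append_right, Fin.append_right] at this
    · have := hg (Fin.natAdd m 1)
      rwa [Fin.append_right, Fin.append_right] at this
  have hTr : ¬ Tr (Kf (G := G) f0) (Of f0) 3 := by
    intro h3
    apply hn
    have hmove : ∀ f : Fin (m + 3) → Ω, Function.Injective f → ∃ g : G, ∀ i : Fin m, g • f (Fin.castAdd 3 i) = f0 i := by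
      intro f hfi
      obtain ⟨g, hg⟩ := hT (fun i => f (Fin.castSucc i)) h0 (hfi.comp (Fin.castSucc_injective _)) hh0
      refine ⟨g, fun i => ?_⟩
      have := hg (Fin.castAdd 2 i)
      rw [hf0]
      exact this
    intro f f' hfi hfi'
    obtain ⟨g1, hg1⟩ := hmove f hfi
    obtain ⟨g2, hg2⟩ := hmove f' hfi'
    have hout : ∀ (f : Fin (m + 3) → Ω) (hfi : Function.Injective f) (g : G) (hg : ∀ i : Fin m, g • f (Fin.castAdd 3 i) = f0 i)
        (j : Fin 3) (i : Fin m), f0 i ≠ g • f (Fin.natAdd m j) := by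
      intro f hfi g hg j i h
      rw [← hg i] at h
      have h1 := hfi (MulAction.injective g h)
      have h2 := congrArg Fin.val h1
      simp only [Fin.val_castAdd, Fin.val_natAdd] at h2
      have := i.2
      omega
    let t : Fin 3 → Of f0 := fun j => ⟨g1 • f (Fin.natAdd m j), hout f hfi g1 hg1 j⟩
    let t' : Fin 3 → Of f0 := fun j => ⟨g2 • f' (Fin.natAdd m j), hout f' hfi' g2 hg2 j⟩
    have ht : Function.Injective t := by
      intro i j h
      have h1 : g1 • f (Fin.natAdd m i) = g1 • f (Fin.natAdd m j) := congrArg Subtype.val h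
      exact (Fin.natAdd_injective 3 m) (hfi (MulAction.injective g1 h1))
    have ht' : Function.Injective t' := by
      intro i j h
      have h1 : g2 • f' (Fin.natAdd m i) = g2 • f' (Fin.natAdd m j) := congrArg Subtype.val h
      exact (Fin.natAdd_injective 3 m) (hfi' (MulAction.injective g2 h1))
    obtain ⟨κ, hκ⟩ := h3 t t' ht ht'
    refine ⟨g2⁻¹ * (κ : G) * g1, fun i => ?_⟩
    rw [mul_smul, mul_smul, inv_smul_eq_iff]
    refine Fin.addCases (fun i => ?_) (fun j => ?_) i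
    · rw [hg1 i, hg2 i]
      exact κ.2 i
    · exact congrArg Subtype.val (hκ j)
  have hfK : ∀ g : Kf (G := G) f0, (∀ x : Of f0, g • x = x) → g = 1 := by
    intro g hg
    apply Subtype.ext
    apply hf
    intro x
    by_cases hx : ∀ i, f0 i ≠ x
    · exact congrArg Subtype.val (hg ⟨x, hx⟩)
    · push Not at hx
      obtain ⟨i, hi⟩ := hx
      rw [← hi]
      exact g.2 i
  obtain ⟨T, hTB, hTc⟩ := two_base hTw hTr hfK (by omega) r hr
  refine ⟨T.image (fun x => x.1) ∪ Finset.univ.image f0, ?_, ?_⟩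
  · intro g hg
    have hgK : g ∈ Kf (G := G) f0 := fun i =>
      hg _ (Finset.mem_union_right _ (Finset.mem_image_of_mem _ (Finset.mem_univ i)))
    have h1 : (⟨g, hgK⟩ : Kf (G := G) f0) = 1 := by
      apply hTB
      intro x hx
      apply Subtype.ext
      exact hg _ (Finset.mem_union_left _ (Finset.mem_image_of_mem _ hx))
    exact congrArg Subtype.val h1
  · refine (Finset.card_union_le _ _).trans ?_
    have h1 : (T.image (fun x => x.1)).card ≤ bT (Nat.card Ω) r :=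
      (Finset.card_image_le.trans hTc).trans (bT_mono (by omega) r)
    have h2 : (Finset.univ.image f0).card ≤ m := Finset.card_image_le.trans (by simp)
    omega

theorem two_red {G : Type} [Group G] [Finite G] {Ω : Type} [Finite Ω] [MulAction G Ω] (h2 : Tw G Ω) (t : ℕ) (ht3 : 3 ≤ t)
    (ht : ¬ Tr G Ω t) (hf : ∀ g : G, (∀ x : Ω, g • x = x) → g = 1) (hk : t + 4 ≤ Nat.card Ω) (r : ℕ) (hr : 1 ≤ r) :
    ∃ T : Finset Ω, Base G T ∧ T.card ≤ t + bT (Nat.card Ω) r := by
  have hT2 : Tr G Ω 2 := by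
    intro f f' hfi hfi'
    obtain ⟨g, hg1, hg2⟩ := h2 (f 0) (f 1) (f' 0) (f' 1) (fun h => absurd (hfi h) (by decide))
      (fun h => absurd (hfi' h) (by decide))
    refine ⟨g, fun i => ?_⟩
    fin_cases i
    · exact hg1
    · exact hg2
  have hex : ∃ m : ℕ, m + 3 ≤ t ∧ Tr G Ω (m + 2) ∧ ¬ Tr G Ω (m + 3) := by
    by_contra hcon
    push Not at hcon
    have hall : ∀ m : ℕ, m + 3 ≤ t → Tr G Ω (m + 3) := by
      intro m
      induction m with
      | zero => exact fun h => hcon 0 h hT2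
      | succ m ih => exact fun h => hcon (m + 1) h (ih (by omega))
    obtain ⟨m, rfl⟩ : ∃ m, t = m + 3 := ⟨t - 3, by omega⟩
    exact ht (hall m le_rfl)
  obtain ⟨m, hm, hTm, hTm'⟩ := hex
  obtain ⟨T, hTB, hTc⟩ := red_core m hTm hTm' hf (by omega) r hr
  exact ⟨T, hTB, hTc.trans (by omega)⟩

end Pool.Agent.FuS
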