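import Pool.Agent.FuS.Uni
import Pool.Agent.FuS.Two
import Pool.Agent.FuS.Miller

/-!
MP_7fa120_al, all subgroups. The order of primitive groups not containing the alternating group.

Proof. `k = |Ω| ≥ 81`. If `G` is not `Tw`: `uni_base` with `D = Nat.sqrt (Nat.sqrt k) / 3 ≥ 1` (`81 * (D - 1) ^ 4 < 81 * D ^ 4 ≤ k`). If it is `Tw`: `alt_of_tr` shows that not `Tr G Ω (4 * Nat.sqrt k)`, and `two_red` with
`t = 4 * Nat.sqrt k` (`t + 4 ≤ k` for `k ≥ 81`), `r = Nat.sqrt (Nat.sqrt k) ≥ 1`. Then `card_base` and `k ≤ 2 ^ (Nat.log 2 k + 1)`.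
`prim_an`: with `k → ∞`: `Nat.sqrt (Nat.sqrt k) ≥ k ^ (1/4) / 2`, so `bE k ≤ C k ^ (3/4) (log_2 k + 1) ^ 2 ≤ k ^ (4/5)` for large `k`.
-/

set_option autoImplicit false

namespace Pool.Agent.FuS

open Equiv Filter

/-- The exponent of the bound. -/
def bE (k : ℕ) : ℕ :=
  ((k / (Nat.sqrt (Nat.sqrt k) / 3) + 1) * (2 * (Nat.log 2 k + 1)) + 4 * Nat.sqrt k + bT k (Nat.sqrt (Nat.sqrt k))) * (Nat.log 2 k + 1)

private theorem base_le {Ω : Type} [Fintype Ω] [DecidableEq Ω] (G : Subgroup (Perm Ω)) (T : Finset Ω) (hT : Base G T) (b : ℕ)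
    (hb : T.card ≤ b) : Nat.card G ≤ 2 ^ (b * (Nat.log 2 (Fintype.card Ω) + 1)) := by
  have h1 := card_base T hT
  rw [Nat.card_eq_fintype_card (α := Ω)] at h1
  have h2 : Fintype.card Ω ≤ 2 ^ (Nat.log 2 (Fintype.card Ω) + 1) := (Nat.lt_pow_succ_log_self (by norm_num) _).le
  calc Nat.card G ≤ Fintype.card Ω ^ T.card := h1
    _ ≤ (2 ^ (Nat.log 2 (Fintype.card Ω) + 1)) ^ T.card := Nat.pow_le_pow_left h2 _
    _ = 2 ^ ((Nat.log 2 (Fintype.card Ω) + 1) * T.card) := by rw [pow_mul]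
    _ ≤ 2 ^ (b * (Nat.log 2 (Fintype.card Ω) + 1)) := by
        apply Nat.pow_le_pow_right (by norm_num)
        rw [mul_comm]
        exact Nat.mul_le_mul_right _ hb

theorem prim_ord {Ω : Type} [Fintype Ω] [DecidableEq Ω] (G : Subgroup (Perm Ω)) (hp : MulAction.IsPreprimitive G Ω)
    (hk : 81 ≤ Fintype.card Ω) (hA : ¬ alternatingGroup Ω ≤ G) : Nat.card G ≤ 2 ^ bE (Fintype.card Ω) := by
  have hf : ∀ g : G, (∀ x : Ω, g • x = x) → g = 1 := by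
    intro g hg
    ext x
    exact hg x
  have hkc : Nat.card Ω = Fintype.card Ω := Nat.card_eq_fintype_card
  set k := Fintype.card Ω with hkdef
  have hm9 : 9 ≤ Nat.sqrt k := Nat.le_sqrt.mpr (by omega)
  have hs3 : 3 ≤ Nat.sqrt (Nat.sqrt k) := Nat.le_sqrt.mpr (by omega)
  have hmk : Nat.sqrt k * Nat.sqrt k ≤ k := Nat.sqrt_le k
  have hsm : Nat.sqrt (Nat.sqrt k) * Nat.sqrt (Nat.sqrt k) ≤ Nat.sqrt k := Nat.sqrt_le _
  have hfin : ∀ (b : ℕ), b ≤ (k / (Nat.sqrt (Nat.sqrt k) / 3) + 1) * (2 * (Nat.log 2 k + 1)) + 4 * Nat.sqrt k + bT k (Nat.sqrt (Nat.sqrt k)) →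
      ∀ T : Finset Ω, Base G T → T.card ≤ b → Nat.card G ≤ 2 ^ bE k := by
    intro b hb T hT hTb
    exact base_le G T hT _ (hTb.trans hb)
  by_cases htw : Tw G Ω
  · have htr : ¬ Tr G Ω (4 * Nat.sqrt k) := fun h => hA (alt_of_tr G (by omega) h)
    have ht4 : 4 * Nat.sqrt k + 4 ≤ Nat.card Ω := by
      rw [hkc]
      nlinarith
    obtain ⟨T, hT, hTc⟩ := two_red htw (4 * Nat.sqrt k) (by omega) htr hf ht4 (Nat.sqrt (Nat.sqrt k)) (by omega)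
    rw [hkc] at hTc
    exact hfin _ (by omega) T hT hTc
  · have hD1 : 1 ≤ Nat.sqrt (Nat.sqrt k) / 3 := by omega
    have hD3 : 3 * (Nat.sqrt (Nat.sqrt k) / 3) ≤ Nat.sqrt (Nat.sqrt k) := Nat.mul_div_le _ _
    have hDk : 81 * (Nat.sqrt (Nat.sqrt k) / 3 - 1) ^ 4 < Nat.card Ω := by
      rw [hkc]
      generalize hDD : Nat.sqrt (Nat.sqrt k) / 3 = D at hD1 hD3
      generalize Nat.sqrt (Nat.sqrt k) = s at *
      generalize Nat.sqrt k = m at *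
      have h1 : (D - 1) ^ 4 < D ^ 4 := Nat.pow_lt_pow_left (by omega) (by norm_num)
      have h2 : (3 * D) * (3 * D) ≤ m := (Nat.mul_le_mul hD3 hD3).trans hsm
      have h3 : ((3 * D) * (3 * D)) * ((3 * D) * (3 * D)) ≤ k := (Nat.mul_le_mul h2 h2).trans hmk
      have h4 : ((3 * D) * (3 * D)) * ((3 * D) * (3 * D)) = 81 * D ^ 4 := by ring
      omega
    obtain ⟨T, hT, hTc⟩ := uni_base hp hf htw (by omega) (Nat.sqrt (Nat.sqrt k) / 3) hD1 hDk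
    rw [hkc] at hTc
    exact hfin _ (by omega) T hT hTc

private theorem bE_le (k : ℕ) (x : ℝ) (hx : x ^ 4 = (k : ℝ)) (hx16 : 16 ≤ x) :
    (bE k : ℝ) ≤ 150 * x ^ 3 * ((Nat.log 2 k : ℝ) + 1) ^ 2 := by
  have hx0 : 0 < x := by linarith
  have hm1 : (Nat.sqrt k : ℝ) * (Nat.sqrt k : ℝ) ≤ x ^ 4 := by
    rw [hx]; exact_mod_cast Nat.sqrt_le k
  have hm2 : x ^ 4 < ((Nat.sqrt k : ℝ) + 1) * ((Nat.sqrt k : ℝ) + 1) := by
    rw [hx]; exact_mod_cast Nat.lt_succ_sqrt k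
  have hs1 : (Nat.sqrt (Nat.sqrt k) : ℝ) * (Nat.sqrt (Nat.sqrt k) : ℝ) ≤ (Nat.sqrt k : ℝ) := by
    exact_mod_cast Nat.sqrt_le (Nat.sqrt k)
  have hs2 : (Nat.sqrt k : ℝ) + 1 ≤ ((Nat.sqrt (Nat.sqrt k) : ℝ) + 1) * ((Nat.sqrt (Nat.sqrt k) : ℝ) + 1) := by
    exact_mod_cast Nat.lt_succ_sqrt (Nat.sqrt k)
  have hd : Nat.sqrt (Nat.sqrt k) ≤ 3 * (Nat.sqrt (Nat.sqrt k) / 3) + 2 := by omega
  have hd' : (Nat.sqrt (Nat.sqrt k) : ℝ) ≤ 3 * ((Nat.sqrt (Nat.sqrt k) / 3 : ℕ) : ℝ) + 2 := by exact_mod_cast hd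
  have hm0 : (0 : ℝ) ≤ (Nat.sqrt k : ℝ) := Nat.cast_nonneg _
  have hs0 : (0 : ℝ) ≤ (Nat.sqrt (Nat.sqrt k) : ℝ) := Nat.cast_nonneg _
  have hm3 : (Nat.sqrt k : ℝ) ≤ x ^ 2 := by
    have h := abs_le_of_sq_le_sq (a := (Nat.sqrt k : ℝ)) (b := x ^ 2) (by nlinarith) (by positivity)
    exact (le_abs_self _).trans h
  have hs3 : (Nat.sqrt (Nat.sqrt k) : ℝ) ≤ x := by
    have h := abs_le_of_sq_le_sq (a := (Nat.sqrt (Nat.sqrt k) : ℝ)) (b := x) (by nlinarith) (by positivity)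
    exact (le_abs_self _).trans h
  have hm4 : x ^ 2 < (Nat.sqrt k : ℝ) + 1 := by
    apply lt_of_pow_lt_pow_left₀ 2 (by positivity)
    nlinarith
  have hs4 : x < (Nat.sqrt (Nat.sqrt k) : ℝ) + 1 := by
    apply lt_of_pow_lt_pow_left₀ 2 (by positivity)
    nlinarith
  have hDr : x / 4 ≤ ((Nat.sqrt (Nat.sqrt k) / 3 : ℕ) : ℝ) := by linarith
  have hL1 : (1 : ℝ) ≤ (Nat.log 2 k : ℝ) + 1 := by
    have : (0 : ℝ) ≤ (Nat.log 2 k : ℝ) := Nat.cast_nonneg _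
    linarith
  have hq1 : ((k / (Nat.sqrt (Nat.sqrt k) / 3) : ℕ) : ℝ) ≤ 4 * x ^ 3 := by
    refine le_trans (Nat.cast_div_le) ?_
    have hDpos : (0 : ℝ) < ((Nat.sqrt (Nat.sqrt k) / 3 : ℕ) : ℝ) := by linarith
    rw [div_le_iff₀ hDpos, ← hx]
    have h3 : 0 ≤ x ^ 3 := by positivity
    nlinarith
  have hq2 : ((8 * k / Nat.sqrt (Nat.sqrt k) ^ 2 : ℕ) : ℝ) * (Nat.sqrt (Nat.sqrt k) : ℝ) ≤ 16 * x ^ 3 := by
    have hspos : (0 : ℝ) < (Nat.sqrt (Nat.sqrt k) : ℝ) := by linarith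
    have h1 : ((8 * k / Nat.sqrt (Nat.sqrt k) ^ 2 : ℕ) : ℝ) ≤ 8 * x ^ 4 / (Nat.sqrt (Nat.sqrt k) : ℝ) ^ 2 := by
      refine le_trans (Nat.cast_div_le) ?_
      rw [hx]; push_cast; exact le_refl _
    calc ((8 * k / Nat.sqrt (Nat.sqrt k) ^ 2 : ℕ) : ℝ) * (Nat.sqrt (Nat.sqrt k) : ℝ)
        ≤ 8 * x ^ 4 / (Nat.sqrt (Nat.sqrt k) : ℝ) ^ 2 * (Nat.sqrt (Nat.sqrt k) : ℝ) := mul_le_mul_of_nonneg_right h1 hs0
      _ = 8 * x ^ 4 / (Nat.sqrt (Nat.sqrt k) : ℝ) := by field_simp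
      _ ≤ 16 * x ^ 3 := by
          rw [div_le_iff₀ hspos]
          have h3 : 0 ≤ x ^ 3 := by positivity
          have h4 : x / 2 ≤ (Nat.sqrt (Nat.sqrt k) : ℝ) := by linarith
          nlinarith
  have hx2 : x ^ 2 ≤ x ^ 3 := by nlinarith [sq_nonneg x]
  have hx1 : x ≤ x ^ 3 := by nlinarith [sq_nonneg x]
  have hx00 : 1 ≤ x ^ 3 := by nlinarith [sq_nonneg x]
  have hss : (Nat.sqrt (Nat.sqrt k) : ℝ) ^ 2 ≤ x ^ 2 := by nlinarith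
  unfold bE bT
  push_cast
  generalize ((k / (Nat.sqrt (Nat.sqrt k) / 3) : ℕ) : ℝ) = q1 at *
  generalize ((8 * k / Nat.sqrt (Nat.sqrt k) ^ 2 : ℕ) : ℝ) = q2 at *
  generalize (Nat.sqrt (Nat.sqrt k) : ℝ) = s at *
  generalize (Nat.sqrt k : ℝ) = m at *
  generalize (Nat.log 2 k : ℝ) + 1 = L at *
  generalize x ^ 3 = y at *
  have hL0 : 0 ≤ L := by linarith
  have hy0 : 0 ≤ y := by linarith
  have hyL : y ≤ y * L := le_mul_of_one_le_right hy0 hL1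
  have e1 : (q1 + 1) * (2 * L) ≤ 10 * y * L := by
    calc (q1 + 1) * (2 * L) ≤ (5 * y) * (2 * L) := mul_le_mul_of_nonneg_right (by linarith) (by linarith)
      _ = 10 * y * L := by ring
  have e2 : 4 * m ≤ 4 * y * L := by linarith
  have e4 : 2 * s * (q2 + 1) + 2 * (16 * s ^ 2 + 1) ≤ 68 * y := by
    calc 2 * s * (q2 + 1) + 2 * (16 * s ^ 2 + 1) = 2 * (q2 * s) + 2 * s + 32 * s ^ 2 + 2 := by ring
      _ ≤ 68 * y := by linarith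
  have e3 : (2 * s * (q2 + 1) + 2 * (16 * s ^ 2 + 1)) * (2 * L) ≤ 136 * y * L := by
    calc (2 * s * (q2 + 1) + 2 * (16 * s ^ 2 + 1)) * (2 * L) ≤ (68 * y) * (2 * L) :=
          mul_le_mul_of_nonneg_right e4 (by linarith)
      _ = 136 * y * L := by ring
  have e5 : (q1 + 1) * (2 * L) + 4 * m + (2 * s * (q2 + 1) + 2 * (16 * s ^ 2 + 1)) * (2 * L) ≤ 150 * y * L := by linarith
  calc ((q1 + 1) * (2 * L) + 4 * m + (2 * s * (q2 + 1) + 2 * (16 * s ^ 2 + 1)) * (2 * L)) * L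
      ≤ (150 * y * L) * L := mul_le_mul_of_nonneg_right e5 hL0
    _ = 150 * y * L ^ 2 := by ring

theorem prim_an : ∀ᶠ k : ℕ in atTop, (bE k : ℝ) ≤ (k : ℝ) ^ (4 / 5 : ℝ) := by
  have h1 : ∀ᶠ y : ℝ in atTop, Real.log y ≤ (1 / 37) * y ^ (1 / 40 : ℝ) := by
    have h := (isLittleO_log_rpow_atTop (r := (1 / 40 : ℝ)) (by norm_num)).bound (show (0 : ℝ) < 1 / 37 by norm_num)
    filter_upwards [h, eventually_ge_atTop (1 : ℝ)] with y hy hy1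
    rw [Real.norm_of_nonneg (Real.log_nonneg hy1), Real.norm_of_nonneg (by positivity)] at hy
    exact hy
  have h2 : ∀ᶠ k : ℕ in atTop, Real.log (k : ℝ) ≤ (1 / 37) * (k : ℝ) ^ (1 / 40 : ℝ) := tendsto_natCast_atTop_atTop.eventually h1
  filter_upwards [h2, eventually_ge_atTop (16 ^ 4)] with k hk hk1
  have hkr : (16 : ℝ) ^ 4 ≤ (k : ℝ) := by exact_mod_cast hk1
  have hk0 : (0 : ℝ) < (k : ℝ) := by linarith [show (0 : ℝ) < 16 ^ 4 by norm_num]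
  have hx4 : ((k : ℝ) ^ (1 / 4 : ℝ)) ^ 4 = (k : ℝ) := by
    rw [← Real.rpow_natCast, ← Real.rpow_mul hk0.le]
    norm_num
  have hx16 : 16 ≤ (k : ℝ) ^ (1 / 4 : ℝ) := by
    apply le_of_pow_le_pow_left₀ (n := 4) (by norm_num) (by positivity)
    rw [hx4]; exact hkr
  have hb := bE_le k _ hx4 hx16
  have hx3 : ((k : ℝ) ^ (1 / 4 : ℝ)) ^ 3 = (k : ℝ) ^ (3 / 4 : ℝ) := by
    rw [← Real.rpow_natCast, ← Real.rpow_mul hk0.le]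
    norm_num
  have hlog1 : 1 ≤ Real.log (k : ℝ) := by
    rw [Real.le_log_iff_exp_le hk0]
    have := Real.exp_one_lt_d9
    have h16 : (3 : ℝ) ≤ 16 ^ 4 := by norm_num
    linarith
  have hL : (Nat.log 2 k : ℝ) + 1 ≤ 3 * Real.log (k : ℝ) := by
    have h3 : (2 : ℝ) ^ (Nat.log 2 k) ≤ (k : ℝ) := by
      exact_mod_cast Nat.pow_log_le_self 2 (by omega)
    have h4 := Real.log_le_log (by positivity) h3
    rw [Real.log_pow] at h4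
    have h5 := Real.log_two_gt_d9
    have h6 : (0 : ℝ) ≤ (Nat.log 2 k : ℝ) := Nat.cast_nonneg _
    nlinarith
  have hL0 : (0 : ℝ) ≤ (Nat.log 2 k : ℝ) + 1 := by positivity
  have hL2 : (Nat.log 2 k : ℝ) + 1 ≤ (3 / 37) * (k : ℝ) ^ (1 / 40 : ℝ) := by linarith
  have hp0 : 0 ≤ (k : ℝ) ^ (1 / 40 : ℝ) := by positivity
  have hL3 : ((Nat.log 2 k : ℝ) + 1) ^ 2 ≤ (9 / 1369) * ((k : ℝ) ^ (1 / 40 : ℝ)) ^ 2 := by
    calc ((Nat.log 2 k : ℝ) + 1) ^ 2 ≤ ((3 / 37) * (k : ℝ) ^ (1 / 40 : ℝ)) ^ 2 := by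
          apply pow_le_pow_left₀ hL0 hL2
      _ = (9 / 1369) * ((k : ℝ) ^ (1 / 40 : ℝ)) ^ 2 := by ring
  have hsq : ((k : ℝ) ^ (1 / 40 : ℝ)) ^ 2 = (k : ℝ) ^ (1 / 20 : ℝ) := by
    rw [← Real.rpow_natCast, ← Real.rpow_mul hk0.le]
    norm_num
  rw [hx3] at hb
  rw [hsq] at hL3
  have h7 : (k : ℝ) ^ (3 / 4 : ℝ) * (k : ℝ) ^ (1 / 20 : ℝ) = (k : ℝ) ^ (4 / 5 : ℝ) := by
    rw [← Real.rpow_add hk0]; norm_num
  have h8 : 0 ≤ (k : ℝ) ^ (3 / 4 : ℝ) := by positivity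
  have h9 : 0 ≤ (k : ℝ) ^ (4 / 5 : ℝ) := by positivity
  calc (bE k : ℝ) ≤ 150 * (k : ℝ) ^ (3 / 4 : ℝ) * ((Nat.log 2 k : ℝ) + 1) ^ 2 := hb
    _ ≤ 150 * (k : ℝ) ^ (3 / 4 : ℝ) * ((9 / 1369) * (k : ℝ) ^ (1 / 20 : ℝ)) :=
        mul_le_mul_of_nonneg_left hL3 (by positivity)
    _ = (1350 / 1369) * ((k : ℝ) ^ (3 / 4 : ℝ) * (k : ℝ) ^ (1 / 20 : ℝ)) := by ring
    _ = (1350 / 1369) * (k : ℝ) ^ (4 / 5 : ℝ) := by rw [h7]
    _ ≤ (k : ℝ) ^ (4 / 5 : ℝ) := by linarith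

end Pool.Agent.FuS
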