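import Pool.Agent.FuS.Defs

/-!
MP_7fa120_al, all subgroups. Pronormal subgroups of odd order.

Proof. Let `Q` be of maximal order among the subgroups `Q ≤ R` which are solvable, of odd order and pronormal in `G` (`⊥` is one). Let `N = N_G(Q)`, `N_R = N ⊓ R`, and
suppose that an odd prime `p` divides `|N_R / Q|`. Let `C` be a Sylow `p`-subgroup of `N_R` and `P = Q C`. It is solvable of odd order, larger than `Q`,
contained in `R`. It is pronormal: let `P ≤ L`, `g P g⁻¹ ≤ L`. As `Q` is pronormal there is `l ∈ L` with `l g ∈ N`. Then `C` and `(l g) C (l g)⁻¹` (it is contained in `R`, which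
is normal, in `N` and in `L`) are `p`-subgroups of `N_R ⊓ L`, and `C` is a Sylow subgroup of it; so there is `u ∈ N_R ⊓ L` such that `u l g` normalises `C`, and it
normalises `Q`, so `P`. This contradicts the choice of `Q`. So `|N_R / Q|` is a power of two.
-/

set_option autoImplicit false

namespace Pool.Agent.FuS

section sylow

variable {G : Type} [Group G] [Finite G]

/-- `C` is a Sylow `p`-subgroup of `K`. -/
private def PSyl (p : ℕ) (C K : Subgroup G) : Prop :=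
  C ≤ K ∧ IsPGroup p C ∧ ∀ T ≤ K, IsPGroup p T → ∃ u ∈ K, ∀ t ∈ T, u * t * u⁻¹ ∈ C

omit [Finite G] in
private theorem pisP_sub {p : ℕ} {T : Subgroup G} (hT : IsPGroup p T) (K : Subgroup G) :
    IsPGroup p (T.subgroupOf K) :=
  hT.comap_of_injective K.subtype K.subtype_injective

private theorem psyl_exists (p : ℕ) [Fact p.Prime] (K T : Subgroup G) (hT : T ≤ K) (hp : IsPGroup p T) :
    ∃ P : Sylow p K, T ≤ (P : Subgroup K).map K.subtype ∧ PSyl p ((P : Subgroup K).map K.subtype) K := by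
  obtain ⟨P, hP⟩ := (pisP_sub hp K).exists_le_sylow
  refine ⟨P, ?_, Subgroup.map_subtype_le _, P.isPGroup'.map _, ?_⟩
  · intro t ht
    exact ⟨⟨t, hT ht⟩, hP (Subgroup.mem_subgroupOf.mpr ht), rfl⟩
  · intro S hS hSp
    obtain ⟨P', hP'⟩ := (pisP_sub hSp K).exists_le_sylow
    obtain ⟨u, hu⟩ := MulAction.exists_smul_eq K P' P
    refine ⟨u, u.2, fun t ht => ?_⟩
    have h1 : (⟨t, hS ht⟩ : K) ∈ (P' : Subgroup K) := hP' (Subgroup.mem_subgroupOf.mpr ht)
    have h2 := Subgroup.smul_mem_pointwise_smul _ (MulAut.conj u) _ h1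
    rw [← Sylow.coe_subgroup_smul, hu] at h2
    exact ⟨_, h2, rfl⟩

private theorem psyl_sub {p : ℕ} [Fact p.Prime] {C K K₀ : Subgroup G} (hC : PSyl p C K) (h1 : C ≤ K₀) (h2 : K₀ ≤ K) :
    PSyl p C K₀ := by
  obtain ⟨P, h3, h4⟩ := psyl_exists p K₀ C h1 hC.2.1
  obtain ⟨u, -, hu⟩ := hC.2.2 _ (h4.1.trans h2) h4.2.1
  have h5 : Nat.card ((P : Subgroup K₀).map K₀.subtype) ≤ Nat.card C := by
    refine Nat.card_le_card_of_injective (fun t => ⟨u * t * u⁻¹, hu t t.2⟩) ?_
    intro s t h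
    have h6 := congrArg Subtype.val h
    exact Subtype.ext (mul_left_cancel (mul_right_cancel h6))
  have h6 : C = (P : Subgroup K₀).map K₀.subtype := Subgroup.eq_of_le_of_card_ge h3 h5
  rw [h6]
  exact h4

private theorem pnorm_of_le {C : Subgroup G} {g : G} (h : ∀ c ∈ C, g * c * g⁻¹ ∈ C) :
    g ∈ Subgroup.normalizer (C : Set G) := by
  have h1 : C.map (MulAut.conj g).toMonoidHom ≤ C := by
    rintro _ ⟨c, hc, rfl⟩
    exact h c hc
  have h2 : C.map (MulAut.conj g).toMonoidHom = C := by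
    refine Subgroup.eq_of_le_of_card_ge h1 ?_
    rw [Subgroup.card_map_of_injective (MulAut.conj g).injective]
  rw [Subgroup.mem_normalizer_iff]
  intro c
  constructor
  · exact h c
  · intro hc
    have h3 : g * c * g⁻¹ ∈ C.map (MulAut.conj g).toMonoidHom := by
      rw [h2]
      exact hc
    obtain ⟨c', hc', he⟩ := h3
    have : c' = c := (MulAut.conj g).injective he
    rwa [← this]

private theorem pjoin_odd {p : ℕ} [Fact p.Prime] (hp2 : p ≠ 2) {Q C : Subgroup G}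
    (hn : ∀ c ∈ C, ∀ q ∈ Q, c * q * c⁻¹ ∈ Q) (hQ : Odd (Nat.card Q)) (hs : Group.IsSolvable Q)
    (hC : IsPGroup p C) :
    Odd (Nat.card (Q ⊔ C : Subgroup G)) ∧ Group.IsSolvable (Q ⊔ C : Subgroup G) := by
  have hp : p.Prime := Fact.out
  have hle : Q ⊔ C ≤ Subgroup.normalizer (Q : Set G) :=
    sup_le Subgroup.le_normalizer fun c hc => pnorm_of_le (hn c hc)
  have hnorm : (Q.subgroupOf (Q ⊔ C)).Normal :=
    (Subgroup.normal_subgroupOf_iff_le_normalizer le_sup_left).2 hle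
  set π := QuotientGroup.mk' (Q.subgroupOf (Q ⊔ C)) with hπ
  have h1 : (C.subgroupOf (Q ⊔ C)).map π = ⊤ := by
    have h2 : Q.subgroupOf (Q ⊔ C) ⊔ C.subgroupOf (Q ⊔ C) = ⊤ := by
      rw [← Subgroup.subgroupOf_sup le_sup_left le_sup_right, Subgroup.subgroupOf_self]
    have h3 := congrArg (Subgroup.map π) h2
    rw [Subgroup.map_sup, hπ, QuotientGroup.map_mk'_self, bot_sup_eq] at h3
    rw [hπ, h3, ← MonoidHom.range_eq_map, MonoidHom.range_eq_top]
    exact QuotientGroup.mk'_surjective _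
  have h4 : IsPGroup p (↥(Q ⊔ C) ⧸ Q.subgroupOf (Q ⊔ C)) := by
    have h5 : IsPGroup p ((C.subgroupOf (Q ⊔ C)).map π) := (pisP_sub hC _).map π
    rw [h1] at h5
    exact h5.of_equiv Subgroup.topEquiv
  obtain ⟨k, hk⟩ := IsPGroup.exists_card_eq h4
  have h6 : Nat.card (Q.subgroupOf (Q ⊔ C)) = Nat.card Q :=
    Nat.card_congr (Subgroup.subgroupOfEquivOfLe le_sup_left).toEquiv
  constructor
  · have h7 := (Q.subgroupOf (Q ⊔ C)).card_mul_index
    rw [h6] at h7
    rw [← h7]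
    refine hQ.mul ?_
    have h8 : (Q.subgroupOf (Q ⊔ C)).index = p ^ k := hk
    rw [h8]
    exact (hp.odd_of_ne_two hp2).pow
  · have h7 : Group.IsSolvable (↥(Q ⊔ C) ⧸ Q.subgroupOf (Q ⊔ C)) := by
      have := h4.isNilpotent
      infer_instance
    have h8 : Group.IsSolvable (Q.subgroupOf (Q ⊔ C)) :=
      Group.isSolvable_of_isSolvable_injective (f := (Subgroup.subgroupOfEquivOfLe
        (le_sup_left : Q ≤ Q ⊔ C)).toMonoidHom) (Subgroup.subgroupOfEquivOfLe _).injective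
    exact Group.isSolvable_of_ker_le_range (Q.subgroupOf (Q ⊔ C)).subtype π (by
      rw [hπ, QuotientGroup.ker_mk', Subgroup.range_subtype])

/-- The join with a Sylow subgroup of `N_R(Q)` is pronormal. -/
private theorem pron_join {p : ℕ} [Fact p.Prime] {R Q C : Subgroup G} (hR : R.Normal) (hP : Pron Q)
    (hC : PSyl p C (Subgroup.normalizer (Q : Set G) ⊓ R)) : Pron (Q ⊔ C) := by
  intro L g hL hg
  have hQP : Q ≤ Q ⊔ C := le_sup_left
  have hCP : C ≤ Q ⊔ C := le_sup_right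
  obtain ⟨l, hl, hlg⟩ := hP L g (hQP.trans hL) fun q hq => hg q (hQP hq)
  have hCK : C ≤ Subgroup.normalizer (Q : Set G) ⊓ R ⊓ L := le_inf hC.1 (hCP.trans hL)
  have hS := psyl_sub hC hCK inf_le_left
  obtain ⟨u, hu, hu'⟩ := hS.2.2 (C.map (MulAut.conj (l * g)).toMonoidHom) (by
    rintro _ ⟨c, hc, rfl⟩
    have h1 := hC.1 hc
    refine Subgroup.mem_inf.2 ⟨Subgroup.mem_inf.2 ⟨?_, ?_⟩, ?_⟩
    · exact Subgroup.mul_mem _ (Subgroup.mul_mem _ hlg (Subgroup.mem_inf.1 h1).1) (Subgroup.inv_mem _ hlg)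
    · exact hR.conj_mem c h1.2 _
    · have h2 : (MulAut.conj (l * g)).toMonoidHom c = l * (g * c * g⁻¹) * l⁻¹ := by
        show l * g * c * (l * g)⁻¹ = _
        group
      rw [h2]
      exact mul_mem (mul_mem hl (hg c (hCP hc))) (inv_mem hl)) (hC.2.1.map _)
  refine ⟨u * l, mul_mem hu.2 hl, ?_⟩
  have h3 : u * l * g = u * (l * g) := mul_assoc _ _ _
  have h4 : u * l * g ∈ Subgroup.normalizer (Q : Set G) := by
    rw [h3]
    exact mul_mem hu.1.1 hlg
  refine pnorm_of_le ?_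
  have h5 : Q ⊔ C ≤ (Q ⊔ C).comap (MulAut.conj (u * l * g)).toMonoidHom := by
    refine sup_le ?_ ?_
    · intro q hq
      exact hQP ((Subgroup.mem_normalizer_iff.1 h4 q).1 hq)
    · intro c hc
      have h6 := hu' _ ⟨c, hc, rfl⟩
      have h7 : (MulAut.conj (u * l * g)).toMonoidHom c = u * ((MulAut.conj (l * g)).toMonoidHom c) * u⁻¹ := by
        show u * l * g * c * (u * l * g)⁻¹ = u * (l * g * c * (l * g)⁻¹) * u⁻¹
        group
      rw [Subgroup.mem_comap, h7]
      exact hCP h6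
  exact fun c hc => h5 hc

end sylow

theorem exists_pron {G : Type} [Group G] [Finite G] (R : Subgroup G) (hR : R.Normal) :
    ∃ Q : Subgroup G, Q ≤ R ∧ Odd (Nat.card Q) ∧ Group.IsSolvable Q ∧ Pron Q ∧
      ∃ a : ℕ, Nat.card (Subgroup.normalizer (Q : Set G) ⊓ R : Subgroup G) = Nat.card Q * 2 ^ a := by
  classical
  have hne : ({Q : Subgroup G | Q ≤ R ∧ Odd (Nat.card Q) ∧ Group.IsSolvable Q ∧ Pron Q}).Nonempty := by
    refine ⟨⊥, bot_le, ?_, inferInstance, ?_⟩
    · rw [Subgroup.card_bot]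
      exact odd_one
    · intro L g _ _
      refine ⟨1, one_mem _, ?_⟩
      refine pnorm_of_le ?_
      intro c hc
      rw [Subgroup.mem_bot] at hc ⊢
      rw [hc]
      group
  obtain ⟨Q, hQ, hmax⟩ := Set.exists_max_image _ (fun Q : Subgroup G => Nat.card Q) (Set.toFinite _) hne
  obtain ⟨hQR, hodd, hsol, hpron⟩ := hQ
  refine ⟨Q, hQR, hodd, hsol, hpron, ?_⟩
  have hQN : Q ≤ Subgroup.normalizer (Q : Set G) ⊓ R := le_inf Subgroup.le_normalizer hQR
  obtain ⟨m, hm⟩ := Subgroup.card_dvd_of_le hQN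
  have hQpos : 0 < Nat.card Q := Nat.card_pos
  rcases Nat.eq_two_pow_or_exists_odd_prime_and_dvd m with ⟨a, ha⟩ | ⟨p, hp, hpm, hpo⟩
  · exact ⟨a, by rw [hm, ha]⟩
  exfalso
  have hfp : Fact p.Prime := ⟨hp⟩
  have hp2 : p ≠ 2 := by
    rintro rfl
    exact absurd hpo (by decide)
  obtain ⟨P, -, hS⟩ := psyl_exists p (Subgroup.normalizer (Q : Set G) ⊓ R) ⊥ bot_le IsPGroup.of_bot
  set C := (P : Subgroup (Subgroup.normalizer (Q : Set G) ⊓ R : Subgroup G)).map
    (Subgroup.normalizer (Q : Set G) ⊓ R : Subgroup G).subtype with hCdef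
  have hCR : C ≤ R := hS.1.trans inf_le_right
  obtain ⟨h1, h2⟩ := pjoin_odd hp2 (Q := Q) (C := C)
    (fun c hc q hq => (Subgroup.mem_normalizer_iff.1 (hS.1 hc).1 q).1 hq) hodd hsol hS.2.1
  have h3 := pron_join hR hpron hS
  have h4 := hmax (Q ⊔ C) ⟨sup_le hQR hCR, h1, h2, h3⟩
  have h5 : Q = Q ⊔ C := Subgroup.eq_of_le_of_card_ge le_sup_left h4
  have h6 : C ≤ Q := by
    rw [h5]
    exact le_sup_right
  -- the order of C
  have h7 : Nat.card C = p ^ (Nat.card (Subgroup.normalizer (Q : Set G) ⊓ R : Subgroup G)).factorization p := by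
    rw [hCdef, Subgroup.card_map_of_injective (Subgroup.subtype_injective _)]
    exact P.card_eq_multiplicity
  have h8 : Nat.card C ∣ Nat.card Q := Subgroup.card_dvd_of_le h6
  have hm0 : m ≠ 0 := by
    rintro rfl
    rw [mul_zero] at hm
    exact Nat.card_pos.ne' hm
  rw [h7, hm] at h8
  have h9 := (hp.pow_dvd_iff_le_factorization hQpos.ne').1 h8
  rw [Nat.factorization_mul hQpos.ne' hm0, Finsupp.add_apply] at h9
  have h10 : 0 < m.factorization p := hp.factorization_pos_of_dvd hm0 hpm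
  omega

/-- A pronormal subgroup is pronormal in every subgroup containing it. -/
theorem pron_sub {G : Type} [Group G] [Finite G] {Q : Subgroup G} (hQ : Pron Q) (R : Subgroup G) (h : Q ≤ R) : Pron (Q.subgroupOf R) := by
  intro L g hL hg
  obtain ⟨l, hl, hlg⟩ := hQ (L.map R.subtype) g (fun q hq => ⟨⟨q, h hq⟩, hL (Subgroup.mem_subgroupOf.2 hq), rfl⟩)
    (fun q hq => ⟨g * ⟨q, h hq⟩ * g⁻¹, hg _ (Subgroup.mem_subgroupOf.2 hq), rfl⟩)
  obtain ⟨l', hl', rfl⟩ := hl
  refine ⟨l', hl', ?_⟩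
  refine pnorm_of_le ?_
  intro c hc
  rw [Subgroup.mem_subgroupOf] at hc ⊢
  exact (Subgroup.mem_normalizer_iff.1 hlg c).1 hc

end Pool.Agent.FuS
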