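import Pool.Agent.FuS.SupF
import Pool.Agent.FuS.CoreF
import Pool.Agent.GcS.SplitG

/-!
MP_7fa120_al, all subgroups. The cases for a single group.

The same proof as for `GcS.split_g` (`GcS/SplitG.lean`, proved there; copy it) with `sup_f`, `first_f`, `proc_f` instead of `sup_gc`, `first_g`, `proc_g`.
-/

set_option autoImplicit false

namespace Pool.Agent.FuS

open Equiv Pool.Agent.NilS Pool.Agent.BdO Pool.Agent.SvS Pool.Agent.GcS

private theorem splitF_par {b k k' Λ β g : ℕ} (h : k ≤ k') (hp : Par b k Λ β g) : Par b k' Λ β g := by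
  obtain ⟨h1, h2, h3, h4, h5⟩ := hp
  refine ⟨h1, h2.trans h, h3.trans h, h4.trans ?_, h5.trans ?_⟩
  · exact Nat.mul_le_mul_right _ (Nat.sub_le_sub_right h 2)
  · exact Nat.mul_le_mul (Nat.div_le_div_right h) (Nat.div_le_div_right h)

private theorem splitF_jg {b k k' : ℕ} (h8 : 8 ≤ k) (h : k ≤ k') : jg b k' ≤ jg b k := by
  unfold jg
  refine Nat.pow_le_pow_left (Nat.add_le_add_right ?_ 1) 2
  exact Nat.div_le_div_left (Nat.div_le_div_right h) (by omega)

theorem split_f {n : ℕ} (s₀ k k' Λ β g B c : ℕ) (hkk : k ≤ k') (hB4 : 4 ≤ B) (hB : ∀ H : Subgroup (Perm (Fin n)), Lc B c H)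
    (H : Subgroup (Perm (Fin n))) (hp : Par (lf n) k Λ β g) :
    (mv (oddGen H)).card ≤ s₀ ∨
    (s₀ < (mv (oddGen H)).card ∧
      ∃ (U D : Subgroup (Perm (Fin n))) (S : Finset (Perm (Fin n))), Full U ∧ Two D ∧ Nz D U ∧ mv U ⊆ mv (oddGen H) ∧
        (mv (oddGen H)).card ≤ 3 * (mv U).card ∧ (∀ x ∈ S, x ∈ oddGen H) ∧
        S.card ≤ k' + (EE (lf n) Λ B + c) ∧ D ⊔ Subgroup.closure (S : Set (Perm (Fin n))) = H) ∨
    Rl H g (jg (lf n) k + tg (lf n) k + 1) ∨
    Nil H (2 ^ (k' / 2)) (k + (EE (lf n) Λ B + c) + tg (lf n) k + 1) := by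
  classical
  by_cases hs : (mv (oddGen H)).card ≤ s₀
  · exact Or.inl hs
  right
  push Not at hs
  obtain ⟨Q, D, hQ, hQo, hQs, hD2, hDQ, hRD, hcard⟩ := sup_f H
  obtain ⟨U, hU, hDU, hmv⟩ := exists_U Q D hQs hQo hDQ
  have h8 : 8 ≤ k := by
    have := hp.2.1
    omega
  have hX : Nat.log 2 (Nat.card (Perm (Fin n))) = lf n := by
    unfold lf
    rw [Nat.card_eq_fintype_card, Fintype.card_perm, Fintype.card_fin]
  rcases first_f H D hRD B c k' Λ β g hB4 (hB H) (splitF_par hkk hp) with ⟨S, hS1, hS2, hS3⟩ | h | ⟨C, x, hC, hCx, hidx⟩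
  · left
    refine ⟨hs, U, D, S, hU, hD2, hDU, ?_, ?_, hS1, hS2, hS3⟩
    · rw [hmv]
      intro y hy
      rw [mem_mv] at hy ⊢
      obtain ⟨q, hq, hqy⟩ := hy
      exact ⟨q, hQ hq, hqy⟩
    · rw [hmv]
      exact hcard
  · right
    left
    refine rl_mono h le_rfl ?_
    have := splitF_jg (b := lf n) h8 hkk
    omega
  · right
    have hT : C ⊔ Subgroup.closure (({x} : Finset (Perm (Fin n))) : Set (Perm (Fin n))) = H := by
      rw [Finset.coe_singleton, ← Subgroup.zpowers_eq_closure]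
      exact hCx
    have hP := proc_f C B c k Λ β g hB4 hB (by rw [hX]; exact hp)
    rw [hX] at hP
    rcases hP with hP | hP
    · right
      exact nil_up hP hidx {x} (by simp) hT
    · left
      exact rl_up hP {x} (by simp) hT

end Pool.Agent.FuS
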