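import Pool.Agent.FuS.Pron
import Pool.Agent.FuS.Parity
import Pool.Agent.GcS.SupAll

/-!
MP_7fa120_al, all subgroups. The pair `(Q, D)`.

Proof. Let `R = oddGen H`, contained in `H` and normalised by `H`. `exists_pron` for the group `H` and its normal subgroup `R.subgroupOf H` gives `Q ≤ R`, solvable of odd order, pronormal in
`H`, with `|N_R(Q)| = |Q| 2 ^ a`. `H = R N_H(Q)`: for `h ∈ H`, `Q` and `h Q h⁻¹` are in `R`, so `r h ∈ N_H(Q)` for some `r ∈ R`. Let `D` be a Sylow 2-subgroup of `N_H(Q)`; `H / R` is a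
2-group, so `N_H(Q) = N_R(Q) D` and `R D = H` (compare `so_quot` and the end of the proofs in `GcS/SupOne.lean`, `GcS/SupAll.lean`). `D` normalises `Q`.
Let `Δ` be an orbit of `R` with more than one point, `x ∈ Δ`, `R_x < R`, `M` a maximal subgroup of `R` containing `R_x`. `R` has no subgroup of index 2 (it would be normal and contain
all elements of odd order, which generate `R`; `opp`-elements of the group `R`, compare `GcS/SupAll.lean`). `Δ` is `R ⧸ R_x`, and it is mapped onto `R ⧸ M`, all fibres have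
`|Δ| / |R : M|` points; if `Q` fixes a point of `Δ` it fixes its image. So by `pron_fix` (for the group `R` and `Q.subgroupOf R`, pronormal by `pron_sub`) `Q` fixes at most two thirds of the points of `Δ`:
`|Δ| ≤ 3 |Δ ∩ mv Q|`. Sum over the orbits (compare `sup_gc` in `GcS/SupAll.lean`).
-/

set_option autoImplicit false

namespace Pool.Agent.FuS

open Equiv Pool.Agent.NilS Pool.Agent.BdO Pool.Agent.SvS Pool.Agent.GcS

private theorem mv_mono {n : ℕ} {Q Q' : Subgroup (Perm (Fin n))} (h : Q ≤ Q') : mv Q ⊆ mv Q' := by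
  intro x hx
  obtain ⟨q, hq, hqx⟩ := mem_mv.1 hx
  exact mem_mv.2 ⟨q, h hq, hqx⟩

private theorem hc_le {n : ℕ} {Hh : Subgroup (Perm (Fin n))} : oddGen Hh ≤ Hh := by
  unfold oddGen
  rw [Subgroup.closure_le]
  exact fun g hg => hg.1

private theorem hc_conj {n : ℕ} {Hh : Subgroup (Perm (Fin n))} :
    ∀ h ∈ Hh, ∀ r ∈ oddGen Hh, h * r * h⁻¹ ∈ oddGen Hh := by
  intro h hh
  have h1 : oddGen Hh ≤ (oddGen Hh).comap (MulAut.conj h).toMonoidHom := by
    conv_lhs => unfold oddGen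
    rw [Subgroup.closure_le]
    rintro x ⟨hx, r, j, hr, hr2, ho⟩
    refine Subgroup.subset_closure ⟨mul_mem (mul_mem hh hx) (inv_mem hh), r, j, hr, hr2, ?_⟩
    rw [← ho]
    exact MulEquiv.orderOf_eq (MulAut.conj h) x
  exact fun r hr => h1 hr

private theorem two_or' {m : ℕ} (hm : m ≠ 0) (h : ∀ p : ℕ, p.Prime → p ∣ m → p = 2) :
    ∃ k : ℕ, m = 2 ^ k :=
  ⟨_, Nat.eq_prime_pow_of_unique_prime_dvd hm fun {d} hd hdm => h d hd hdm⟩

private theorem quot_two' {G : Type} [Group G] [Finite G] (N : Subgroup G) [N.Normal]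
    (hN : ∀ g : G, Opp g → g ∈ N) : ∃ k : ℕ, Nat.card (G ⧸ N) = 2 ^ k := by
  refine two_or' Nat.card_pos.ne' fun p hp hdvd => ?_
  by_contra hp2
  have : Fact p.Prime := ⟨hp⟩
  obtain ⟨x, hx⟩ := exists_prime_orderOf_dvd_card' p hdvd
  obtain ⟨g, rfl⟩ := QuotientGroup.mk_surjective x
  obtain ⟨a, m, hm, hgm⟩ := Nat.exists_eq_pow_mul_and_not_dvd (isOfFinOrder_of_finite g).orderOf_pos.ne' p
    hp.ne_one
  have hm0 : m ≠ 0 := by
    rintro rfl
    exact hm (dvd_zero p)
  have h1 : orderOf (g ^ m) = p ^ a := by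
    rw [orderOf_pow_of_dvd hm0 (by rw [hgm]; exact dvd_mul_left m _), hgm,
      Nat.mul_div_cancel _ (Nat.pos_of_ne_zero hm0)]
  have h2 : g ^ m ∈ N := hN _ ⟨p, a, hp, hp2, h1⟩
  have h3 : ((g : G ⧸ N)) ^ m = 1 := by
    rw [← QuotientGroup.mk_pow]
    exact (QuotientGroup.eq_one_iff _).mpr h2
  rw [← orderOf_dvd_iff_pow_eq_one, hx] at h3
  exact hm h3

/-- A Sylow 2-subgroup of `N`. -/
private theorem two_top {G : Type} [Group G] [Finite G] {R N : Subgroup G}
    (hR : ∀ g ∈ N, ∀ r ∈ R, g * r * g⁻¹ ∈ R) (hN : ∀ g ∈ N, Opp g → g ∈ R) :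
    ∃ D : Subgroup G, D ≤ N ∧ (∃ k : ℕ, Nat.card D = 2 ^ k) ∧ N ≤ R ⊔ D := by
  have hnorm : (R.subgroupOf N).Normal := by
    constructor
    intro r hr g
    exact Subgroup.mem_subgroupOf.mpr (hR g g.2 r (Subgroup.mem_subgroupOf.mp hr))
  obtain ⟨k, hk⟩ := quot_two' (R.subgroupOf N) (by
    rintro ⟨g, hg⟩ ⟨r, j, hr, hr2, ho⟩
    refine Subgroup.mem_subgroupOf.mpr (hN g hg ⟨r, j, hr, hr2, ?_⟩)
    rw [← ho, Subgroup.orderOf_mk])
  have hQ2 : IsPGroup 2 (N ⧸ R.subgroupOf N) := IsPGroup.of_card hk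
  obtain ⟨D0⟩ : Nonempty (Sylow 2 N) := inferInstance
  refine ⟨(D0 : Subgroup N).map N.subtype, Subgroup.map_subtype_le _, ?_, ?_⟩
  · rw [Subgroup.card_map_of_injective (Subgroup.subtype_injective N)]
    exact IsPGroup.exists_card_eq D0.isPGroup'
  · have h2 : (D0 : Subgroup N).map (QuotientGroup.mk' (R.subgroupOf N)) = ⊤ := by
      have h3 := (D0.mapSurjective (QuotientGroup.mk'_surjective (R.subgroupOf N))).is_maximal'
        (hQ2.to_subgroup ⊤) le_top
      rw [h3]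
      rfl
    intro g hg
    have h3 : (QuotientGroup.mk' (R.subgroupOf N) ⟨g, hg⟩) ∈
        (D0 : Subgroup N).map (QuotientGroup.mk' (R.subgroupOf N)) := by
      rw [h2]
      exact Subgroup.mem_top _
    obtain ⟨d, hd, hdg⟩ := Subgroup.mem_map.mp h3
    have h4 : d⁻¹ * ⟨g, hg⟩ ∈ R.subgroupOf N := QuotientGroup.eq.mp hdg
    have h5 : g = (d : G) * ((d : G)⁻¹ * g) := by group
    rw [h5]
    exact mul_mem (Subgroup.mem_sup_right ⟨d, hd, rfl⟩)
      (Subgroup.mem_sup_left (Subgroup.mem_subgroupOf.mp h4))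


section quot

variable {R : Type} [Group R] [Finite R]

private theorem quo_fix (h2 : ∀ K : Subgroup R, K.index ≠ 2)
    (Q : Subgroup R) (hQ : Pron Q) (hN : ∃ a : ℕ, Nat.card (Subgroup.normalizer (Q : Set R)) = Nat.card Q * 2 ^ a)
    (S : Subgroup R) (hS : S ≠ ⊤) :
    3 * Nat.card {x : R ⧸ S // ∀ q ∈ Q, q • x = x} ≤ 2 * Nat.card (R ⧸ S) := by
  obtain h | ⟨M, hM, hSM⟩ := eq_top_or_exists_le_coatom S
  · exact absurd h hS
  have h1 := pron_fix h2 M hM Q hQ hN
  have cnt : ∀ T : Subgroup R, Nat.card {g : R // ∀ q ∈ Q, q • (g : R ⧸ T) = (g : R ⧸ T)} =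
      Nat.card T * Nat.card {x : R ⧸ T // ∀ q ∈ Q, q • x = x} := by
    intro T
    rw [← Nat.card_prod]
    exact Nat.card_congr (QuotientGroup.preimageMkEquivSubgroupProdSet T {x | ∀ q ∈ Q, q • x = x})
  have hle : Nat.card {g : R // ∀ q ∈ Q, q • (g : R ⧸ S) = (g : R ⧸ S)} ≤
      Nat.card {g : R // ∀ q ∈ Q, q • (g : R ⧸ M) = (g : R ⧸ M)} := by
    have key : ∀ g : R, (∀ q ∈ Q, q • (g : R ⧸ S) = (g : R ⧸ S)) → ∀ q ∈ Q, q • (g : R ⧸ M) = (g : R ⧸ M) := by
      intro g hg q hq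
      have h4 : (q * g)⁻¹ * g ∈ S := QuotientGroup.eq.mp (hg q hq)
      exact QuotientGroup.eq.mpr (hSM h4)
    exact Nat.card_le_card_of_injective (Subtype.map id key) (Subtype.map_injective key Function.injective_id)
  have e1 := Subgroup.card_eq_card_quotient_mul_card_subgroup S
  have e2 := Subgroup.card_eq_card_quotient_mul_card_subgroup M
  rw [cnt S, cnt M] at hle
  have hS0 : 0 < Nat.card S := Nat.card_pos
  refine Nat.le_of_mul_le_mul_left ?_ hS0
  calc Nat.card S * (3 * Nat.card {x : R ⧸ S // ∀ q ∈ Q, q • x = x})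
      = 3 * (Nat.card S * Nat.card {x : R ⧸ S // ∀ q ∈ Q, q • x = x}) := by ring
    _ ≤ 3 * (Nat.card M * Nat.card {x : R ⧸ M // ∀ q ∈ Q, q • x = x}) := Nat.mul_le_mul_left _ hle
    _ = Nat.card M * (3 * Nat.card {x : R ⧸ M // ∀ q ∈ Q, q • x = x}) := by ring
    _ ≤ Nat.card M * (2 * Nat.card (R ⧸ M)) := Nat.mul_le_mul_left _ h1
    _ = 2 * Nat.card R := by rw [e2]; ring
    _ = Nat.card S * (2 * Nat.card (R ⧸ S)) := by rw [e1]; ring

private theorem act_fix {X : Type} [MulAction R X] (ht : MulAction.IsPretransitive R X)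
    (h2 : ∀ K : Subgroup R, K.index ≠ 2)
    (Q : Subgroup R) (hQ : Pron Q) (hN : ∃ a : ℕ, Nat.card (Subgroup.normalizer (Q : Set R)) = Nat.card Q * 2 ^ a)
    (x y : X) (hxy : y ≠ x) :
    3 * Nat.card {x : X // ∀ q ∈ Q, q • x = x} ≤ 2 * Nat.card X := by
  have hS : MulAction.stabilizer R x ≠ ⊤ := by
    intro h
    obtain ⟨g, hg⟩ := MulAction.exists_smul_eq R x y
    have h3 : g ∈ MulAction.stabilizer R x := by
      rw [h]
      exact Subgroup.mem_top g
    exact hxy (hg.symm.trans h3)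
  have h1 := quo_fix h2 Q hQ hN _ hS
  let e : (R ⧸ MulAction.stabilizer R x) ≃ X := Equiv.ofBijective (MulAction.ofQuotientStabilizer R x)
    ⟨MulAction.injective_ofQuotientStabilizer R x, fun z => by
      obtain ⟨g, hg⟩ := MulAction.exists_smul_eq R x z
      exact ⟨(g : R ⧸ MulAction.stabilizer R x), hg⟩⟩
  have e1 : Nat.card (R ⧸ MulAction.stabilizer R x) = Nat.card X := Nat.card_congr e
  have e2 : Nat.card {z : R ⧸ MulAction.stabilizer R x // ∀ q ∈ Q, q • z = z} =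
      Nat.card {z : X // ∀ q ∈ Q, q • z = z} := by
    refine Nat.card_congr (e.subtypeEquiv fun z => ?_)
    have h3 : ∀ q : R, q • e z = e (q • z) := fun q => (MulAction.ofQuotientStabilizer_smul R x q z).symm
    constructor
    · intro h q hq
      rw [h3, h q hq]
    · intro h q hq
      refine e.injective ?_
      rw [← h3, h q hq]
  rw [e1, e2] at h1
  exact h1

end quot

private theorem fin_two {n : ℕ} (H : Subgroup (Perm (Fin n))) (K : Subgroup ((oddGen H).subgroupOf H)) :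
    K.index ≠ 2 := by
  intro hK
  have h1 : oddGen H ≤ (K.map ((oddGen H).subgroupOf H).subtype).map H.subtype := by
    conv_lhs => unfold oddGen
    rw [Subgroup.closure_le]
    rintro x ⟨hx, r, j, hr, hr2, ho⟩
    have hxR : x ∈ oddGen H := Subgroup.subset_closure ⟨hx, r, j, hr, hr2, ho⟩
    let y : (oddGen H).subgroupOf H := ⟨⟨x, hx⟩, hxR⟩
    have hy : y ^ (r ^ j) = 1 := by
      refine Subtype.ext (Subtype.ext ?_)
      change x ^ (r ^ j) = 1
      rw [← ho]
      exact pow_orderOf_eq_one x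
    obtain ⟨m, hm⟩ : Odd (r ^ j) := (hr.odd_of_ne_two hr2).pow
    have h3 : y = (y ^ 2) ^ (m + 1) := by
      rw [← pow_mul]
      have h4 : 2 * (m + 1) = r ^ j + 1 := by omega
      rw [h4, pow_succ, hy, one_mul]
    have h4 : y ∈ K := by
      rw [h3]
      exact pow_mem (Subgroup.sq_mem_of_index_two hK y) _
    exact ⟨y.1, ⟨y, h4, rfl⟩, rfl⟩
  have h2 : K = ⊤ := by
    rw [eq_top_iff]
    intro g _
    obtain ⟨g', ⟨g'', h3, h4⟩, h5⟩ := h1 g.2
    have h6 : g'' = g := Subtype.ext (Subtype.ext ((congrArg Subtype.val h4).trans h5))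
    rw [← h6]
    exact h3
  rw [h2, Subgroup.index_top] at hK
  omega

theorem sup_f {n : ℕ} (H : Subgroup (Perm (Fin n))) :
    ∃ Q D : Subgroup (Perm (Fin n)), Q ≤ oddGen H ∧ Odd (Nat.card Q) ∧ Group.IsSolvable Q ∧ Two D ∧ Nz D Q ∧
      oddGen H ⊔ D = H ∧ (mv (oddGen H)).card ≤ 3 * (mv Q).card := by
  classical
  have hinj := Subgroup.subtype_injective H
  set K : Subgroup H := (oddGen H).subgroupOf H with hK
  have hKn : K.Normal := by
    constructor
    intro r hr g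
    exact hc_conj (g : Perm (Fin n)) g.2 (r : Perm (Fin n)) (Subgroup.mem_subgroupOf.mp hr)
  obtain ⟨Q₀, hQK, hodd, hsol, hpr, a, ha⟩ := exists_pron K hKn
  obtain ⟨D₀, hDN, ⟨k, hDk⟩, hND⟩ := two_top (R := K) (N := Subgroup.normalizer (Q₀ : Set H))
    (fun g _ r hr => hKn.conj_mem r hr g) (by
      rintro g - ⟨r, j, hr, hr2, ho⟩
      refine Subgroup.mem_subgroupOf.mpr (Subgroup.subset_closure ⟨g.2, r, j, hr, hr2, ?_⟩)
      rw [← ho]
      exact Subgroup.orderOf_coe g)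
  have htop : K ⊔ D₀ = ⊤ := by
    rw [eq_top_iff]
    intro g _
    obtain ⟨l, hl, hlg⟩ := hpr K g hQK (fun q hq => hKn.conj_mem q (hQK hq) g)
    have h3 : g = l⁻¹ * (l * g) := by group
    rw [h3]
    exact mul_mem (Subgroup.mem_sup_left (inv_mem hl)) (hND hlg)
  have hmapK : K.map H.subtype = oddGen H := by
    rw [hK, Subgroup.subgroupOf_map_subtype]
    exact inf_eq_left.2 hc_le
  have hQR : Q₀.map H.subtype ≤ oddGen H := by
    rw [← hmapK]
    exact Subgroup.map_mono hQK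
  have h7 : ∀ Δ : Finset (Fin n), Orb (oddGen H) Δ → 2 ≤ Δ.card → Δ.card ≤ 3 * (Δ ∩ mv (Q₀.map H.subtype)).card := by
    intro Δ hΔ hc2
    have hpr1 : Pron (Q₀.subgroupOf K) := pron_sub hpr K hQK
    have hN1 : ∃ a : ℕ, Nat.card (Subgroup.normalizer ((Q₀.subgroupOf K : Subgroup K) : Set K)) =
        Nat.card (Q₀.subgroupOf K) * 2 ^ a := by
      refine ⟨a, ?_⟩
      have h1 := Subgroup.subgroupOf_normalizer_eq hQK
      have h2 : Nat.card (Q₀.subgroupOf K) = Nat.card Q₀ :=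
        Nat.card_congr (Subgroup.subgroupOfEquivOfLe hQK).toEquiv
      rw [← h1, h2, ← ha, ← Subgroup.card_map_of_injective (Subgroup.subtype_injective K),
        Subgroup.subgroupOf_map_subtype]
    let _ : MulAction K {x : Fin n // x ∈ Δ} :=
      { smul := fun g x => ⟨g.1.1 x.1, hΔ.1 g.1.1 g.2 x.1 x.2⟩
        one_smul := fun x => rfl
        mul_smul := fun g h x => rfl }
    have ht : MulAction.IsPretransitive K {x : Fin n // x ∈ Δ} := by
      refine ⟨fun x y => ?_⟩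
      obtain ⟨r, hr, hrx⟩ := hΔ.2.2 x.1 x.2 y.1 y.2
      exact ⟨⟨⟨r, hc_le hr⟩, hr⟩, Subtype.ext hrx⟩
    obtain ⟨x, hx, y, hy, hxy⟩ := Finset.one_lt_card.1 hc2
    have h1 := act_fix ht (fin_two H) (Q₀.subgroupOf K) hpr1 hN1 (⟨x, hx⟩ : {x : Fin n // x ∈ Δ}) ⟨y, hy⟩
      (fun h => hxy (congrArg Subtype.val h).symm)
    have h2 : Nat.card {x : Fin n // x ∈ Δ} = Δ.card := by simp
    rw [h2] at h1
    have h3 : (Δ.filter fun x => x ∉ mv (Q₀.map H.subtype)).card ≤
        Nat.card {x : {x : Fin n // x ∈ Δ} // ∀ c ∈ Q₀.subgroupOf K, c • x = x} := by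
      have h4 : Nat.card {x : Fin n // x ∈ Δ.filter fun x => x ∉ mv (Q₀.map H.subtype)} =
          (Δ.filter fun x => x ∉ mv (Q₀.map H.subtype)).card := by
        rw [Nat.card_eq_fintype_card, Fintype.card_coe]
      rw [← h4]
      refine Nat.card_le_card_of_injective (fun x => ⟨⟨x.1, (Finset.mem_filter.1 x.2).1⟩, fun c hc => ?_⟩) ?_
      · refine Subtype.ext ?_
        by_contra hne
        exact (Finset.mem_filter.1 x.2).2 (mem_mv.2 ⟨c.1.1, ⟨c.1, hc, rfl⟩, hne⟩)
      · intro x y h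
        have h5 := congrArg (fun z => z.1.1) h
        exact Subtype.ext h5
    have h5 : (Δ.filter fun x => x ∉ mv (Q₀.map H.subtype)).card + (Δ ∩ mv (Q₀.map H.subtype)).card = Δ.card := by
      rw [add_comm, ← Finset.filter_mem_eq_inter]
      exact Finset.card_filter_add_card_filter_not (fun x => x ∈ mv (Q₀.map H.subtype))
    omega
  refine ⟨Q₀.map H.subtype, D₀.map H.subtype, hQR, ?_, ?_, ?_, ?_, ?_, ?_⟩
  · rw [Subgroup.card_map_of_injective hinj]
    exact hodd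
  · exact Group.isSolvable_of_surjective (f := (Q₀.equivMapOfInjective H.subtype hinj).toMonoidHom)
      (Q₀.equivMapOfInjective H.subtype hinj).surjective
  · unfold Two
    rw [Subgroup.card_map_of_injective hinj]
    exact ⟨k, hDk⟩
  · rintro l hl o ho
    obtain ⟨l', hl', rfl⟩ := Subgroup.mem_map.mp hl
    obtain ⟨o', ho', rfl⟩ := Subgroup.mem_map.mp ho
    exact ⟨l' * o' * l'⁻¹, (Subgroup.mem_normalizer_iff.1 (hDN hl') o').1 ho', by simp⟩
  · rw [← hmapK, ← Subgroup.map_sup, htop, ← MonoidHom.range_eq_map, Subgroup.range_subtype]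
  set Q := Q₀.map H.subtype with hQdef
  set R := oddGen H with hR
  let O : Fin n → Finset (Fin n) := fun y => Finset.univ.filter fun z => ∃ g ∈ R, g y = z
  have hO : ∀ y z, z ∈ O y ↔ ∃ g ∈ R, g y = z := by
    intro y z
    simp [O]
  have hself : ∀ y, y ∈ O y := fun y => (hO y y).2 ⟨1, one_mem _, rfl⟩
  have heq : ∀ x y, y ∈ O x → O y = O x := by
    intro x y hy
    obtain ⟨g, hg, rfl⟩ := (hO x y).1 hy
    ext z
    rw [hO, hO]
    constructor
    · rintro ⟨k, hk, rfl⟩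
      exact ⟨k * g, mul_mem hk hg, rfl⟩
    · rintro ⟨k, hk, rfl⟩
      exact ⟨k * g⁻¹, mul_mem hk (inv_mem hg), by rw [Perm.mul_apply]; exact congrArg k (g.symm_apply_apply x)⟩
  have hOrb : ∀ x, Orb R (O x) := by
    intro x
    refine ⟨?_, ⟨x, hself x⟩, ?_⟩
    · intro g hg y hy
      obtain ⟨k, hk, rfl⟩ := (hO x y).1 hy
      exact (hO x _).2 ⟨g * k, mul_mem hg hk, rfl⟩
    · intro y hy z hz
      rw [← heq x y hy] at hz
      exact (hO y z).1 hz
  have hmain : ∀ x ∈ mv R, (O x).card ≤ 3 * (O x ∩ mv Q).card := by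
    intro x hx
    obtain ⟨r, hr, hrx⟩ := mem_mv.1 hx
    have hc : 2 ≤ (O x).card := Finset.one_lt_card.2 ⟨x, hself x, r x, (hO x _).2 ⟨r, hr, rfl⟩, fun he => hrx he.symm⟩
    exact h7 (O x) (hOrb x) hc
  have hmv : mv Q ⊆ mv R := mv_mono hQR
  rw [Finset.card_eq_sum_card_fiberwise (f := O) (s := mv R)
      (t := Finset.univ) (fun _ _ => Finset.mem_coe.mpr (Finset.mem_univ _)),
      Finset.card_eq_sum_card_fiberwise (f := O) (s := mv Q)
      (t := Finset.univ) (fun _ _ => Finset.mem_coe.mpr (Finset.mem_univ _)), Finset.mul_sum]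
  refine Finset.sum_le_sum fun Γ _ => ?_
  by_cases hemp : ((mv R).filter fun y => O y = Γ) = ∅
  · rw [hemp, Finset.card_empty]
    exact Nat.zero_le _
  · obtain ⟨x, hx⟩ := Finset.nonempty_iff_ne_empty.mpr hemp
    rw [Finset.mem_filter] at hx
    obtain ⟨hxR, rfl⟩ := hx
    have e1 : ((mv R).filter fun y => O y = O x) ⊆ O x := by
      intro y hy
      rw [Finset.mem_filter] at hy
      rw [← hy.2]
      exact hself y
    have e2 : O x ∩ mv Q ⊆ (mv Q).filter fun y => O y = O x := by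
      intro y hy
      rw [Finset.mem_inter] at hy
      exact Finset.mem_filter.2 ⟨hy.2, heq x y hy.1⟩
    calc ((mv R).filter fun y => O y = O x).card ≤ (O x).card := Finset.card_le_card e1
      _ ≤ 3 * (O x ∩ mv Q).card := hmain x hxR
      _ ≤ _ := Nat.mul_le_mul_left _ (Finset.card_le_card e2)

end Pool.Agent.FuS
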