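import Pool.Agent.FuS.Defs

/-!
MP_7fa120_al, all subgroups. Doubly but not triply transitive groups: the sets `{w : Sm G u v w}`.

`Sm G u v w`: `w` is different from `u` and `v` and its orbit under the stabiliser of `u` and `v` has at most half of the points of `Ω`. `Sm` is invariant under `G`.
`two_a`: by invariance and `Tw`, `|{w : Sm u v w}|` is a constant `s` for `u ≠ v`. `s ≥ 1`: otherwise for all `u ≠ v` the stabiliser of `u, v` has no orbit on `Ω \ {u, v}` with at most half of the points of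
`Ω`, so it is transitive there (two orbits would have at most `k - 2` points together), and with `Tw` `G` is transitive on triples. By `Tw` also `|{v : v ≠ u, Sm u v w}|` is constant for `u ≠ w`, and the
number of triples is `k (k - 1) s`, so this constant is `s` (`Sm u v w` implies `u ≠ w`); in the same way for `u`. Finally `|{(u, v) : u ≠ v, Sm u v x}| = ∑_(u ≠ x) s = (k - 1) s`.
`two_c`: let `a b : Fin r → Ω`, `K` the group of the elements fixing all `a i`, `b j`, `A = {x : ∃ i j, a i ≠ b j ∧ Sm (a i) (b j) x}`. The number of pairs `(x, y)` in different orbits of `K` is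
`k ^ 2 - ∑ |O| ^ 2`. If all orbits `O` of `K` have at most `3 k / 4` points it is at least `k ^ 2 / 4 ≥ k |A| / 4`. Otherwise let `O` be an orbit with more than `3 k / 4` points. For `a i ≠ b j`, `O` is
contained in an orbit of the stabiliser of `a i, b j`, which has more than half of the points, so no point of `O` satisfies `Sm (a i) (b j)`. So `O` and `A` are disjoint, all pairs
`(x, y)` with `x ∈ O`, `y ∈ A` are in different orbits: at least `3 k / 4 * |A|` pairs.
-/

set_option autoImplicit false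

namespace Pool.Agent.FuS

/-- Transitive on `t`-tuples of different points. -/
def Tr (G : Type) [Group G] (Ω : Type) [MulAction G Ω] (t : ℕ) : Prop :=
  ∀ f f' : Fin t → Ω, Function.Injective f → Function.Injective f' → ∃ g : G, ∀ i, g • f i = f' i

/-- `w` is different from `u`, `v` and its orbit under the stabiliser of `u` and `v` contains at most half of the points. -/
def Sm (G : Type) [Group G] {Ω : Type} [MulAction G Ω] (u v w : Ω) : Prop :=
  w ≠ u ∧ w ≠ v ∧ 2 * Nat.card {w' : Ω // ∃ g : G, g • u = u ∧ g • v = v ∧ g • w = w'} ≤ Nat.card Ω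

/-- No element of `G` fixing all `a i`, `b j` maps `x` to `y`. -/
def Sp (G : Type) [Group G] {Ω : Type} [MulAction G Ω] {r : ℕ} (a b : Fin r → Ω) (x y : Ω) : Prop :=
  ¬ ∃ g : G, (∀ i, g • a i = a i) ∧ (∀ j, g • b j = b j) ∧ g • x = y

private theorem or_card {G : Type} [Group G] [Finite G] {Ω : Type} [Finite Ω] [MulAction G Ω] (g : G) (u v w : Ω) :
    Nat.card {w' : Ω // ∃ h : G, h • (g • u) = g • u ∧ h • (g • v) = g • v ∧ h • (g • w) = w'} =
      Nat.card {w' : Ω // ∃ h : G, h • u = u ∧ h • v = v ∧ h • w = w'} := by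
  symm
  refine Nat.card_congr
    { toFun := fun x => ⟨g • x.1, ?_⟩
      invFun := fun x => ⟨g⁻¹ • x.1, ?_⟩
      left_inv := fun x => Subtype.ext (inv_smul_smul g x.1)
      right_inv := fun x => Subtype.ext (smul_inv_smul g x.1) }
  · obtain ⟨h, h1, h2, h3⟩ := x.2
    refine ⟨g * h * g⁻¹, ?_, ?_, ?_⟩
    · rw [mul_smul, mul_smul, inv_smul_smul, h1]
    · rw [mul_smul, mul_smul, inv_smul_smul, h2]
    · rw [mul_smul, mul_smul, inv_smul_smul, h3]
  · obtain ⟨h, h1, h2, h3⟩ := x.2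
    refine ⟨g⁻¹ * h * g, ?_, ?_, ?_⟩
    · rw [mul_smul, mul_smul, h1, inv_smul_smul]
    · rw [mul_smul, mul_smul, h2, inv_smul_smul]
    · rw [mul_smul, mul_smul, h3]

private theorem sm_inv {G : Type} [Group G] [Finite G] {Ω : Type} [Finite Ω] [MulAction G Ω] (g : G) (u v w : Ω) :
    Sm G (g • u) (g • v) (g • w) ↔ Sm G u v w := by
  unfold Sm
  rw [or_card g u v w]
  simp only [ne_eq, smul_left_cancel_iff]

private theorem card_inv {G : Type} [Group G] [Finite G] {Ω : Type} [Finite Ω] [MulAction G Ω] (g : G) {p q : Ω → Prop}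
    (h : ∀ x, q (g • x) ↔ p x) : Nat.card {x // p x} = Nat.card {x // q x} :=
  Nat.card_congr
    { toFun := fun x => ⟨g • x.1, (h x.1).2 x.2⟩
      invFun := fun x => ⟨g⁻¹ • x.1, (h _).1 (by rw [smul_inv_smul]; exact x.2)⟩
      left_inv := fun x => Subtype.ext (inv_smul_smul g x.1)
      right_inv := fun x => Subtype.ext (smul_inv_smul g x.1) }

private theorem sum_ne {Ω : Type} [Fintype Ω] [DecidableEq Ω] (u : Ω) (c : ℕ) :
    ∑ v : Ω, (if u ≠ v then c else 0) = (Fintype.card Ω - 1) * c := by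
  rw [← Finset.sum_filter, Finset.sum_const, smul_eq_mul, Finset.filter_ne,
    Finset.card_erase_of_mem (Finset.mem_univ u), Finset.card_univ]

private theorem card_ite {Ω : Type} [Fintype Ω] (p : Ω → Prop) [DecidablePred p] :
    Nat.card {x // p x} = ∑ x : Ω, if p x then 1 else 0 := by
  rw [Nat.card_eq_fintype_card, Fintype.card_subtype, Finset.card_filter]

theorem two_a {G : Type} [Group G] [Finite G] {Ω : Type} [Finite Ω] [MulAction G Ω] (h2 : Tw G Ω) (h3 : ¬ Tr G Ω 3)
    (hk : 3 ≤ Nat.card Ω) :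
    ∃ s : ℕ, 1 ≤ s ∧ (∀ u v : Ω, u ≠ v → Nat.card {w : Ω // Sm G u v w} = s) ∧
      (∀ u w : Ω, u ≠ w → Nat.card {v : Ω // u ≠ v ∧ Sm G u v w} = s) ∧
      (∀ v w : Ω, v ≠ w → Nat.card {u : Ω // u ≠ v ∧ Sm G u v w} = s) ∧
      ∀ x : Ω, Nat.card {p : Ω × Ω // p.1 ≠ p.2 ∧ Sm G p.1 p.2 x} = (Nat.card Ω - 1) * s := by
  classical
  have hF : Fintype Ω := Fintype.ofFinite Ω
  have hcard : Nat.card Ω = Fintype.card Ω := Nat.card_eq_fintype_card
  obtain ⟨u0, v0, huv0⟩ : ∃ u v : Ω, u ≠ v := by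
    have h4 : 1 < Fintype.card Ω := by omega
    exact Fintype.exists_pair_of_one_lt_card h4
  set s : ℕ := Nat.card {w : Ω // Sm G u0 v0 w} with hs
  set t : ℕ := Nat.card {v : Ω // u0 ≠ v ∧ Sm G u0 v v0} with ht
  set t' : ℕ := Nat.card {u : Ω // u ≠ u0 ∧ Sm G u u0 v0} with ht'
  have e1 : ∀ u v : Ω, u ≠ v → Nat.card {w : Ω // Sm G u v w} = s := by
    intro u v huv
    obtain ⟨g, h4, h5⟩ := h2 u0 v0 u v huv0 huv
    rw [hs, ← h4, ← h5]
    exact (card_inv g fun x => sm_inv g u0 v0 x).symm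
  have e2 : ∀ u w : Ω, u ≠ w → Nat.card {v : Ω // u ≠ v ∧ Sm G u v w} = t := by
    intro u w huw
    obtain ⟨g, h4, h5⟩ := h2 u0 v0 u w huv0 huw
    rw [ht, ← h4, ← h5]
    refine (card_inv g fun x => ?_).symm
    rw [sm_inv g u0 x v0]
    simp only [ne_eq, smul_left_cancel_iff]
  have e3 : ∀ v w : Ω, v ≠ w → Nat.card {u : Ω // u ≠ v ∧ Sm G u v w} = t' := by
    intro v w hvw
    obtain ⟨g, h4, h5⟩ := h2 u0 v0 v w huv0 hvw
    rw [ht', ← h4, ← h5]
    refine (card_inv g fun x => ?_).symm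
    rw [sm_inv g x u0 v0]
    simp only [ne_eq, smul_left_cancel_iff]
  have hs1 : 1 ≤ s := by
    by_contra hs0
    have hs0' : s = 0 := by omega
    apply h3
    have hbig : ∀ u v w : Ω, u ≠ v → w ≠ u → w ≠ v →
        Nat.card Ω < 2 * Nat.card {w' : Ω // ∃ g : G, g • u = u ∧ g • v = v ∧ g • w = w'} := by
      intro u v w huv h4 h5
      by_contra h6
      have h7 := e1 u v huv
      rw [hs0'] at h7
      have h8 : IsEmpty {w : Ω // Sm G u v w} := (Finite.card_eq_zero_iff).1 h7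
      exact h8.false ⟨w, h4, h5, not_lt.1 h6⟩
    intro f f' hf hf'
    obtain ⟨g, h4, h5⟩ := h2 (f 0) (f 1) (f' 0) (f' 1) (fun h => by simpa using hf h) (fun h => by simpa using hf' h)
    have n1 : g • f 2 ≠ f' 0 := by
      rw [← h4]
      intro h
      have h6 := hf (smul_left_cancel g h)
      simp at h6
    have n2 : g • f 2 ≠ f' 1 := by
      rw [← h5]
      intro h
      have h6 := hf (smul_left_cancel g h)
      simp at h6
    have n3 : f' 2 ≠ f' 0 := fun h => by
      have h6 := hf' h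
      simp at h6
    have n4 : f' 2 ≠ f' 1 := fun h => by
      have h6 := hf' h
      simp at h6
    have n5 : f' 0 ≠ f' 1 := fun h => by
      have h6 := hf' h
      simp at h6
    have b1 := hbig (f' 0) (f' 1) (g • f 2) n5 n1 n2
    have b2 := hbig (f' 0) (f' 1) (f' 2) n5 n3 n4
    rw [card_ite, hcard, ← Finset.card_filter] at b1 b2
    obtain ⟨y, hy⟩ : ((Finset.univ.filter fun w' : Ω => ∃ h : G, h • f' 0 = f' 0 ∧ h • f' 1 = f' 1 ∧ h • (g • f 2) = w') ∩
        (Finset.univ.filter fun w' : Ω => ∃ h : G, h • f' 0 = f' 0 ∧ h • f' 1 = f' 1 ∧ h • f' 2 = w')).Nonempty := by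
      rw [← Finset.card_pos]
      have h6 := Finset.card_union_add_card_inter
        (Finset.univ.filter fun w' : Ω => ∃ h : G, h • f' 0 = f' 0 ∧ h • f' 1 = f' 1 ∧ h • (g • f 2) = w')
        (Finset.univ.filter fun w' : Ω => ∃ h : G, h • f' 0 = f' 0 ∧ h • f' 1 = f' 1 ∧ h • f' 2 = w')
      have h7 := Finset.card_le_univ ((Finset.univ.filter fun w' : Ω => ∃ h : G, h • f' 0 = f' 0 ∧
        h • f' 1 = f' 1 ∧ h • (g • f 2) = w') ∪ (Finset.univ.filter fun w' : Ω => ∃ h : G, h • f' 0 = f' 0 ∧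
        h • f' 1 = f' 1 ∧ h • f' 2 = w'))
      omega
    simp only [Finset.mem_inter, Finset.mem_filter, Finset.mem_univ, true_and] at hy
    obtain ⟨⟨p, p1, p2, p3⟩, ⟨q, q1, q2, q3⟩⟩ := hy
    have q1' : q⁻¹ • f' 0 = f' 0 := by rw [inv_smul_eq_iff, q1]
    have q2' : q⁻¹ • f' 1 = f' 1 := by rw [inv_smul_eq_iff, q2]
    have q3' : q⁻¹ • y = f' 2 := by rw [inv_smul_eq_iff, q3]
    refine ⟨q⁻¹ * p * g, fun i => ?_⟩
    fin_cases i
    · show (q⁻¹ * p * g) • f 0 = f' 0
      rw [mul_smul, mul_smul, h4, p1, q1']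
    · show (q⁻¹ * p * g) • f 1 = f' 1
      rw [mul_smul, mul_smul, h5, p2, q2']
    · show (q⁻¹ * p * g) • f 2 = f' 2
      rw [mul_smul, mul_smul, p3, q3']
  -- sums
  let χ : Ω → Ω → Ω → ℕ := fun u v w => if u ≠ v ∧ Sm G u v w then 1 else 0
  have c1 : ∀ u v : Ω, ∑ w, χ u v w = if u ≠ v then s else 0 := by
    intro u v
    by_cases huv : u = v
    · rw [if_neg (not_not.2 huv)]
      refine Finset.sum_eq_zero fun w _ => ?_
      exact if_neg fun h => h.1 huv
    · rw [if_pos huv, ← e1 u v huv, card_ite]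
      refine Finset.sum_congr rfl fun w _ => ?_
      simp only [χ, ne_eq, huv, not_false_eq_true, true_and]
  have c2 : ∀ u w : Ω, ∑ v, χ u v w = if u ≠ w then t else 0 := by
    intro u w
    by_cases huw : u = w
    · rw [if_neg (not_not.2 huw)]
      refine Finset.sum_eq_zero fun v _ => ?_
      exact if_neg fun h => h.2.1 huw.symm
    · rw [if_pos huw, ← e2 u w huw, card_ite]
  have c3 : ∀ v w : Ω, ∑ u, χ u v w = if v ≠ w then t' else 0 := by
    intro v w
    by_cases hvw : v = w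
    · rw [if_neg (not_not.2 hvw)]
      refine Finset.sum_eq_zero fun u _ => ?_
      exact if_neg fun h => h.2.2.1 hvw.symm
    · rw [if_pos hvw, ← e3 v w hvw, card_ite]
  have m1 : ∑ u, ∑ v, ∑ w, χ u v w = Fintype.card Ω * ((Fintype.card Ω - 1) * s) := by
    simp only [c1, sum_ne, Finset.sum_const, Finset.card_univ, smul_eq_mul]
  have m2 : ∑ u, ∑ v, ∑ w, χ u v w = Fintype.card Ω * ((Fintype.card Ω - 1) * t) := by
    have h4 : ∀ u, ∑ v, ∑ w, χ u v w = ∑ w, ∑ v, χ u v w := fun u => Finset.sum_comm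
    simp only [h4, c2, sum_ne, Finset.sum_const, Finset.card_univ, smul_eq_mul]
  have m3 : ∑ u, ∑ v, ∑ w, χ u v w = Fintype.card Ω * ((Fintype.card Ω - 1) * t') := by
    rw [Finset.sum_comm]
    have h4 : ∀ v, ∑ u, ∑ w, χ u v w = ∑ w, ∑ u, χ u v w := fun v => Finset.sum_comm
    simp only [h4, c3, sum_ne, Finset.sum_const, Finset.card_univ, smul_eq_mul]
  have hk1 : 0 < Fintype.card Ω := by omega
  have hk2 : 0 < Fintype.card Ω - 1 := by omega
  have hts : t = s := Nat.eq_of_mul_eq_mul_left hk2 (Nat.eq_of_mul_eq_mul_left hk1 (m2.symm.trans m1))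
  have hts' : t' = s := Nat.eq_of_mul_eq_mul_left hk2 (Nat.eq_of_mul_eq_mul_left hk1 (m3.symm.trans m1))
  refine ⟨s, hs1, e1, fun u w huw => (e2 u w huw).trans hts, fun v w hvw => (e3 v w hvw).trans hts', fun x => ?_⟩
  rw [card_ite, Fintype.sum_prod_type, hcard]
  have h4 : ∀ u : Ω, ∑ v : Ω, (if (u, v).1 ≠ (u, v).2 ∧ Sm G (u, v).1 (u, v).2 x then 1 else 0) =
      if x ≠ u then s else 0 := by
    intro u
    have h5 := c2 u x
    rw [hts] at h5
    by_cases hux : u = x
    · rw [if_neg (not_not.2 hux.symm)]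
      rw [if_neg (not_not.2 hux)] at h5
      exact h5
    · rw [if_pos (fun h => hux h.symm)]
      rw [if_pos hux] at h5
      exact h5
  simp only [h4]
  exact sum_ne x s

theorem two_c {G : Type} [Group G] [Finite G] {Ω : Type} [Finite Ω] [MulAction G Ω] {r : ℕ} (a b : Fin r → Ω) :
    Nat.card Ω * Nat.card {x : Ω // ∃ i j, a i ≠ b j ∧ Sm G (a i) (b j) x} ≤
      4 * Nat.card {p : Ω × Ω // Sp G a b p.1 p.2} := by
  classical
  have hF : Fintype Ω := Fintype.ofFinite Ω
  have hcard : Nat.card Ω = Fintype.card Ω := Nat.card_eq_fintype_card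
  by_cases hall : ∀ x : Ω, 4 * Nat.card {y : Ω // ¬ Sp G a b x y} ≤ 3 * Nat.card Ω
  · have h1 : Nat.card {p : Ω × Ω // Sp G a b p.1 p.2} = ∑ x : Ω, Nat.card {y : Ω // Sp G a b x y} := by
      rw [card_ite, Fintype.sum_prod_type]
      exact Finset.sum_congr rfl fun x _ => (card_ite _).symm
    have h2 : ∀ x : Ω, Nat.card Ω ≤ 4 * Nat.card {y : Ω // Sp G a b x y} := by
      intro x
      have h3 : Nat.card {y : Ω // Sp G a b x y} + Nat.card {y : Ω // ¬ Sp G a b x y} = Nat.card Ω := by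
        rw [← Nat.card_sum]
        exact Nat.card_congr (Equiv.sumCompl _)
      have h4 := hall x
      omega
    have h3 : Nat.card {x : Ω // ∃ i j, a i ≠ b j ∧ Sm G (a i) (b j) x} ≤ Fintype.card Ω := by
      rw [← hcard]
      exact Nat.card_le_card_of_injective Subtype.val Subtype.val_injective
    calc Nat.card Ω * Nat.card {x : Ω // ∃ i j, a i ≠ b j ∧ Sm G (a i) (b j) x}
        ≤ Nat.card Ω * Fintype.card Ω := Nat.mul_le_mul_left _ h3
      _ = ∑ _x : Ω, Nat.card Ω := by rw [Finset.sum_const, Finset.card_univ, smul_eq_mul, mul_comm]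
      _ ≤ ∑ x : Ω, 4 * Nat.card {y : Ω // Sp G a b x y} := Finset.sum_le_sum fun x _ => h2 x
      _ = 4 * Nat.card {p : Ω × Ω // Sp G a b p.1 p.2} := by rw [h1, Finset.mul_sum]
  · push Not at hall
    obtain ⟨x0, hx0⟩ := hall
    have hOrb : ∀ x : Ω, ¬ Sp G a b x0 x → ∀ y : Ω, (∃ i j, a i ≠ b j ∧ Sm G (a i) (b j) y) → Sp G a b x y := by
      intro x hx y hy hcon
      obtain ⟨i, j, -, -, -, h4⟩ := hy
      obtain ⟨g, g1, g2, g3⟩ := not_not.1 hx
      obtain ⟨g', g1', g2', g3'⟩ := hcon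
      have h5 : Nat.card {y' : Ω // ¬ Sp G a b x0 y'} ≤
          Nat.card {w' : Ω // ∃ g : G, g • a i = a i ∧ g • b j = b j ∧ g • y = w'} := by
        refine Nat.card_le_card_of_injective (fun z => (⟨z.1, ?_⟩ :
          {w' : Ω // ∃ g : G, g • a i = a i ∧ g • b j = b j ∧ g • y = w'})) ?_
        · obtain ⟨q, q1, q2, q3⟩ := not_not.1 z.2
          have k1 : ∀ c : Ω, g • c = c → g⁻¹ • c = c := fun c hc => by rw [inv_smul_eq_iff, hc]
          have k2 : ∀ c : Ω, g' • c = c → g'⁻¹ • c = c := fun c hc => by rw [inv_smul_eq_iff, hc]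
          refine ⟨q * g⁻¹ * g'⁻¹, ?_, ?_, ?_⟩
          · rw [mul_smul, mul_smul, k2 _ (g1' i), k1 _ (g1 i), q1 i]
          · rw [mul_smul, mul_smul, k2 _ (g2' j), k1 _ (g2 j), q2 j]
          · rw [mul_smul, mul_smul, ← g3', inv_smul_smul, ← g3, inv_smul_smul, q3]
        · intro z z' hz
          have hz1 := congrArg Subtype.val hz
          have hz2 : z.1 = z'.1 := hz1
          exact Subtype.ext hz2
      omega
    have h6 : Nat.card ({x : Ω // ¬ Sp G a b x0 x} × {x : Ω // ∃ i j, a i ≠ b j ∧ Sm G (a i) (b j) x}) ≤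
        Nat.card {p : Ω × Ω // Sp G a b p.1 p.2} := by
      refine Nat.card_le_card_of_injective (fun z => (⟨(z.1.1, z.2.1), hOrb z.1.1 z.1.2 z.2.1 z.2.2⟩ :
        {p : Ω × Ω // Sp G a b p.1 p.2})) ?_
      intro z z' hz
      have h7 := congrArg Subtype.val hz
      have h8 := congrArg Prod.fst h7
      have h9 := congrArg Prod.snd h7
      exact Prod.ext (Subtype.ext h8) (Subtype.ext h9)
    rw [Nat.card_prod] at h6
    calc Nat.card Ω * Nat.card {x : Ω // ∃ i j, a i ≠ b j ∧ Sm G (a i) (b j) x}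
        ≤ (4 * Nat.card {y : Ω // ¬ Sp G a b x0 y}) *
          Nat.card {x : Ω // ∃ i j, a i ≠ b j ∧ Sm G (a i) (b j) x} := Nat.mul_le_mul_right _ (by omega)
      _ = 4 * (Nat.card {y : Ω // ¬ Sp G a b x0 y} *
          Nat.card {x : Ω // ∃ i j, a i ≠ b j ∧ Sm G (a i) (b j) x}) := by ring
      _ ≤ 4 * Nat.card {p : Ω × Ω // Sp G a b p.1 p.2} := Nat.mul_le_mul_left _ h6

end Pool.Agent.FuS
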