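import Pool.Agent.FuS.Defs

/-!
MP_7fa120_al, all subgroups. Primitive groups which are not doubly transitive: some pair is distinguished by many points.

Proof. Let `k = |Ω| ≥ 4` and let `d` be the maximal length of an orbit of a point stabiliser `G_z` (it does not depend on `z`). `G_z` distinguishes at least `k ^ 2 - d k` ordered pairs `(x, y)`
(`∑ d_i ^ 2 ≤ d k` for the lengths `d_i` of the orbits of `G_z`), so `∑_(x,y) dd x y ≥ k * (k ^ 2 - d k)`, and some pair has `dd x y ≥ k - d`. Claim: `(k - d) ^ 2 ≥ k`. If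
`2 d ≤ k`, `(k - d) ^ 2 ≥ (k / 2) ^ 2 ≥ k`. Let `2 d > k`. Let `Λ_z` be the orbit of `G_z` of length `d` (unique), and let `s = k - 1 - d`; `z ∉ Λ_z`, as `d ≥ 2`. `v ∈ Λ_u` iff `u ∈ Λ_v`: the sets
`{(u, v) : v ∈ Λ_u}` and `{(u, v) : u ∈ Λ_v}` are orbits of `G` on `Ω × Ω` with `k d > k ^ 2 / 2` elements, so they meet and are equal. Let `Y` be the graph with `u ~ v` iff `u ≠ v`, `v ∉ Λ_u`;
it is invariant, every vertex has `s` neighbours, and `s ≥ 1`, as otherwise `G` is transitive on pairs of different points (`hnt`). It is connected, because `G` is primitive. Fix `x`; there is a path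
from `x` to a point of `Λ_x`; its first point in `Λ_x` is adjacent to a point `u ∉ Λ_x`, `u ≠ x`, so `u` is a neighbour of `x`. As `G_x` is transitive on `Λ_x`, every point of `Λ_x` is a neighbour,
different from `x`, of one of the `s` neighbours of `x`: `d ≤ s (s - 1)`. So `k = 1 + s + d ≤ s ^ 2 + 1 ≤ (s + 1) ^ 2 = (k - d) ^ 2`.
-/

set_option autoImplicit false

namespace Pool.Agent.FuS

namespace UniBAux

open scoped Classical Pointwise
open Finset

variable {G : Type} [Group G] {Ω : Type} [Fintype Ω] [MulAction G Ω]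

/-- The orbit of `x` under the stabiliser of `z`. -/
noncomputable def O (G : Type) [Group G] {Ω : Type} [Fintype Ω] [MulAction G Ω] (z x : Ω) : Finset Ω :=
  univ.filter fun y => ∃ g : G, g • z = z ∧ g • x = y

theorem mem_O {z x y : Ω} : y ∈ O G z x ↔ ∃ g : G, g • z = z ∧ g • x = y := by
  simp [O]

theorem O_refl (z x : Ω) : x ∈ O G z x := mem_O.2 ⟨1, one_smul _ _, one_smul _ _⟩

theorem O_symm {z x y : Ω} (h : y ∈ O G z x) : x ∈ O G z y := by
  obtain ⟨g, h1, h2⟩ := mem_O.1 h
  refine mem_O.2 ⟨g⁻¹, ?_, ?_⟩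
  · rw [inv_smul_eq_iff]; exact h1.symm
  · rw [inv_smul_eq_iff]; exact h2.symm

theorem O_trans {z x y w : Ω} (h : y ∈ O G z x) (h' : w ∈ O G z y) : w ∈ O G z x := by
  obtain ⟨g, h1, h2⟩ := mem_O.1 h
  obtain ⟨g', h3, h4⟩ := mem_O.1 h'
  exact mem_O.2 ⟨g' * g, by rw [mul_smul, h1, h3], by rw [mul_smul, h2, h4]⟩

theorem O_eq {z x y : Ω} (h : y ∈ O G z x) : O G z y = O G z x := by
  ext w
  exact ⟨fun h' => O_trans h h', fun h' => O_trans (O_symm h) h'⟩

theorem O_smul {z x y : Ω} (g : G) (h : y ∈ O G z x) : g • y ∈ O G (g • z) (g • x) := by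
  obtain ⟨f, h1, h2⟩ := mem_O.1 h
  refine mem_O.2 ⟨g * f * g⁻¹, ?_, ?_⟩
  · rw [mul_smul, mul_smul, inv_smul_smul, h1]
  · rw [mul_smul, mul_smul, inv_smul_smul, h2]

theorem card_O_le (g : G) (z x : Ω) : (O G z x).card ≤ (O G (g • z) (g • x)).card :=
  Finset.card_le_card_of_injOn (fun y => g • y) (fun _ hy => O_smul g hy)
    (fun _ _ _ _ h => MulAction.injective g h)

theorem card_O (g : G) (z x : Ω) : (O G (g • z) (g • x)).card = (O G z x).card := by
  refine le_antisymm ?_ (card_O_le g z x)
  have h := card_O_le g⁻¹ (g • z) (g • x)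
  rwa [inv_smul_smul, inv_smul_smul] at h

theorem card_O_self (z : Ω) : (O G z z).card = 1 := by
  rw [Finset.card_eq_one]
  refine ⟨z, ?_⟩
  ext y
  rw [mem_O, Finset.mem_singleton]
  constructor
  · rintro ⟨g, h1, h2⟩
    rw [← h2, h1]
  · rintro rfl
    exact ⟨1, one_smul _ _, one_smul _ _⟩

/-- The points in orbits of length `d`. -/
noncomputable def La (G : Type) [Group G] {Ω : Type} [Fintype Ω] [MulAction G Ω] (d : ℕ) (z : Ω) : Finset Ω :=
  univ.filter fun y => (O G z y).card = d

theorem mem_La {d : ℕ} {z y : Ω} : y ∈ La G d z ↔ (O G z y).card = d := by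
  simp [La]

theorem La_smul {d : ℕ} (g : G) {z y : Ω} : g • y ∈ La G d (g • z) ↔ y ∈ La G d z := by
  rw [mem_La, mem_La, card_O]

theorem large (hp : MulAction.IsPreprimitive G Ω) (hnt : ¬ Tw G Ω) (hk : 4 ≤ Fintype.card Ω) {d : ℕ}
    (hex : ∃ z x : Ω, (O G z x).card = d) (hd : Fintype.card Ω < 2 * d) :
    Fintype.card Ω ≤ (Fintype.card Ω - d) ^ 2 := by
  have htr : MulAction.IsPretransitive G Ω := hp.toIsPretransitive
  obtain ⟨k, hkk⟩ : ∃ k, k = Fintype.card Ω := ⟨_, rfl⟩
  rw [← hkk] at hk hd ⊢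
  -- orbits of length `d`
  have hO : ∀ z y : Ω, y ∈ La G d z → La G d z = O G z y := by
    intro z y hy
    ext w
    constructor
    · intro hw
      by_contra hcon
      have hdis : Disjoint (O G z y) (O G z w) := by
        rw [Finset.disjoint_left]
        intro v hv hv'
        apply hcon
        exact O_trans hv (O_symm hv')
      have h1 : (O G z y ∪ O G z w).card ≤ k := by
        rw [hkk]
        exact Finset.card_le_univ _
      rw [Finset.card_union_of_disjoint hdis, mem_La.1 hy, mem_La.1 hw] at h1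
      omega
    · intro hw
      rw [mem_La, O_eq hw]
      exact mem_La.1 hy
  have hne : ∀ z : Ω, ∃ y, y ∈ La G d z := by
    intro z
    obtain ⟨z0, x0, h⟩ := hex
    obtain ⟨g, rfl⟩ := MulAction.exists_smul_eq G z0 z
    exact ⟨g • x0, by rw [La_smul, mem_La]; exact h⟩
  have hcard : ∀ z : Ω, (La G d z).card = d := by
    intro z
    obtain ⟨y, hy⟩ := hne z
    rw [hO z y hy]
    exact mem_La.1 hy
  have hself : ∀ z : Ω, z ∉ La G d z := by
    intro z hz
    rw [mem_La, card_O_self] at hz
    omega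
  have htrans : ∀ z y w : Ω, y ∈ La G d z → w ∈ La G d z → ∃ g : G, g • z = z ∧ g • y = w := by
    intro z y w hy hw
    rw [hO z y hy] at hw
    exact mem_O.1 hw
  -- symmetry
  have hsymm1 : ∃ u v : Ω, v ∈ La G d u ∧ u ∈ La G d v := by
    by_contra hno
    push Not at hno
    set A : Finset (Ω × Ω) := univ.filter fun p => p.2 ∈ La G d p.1 with hA
    set B : Finset (Ω × Ω) := univ.filter fun p => p.1 ∈ La G d p.2 with hB
    have hdis : Disjoint A B := by
      rw [Finset.disjoint_left]
      intro p hp1 hp2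
      rw [hA, Finset.mem_filter] at hp1
      rw [hB, Finset.mem_filter] at hp2
      exact hno p.1 p.2 hp1.2 hp2.2
    have hAc : A.card = k * d := by
      have h1 : A.card = ∑ u : Ω, (La G d u).card := by
        rw [hA, ← Finset.univ_product_univ, Finset.card_filter, Finset.sum_product]
        refine Finset.sum_congr rfl fun u _ => ?_
        rw [← Finset.card_filter]
        congr 1
        ext v
        simp
      rw [h1, Finset.sum_congr rfl fun u _ => hcard u, Finset.sum_const, Finset.card_univ, ← hkk, smul_eq_mul]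
    have hBc : B.card = A.card := by
      refine Finset.card_bij (fun p _ => (p.2, p.1)) ?_ ?_ ?_
      · intro p hp
        rw [hB, Finset.mem_filter] at hp
        rw [hA, Finset.mem_filter]
        exact ⟨Finset.mem_univ _, hp.2⟩
      · intro p _ q _ h
        rw [Prod.mk.injEq] at h
        exact Prod.ext h.2 h.1
      · intro p hp
        rw [hA, Finset.mem_filter] at hp
        exact ⟨(p.2, p.1), by rw [hB, Finset.mem_filter]; exact ⟨Finset.mem_univ _, hp.2⟩, rfl⟩
    have h2 : (A ∪ B).card ≤ k * k := by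
      refine (Finset.card_le_univ _).trans ?_
      rw [Fintype.card_prod, ← hkk]
    rw [Finset.card_union_of_disjoint hdis, hBc, hAc] at h2
    nlinarith
  have hsymm : ∀ u v : Ω, v ∈ La G d u → u ∈ La G d v := by
    obtain ⟨u0, v0, h1, h2⟩ := hsymm1
    intro u v huv
    obtain ⟨g, rfl⟩ := MulAction.exists_smul_eq G u0 u
    have h3 : g • v0 ∈ La G d (g • u0) := (La_smul g).2 h1
    obtain ⟨f, hf1, hf2⟩ := htrans _ _ _ h3 huv
    have h4 : (f * g) • u0 ∈ La G d ((f * g) • v0) := (La_smul _).2 h2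
    rw [mul_smul, mul_smul, hf1, hf2] at h4
    exact h4
  -- the graph
  obtain ⟨N, hN⟩ : ∃ N : Ω → Finset Ω, ∀ u v, v ∈ N u ↔ u ≠ v ∧ v ∉ La G d u :=
    ⟨fun u => univ.filter fun v => u ≠ v ∧ v ∉ La G d u, fun u v => by simp⟩
  have hNs : ∀ u v, v ∈ N u → u ∈ N v := by
    intro u v h
    rw [hN] at h ⊢
    exact ⟨h.1.symm, fun h' => h.2 (hsymm _ _ h')⟩
  have hNg : ∀ (g : G) (u v : Ω), v ∈ N u → g • v ∈ N (g • u) := by
    intro g u v h
    rw [hN] at h ⊢
    exact ⟨fun h' => h.1 (MulAction.injective g h'), fun h' => h.2 ((La_smul g).1 h')⟩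
  have hNc : ∀ u, (N u).card + 1 + d = k := by
    intro u
    have h1 : Disjoint (insert u (N u)) (La G d u) := by
      rw [Finset.disjoint_left]
      intro v hv hv'
      rw [Finset.mem_insert] at hv
      rcases hv with rfl | hv
      · exact hself _ hv'
      · exact ((hN u v).1 hv).2 hv'
    have h2 : insert u (N u) ∪ La G d u = univ := by
      ext v
      simp only [Finset.mem_union, Finset.mem_insert, Finset.mem_univ, iff_true]
      by_cases h : v = u
      · exact Or.inl (Or.inl h)
      · by_cases h' : v ∈ La G d u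
        · exact Or.inr h'
        · exact Or.inl (Or.inr ((hN u v).2 ⟨fun e => h e.symm, h'⟩))
    have h3 : u ∉ N u := fun h => ((hN u u).1 h).1 rfl
    rw [hkk, ← Finset.card_univ, ← h2, Finset.card_union_of_disjoint h1, Finset.card_insert_of_notMem h3, hcard u]
  have x0 : Nonempty Ω := by
    rw [← Fintype.card_pos_iff, ← hkk]
    omega
  obtain ⟨x⟩ := x0
  obtain ⟨s, hs⟩ : ∃ s, s = (N x).card := ⟨_, rfl⟩
  have hNs' : ∀ u, (N u).card = s := by
    intro u
    have h1 := hNc u
    have h2 := hNc x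
    omega
  have hksd : k = s + 1 + d := by
    have := hNc x
    omega
  have hs1 : 1 ≤ s := by
    by_contra hcon
    have hs0 : s = 0 := by omega
    apply hnt
    intro a b a' b' hab hab'
    have hall : ∀ u v : Ω, u ≠ v → v ∈ La G d u := by
      intro u v huv
      by_contra h
      have h1 : v ∈ N u := (hN u v).2 ⟨huv, h⟩
      have h2 := hNs' u
      rw [hs0, Finset.card_eq_zero] at h2
      rw [h2] at h1
      exact Finset.notMem_empty _ h1
    obtain ⟨g, rfl⟩ := MulAction.exists_smul_eq G a a'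
    obtain ⟨f, hf1, hf2⟩ := htrans (g • a) (g • b) b'
      (hall _ _ fun h => hab (MulAction.injective g h)) (hall _ _ hab')
    exact ⟨f * g, by rw [mul_smul, hf1], by rw [mul_smul, hf2]⟩
  -- an edge between the neighbours and the large orbit
  have hedge : ∃ u ∈ N x, ∃ v ∈ La G d x, v ∈ N u := by
    by_contra hno
    push Not at hno
    have hno' : ∀ y : Ω, ∀ u ∈ N y, ∀ v ∈ La G d y, v ∉ N u := by
      intro y u hu v hv h
      obtain ⟨g, rfl⟩ := MulAction.exists_smul_eq G y x
      exact hno (g • u) (hNg g _ _ hu) (g • v) ((La_smul g).2 hv) (hNg g _ _ h)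
    have hclosed : ∀ y u, u ∈ N y → insert u (N u) = insert y (N y) := by
      intro y u hu
      have hy : y ∉ N y := fun h => ((hN y y).1 h).1 rfl
      have hu' : u ∉ N u := fun h => ((hN u u).1 h).1 rfl
      refine Finset.eq_of_subset_of_card_le ?_ ?_
      · intro w hw
        rw [Finset.mem_insert] at hw ⊢
        rcases hw with rfl | hw
        · exact Or.inr hu
        · by_cases h1 : w = y
          · exact Or.inl h1
          · refine Or.inr ((hN y w).2 ⟨fun e => h1 e.symm, fun h2 => hno' y u hu w h2 hw⟩)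
      · rw [Finset.card_insert_of_notMem hy, Finset.card_insert_of_notMem hu', hNs', hNs']
    have hcl : ∀ y u, u ∈ insert y (N y) → insert u (N u) = insert y (N y) := by
      intro y u hu
      rw [Finset.mem_insert] at hu
      rcases hu with rfl | hu
      · rfl
      · exact hclosed y u hu
    have himg : ∀ g : G, g • ((insert x (N x) : Finset Ω) : Set Ω) = ((insert (g • x) (N (g • x)) : Finset Ω) : Set Ω) := by
      intro g
      ext w
      rw [Set.mem_smul_set_iff_inv_smul_mem, Finset.mem_coe, Finset.mem_coe, Finset.mem_insert, Finset.mem_insert]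
      constructor
      · rintro (h | h)
        · exact Or.inl (by rw [← h, smul_inv_smul])
        · right
          have := hNg g _ _ h
          rwa [smul_inv_smul] at this
      · rintro (h | h)
        · exact Or.inl (by rw [h, inv_smul_smul])
        · right
          have := hNg g⁻¹ _ _ h
          rwa [inv_smul_smul] at this
    have hblock : MulAction.IsBlock G ((insert x (N x) : Finset Ω) : Set Ω) := by
      rw [MulAction.isBlock_iff_smul_eq_or_disjoint]
      intro g
      rw [himg g]
      by_cases h : Disjoint ((insert (g • x) (N (g • x)) : Finset Ω) : Set Ω) ((insert x (N x) : Finset Ω) : Set Ω)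
      · exact Or.inr h
      · left
        rw [Set.not_disjoint_iff] at h
        obtain ⟨w, hw1, hw2⟩ := h
        rw [Finset.mem_coe] at hw1 hw2
        rw [← hcl _ _ hw1, hcl _ _ hw2]
    rcases hp.isTrivialBlock_of_isBlock hblock with h | h
    · obtain ⟨u, hu⟩ : ∃ u, u ∈ N x := by
        rw [← Finset.Nonempty, ← Finset.card_pos, hNs']
        omega
      have h1 := h (Finset.mem_coe.2 (Finset.mem_insert_self x (N x))) (Finset.mem_coe.2 (Finset.mem_insert_of_mem hu))
      exact ((hN x u).1 hu).1 h1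
    · obtain ⟨y, hy⟩ := hne x
      have h1 : y ∈ ((insert x (N x) : Finset Ω) : Set Ω) := by
        rw [h]
        exact Set.mem_univ _
      rw [Finset.mem_coe, Finset.mem_insert] at h1
      rcases h1 with rfl | h1
      · exact hself _ hy
      · exact ((hN x y).1 h1).2 hy
  -- counting
  obtain ⟨u0, hu0, v0, hv0, huv⟩ := hedge
  have hsub : La G d x ⊆ (N x).biUnion fun u => (N u).erase x := by
    intro v hv
    obtain ⟨g, hg1, hg2⟩ := htrans x v0 v hv0 hv
    rw [Finset.mem_biUnion]
    refine ⟨g • u0, ?_, ?_⟩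
    · have := hNg g _ _ hu0
      rwa [hg1] at this
    · rw [Finset.mem_erase]
      refine ⟨?_, ?_⟩
      · rintro rfl
        exact hself _ hv
      · have := hNg g _ _ huv
        rwa [hg2] at this
  have hle : d ≤ s * (s - 1) := by
    calc d = (La G d x).card := (hcard x).symm
      _ ≤ ((N x).biUnion fun u => (N u).erase x).card := Finset.card_le_card hsub
      _ ≤ ∑ u ∈ N x, ((N u).erase x).card := Finset.card_biUnion_le
      _ = ∑ u ∈ N x, (s - 1) := by
          refine Finset.sum_congr rfl fun u hu => ?_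
          rw [Finset.card_erase_of_mem (hNs _ _ hu), hNs']
      _ = s * (s - 1) := by rw [Finset.sum_const, smul_eq_mul, hNs']
  have h1 : k - d = s + 1 := by omega
  rw [h1, hksd]
  obtain ⟨r, rfl⟩ : ∃ r, s = r + 1 := ⟨s - 1, by omega⟩
  rw [Nat.add_sub_cancel] at hle
  nlinarith

theorem exists_pair (d : ℕ) (hd : ∀ z x : Ω, (O G z x).card ≤ d) (h0 : 0 < Fintype.card Ω) :
    ∃ x y : Ω, Fintype.card Ω - d ≤ (univ.filter fun z : Ω => y ∉ O G z x).card := by
  by_contra hno
  push Not at hno
  obtain ⟨k, hkk⟩ : ∃ k, k = Fintype.card Ω := ⟨_, rfl⟩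
  rw [← hkk] at hno h0
  have h1 : ∑ x : Ω, ∑ y : Ω, (univ.filter fun z : Ω => y ∉ O G z x).card =
      ∑ z : Ω, ∑ x : Ω, (univ.filter fun y : Ω => y ∉ O G z x).card := by
    have e1 : ∀ x : Ω, ∑ y : Ω, (univ.filter fun z : Ω => y ∉ O G z x).card =
        ∑ z : Ω, (univ.filter fun y : Ω => y ∉ O G z x).card := by
      intro x
      simp only [Finset.card_filter]
      exact Finset.sum_comm
    rw [Finset.sum_congr rfl fun x _ => e1 x]
    exact Finset.sum_comm
  have h2 : ∀ z x : Ω, k - d ≤ (univ.filter fun y : Ω => y ∉ O G z x).card := by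
    intro z x
    have h3 := Finset.card_filter_add_card_filter_not (s := (univ : Finset Ω)) fun y => y ∈ O G z x
    have h4 : (univ.filter fun y : Ω => y ∈ O G z x).card ≤ d := by
      have : (univ.filter fun y : Ω => y ∈ O G z x) = O G z x := by
        ext y
        simp
      rw [this]
      exact hd z x
    rw [Finset.card_univ, ← hkk] at h3
    omega
  have h3 : k * (k * (k - d)) ≤ ∑ z : Ω, ∑ x : Ω, (univ.filter fun y : Ω => y ∉ O G z x).card := by
    calc k * (k * (k - d)) = ∑ z : Ω, ∑ x : Ω, (k - d) := by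
          simp only [Finset.sum_const, Finset.card_univ, smul_eq_mul, ← hkk]
      _ ≤ _ := Finset.sum_le_sum fun z _ => Finset.sum_le_sum fun x _ => h2 z x
  have h4 : ∑ x : Ω, ∑ y : Ω, (univ.filter fun z : Ω => y ∉ O G z x).card < k * (k * (k - d)) := by
    have hne : (univ : Finset Ω).Nonempty := by
      rw [← Finset.card_pos, Finset.card_univ, ← hkk]
      exact h0
    calc ∑ x : Ω, ∑ y : Ω, (univ.filter fun z : Ω => y ∉ O G z x).card
        < ∑ x : Ω, ∑ y : Ω, (k - d) :=
          Finset.sum_lt_sum_of_nonempty hne fun x _ =>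
            Finset.sum_lt_sum_of_nonempty hne fun y _ => hno x y
      _ = _ := by simp only [Finset.sum_const, Finset.card_univ, smul_eq_mul, ← hkk]
  rw [h1] at h4
  omega

end UniBAux

open UniBAux

theorem uni_b {G : Type} [Group G] [Finite G] {Ω : Type} [Finite Ω] [MulAction G Ω] (hp : MulAction.IsPreprimitive G Ω)
    (hnt : ¬ Tw G Ω) (hk : 4 ≤ Nat.card Ω) : ∃ x y : Ω, Nat.card Ω ≤ dd G x y ^ 2 := by
  classical
  have hF : Fintype Ω := Fintype.ofFinite Ω
  rw [Nat.card_eq_fintype_card] at hk ⊢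
  obtain ⟨k, hkk⟩ : ∃ k, k = Fintype.card Ω := ⟨_, rfl⟩
  have hne : Nonempty (Ω × Ω) := by
    have : Nonempty Ω := by
      rw [← Fintype.card_pos_iff]
      omega
    exact ⟨(this.some, this.some)⟩
  obtain ⟨⟨z0, x0⟩, hmax⟩ := Finite.exists_max fun p : Ω × Ω => (O G p.1 p.2).card
  obtain ⟨d, hdd⟩ : ∃ d, d = (O G z0 x0).card := ⟨_, rfl⟩
  have hd : ∀ z x : Ω, (O G z x).card ≤ d := by
    intro z x
    rw [hdd]
    exact hmax (z, x)
  have hdk : d ≤ k := by
    rw [hdd, hkk]
    exact Finset.card_le_univ _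
  obtain ⟨x, y, hxy⟩ := exists_pair (G := G) (Ω := Ω) d hd (by omega)
  have hdis : dd G x y = (Finset.univ.filter fun z : Ω => y ∉ O G z x).card := by
    unfold dd
    rw [Nat.card_eq_fintype_card, Fintype.card_subtype]
    congr 1
    ext z
    simp only [Finset.mem_filter, Finset.mem_univ, true_and, Dis, mem_O]
  refine ⟨x, y, ?_⟩
  rw [hdis]
  refine le_trans ?_ (Nat.pow_le_pow_left hxy 2)
  rw [← hkk] at hk ⊢
  by_cases h2 : 2 * d ≤ k
  · obtain ⟨m, hm⟩ : ∃ m, k = d + m := ⟨k - d, by omega⟩
    have h3 : k - d = m := by omega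
    rw [h3]
    have h4 : k ≤ 2 * m := by omega
    have h5 : k * 4 ≤ k * k := Nat.mul_le_mul_left k hk
    have h6 : k * k ≤ (2 * m) * (2 * m) := Nat.mul_le_mul h4 h4
    nlinarith
  · rw [hkk]
    exact large hp hnt (by omega) ⟨z0, x0, hdd.symm⟩ (by omega)

end Pool.Agent.FuS
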