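import Pool.Agent.FuS.UniA
import Pool.Agent.FuS.UniB
import Pool.Agent.FuS.Sep

/-!
MP_7fa120_al, all subgroups. Primitive groups which are not doubly transitive have a small base.

Proof. `k = |Ω|`. For `x ≠ y`, with `m` from `uni_a` and `u, v` from `uni_b`: `k ≤ dd u v ^ 2 ≤ (m * dd x y) ^ 2 ≤ (9 * dd x y ^ 2) ^ 2 = 81 * dd x y ^ 4`. So `dd x y ≥ D` for every `D` with `81 * (D - 1) ^ 4 < k`.
`sep_greedy` with `W = Ω`, `S z x y = Dis G z x y`: there is `T` with `T.card ≤ (k / D + 1) * (2 * (log_2 k + 1))` such that any `x ≠ y` are distinguished by some `z ∈ T`. `T` is a base: an element fixing all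
points of `T` and moving `x` to `y ≠ x` would contradict this, and the action is faithful.
-/

set_option autoImplicit false

namespace Pool.Agent.FuS

theorem uni_base {G : Type} [Group G] [Finite G] {Ω : Type} [Finite Ω] [MulAction G Ω] (hp : MulAction.IsPreprimitive G Ω)
    (hf : ∀ g : G, (∀ x : Ω, g • x = x) → g = 1) (hnt : ¬ Tw G Ω) (hk : 4 ≤ Nat.card Ω) (D : ℕ) (hD : 1 ≤ D)
    (hDk : 81 * (D - 1) ^ 4 < Nat.card Ω) :
    ∃ T : Finset Ω, Base G T ∧ T.card ≤ (Nat.card Ω / D + 1) * (2 * (Nat.log 2 (Nat.card Ω) + 1)) := by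
  classical
  -- every pair is distinguished by at least `D` points
  have key : ∀ x y : Ω, x ≠ y → D ≤ Nat.card {z : Ω // Dis G z x y} := by
    intro x y hxy
    obtain ⟨m, -, hm, hmu⟩ := uni_a hp x y hxy
    obtain ⟨u, v, huv⟩ := uni_b hp hnt hk
    obtain ⟨d, hd⟩ : ∃ d, d = dd G x y := ⟨_, rfl⟩
    have h1 : dd G u v ≤ m * d := by rw [hd]; exact hmu u v
    have h2 : m * d ≤ 9 * d * d := Nat.mul_le_mul_right _ (by rw [hd]; exact hm)
    have h3 : dd G u v ^ 2 ≤ (9 * d * d) ^ 2 := Nat.pow_le_pow_left (h1.trans h2) 2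
    have h4 : (9 * d * d) ^ 2 = 81 * d ^ 4 := by ring
    have h5 : 81 * (D - 1) ^ 4 < 81 * d ^ 4 := by
      rw [← h4]
      exact hDk.trans_le (huv.trans h3)
    have h6 : (D - 1) ^ 4 < d ^ 4 := by omega
    have h7 : D - 1 < d := lt_of_pow_lt_pow_left' 4 h6
    show D ≤ dd G x y
    rw [← hd]
    omega
  obtain ⟨T, hT, hS⟩ := sep_greedy (fun z x y : Ω => Dis G z x y) D hD key
  refine ⟨T, fun g hg => hf g fun x => ?_, hT⟩
  by_contra hx
  obtain ⟨z, hz, hzx⟩ := hS x (g • x) (Ne.symm hx)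
  exact hzx ⟨g, hg z hz, rfl⟩

end Pool.Agent.FuS
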