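import Pool.Agent.FuS.Defs

/-!
MP_7fa120_al, all subgroups. Primitive groups: the distance in an orbital graph.

`dd` is invariant, symmetric, and satisfies the triangle inequality (for fixed `z`, `¬ Dis G z` is an equivalence relation).
`uni_a`: let `x ≠ y` and let `Γ` be the graph with edges `{g x, g y}`, `g ∈ G` (`SimpleGraph Ω`). It is invariant under `G`, and it is connected: the connected component of `x` is a block with
more than one point, `G` is primitive (`Preconnected`; all components are translates of it). So `dist` is defined and invariant, `dd u v ≤ dist u v * dd x y` for all `u, v`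
(every edge `(u, v)` has `dd u v = dd x y`). Let `m = dist u v` be maximal (`m ≥ 1`). So `dd u' v' ≤ m * dd x y` for all `u', v'`.
Let `u = w_0, …, w_m = v` be a path of edges. For every `z`: if `dist z w_i ≠ dist z w_(i+1)` then `Dis G z w_i w_(i+1)`; the distances change by at most 1 in every step, so the
number of such `i` is at least `|dist z u - dist z v|`. Sum over `z`: `m * dd x y = ∑_i dd w_i w_(i+1) ≥ ∑_z |dist z u - dist z v|`. For `z` with `dist z u ≤ m / 3` (natural number division) the difference is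
at least `m - 2 (m / 3) ≥ m / 3`, and there are at least `m / 3 + 1` such `z` (`w_0, …, w_(m/3)`). So `m * dd x y * 9 ≥ m ^ 2`, that is `m ≤ 9 * dd x y`.
-/

set_option autoImplicit false

namespace Pool.Agent.FuS

open scoped Pointwise

section

variable {G : Type} [Group G] {Ω : Type} [MulAction G Ω]

private theorem dis_symm {z u v : Ω} (h : Dis G z u v) : Dis G z v u := by
  rintro ⟨g, hg, hgv⟩
  exact h ⟨g⁻¹, by rw [inv_smul_eq_iff, hg], by rw [inv_smul_eq_iff, hgv]⟩

private theorem dd_symm (u v : Ω) : dd G u v = dd G v u :=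
  Nat.card_congr (Equiv.subtypeEquivRight fun _ => ⟨dis_symm, dis_symm⟩)

private theorem dd_smul (g : G) (u v : Ω) : dd G (g • u) (g • v) = dd G u v := by
  refine (Nat.card_congr (Equiv.subtypeEquiv (MulAction.toPerm g) ?_)).symm
  intro z
  refine not_congr ⟨?_, ?_⟩
  · rintro ⟨k, hk1, hk2⟩
    refine ⟨g * k * g⁻¹, ?_, ?_⟩
    · show (g * k * g⁻¹) • g • z = g • z
      rw [mul_smul, mul_smul, inv_smul_smul, hk1]
    · rw [mul_smul, mul_smul, inv_smul_smul, hk2]
  · rintro ⟨k, hk1, hk2⟩
    have hk1' : k • g • z = g • z := hk1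
    refine ⟨g⁻¹ * k * g, ?_, ?_⟩
    · rw [mul_smul, mul_smul, hk1', inv_smul_smul]
    · rw [mul_smul, mul_smul, hk2, inv_smul_smul]

private theorem dis_tri {z u v w : Ω} (h : Dis G z u w) : Dis G z u v ∨ Dis G z v w := by
  by_contra hcon
  rw [not_or] at hcon
  obtain ⟨h1, h2⟩ := hcon
  unfold Dis at h1 h2
  rw [not_not] at h1 h2
  obtain ⟨g, hg1, hg2⟩ := h1
  obtain ⟨k, hk1, hk2⟩ := h2
  exact h ⟨k * g, by rw [mul_smul, hg1, hk1], by rw [mul_smul, hg2, hk2]⟩

open Classical in
private theorem dd_eq [Fintype Ω] (u v : Ω) :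
    dd G u v = (Finset.univ.filter (fun z : Ω => Dis G z u v)).card := by
  unfold dd
  rw [Nat.card_eq_fintype_card, Fintype.card_subtype]

private theorem dd_tri [Finite Ω] (u v w : Ω) : dd G u w ≤ dd G u v + dd G v w := by
  classical
  have := Fintype.ofFinite Ω
  rw [dd_eq, dd_eq, dd_eq]
  refine le_trans (Finset.card_le_card ?_) (Finset.card_union_le _ _)
  intro z hz
  rw [Finset.mem_filter] at hz
  rw [Finset.mem_union, Finset.mem_filter, Finset.mem_filter]
  rcases dis_tri (v := v) hz.2 with h | h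
  · exact Or.inl ⟨Finset.mem_univ _, h⟩
  · exact Or.inr ⟨Finset.mem_univ _, h⟩

private theorem dd_self (u : Ω) : dd G u u = 0 := by
  unfold dd
  have : IsEmpty {z : Ω // Dis G z u u} := ⟨fun z => z.2 ⟨1, one_smul _ _, one_smul _ _⟩⟩
  exact Nat.card_of_isEmpty

variable (G) in
/-- The orbital graph. -/
private def gr (x y : Ω) : SimpleGraph Ω where
  Adj a b := a ≠ b ∧ ∃ g : G, (g • x = a ∧ g • y = b) ∨ (g • x = b ∧ g • y = a)
  symm := ⟨by
    rintro a b ⟨hab, g, h⟩
    exact ⟨hab.symm, g, h.symm⟩⟩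
  loopless := ⟨fun a h => h.1 rfl⟩

private theorem gr_smul {x y a b : Ω} (h : G) (hab : (gr G x y).Adj a b) :
    (gr G x y).Adj (h • a) (h • b) := by
  obtain ⟨hne, g, hg⟩ := hab
  refine ⟨fun e => hne (MulAction.injective h e), h * g, ?_⟩
  rcases hg with ⟨rfl, rfl⟩ | ⟨rfl, rfl⟩
  · exact Or.inl ⟨mul_smul _ _ _, mul_smul _ _ _⟩
  · exact Or.inr ⟨mul_smul _ _ _, mul_smul _ _ _⟩

private theorem gr_dd {x y a b : Ω} (hab : (gr G x y).Adj a b) : dd G a b = dd G x y := by
  obtain ⟨-, g, hg⟩ := hab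
  rcases hg with ⟨rfl, rfl⟩ | ⟨rfl, rfl⟩
  · exact dd_smul g x y
  · rw [dd_symm]
    exact dd_smul g x y

private def grHom (x y : Ω) (h : G) : gr G x y →g gr G x y where
  toFun a := h • a
  map_rel' := gr_smul h

private theorem reach_smul {x y a b : Ω} (h : G) (hab : (gr G x y).Reachable a b) :
    (gr G x y).Reachable (h • a) (h • b) := by
  obtain ⟨p⟩ := hab
  exact ⟨p.map (grHom x y h)⟩

private theorem gr_conn (hp : MulAction.IsPreprimitive G Ω) {x y : Ω} (hxy : x ≠ y) (a b : Ω) :
    (gr G x y).Reachable a b := by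
  have hB : MulAction.IsBlock G {z | (gr G x y).Reachable x z} := by
    rw [MulAction.isBlock_iff_smul_eq_smul_of_nonempty]
    rintro g₁ g₂ ⟨z, hz1, hz2⟩
    obtain ⟨z1, h1, rfl⟩ := hz1
    obtain ⟨z2, h2, he⟩ := hz2
    have h1' : (gr G x y).Reachable x z1 := h1
    have h2' : (gr G x y).Reachable x z2 := h2
    have he' : g₂ • z2 = g₁ • z1 := he
    have h3 : (gr G x y).Reachable (g₁ • x) (g₂ • x) := by
      have e1 := reach_smul g₁ h1'
      have e2 := reach_smul g₂ h2'
      rw [he'] at e2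
      exact e1.trans e2.symm
    have key : ∀ g g' : G, (gr G x y).Reachable (g • x) (g' • x) →
        g • {z | (gr G x y).Reachable x z} ⊆ g' • {z | (gr G x y).Reachable x z} := by
      rintro g g' hg w ⟨w', hw', rfl⟩
      have hw'' : (gr G x y).Reachable x w' := hw'
      refine ⟨g'⁻¹ • g • w', ?_, smul_inv_smul g' _⟩
      show (gr G x y).Reachable x (g'⁻¹ • g • w')
      have e1 := reach_smul g'⁻¹ (hg.symm.trans (reach_smul g hw''))
      rwa [inv_smul_smul] at e1
    exact Set.Subset.antisymm (key g₁ g₂ h3) (key g₂ g₁ h3.symm)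
  have hxyR : (gr G x y).Reachable x y :=
    SimpleGraph.Adj.reachable ⟨hxy, 1, Or.inl ⟨one_smul _ _, one_smul _ _⟩⟩
  rcases hp.isTrivialBlock_of_isBlock hB with h | h
  · exact absurd (h (SimpleGraph.Reachable.refl x) hxyR) hxy
  · have ha : a ∈ {z | (gr G x y).Reachable x z} := by rw [h]; exact Set.mem_univ a
    have hb : b ∈ {z | (gr G x y).Reachable x z} := by rw [h]; exact Set.mem_univ b
    have ha' : (gr G x y).Reachable x a := ha
    have hb' : (gr G x y).Reachable x b := hb
    exact ha'.symm.trans hb'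

private theorem dist_smul_le (hp : MulAction.IsPreprimitive G Ω) {x y : Ω} (hxy : x ≠ y) (h : G) (a b : Ω) :
    (gr G x y).dist (h • a) (h • b) ≤ (gr G x y).dist a b := by
  obtain ⟨p, hpl⟩ := (gr_conn hp hxy a b).exists_walk_length_eq_dist
  rw [← hpl, ← SimpleGraph.Walk.length_map (grHom x y h) p]
  exact SimpleGraph.dist_le _

private theorem dist_smul (hp : MulAction.IsPreprimitive G Ω) {x y : Ω} (hxy : x ≠ y) (h : G) (a b : Ω) :
    (gr G x y).dist (h • a) (h • b) = (gr G x y).dist a b := by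
  refine le_antisymm (dist_smul_le hp hxy h a b) ?_
  have := dist_smul_le hp hxy h⁻¹ (h • a) (h • b)
  rwa [inv_smul_smul, inv_smul_smul] at this

private theorem walk_dd [Finite Ω] {x y : Ω} : ∀ {u v : Ω} (p : (gr G x y).Walk u v),
    dd G u v ≤ p.length * dd G x y := by
  intro u v p
  induction p with
  | nil => rw [dd_self]; exact Nat.zero_le _
  | @cons a b c h q ih =>
    refine (dd_tri a b c).trans ?_
    rw [gr_dd h, SimpleGraph.Walk.length_cons, Nat.succ_mul, add_comm]
    exact Nat.add_le_add_right ih _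

/-- One step. -/
private theorem step_sum [Fintype Ω] (hp : MulAction.IsPreprimitive G Ω) {x y : Ω} (hxy : x ≠ y) {u v : Ω}
    (h : (gr G x y).Adj u v) :
    ∑ z : Ω, |((gr G x y).dist z u : ℤ) - (gr G x y).dist z v| ≤ dd G x y := by
  classical
  rw [← gr_dd h, dd_eq, Finset.card_filter]
  push_cast
  refine Finset.sum_le_sum fun z _ => ?_
  by_cases hd : Dis G z u v
  · rw [if_pos hd]
    have h1 := SimpleGraph.Adj.diff_dist_adj (G := gr G x y) (u := z) h
    rw [abs_le]
    constructor <;> omega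
  · rw [if_neg hd]
    unfold Dis at hd
    rw [not_not] at hd
    obtain ⟨g, hg1, hg2⟩ := hd
    have h2 := dist_smul hp hxy g z u
    rw [hg1, hg2] at h2
    rw [h2]
    simp

private theorem walk_sum [Fintype Ω] (hp : MulAction.IsPreprimitive G Ω) {x y : Ω} (hxy : x ≠ y) :
    ∀ {u v : Ω} (p : (gr G x y).Walk u v),
    ∑ z : Ω, |((gr G x y).dist z u : ℤ) - (gr G x y).dist z v| ≤ p.length * dd G x y := by
  intro u v p
  induction p with
  | nil => simp
  | @cons a b c h q ih =>
    have h1 := step_sum hp hxy h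
    rw [SimpleGraph.Walk.length_cons]
    push_cast
    have h2 : ∑ z : Ω, |((gr G x y).dist z a : ℤ) - (gr G x y).dist z c| ≤
        ∑ z : Ω, |((gr G x y).dist z a : ℤ) - (gr G x y).dist z b| +
        ∑ z : Ω, |((gr G x y).dist z b : ℤ) - (gr G x y).dist z c| := by
      rw [← Finset.sum_add_distrib]
      exact Finset.sum_le_sum fun z _ => abs_sub_le _ _ _
    calc _ ≤ _ := h2
      _ ≤ (dd G x y : ℤ) + q.length * dd G x y := add_le_add h1 ih
      _ = (q.length + 1) * dd G x y := by ring

end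

theorem uni_a {G : Type} [Group G] [Finite G] {Ω : Type} [Finite Ω] [MulAction G Ω] (hp : MulAction.IsPreprimitive G Ω)
    (x y : Ω) (hxy : x ≠ y) :
    ∃ m : ℕ, 1 ≤ m ∧ m ≤ 9 * dd G x y ∧ ∀ u v : Ω, dd G u v ≤ m * dd G x y := by
  classical
  have := Fintype.ofFinite Ω
  -- the diameter
  obtain ⟨⟨u, v⟩, -, hmax⟩ := Finset.exists_max_image (Finset.univ : Finset (Ω × Ω))
    (fun q => (gr G x y).dist q.1 q.2) ⟨(x, y), Finset.mem_univ _⟩
  obtain ⟨p, hpl⟩ := (gr_conn hp hxy u v).exists_walk_length_eq_dist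
  obtain ⟨m, hm⟩ : ∃ m, m = (gr G x y).dist u v := ⟨_, rfl⟩
  rw [← hm] at hpl
  have hmax' : ∀ a b : Ω, (gr G x y).dist a b ≤ m := by
    intro a b
    rw [hm]
    exact hmax (a, b) (Finset.mem_univ _)
  have hm1 : 1 ≤ m := by
    have h1 : (gr G x y).dist x y = 1 :=
      SimpleGraph.dist_eq_one_iff_adj.2 ⟨hxy, 1, Or.inl ⟨one_smul _ _, one_smul _ _⟩⟩
    rw [← h1]
    exact hmax' x y
  refine ⟨m, hm1, ?_, ?_⟩
  · have hsum := walk_sum hp hxy p
    rw [hpl] at hsum
    have htri : ∀ a b c : Ω, (gr G x y).dist a c ≤ (gr G x y).dist a b + (gr G x y).dist b c := by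
      intro a b c
      exact (gr_conn hp hxy a b).dist_triangle_left c
    -- the first vertices of the walk
    have hvert : ∀ i, i ≤ m → (gr G x y).dist u (p.getVert i) = i := by
      intro i hi
      have h1 : (gr G x y).dist u (p.getVert i) ≤ i := by
        refine (SimpleGraph.dist_le (p.take i)).trans ?_
        rw [SimpleGraph.Walk.take_length]
        exact min_le_left _ _
      have h2 : (gr G x y).dist (p.getVert i) v ≤ m - i := by
        refine (SimpleGraph.dist_le (p.drop i)).trans ?_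
        rw [SimpleGraph.Walk.drop_length, hpl]
      have h3 := htri u (p.getVert i) v
      rw [← hm] at h3
      omega
    have hcard : m / 3 + 1 ≤ (Finset.univ.filter (fun z : Ω => (gr G x y).dist z u ≤ m / 3)).card := by
      have h1 : ((Finset.range (m / 3 + 1)).image p.getVert).card = m / 3 + 1 := by
        rw [Finset.card_image_of_injOn, Finset.card_range]
        intro i hi j hj hij
        have hi' : i < m / 3 + 1 := Finset.mem_range.1 hi
        have hj' : j < m / 3 + 1 := Finset.mem_range.1 hj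
        have e1 := hvert i (by omega)
        have e2 := hvert j (by omega)
        have hij' : p.getVert i = p.getVert j := hij
        rw [hij'] at e1
        omega
      rw [← h1]
      refine Finset.card_le_card fun z hz => ?_
      obtain ⟨i, hi, rfl⟩ := Finset.mem_image.1 hz
      have hi' : i < m / 3 + 1 := Finset.mem_range.1 hi
      rw [Finset.mem_filter]
      refine ⟨Finset.mem_univ _, ?_⟩
      rw [SimpleGraph.dist_comm, hvert i (by omega)]
      omega
    have hlow : ((m / 3 + 1 : ℕ) : ℤ) * ((m : ℤ) - 2 * (m / 3 : ℕ)) ≤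
        ∑ z : Ω, |((gr G x y).dist z u : ℤ) - (gr G x y).dist z v| := by
      have hnn : (0 : ℤ) ≤ (m : ℤ) - 2 * (m / 3 : ℕ) := by omega
      calc ((m / 3 + 1 : ℕ) : ℤ) * ((m : ℤ) - 2 * (m / 3 : ℕ))
          ≤ ((Finset.univ.filter (fun z : Ω => (gr G x y).dist z u ≤ m / 3)).card : ℤ) *
            ((m : ℤ) - 2 * (m / 3 : ℕ)) :=
            mul_le_mul_of_nonneg_right (by exact_mod_cast hcard) hnn
        _ = ∑ _z ∈ Finset.univ.filter (fun z : Ω => (gr G x y).dist z u ≤ m / 3),
            ((m : ℤ) - 2 * (m / 3 : ℕ)) := by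
            rw [Finset.sum_const, nsmul_eq_mul]
        _ ≤ ∑ z ∈ Finset.univ.filter (fun z : Ω => (gr G x y).dist z u ≤ m / 3),
            |((gr G x y).dist z u : ℤ) - (gr G x y).dist z v| := by
            refine Finset.sum_le_sum fun z hz => ?_
            have hz' := (Finset.mem_filter.1 hz).2
            have h3 := htri u z v
            rw [← hm, SimpleGraph.dist_comm (u := u) (v := z)] at h3
            have h4 := neg_abs_le (((gr G x y).dist z u : ℤ) - (gr G x y).dist z v)
            omega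
        _ ≤ _ := Finset.sum_le_sum_of_subset_of_nonneg (Finset.filter_subset _ _)
            fun z _ _ => abs_nonneg _
    have h5 : ((m / 3 + 1 : ℕ) : ℤ) * ((m : ℤ) - 2 * (m / 3 : ℕ)) ≤ (m : ℤ) * dd G x y :=
      hlow.trans hsum
    obtain ⟨q, hq⟩ : ∃ q, q = m / 3 := ⟨_, rfl⟩
    rw [← hq] at h5
    obtain ⟨e, he⟩ : ∃ e, e = dd G x y := ⟨_, rfl⟩
    rw [← he] at h5 ⊢
    have hmq : m = 3 * q ∨ m = 3 * q + 1 ∨ m = 3 * q + 2 := by omega
    by_contra hcon
    push Not at hcon
    have hcon' : (9 : ℤ) * e + 1 ≤ m := by exact_mod_cast hcon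
    have hm1' : (1 : ℤ) ≤ m := by exact_mod_cast hm1
    have h6 : (9 : ℤ) * (((q + 1 : ℕ) : ℤ) * ((m : ℤ) - 2 * (q : ℕ))) ≤ m * (m - 1) := by
      calc (9 : ℤ) * (((q + 1 : ℕ) : ℤ) * ((m : ℤ) - 2 * (q : ℕ))) ≤ 9 * ((m : ℤ) * e) := by
            exact mul_le_mul_of_nonneg_left h5 (by norm_num)
        _ = m * (9 * e) := by ring
        _ ≤ m * (m - 1) := mul_le_mul_of_nonneg_left (by linarith) (by linarith)
    push_cast at h6
    have hq0 : (0 : ℤ) ≤ q := by positivity
    rcases hmq with h | h | h <;> rw [h] at h6 <;> push_cast at h6 <;> nlinarith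
  · intro a b
    obtain ⟨w, hw⟩ := (gr_conn hp hxy a b).exists_walk_length_eq_dist
    refine (walk_dd w).trans ?_
    rw [hw]
    exact Nat.mul_le_mul_right _ (hmax' a b)

end Pool.Agent.FuS
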